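import Pool.Agent.N940.MN.Stm3

/-!
# Assembly of the abstract central limit theorem
-/

set_option autoImplicit false

open Filter Topology Finset

namespace Pool.Agent.N940.MN.Aclt

/-- the probability that a word is a pair of bridges -/
noncomputable def bb (n : ℕ) : ℝ := Ew (2 * n) fun w => if bal w then (1 : ℝ) else 0

section gen

variable {E : Type} [AddCommGroup E] [Module ℝ E]

lemma EB_congr {n : ℕ} {F G : W → E} (h : ∀ w : W, w.length = 2 * n → bal w → F w = G w) :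
    EB n F = EB n G := by
  unfold EB
  congr 1
  refine Ew_congr fun w hw => ?_
  split_ifs with hb
  · exact h w hw hb
  · rfl

lemma EB_add (n : ℕ) (F G : W → E) : EB n (fun w => F w + G w) = EB n F + EB n G := by
  unfold EB
  rw [← smul_add, ← Ew_add]
  congr 1
  refine Ew_congr fun w _ => ?_
  split_ifs <;> simp

lemma EB_sub (n : ℕ) (F G : W → E) : EB n (fun w => F w - G w) = EB n F - EB n G := by
  unfold EB
  rw [← smul_sub, ← Ew_sub]
  congr 1
  refine Ew_congr fun w _ => ?_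
  split_ifs <;> simp

lemma EB_smul (n : ℕ) (c : ℝ) (F : W → E) : EB n (fun w => c • F w) = c • EB n F := by
  unfold EB
  have h : (Ew (2 * n) fun w => if bal w then c • F w else 0) =
      c • Ew (2 * n) (fun w => if bal w then F w else 0) := by
    rw [← Ew_smul]
    refine Ew_congr fun w _ => ?_
    split_ifs <;> simp
  rw [h, smul_comm]

lemma Ew_smul_const (r : ℕ) (F : W → ℝ) (c : E) : Ew r (fun w => F w • c) = Ew r F • c := by
  unfold Ew
  rw [smul_eq_mul, mul_smul, Finset.sum_smul]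

lemma EB_const {n : ℕ} (hn : bb n ≠ 0) (c : E) : EB n (fun _ => c) = c := by
  unfold EB
  have h : (Ew (2 * n) fun w => if bal w then c else 0) = bb n • c := by
    unfold bb
    rw [← Ew_smul_const]
    refine Ew_congr fun w _ => ?_
    split_ifs <;> simp
  rw [h]
  change (bb n)⁻¹ • bb n • c = c
  rw [smul_smul, inv_mul_cancel₀ hn, one_smul]

end gen

lemma bb_nonneg (n : ℕ) : 0 ≤ bb n := by
  unfold bb
  refine Ew_nonneg fun w _ => ?_
  split_ifs <;> norm_num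

lemma EB_mono {n : ℕ} {F G : W → ℝ} (h : ∀ w : W, w.length = 2 * n → bal w → F w ≤ G w) :
    EB n F ≤ EB n G := by
  unfold EB
  rw [smul_eq_mul, smul_eq_mul]
  refine mul_le_mul_of_nonneg_left (Ew_mono fun w hw => ?_) (inv_nonneg.2 (bb_nonneg n))
  split_ifs with hb
  · exact h w hw hb
  · exact le_rfl

lemma EB_nonneg {n : ℕ} {F : W → ℝ} (h : ∀ w : W, w.length = 2 * n → bal w → 0 ≤ F w) :
    0 ≤ EB n F := by
  unfold EB
  rw [smul_eq_mul]
  refine mul_nonneg (inv_nonneg.2 (bb_nonneg n)) (Ew_nonneg fun w hw => ?_)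
  split_ifs with hb
  · exact h w hw hb
  · exact le_rfl

lemma EB_mul_left (n : ℕ) (c : ℝ) (F : W → ℝ) : EB n (fun w => c * F w) = c * EB n F :=
  EB_smul n c F

lemma norm_EB_le {E : Type} [NormedAddCommGroup E] [NormedSpace ℝ E] (n : ℕ) (F : W → E) :
    ‖EB n F‖ ≤ EB n fun w => ‖F w‖ := by
  unfold EB
  have hb : ‖(Ew (2 * n) fun w => if bal w then (1 : ℝ) else 0)⁻¹‖ =
      (Ew (2 * n) fun w => if bal w then (1 : ℝ) else 0)⁻¹ :=
    Real.norm_of_nonneg (inv_nonneg.2 (bb_nonneg n))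
  rw [norm_smul, hb, smul_eq_mul]
  refine mul_le_mul_of_nonneg_left ((norm_Ew_le _ _).trans (le_of_eq ?_))
    (inv_nonneg.2 (bb_nonneg n))
  refine Ew_congr fun w _ => ?_
  split_ifs <;> simp

lemma abs_EB_le (n : ℕ) (F : W → ℝ) : |EB n F| ≤ EB n fun w => |F w| := norm_EB_le n F

lemma EB_ofReal (n : ℕ) (F : W → ℝ) : EB n (fun w => ((F w : ℝ) : ℂ)) = ((EB n F : ℝ) : ℂ) := by
  unfold EB
  rw [smul_eq_mul, Complex.real_smul]
  have h : (Ew (2 * n) fun w => if bal w then ((F w : ℝ) : ℂ) else 0) =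
      ((Ew (2 * n) (fun w => if bal w then F w else 0) : ℝ) : ℂ) := by
    rw [← Ew_ofReal]
    refine Ew_congr fun w _ => ?_
    split_ifs <;> simp
  rw [h]
  push_cast
  rfl

lemma EB_cmul_left (n : ℕ) (c : ℂ) (F : W → ℂ) : EB n (fun w => c * F w) = c * EB n F := by
  unfold EB
  have h : (Ew (2 * n) fun w => if bal w then c * F w else 0) =
      c * Ew (2 * n) (fun w => if bal w then F w else 0) := by
    rw [← Ew_cmul_left]
    refine Ew_congr fun w _ => ?_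
    split_ifs <;> simp
  rw [h, mul_smul_comm]

/-- Cauchy-Schwarz -/
lemma EB_abs_le {n : ℕ} (hn : 0 < bb n) (F : W → ℝ) :
    EB n (fun w => |F w|) ≤ Real.sqrt (EB n fun w => F w ^ 2) := by
  refine Real.le_sqrt_of_sq_le ?_
  set m := EB n (fun w => |F w|) with hm
  have h : 0 ≤ EB n (fun w => (|F w| - m) ^ 2) := EB_nonneg fun w _ _ => sq_nonneg _
  have h2 : EB n (fun w => (|F w| - m) ^ 2) = EB n (fun w => F w ^ 2) - m ^ 2 := by
    have h3 : EB n (fun w => (|F w| - m) ^ 2) =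
        EB n (fun w => F w ^ 2) - (2 * m) * EB n (fun w => |F w|) + EB n (fun _ => m ^ 2) := by
      rw [← EB_mul_left, ← EB_sub, ← EB_add]
      refine EB_congr fun w _ _ => ?_
      rw [sub_sq, sq_abs]
      ring
    rw [h3, EB_const hn.ne', ← hm]
    ring
  linarith

lemma norm_exp_sub_le (x y : ℝ) :
    ‖Complex.exp (Complex.I * (x : ℂ)) - Complex.exp (Complex.I * (y : ℂ))‖ ≤ |x - y| := by
  have h : Complex.exp (Complex.I * (x : ℂ)) - Complex.exp (Complex.I * (y : ℂ)) =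
      Complex.exp (Complex.I * (y : ℂ)) *
        (Complex.exp (Complex.I * ((x - y : ℝ) : ℂ)) - 1) := by
    rw [mul_sub, ← Complex.exp_add, mul_one]
    congr 2
    push_cast
    ring
  rw [h, norm_mul]
  have h1 : ‖Complex.exp (Complex.I * (y : ℂ))‖ = 1 := by
    rw [mul_comm, Complex.norm_exp_ofReal_mul_I]
  rw [h1, one_mul]
  exact Real.norm_exp_I_mul_ofReal_sub_one_le

lemma norm_exp_sub_le_two (x y : ℝ) :
    ‖Complex.exp (Complex.I * (x : ℂ)) - Complex.exp (Complex.I * (y : ℂ))‖ ≤ 2 := by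
  have h1 : ∀ y : ℝ, ‖Complex.exp (Complex.I * (y : ℂ))‖ = 1 := by
    intro y
    rw [mul_comm, Complex.norm_exp_ofReal_mul_I]
  refine (norm_sub_le _ _).trans (le_of_eq ?_)
  rw [h1, h1]
  norm_num

/-- Taylor's formula of order three -/
lemma norm_exp_taylor (x : ℝ) :
    ‖Complex.exp (Complex.I * (x : ℂ)) - (1 + Complex.I * (x : ℂ) - (x : ℂ) ^ 2 / 2)‖ ≤
      4 * |x| ^ 3 := by
  rcases le_or_gt |x| 1 with h | h
  · have hx : ‖Complex.I * (x : ℂ)‖ = |x| := by simp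
    have h1 := Complex.exp_bound (x := Complex.I * (x : ℂ)) (by rw [hx]; exact h)
      (n := 3) (by norm_num)
    have h2 : ∑ m ∈ range 3, (Complex.I * (x : ℂ)) ^ m / (m.factorial : ℂ) =
        1 + Complex.I * (x : ℂ) - (x : ℂ) ^ 2 / 2 := by
      have h3 : (Complex.I * (x : ℂ)) ^ 2 = -((x : ℂ) ^ 2) := by
        rw [mul_pow, Complex.I_sq]
        ring
      simp only [sum_range_succ, sum_range_zero, Nat.factorial]
      push_cast
      rw [h3]
      ring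
    rw [h2, hx] at h1
    refine h1.trans ?_
    have h3 : 0 ≤ |x| ^ 3 := by positivity
    have h4 : ((Nat.succ 3 : ℕ) : ℝ) * (((Nat.factorial 3 : ℕ) : ℝ) * ((3 : ℕ) : ℝ))⁻¹ ≤ 4 := by
      simp only [Nat.factorial]
      norm_num
    calc |x| ^ 3 * (((Nat.succ 3 : ℕ) : ℝ) * (((Nat.factorial 3 : ℕ) : ℝ) * ((3 : ℕ) : ℝ))⁻¹)
        ≤ |x| ^ 3 * 4 := mul_le_mul_of_nonneg_left h4 h3
      _ = 4 * |x| ^ 3 := by ring
  · have h1 : ‖Complex.exp (Complex.I * (x : ℂ))‖ = 1 := by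
      rw [mul_comm, Complex.norm_exp_ofReal_mul_I]
    have h2 : ‖(1 + Complex.I * (x : ℂ) - (x : ℂ) ^ 2 / 2)‖ ≤ 1 + |x| + |x| ^ 2 / 2 := by
      refine (norm_sub_le _ _).trans (add_le_add ((norm_add_le _ _).trans ?_) ?_)
      · simp
      · simp
    have h3 : |x| ≤ |x| ^ 3 := le_self_pow₀ h.le (by norm_num)
    have h4 : |x| ^ 2 ≤ |x| ^ 3 := pow_le_pow_right₀ h.le (by norm_num)
    have h5 : 1 ≤ |x| ^ 3 := one_le_pow₀ h.le
    refine (norm_sub_le _ _).trans ?_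
    rw [h1]
    linarith

/-! ### blocks -/

lemma blk_append_left {r m i : ℕ} {u v : W} (hu : u.length = m * r) (hi : i < m) :
    blk r i (u ++ v) = blk r i u := by
  have h1 : (i + 1) * r ≤ m * r := Nat.mul_le_mul_right r hi
  have h2 : i * r + r ≤ u.length := by rw [hu]; linarith [h1]
  unfold blk
  rw [List.drop_append_of_le_length (by omega),
    List.take_append_of_le_length (by rw [List.length_drop]; omega)]

lemma blk_append_right {r m : ℕ} {u v : W} (hu : u.length = m * r) (hv : v.length = r) :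
    blk r m (u ++ v) = v := by
  unfold blk
  rw [← hu, List.drop_left, List.take_of_length_le hv.le]

lemma blk_sub {r m a i : ℕ} {w : W} (hi : i < m) :
    blk r i ((w.drop (a * r)).take (m * r)) = blk r (a + i) w := by
  have h1 : (i + 1) * r ≤ m * r := Nat.mul_le_mul_right r hi
  have h2 : i * r + r ≤ m * r := by linarith [h1]
  unfold blk
  rw [List.drop_take, List.take_take, List.drop_drop, min_eq_left (by omega), add_mul]

/-- the variance of a sum over independent blocks -/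
lemma Ew_blocks (G : W → ℝ) (r m : ℕ) (hG : Ew r G = 0) :
    Ew (m * r) (fun u => (∑ i ∈ range m, G (blk r i u)) ^ 2) = m * Ew r fun w => G w ^ 2 := by
  induction m with
  | zero =>
    have h : Ew (0 * r) (fun u => (∑ i ∈ range 0, G (blk r i u)) ^ 2) =
        Ew (0 * r) (fun _ => (0 : ℝ)) := Ew_congr fun w _ => by simp
    rw [h, Ew_const]
    simp
  | succ m ih =>
    rw [Nat.succ_mul, Ew_append]
    have h1 : Ew (m * r) (fun u => Ew r fun v =>
        (∑ i ∈ range (m + 1), G (blk r i (u ++ v))) ^ 2) =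
        Ew (m * r) (fun u => (∑ i ∈ range m, G (blk r i u)) ^ 2 + Ew r fun w => G w ^ 2) := by
      refine Ew_congr fun u hu => ?_
      set S := ∑ i ∈ range m, G (blk r i u) with hS
      have h2 : Ew r (fun v => (∑ i ∈ range (m + 1), G (blk r i (u ++ v))) ^ 2) =
          Ew r (fun _ => S ^ 2) + (2 * S) * Ew r G + Ew r fun w => G w ^ 2 := by
        rw [← Ew_mul_left, ← Ew_add, ← Ew_add]
        refine Ew_congr fun v hv => ?_
        rw [sum_range_succ, blk_append_right hu hv]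
        have h3 : ∑ i ∈ range m, G (blk r i (u ++ v)) = S := by
          rw [hS]
          refine sum_congr rfl fun i hi => ?_
          rw [blk_append_left hu (mem_range.1 hi)]
        rw [h3]
        ring
      rw [h2, hG, Ew_const]
      ring
    rw [h1, Ew_add, ih, Ew_const]
    push_cast
    ring

/-! ### the main part and the rest -/

/-- the characteristic function of the main part -/
lemma cf_part (hD : S_DENS) (hC : S_CF) (κ η : ℝ) (hκ : 0 < κ) (hη : 0 < η) :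
    ∃ C' : ℝ, 0 ≤ C' ∧ ∀ (F : W → ℝ) (r K l n : ℕ), (∀ w, F (mir w) = F w) → 0 < r → 0 < K →
      0 < n → 2 * n = K * r + l → η * n ≤ l →
      Ew r (fun w => (F w - Ew r F) ^ 4) ≤ κ * (Vw r F) ^ 2 → ∀ s : ℝ,
      ‖EB n (fun w => Complex.exp (Complex.I *
          ((s * ∑ i ∈ range K, (F (blk r i w) - Ew r F) : ℝ) : ℂ))) -
        Complex.exp ((-(s ^ 2 * (K * Vw r F)) / 2 : ℝ) : ℂ)‖ ≤
        C' * (1 + |s| * Real.sqrt (K * Vw r F)) ^ 3 / Real.sqrt K := by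
  obtain ⟨⟨c, hc, hb⟩, -⟩ := hD
  obtain ⟨C, hCC⟩ := hC κ η hκ hη
  refine ⟨|C| / c, by positivity, fun F r K l n hF hr hK hn hl hηl h4 s => ?_⟩
  have h := hCC F r K l n hF hr hK hn hl hηl h4 s
  have hbn : c / n ≤ bb n := hb n hn
  have hn' : (0 : ℝ) < n := Nat.cast_pos.2 hn
  have hK' : (0 : ℝ) < Real.sqrt K := Real.sqrt_pos.2 (Nat.cast_pos.2 hK)
  have hbpos : 0 < bb n := lt_of_lt_of_le (by positivity) hbn
  set A := Ew (2 * n) (fun w => if bal w then Complex.exp (Complex.I *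
      ((s * ∑ i ∈ range K, (F (blk r i w) - Ew r F) : ℝ) : ℂ)) else 0) with hA
  set B := Complex.exp ((-(s ^ 2 * (K * Vw r F)) / 2 : ℝ) : ℂ) with hB
  have h1 : EB n (fun w => Complex.exp (Complex.I *
      ((s * ∑ i ∈ range K, (F (blk r i w) - Ew r F) : ℝ) : ℂ))) - B =
      (bb n)⁻¹ • (A - B * ((bb n : ℝ) : ℂ)) := by
    rw [smul_sub]
    have h2 : (bb n)⁻¹ • (B * ((bb n : ℝ) : ℂ)) = B := by
      rw [Complex.real_smul, Complex.ofReal_inv]
      have h3 : ((bb n : ℝ) : ℂ) ≠ 0 := Complex.ofReal_ne_zero.2 hbpos.ne'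
      field_simp
    rw [h2]
    rfl
  rw [h1, norm_smul, Real.norm_of_nonneg (inv_nonneg.2 hbpos.le)]
  have h5 : (bb n)⁻¹ ≤ n / c := by
    rw [inv_le_comm₀ hbpos (by positivity), inv_div]
    exact hbn
  have h6 : C * (1 + |s| * Real.sqrt (K * Vw r F)) ^ 3 / (Real.sqrt K * n) ≤
      |C| * (1 + |s| * Real.sqrt (K * Vw r F)) ^ 3 / (Real.sqrt K * n) := by
    have h7 : 0 ≤ (1 + |s| * Real.sqrt (K * Vw r F)) ^ 3 := by positivity
    exact div_le_div_of_nonneg_right (mul_le_mul_of_nonneg_right (le_abs_self C) h7)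
      (by positivity)
  calc (bb n)⁻¹ * ‖A - B * ((bb n : ℝ) : ℂ)‖
      ≤ (n / c) * (|C| * (1 + |s| * Real.sqrt (K * Vw r F)) ^ 3 / (Real.sqrt K * n)) :=
        mul_le_mul h5 (h.trans h6) (norm_nonneg _) (by positivity)
    _ = |C| / c * (1 + |s| * Real.sqrt (K * Vw r F)) ^ 3 / Real.sqrt K := by
        field_simp

/-- the second moment of the rest -/
lemma rest_part (hD : S_DENS) : ∃ CD : ℝ, 0 ≤ CD ∧ ∀ (F : W → ℝ) (r a m n : ℕ), 0 < n →
    (a + m) * r ≤ 2 * n → n + m * r ≤ 2 * n →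
    EB n (fun w => (∑ i ∈ range m, (F (blk r (a + i) w) - Ew r F)) ^ 2) ≤
      CD * (m * Vw r F) := by
  obtain ⟨⟨c, hc, hb⟩, h2⟩ := hD
  obtain ⟨CD, hCD⟩ := h2 1 one_pos
  refine ⟨|CD|, abs_nonneg _, fun F r a m n hn ha hm => ?_⟩
  have hbn : c / n ≤ bb n := hb n hn
  have hn' : (0 : ℝ) < n := Nat.cast_pos.2 hn
  have hbpos : 0 < bb n := lt_of_lt_of_le (by positivity) hbn
  have hmean : Ew r (fun w => F w - Ew r F) = 0 := by
    rw [Ew_sub, Ew_const, sub_self]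
  have hV := Ew_blocks (fun w => F w - Ew r F) r m hmean
  have ha' : a * r + m * r ≤ 2 * n := by rw [← add_mul]; exact ha
  obtain ⟨b, hb'⟩ := Nat.exists_eq_add_of_le ha'
  have h3 := hCD n (a * r) (m * r) b hn hb'.symm (by
    rw [one_mul]
    exact_mod_cast (by omega : n ≤ a * r + b))
    (fun u => (∑ i ∈ range m, (F (blk r i u) - Ew r F)) ^ 2) (fun u => sq_nonneg _)
  have h4 : (Ew (2 * n) fun w => if bal w then
      (∑ i ∈ range m, (F (blk r i ((w.drop (a * r)).take (m * r))) - Ew r F)) ^ 2 else 0) =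
      Ew (2 * n) fun w => if bal w then
        (∑ i ∈ range m, (F (blk r (a + i) w) - Ew r F)) ^ 2 else 0 := by
    refine Ew_congr fun w _ => ?_
    split_ifs
    · congr 1
      refine sum_congr rfl fun i hi => ?_
      rw [blk_sub (mem_range.1 hi)]
    · rfl
  have h5 : 0 ≤ (m : ℝ) * Vw r F := by
    refine mul_nonneg (Nat.cast_nonneg _) ?_
    unfold Vw
    exact Ew_nonneg fun w _ => sq_nonneg _
  have hV' : Ew (m * r) (fun u => (∑ i ∈ range m, (F (blk r i u) - Ew r F)) ^ 2) =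
      m * Vw r F := hV
  have h6 : EB n (fun w => (∑ i ∈ range m, (F (blk r (a + i) w) - Ew r F)) ^ 2) =
      (bb n)⁻¹ * Ew (2 * n) fun w => if bal w then
        (∑ i ∈ range m, (F (blk r (a + i) w) - Ew r F)) ^ 2 else 0 := rfl
  rw [h6, ← h4]
  rw [hV'] at h3
  have h7 : (Ew (2 * n) fun w => if bal w then
      (∑ i ∈ range m, (F (blk r i ((w.drop (a * r)).take (m * r))) - Ew r F)) ^ 2 else 0) ≤
      CD * bb n * (m * Vw r F) := h3
  calc (bb n)⁻¹ * Ew (2 * n) (fun w => if bal w then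
      (∑ i ∈ range m, (F (blk r i ((w.drop (a * r)).take (m * r))) - Ew r F)) ^ 2 else 0)
      ≤ (bb n)⁻¹ * (CD * bb n * (m * Vw r F)) :=
        mul_le_mul_of_nonneg_left h7 (inv_nonneg.2 hbpos.le)
    _ = CD * (m * Vw r F) := by field_simp
    _ ≤ |CD| * (m * Vw r F) := mul_le_mul_of_nonneg_right (le_abs_self _) h5

lemma pointwise (s fo e2 sg ke S1 S2 δ : ℝ) (hδ : 0 ≤ δ) (h : sg - ke = S1 + S2) :
    ‖Complex.exp (Complex.I * ((s * (fo - e2) : ℝ) : ℂ)) -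
      Complex.exp (Complex.I * ((s * S1 : ℝ) : ℂ))‖ ≤
      2 * ind (δ < |fo - sg|) + |s| * δ + |s| * |ke - e2| + |s| * |S2| := by
  have h1 : 0 ≤ |s| * δ := mul_nonneg (abs_nonneg _) hδ
  have h2 : 0 ≤ |s| * |ke - e2| := by positivity
  have h3 : 0 ≤ |s| * |S2| := by positivity
  by_cases hd : δ < |fo - sg|
  · have h4 := norm_exp_sub_le_two (s * (fo - e2)) (s * S1)
    have h5 : ind (δ < |fo - sg|) = 1 := by unfold ind; rw [if_pos hd]
    rw [h5]
    linarith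
  · have h5 : ind (δ < |fo - sg|) = 0 := by unfold ind; rw [if_neg hd]
    have h6 := norm_exp_sub_le (s * (fo - e2)) (s * S1)
    have h7 : s * (fo - e2) - s * S1 = s * ((fo - sg) + (ke - e2) + S2) := by
      have : S1 = sg - ke - S2 := by linarith
      rw [this]
      ring
    rw [h7, abs_mul] at h6
    have h8 : |(fo - sg) + (ke - e2) + S2| ≤ |fo - sg| + |ke - e2| + |S2| :=
      (abs_add_le _ _).trans (add_le_add (abs_add_le _ _) le_rfl)
    have h9 : |fo - sg| ≤ δ := not_lt.1 hd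
    have h10 : |s| * |(fo - sg) + (ke - e2) + S2| ≤ |s| * (δ + |ke - e2| + |S2|) :=
      mul_le_mul_of_nonneg_left (by linarith) (abs_nonneg _)
    rw [h5]
    linarith

/-- all parts together -/
lemma combine {F Fo : W → ℝ} {n r K1 m : ℕ} (hb : 0 < bb n) (s δ e2 A V2 : ℝ) (hδ : 0 ≤ δ)
    (B : ℂ) (h1 : ‖EB n (fun w => Complex.exp (Complex.I *
      ((s * ∑ i ∈ range K1, (F (blk r i w) - Ew r F) : ℝ) : ℂ))) - B‖ ≤ A)
    (h2 : EB n (fun w => (∑ i ∈ range m, (F (blk r (K1 + i) w) - Ew r F)) ^ 2) ≤ V2) :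
    ‖EB n (fun w => Complex.exp (Complex.I * ((s * (Fo w - e2) : ℝ) : ℂ))) - B‖ ≤
      2 * EB n (fun w => ind (δ < |Fo w - ∑ i ∈ range (K1 + m), F (blk r i w)|)) + |s| * δ +
        |s| * |((K1 + m : ℕ) : ℝ) * Ew r F - e2| + |s| * Real.sqrt V2 + A := by
  set X : W → ℂ := fun w => Complex.exp (Complex.I * ((s * (Fo w - e2) : ℝ) : ℂ)) with hX
  set Y : W → ℂ := fun w => Complex.exp (Complex.I *
      ((s * ∑ i ∈ range K1, (F (blk r i w) - Ew r F) : ℝ) : ℂ)) with hY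
  set S2 : W → ℝ := fun w => ∑ i ∈ range m, (F (blk r (K1 + i) w) - Ew r F) with hS2
  have h3 : ‖EB n X - EB n Y‖ ≤ EB n (fun w => 2 * ind (δ < |Fo w - ∑ i ∈ range (K1 + m),
      F (blk r i w)|) + |s| * δ + |s| * |((K1 + m : ℕ) : ℝ) * Ew r F - e2| + |s| * |S2 w|) := by
    rw [← EB_sub]
    refine (norm_EB_le _ _).trans (EB_mono fun w _ _ => ?_)
    refine pointwise s (Fo w) e2 (∑ i ∈ range (K1 + m), F (blk r i w))
      (((K1 + m : ℕ) : ℝ) * Ew r F) (∑ i ∈ range K1, (F (blk r i w) - Ew r F)) (S2 w) δ hδ ?_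
    rw [hS2, ← sum_range_add (fun i => F (blk r i w) - Ew r F), sum_sub_distrib, sum_const,
      card_range, nsmul_eq_mul]
  have h4 : EB n (fun w => 2 * ind (δ < |Fo w - ∑ i ∈ range (K1 + m),
      F (blk r i w)|) + |s| * δ + |s| * |((K1 + m : ℕ) : ℝ) * Ew r F - e2| + |s| * |S2 w|) =
      2 * EB n (fun w => ind (δ < |Fo w - ∑ i ∈ range (K1 + m), F (blk r i w)|)) + |s| * δ +
        |s| * |((K1 + m : ℕ) : ℝ) * Ew r F - e2| + |s| * EB n (fun w => |S2 w|) := by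
    rw [EB_add, EB_add, EB_add, EB_const hb.ne', EB_const hb.ne', EB_mul_left, EB_mul_left]
  rw [h4] at h3
  have h5 : EB n (fun w => |S2 w|) ≤ Real.sqrt V2 :=
    (EB_abs_le hb S2).trans (Real.sqrt_le_sqrt h2)
  have h6 : |s| * EB n (fun w => |S2 w|) ≤ |s| * Real.sqrt V2 :=
    mul_le_mul_of_nonneg_left h5 (abs_nonneg _)
  have h7 : ‖EB n X - B‖ ≤ ‖EB n X - EB n Y‖ + ‖EB n Y - B‖ := by
    have : EB n X - B = (EB n X - EB n Y) + (EB n Y - B) := by ring
    rw [this]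
    exact norm_add_le _ _
  linarith

lemma Vw_nonneg (r : ℕ) (F : W → ℝ) : 0 ≤ Vw r F := by
  unfold Vw
  exact Ew_nonneg fun w _ => sq_nonneg _

lemma sqrt_scale (s v : ℝ) : |s| * Real.sqrt v = Real.sqrt (s ^ 2 * v) := by
  rw [Real.sqrt_mul (sq_nonneg s), Real.sqrt_sq_eq_abs]

lemma sum_choice (CD t : ℝ) (δ : ℝ) (hδ : 0 < δ) : ∃ j : ℕ, 1 ≤ j ∧
    Real.sqrt (CD * (t ^ 2 * (1 / 2 : ℝ) ^ j)) +
      ‖Complex.exp ((-(t ^ 2 * (1 - (1 / 2 : ℝ) ^ j)) / 2 : ℝ) : ℂ) -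
        Complex.exp ((-(t ^ 2) / 2 : ℝ) : ℂ)‖ < δ := by
  have h0 : Tendsto (fun j : ℕ => (1 / 2 : ℝ) ^ j) atTop (𝓝 0) :=
    tendsto_pow_atTop_nhds_zero_of_lt_one (by norm_num) (by norm_num)
  have hc : Continuous fun x : ℝ => Real.sqrt (CD * (t ^ 2 * x)) +
      ‖Complex.exp ((-(t ^ 2 * (1 - x)) / 2 : ℝ) : ℂ) -
        Complex.exp ((-(t ^ 2) / 2 : ℝ) : ℂ)‖ := by
    fun_prop
  have h1 := (hc.tendsto 0).comp h0
  have h2 : Real.sqrt (CD * (t ^ 2 * 0)) +
      ‖Complex.exp ((-(t ^ 2 * (1 - 0)) / 2 : ℝ) : ℂ) -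
        Complex.exp ((-(t ^ 2) / 2 : ℝ) : ℂ)‖ = 0 := by
    simp
  rw [h2] at h1
  have h3 := (h1.eventually_lt_const hδ).and (eventually_ge_atTop 1)
  obtain ⟨j, hj1, hj2⟩ := h3.exists
  exact ⟨j, hj2, hj1⟩

lemma p_choice (C' x η δ : ℝ) (hη : η < 1) (hδ : 0 < δ) (j : ℕ) : ∃ p : ℕ, j ≤ p ∧
    C' * x / Real.sqrt ((2 : ℝ) ^ p * (1 - η)) < δ := by
  have h0 : Tendsto (fun p : ℕ => (2 : ℝ) ^ p * (1 - η)) atTop atTop :=
    (tendsto_pow_atTop_atTop_of_one_lt (by norm_num)).atTop_mul_const (by linarith)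
  have h1 : Tendsto (fun p : ℕ => C' * x / Real.sqrt ((2 : ℝ) ^ p * (1 - η))) atTop (𝓝 0) :=
    (Real.tendsto_sqrt_atTop.comp h0).const_div_atTop _
  obtain ⟨p, hp1, hp2⟩ := ((h1.eventually_lt_const hδ).and (eventually_ge_atTop j)).exists
  exact ⟨p, hp2, hp1⟩

theorem aclt0 (hD : S_DENS) (hK : S_KUR) (hR : S_RAT) (hC : S_CF) (hB : S_BLK) : S_ACLT0 := by
  intro F Fo C c r₀ hA t
  obtain ⟨-, -, -, κ, R, hκ, h4⟩ := hK F Fo C c r₀ hA
  obtain ⟨CD, hCD0, hCD⟩ := rest_part hD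
  have hbb : ∀ n : ℕ, 0 < n → 0 < bb n := by
    obtain ⟨⟨c1, hc1, hb1⟩, -⟩ := hD
    intro n hn
    have hn' : (0 : ℝ) < n := Nat.cast_pos.2 hn
    exact lt_of_lt_of_le (by positivity) (hb1 n hn)
  have hc := hA.cpos
  rw [Metric.tendsto_nhds]
  intro δ hδ
  have hδ3 : 0 < δ / 3 := by positivity
  obtain ⟨j, hj1, hj2⟩ := sum_choice CD t (δ / 3) hδ3
  set η : ℝ := (1 / 2 : ℝ) ^ j with hη
  have hη0 : 0 < η := by positivity
  have hη1 : η ≤ 1 / 2 := by
    rw [hη]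
    calc (1 / 2 : ℝ) ^ j ≤ (1 / 2 : ℝ) ^ 1 := pow_le_pow_of_le_one (by norm_num) (by norm_num) hj1
      _ = 1 / 2 := by norm_num
  obtain ⟨C', hC'0, hC'⟩ := cf_part hD hC κ η hκ hη0
  obtain ⟨p, hpj, hp⟩ := p_choice C' ((1 + Real.sqrt (t ^ 2 * (1 - η))) ^ 3) η (δ / 3)
    (by linarith) hδ3 j
  set A : ℝ := |t| / Real.sqrt (2 * c) with hAdef
  have hA0 : 0 ≤ A := by positivity
  obtain ⟨ε, hε, hε2⟩ : ∃ ε : ℝ, 0 < ε ∧ A * ε < δ / 3 := by
    refine ⟨δ / (3 * (A + 1)), by positivity, ?_⟩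
    rw [show A * (δ / (3 * (A + 1))) = (A / (A + 1)) * (δ / 3) by field_simp]
    have : A / (A + 1) < 1 := by rw [div_lt_one (by positivity)]; linarith
    calc (A / (A + 1)) * (δ / 3) < 1 * (δ / 3) := mul_lt_mul_of_pos_right this hδ3
      _ = δ / 3 := one_mul _
  -- limits
  obtain ⟨hρ, hμ⟩ := hR F Fo C c r₀ hA p
  have hβ := hB F Fo C c r₀ hA p ε hε
  set ρ : ℕ → ℝ := fun n => (2 : ℝ) ^ p * Vw (2 * n / 2 ^ p) F / (2 * Vw n F) with hρdef
  set μ : ℕ → ℝ := fun n => ((2 : ℝ) ^ p * Ew (2 * n / 2 ^ p) F - 2 * Ew n F) / Real.sqrt n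
    with hμdef
  set β : ℕ → ℝ := fun n => EB n fun w => ind (ε * Real.sqrt n <
    |Fo w - ∑ i ∈ range (2 ^ p), F (blk (2 * n / 2 ^ p) i w)|) with hβdef
  set G : ℝ → ℝ → ℝ → ℝ := fun b u x => 2 * b + A * ε + A * |u| +
    Real.sqrt (CD * (t ^ 2 * η * x)) +
    (C' * (1 + Real.sqrt (t ^ 2 * (1 - η) * x)) ^ 3 / Real.sqrt ((2 : ℝ) ^ p * (1 - η)) +
    ‖Complex.exp ((-(t ^ 2 * (1 - η) * x) / 2 : ℝ) : ℂ) -
        Complex.exp ((-(t ^ 2) / 2 : ℝ) : ℂ)‖) with hGdef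
  have hGc : Continuous fun q : ℝ × ℝ × ℝ => G q.1 q.2.1 q.2.2 := by
    rw [hGdef]
    fun_prop
  have hG : Tendsto (fun n => G (β n) (μ n) (ρ n)) atTop (𝓝 (G 0 0 1)) :=
    (hGc.tendsto (0, 0, 1)).comp (hβ.prodMk_nhds (hμ.prodMk_nhds hρ))
  have hG1 : G 0 0 1 < δ := by
    rw [hGdef]
    simp only [mul_zero, abs_zero, mul_one, zero_add, add_zero]
    have h5 : Real.sqrt (CD * (t ^ 2 * η)) +
      ‖Complex.exp ((-(t ^ 2 * (1 - η)) / 2 : ℝ) : ℂ) -
        Complex.exp ((-(t ^ 2) / 2 : ℝ) : ℂ)‖ < δ / 3 := hj2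
    linarith
  have hGe := hG.eventually_lt_const hG1
  filter_upwards [hGe, eventually_ge_atTop (r₀ + 1 + 2 ^ p * (R + 1))] with n hn1 hn2
  rw [dist_eq_norm]
  refine lt_of_le_of_lt ?_ hn1
  -- the parameters
  have hn0 : 0 < n := by omega
  have hnr : r₀ ≤ n := by omega
  have hnR : 2 ^ p * (R + 1) ≤ n := by omega
  set r := 2 * n / 2 ^ p with hr
  have hrR : R + 1 ≤ r := by
    rw [hr, Nat.le_div_iff_mul_le (by positivity), mul_comm]
    omega
  have hr0 : 0 < r := by omega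
  have hrn : 2 ^ p * r ≤ 2 * n := Nat.mul_div_le _ _
  set m := 2 ^ (p - j) with hm
  have hm1 : 2 * m ≤ 2 ^ p := by
    calc 2 * m = 2 ^ (p - j + 1) := by rw [hm, pow_succ]; ring
      _ ≤ 2 ^ p := Nat.pow_le_pow_right (by norm_num) (by omega)
  have hm0 : 0 < m := by positivity
  obtain ⟨K1, hK1⟩ := Nat.exists_eq_add_of_le (show m ≤ 2 ^ p by omega)
  have hK1' : K1 + m = 2 ^ p := by omega
  have hK10 : 0 < K1 := by omega
  have hmR : (m : ℝ) = (2 : ℝ) ^ p * η := by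
    rw [hm, hη]
    push_cast
    rw [one_div, inv_pow, pow_sub₀ (2 : ℝ) (by norm_num) hpj]
  have hK1R : (K1 : ℝ) = (2 : ℝ) ^ p * (1 - η) := by
    have : (K1 : ℝ) + m = (2 : ℝ) ^ p := by exact_mod_cast hK1'
    rw [mul_sub, mul_one, ← hmR]
    linarith
  have hVn : c * n ≤ Vw n F := hA.var n hnr
  have hn' : (0 : ℝ) < n := Nat.cast_pos.2 hn0
  have hVpos : 0 < Vw n F := lt_of_lt_of_le (by positivity) hVn
  set s : ℝ := t / Real.sqrt (2 * Vw n F) with hs
  have hs2 : s ^ 2 = t ^ 2 / (2 * Vw n F) := by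
    rw [hs, div_pow, Real.sq_sqrt (by positivity)]
  have hx : s ^ 2 * (K1 * Vw r F) = t ^ 2 * (1 - η) * ρ n := by
    rw [hs2, hK1R, hρdef]
    ring
  have hy : s ^ 2 * (CD * (m * Vw r F)) = CD * (t ^ 2 * η * ρ n) := by
    rw [hs2, hmR, hρdef]
    ring
  have hsn : |s| * Real.sqrt n ≤ A := by
    rw [hs, hAdef, abs_div, abs_of_nonneg (Real.sqrt_nonneg _), div_mul_eq_mul_div]
    have h6 : Real.sqrt (2 * c) * Real.sqrt n ≤ Real.sqrt (2 * Vw n F) := by
      rw [← Real.sqrt_mul (by positivity)]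
      exact Real.sqrt_le_sqrt (by linarith)
    have h7 : 0 < Real.sqrt (2 * c) := Real.sqrt_pos.2 (by positivity)
    have h8 : 0 < Real.sqrt (2 * Vw n F) := Real.sqrt_pos.2 (by positivity)
    rw [div_le_div_iff₀ h8 h7]
    calc |t| * Real.sqrt n * Real.sqrt (2 * c) = |t| * (Real.sqrt (2 * c) * Real.sqrt n) := by ring
      _ ≤ |t| * Real.sqrt (2 * Vw n F) := mul_le_mul_of_nonneg_left h6 (abs_nonneg _)
  obtain ⟨l, hl⟩ := Nat.exists_eq_add_of_le (show K1 * r ≤ 2 * n by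
    calc K1 * r ≤ 2 ^ p * r := Nat.mul_le_mul_right r (by omega)
      _ ≤ 2 * n := hrn)
  have hrnR : (2 : ℝ) ^ p * r ≤ 2 * n := by exact_mod_cast hrn
  have hlη : η * n ≤ (l : ℝ) := by
    have h9 : (2 : ℝ) * n = K1 * r + l := by exact_mod_cast hl
    have h10 : (K1 : ℝ) * r ≤ (1 - η) * (2 * n) := by
      rw [hK1R]
      calc (2 : ℝ) ^ p * (1 - η) * r = (1 - η) * ((2 : ℝ) ^ p * r) := by ring
        _ ≤ (1 - η) * (2 * n) := mul_le_mul_of_nonneg_left hrnR (by linarith)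
    have h11 : (1 - η) * (2 * (n : ℝ)) = 2 * n - 2 * (η * n) := by ring
    have h12 : 0 < η * n := mul_pos hη0 hn'
    linarith
  have hcf := hC' F r K1 l n hA.sym hr0 hK10 hn0 hl hlη (h4 r (by omega)) s
  have hrest := hCD F r K1 m n hn0 (by rw [hK1']; exact hrn) (by
    have : 2 * (m * r) ≤ 2 * n := by
      calc 2 * (m * r) = (2 * m) * r := by ring
        _ ≤ 2 ^ p * r := Nat.mul_le_mul_right r hm1
        _ ≤ 2 * n := hrn
    omega)
  rw [sqrt_scale, hx] at hcf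
  have hB2 : ‖EB n (fun w => Complex.exp (Complex.I *
      ((s * ∑ i ∈ range K1, (F (blk r i w) - Ew r F) : ℝ) : ℂ))) -
      Complex.exp ((-(t ^ 2) / 2 : ℝ) : ℂ)‖ ≤
      C' * (1 + Real.sqrt (t ^ 2 * (1 - η) * ρ n)) ^ 3 / Real.sqrt ((2 : ℝ) ^ p * (1 - η)) +
      ‖Complex.exp ((-(t ^ 2 * (1 - η) * ρ n) / 2 : ℝ) : ℂ) -
        Complex.exp ((-(t ^ 2) / 2 : ℝ) : ℂ)‖ := by
    rw [← hK1R]
    refine (norm_sub_le_norm_sub_add_norm_sub _
      (Complex.exp ((-(t ^ 2 * (1 - η) * ρ n) / 2 : ℝ) : ℂ)) _).trans ?_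
    exact add_le_add hcf le_rfl
  have hcomb := combine (F := F) (Fo := Fo) (hbb n hn0) s (ε * Real.sqrt n) (2 * Ew n F) _ _
    (by positivity) _ hB2 hrest
  rw [sqrt_scale, hy, hK1'] at hcomb
  have h11 : |s| * (ε * Real.sqrt n) ≤ A * ε := by
    calc |s| * (ε * Real.sqrt n) = (|s| * Real.sqrt n) * ε := by ring
      _ ≤ A * ε := mul_le_mul_of_nonneg_right hsn hε.le
  have h12 : |s| * |((2 ^ p : ℕ) : ℝ) * Ew r F - 2 * Ew n F| ≤ A * |μ n| := by
    have h13 : 0 < Real.sqrt n := Real.sqrt_pos.2 hn'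
    have h14 : |((2 ^ p : ℕ) : ℝ) * Ew r F - 2 * Ew n F| = Real.sqrt n * |μ n| := by
      rw [hμdef]
      simp only
      rw [abs_div, abs_of_pos h13, mul_div_cancel₀ _ h13.ne']
      push_cast
      rfl
    rw [h14, ← mul_assoc]
    exact mul_le_mul_of_nonneg_right hsn (abs_nonneg _)
  have h15 : (fun w => Complex.exp (Complex.I *
      ((t * ((Fo w - 2 * Ew n F) / Real.sqrt (2 * Vw n F)) : ℝ) : ℂ))) =
      fun w => Complex.exp (Complex.I * ((s * (Fo w - 2 * Ew n F) : ℝ) : ℂ)) := by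
    funext w
    congr 3
    rw [hs]
    ring
  rw [h15]
  refine hcomb.trans ?_
  rw [hGdef]
  simp only
  linarith

/-! ### mean and variance -/

lemma taylor_EB {n : ℕ} (hb : 0 < bb n) (Z : W → ℝ) (κ t : ℝ)
    (h4 : EB n (fun w => Z w ^ 4) ≤ κ) :
    ‖EB n (fun w => Complex.exp (Complex.I * ((t * Z w : ℝ) : ℂ))) -
      (((1 - t ^ 2 / 2 * EB n (fun w => Z w ^ 2) : ℝ) : ℂ) +
        ((t * EB n Z : ℝ) : ℂ) * Complex.I)‖ ≤ 4 * |t| ^ 3 * (1 + κ) := by
  have h1 : (((1 - t ^ 2 / 2 * EB n (fun w => Z w ^ 2) : ℝ) : ℂ) +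
        ((t * EB n Z : ℝ) : ℂ) * Complex.I) =
      EB n (fun w => 1 + Complex.I * ((t * Z w : ℝ) : ℂ) - ((t * Z w : ℝ) : ℂ) ^ 2 / 2) := by
    have h2 : EB n (fun w => 1 + Complex.I * ((t * Z w : ℝ) : ℂ) -
        ((t * Z w : ℝ) : ℂ) ^ 2 / 2) =
        EB n (fun _ => (1 : ℂ)) + (Complex.I * (t : ℂ)) * EB n (fun w => ((Z w : ℝ) : ℂ)) -
          ((t : ℂ) ^ 2 / 2) * EB n (fun w => ((Z w ^ 2 : ℝ) : ℂ)) := by
      rw [← EB_cmul_left, ← EB_cmul_left, ← EB_add, ← EB_sub]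
      refine EB_congr fun w _ _ => ?_
      push_cast
      ring
    rw [h2, EB_const hb.ne', EB_ofReal, EB_ofReal]
    push_cast
    ring
  rw [h1, ← EB_sub]
  refine (norm_EB_le _ _).trans ?_
  have h3 : EB n (fun w => ‖Complex.exp (Complex.I * ((t * Z w : ℝ) : ℂ)) -
      (1 + Complex.I * ((t * Z w : ℝ) : ℂ) - ((t * Z w : ℝ) : ℂ) ^ 2 / 2)‖) ≤
      EB n (fun w => 4 * |t| ^ 3 * (1 + Z w ^ 4)) := by
    refine EB_mono fun w _ _ => (norm_exp_taylor (t * Z w)).trans ?_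
    rw [abs_mul, mul_pow, ← mul_assoc]
    refine mul_le_mul_of_nonneg_left ?_ (by positivity)
    rcases le_or_gt |Z w| 1 with h | h
    · have h5 : |Z w| ^ 3 ≤ 1 := pow_le_one₀ (abs_nonneg _) h
      have h6 : 0 ≤ Z w ^ 4 := by positivity
      linarith
    · have h5 : |Z w| ^ 3 ≤ |Z w| ^ 4 := pow_le_pow_right₀ h.le (by norm_num)
      have h6 : |Z w| ^ 4 = Z w ^ 4 := by
        rw [← abs_pow, abs_of_nonneg (by positivity)]
      linarith
  refine h3.trans ?_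
  rw [EB_mul_left, EB_add, EB_const hb.ne']
  exact mul_le_mul_of_nonneg_left (by linarith) (by positivity)

lemma moments {N0 : ℕ} (hb : ∀ n, N0 ≤ n → 0 < bb n) (Z : ℕ → W → ℝ) (κ : ℝ)
    (h4 : ∀ n, N0 ≤ n → EB n (fun w => Z n w ^ 4) ≤ κ)
    (hcf : ∀ t : ℝ, Tendsto (fun n : ℕ => EB n fun w =>
      Complex.exp (Complex.I * ((t * Z n w : ℝ) : ℂ))) atTop
        (𝓝 (Complex.exp ((-(t ^ 2) / 2 : ℝ) : ℂ)))) :
    Tendsto (fun n => EB n (Z n)) atTop (𝓝 0) ∧
      Tendsto (fun n => EB n (fun w => Z n w ^ 2)) atTop (𝓝 1) := by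
  have hκ : 0 ≤ κ := (EB_nonneg fun w _ _ => by positivity).trans (h4 N0 le_rfl)
  have key : ∀ ε : ℝ, 0 < ε → ∀ᶠ n in atTop, |EB n (Z n)| < ε ∧
      |EB n (fun w => Z n w ^ 2) - 1| < ε := by
    intro ε hε
    set Kc : ℝ := 4 * (1 + κ) + 1 with hKc
    have hKc0 : 0 < Kc := by positivity
    obtain ⟨t, ht0, ht1, ht2⟩ : ∃ t : ℝ, 0 < t ∧ t ≤ 1 ∧ 2 * (Kc + 1) * t < ε := by
      refine ⟨min 1 (ε / (4 * (Kc + 1))), lt_min one_pos (by positivity), min_le_left _ _, ?_⟩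
      calc 2 * (Kc + 1) * min 1 (ε / (4 * (Kc + 1)))
          ≤ 2 * (Kc + 1) * (ε / (4 * (Kc + 1))) :=
            mul_le_mul_of_nonneg_left (min_le_right _ _) (by positivity)
        _ = ε / 2 := by field_simp; norm_num
        _ < ε := by linarith
    have h1 := (Metric.tendsto_nhds.1 (hcf t)) (t ^ 3) (by positivity)
    filter_upwards [h1, eventually_ge_atTop N0] with n hn1 hn2
    rw [dist_eq_norm] at hn1
    have h2 := taylor_EB (hb n hn2) (Z n) κ t (h4 n hn2)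
    rw [abs_of_pos ht0] at h2
    set m1 := EB n (Z n) with hm1
    set m2 := EB n (fun w => Z n w ^ 2) with hm2
    set X := EB n (fun w => Complex.exp (Complex.I * ((t * Z n w : ℝ) : ℂ))) with hX
    set q : ℂ := Complex.exp ((-(t ^ 2) / 2 : ℝ) : ℂ) -
      (((1 - t ^ 2 / 2 * m2 : ℝ) : ℂ) + ((t * m1 : ℝ) : ℂ) * Complex.I) with hq
    have h3 : ‖q‖ ≤ Kc * t ^ 3 := by
      have h5 : q = (X - (((1 - t ^ 2 / 2 * m2 : ℝ) : ℂ) + ((t * m1 : ℝ) : ℂ) * Complex.I)) -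
          (X - Complex.exp ((-(t ^ 2) / 2 : ℝ) : ℂ)) := by
        rw [hq]
        ring
      rw [h5]
      refine (norm_sub_le _ _).trans ?_
      calc _ ≤ 4 * t ^ 3 * (1 + κ) + t ^ 3 := add_le_add h2 hn1.le
        _ = Kc * t ^ 3 := by rw [hKc]; ring
    have him : q.im = -(t * m1) := by
      rw [hq, ← Complex.ofReal_exp, Complex.sub_im, Complex.add_im, Complex.ofReal_im,
        Complex.ofReal_im, Complex.mul_im, Complex.ofReal_im, Complex.ofReal_re,
        Complex.I_re, Complex.I_im]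
      ring
    have hre : q.re = Real.exp (-(t ^ 2) / 2) - 1 + t ^ 2 / 2 * m2 := by
      rw [hq, ← Complex.ofReal_exp, Complex.sub_re, Complex.add_re, Complex.ofReal_re,
        Complex.ofReal_re, Complex.mul_re, Complex.ofReal_im, Complex.ofReal_re,
        Complex.I_re, Complex.I_im]
      ring
    have h6 : t * |m1| ≤ Kc * t ^ 3 := by
      have h7 := (Complex.abs_im_le_norm q).trans h3
      rw [him, abs_neg, abs_mul, abs_of_pos ht0] at h7
      exact h7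
    have h8 : |Real.exp (-(t ^ 2) / 2) - 1 + t ^ 2 / 2 * m2| ≤ Kc * t ^ 3 := by
      rw [← hre]
      exact (Complex.abs_re_le_norm q).trans h3
    have ht3 : t ^ 2 ≤ 1 := pow_le_one₀ ht0.le ht1
    have h9 : |Real.exp (-(t ^ 2) / 2) - 1 - (-(t ^ 2) / 2)| ≤ (-(t ^ 2) / 2) ^ 2 := by
      refine Real.abs_exp_sub_one_sub_id_le ?_
      rw [abs_le]
      constructor <;> nlinarith [sq_nonneg t]
    have h10 : (-(t ^ 2) / 2) ^ 2 ≤ t ^ 3 := by
      have h11 : (-(t ^ 2) / 2) ^ 2 = t ^ 3 * (t / 4) := by ring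
      rw [h11]
      have h12 : 0 ≤ t ^ 3 := by positivity
      calc t ^ 3 * (t / 4) ≤ t ^ 3 * 1 := mul_le_mul_of_nonneg_left (by linarith) h12
        _ = t ^ 3 := mul_one _
    constructor
    · have h13 : |m1| ≤ Kc * t ^ 2 := by
        have h14 : t * |m1| ≤ t * (Kc * t ^ 2) := by
          calc t * |m1| ≤ Kc * t ^ 3 := h6
            _ = t * (Kc * t ^ 2) := by ring
        exact le_of_mul_le_mul_left h14 ht0
      have h15 : Kc * t ^ 2 ≤ Kc * t := by
        refine mul_le_mul_of_nonneg_left ?_ hKc0.le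
        calc t ^ 2 = t * t := by ring
          _ ≤ t * 1 := mul_le_mul_of_nonneg_left ht1 ht0.le
          _ = t := mul_one t
      have h16 : Kc * t ≤ 2 * (Kc + 1) * t := mul_le_mul_of_nonneg_right (by linarith) ht0.le
      linarith
    · have h17 : |t ^ 2 / 2 * (m2 - 1)| ≤ (Kc + 1) * t ^ 3 := by
        have h18 : t ^ 2 / 2 * (m2 - 1) = (Real.exp (-(t ^ 2) / 2) - 1 + t ^ 2 / 2 * m2) -
            (Real.exp (-(t ^ 2) / 2) - 1 - (-(t ^ 2) / 2)) := by ring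
        rw [h18]
        refine (abs_sub _ _).trans ?_
        have := h9.trans h10
        linarith
      rw [abs_mul, abs_of_pos (show 0 < t ^ 2 / 2 by positivity)] at h17
      have h19 : t ^ 2 / 2 * |m2 - 1| ≤ t ^ 2 / 2 * (2 * (Kc + 1) * t) := by
        calc t ^ 2 / 2 * |m2 - 1| ≤ (Kc + 1) * t ^ 3 := h17
          _ = t ^ 2 / 2 * (2 * (Kc + 1) * t) := by ring
      exact (le_of_mul_le_mul_left h19 (by positivity)).trans_lt ht2
  constructor
  · rw [Metric.tendsto_nhds]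
    intro ε hε
    filter_upwards [key ε hε] with n hn
    rw [Real.dist_eq, sub_zero]
    exact hn.1
  · rw [Metric.tendsto_nhds]
    intro ε hε
    filter_upwards [key ε hε] with n hn
    rw [Real.dist_eq]
    exact hn.2

theorem aclt (h0 : S_ACLT0) (h4 : S_M4) (hD : S_DENS) : S_ACLT := by
  intro F Fo C c r₀ hA
  obtain ⟨κ, R, hκ, hM⟩ := h4 F Fo C c r₀ hA
  have hbb : ∀ n : ℕ, 0 < n → 0 < bb n := by
    obtain ⟨⟨c1, hc1, hb1⟩, -⟩ := hD
    intro n hn
    have hn' : (0 : ℝ) < n := Nat.cast_pos.2 hn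
    exact lt_of_lt_of_le (by positivity) (hb1 n hn)
  have hc := hA.cpos
  set σ : ℕ → ℝ := fun n => Real.sqrt (2 * Vw n F) with hσ
  set Z : ℕ → W → ℝ := fun n w => (Fo w - 2 * Ew n F) / σ n with hZ
  set N0 := r₀ + 1 + R with hN0
  have hV : ∀ n, N0 ≤ n → 0 < Vw n F := by
    intro n hn
    have hn' : (0 : ℝ) < n := Nat.cast_pos.2 (by omega)
    exact lt_of_lt_of_le (by positivity) (hA.var n (by omega))
  have hσ0 : ∀ n, N0 ≤ n → 0 < σ n := fun n hn => by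
    have := hV n hn
    exact Real.sqrt_pos.2 (by positivity)
  have hσ2 : ∀ n, σ n ^ 2 = 2 * Vw n F := fun n =>
    Real.sq_sqrt (by have := Vw_nonneg n F; positivity)
  have hZ4 : ∀ n, N0 ≤ n → EB n (fun w => Z n w ^ 4) ≤ κ := by
    intro n hn
    have h1 : EB n (fun w => Z n w ^ 4) =
        ((2 * Vw n F) ^ 2)⁻¹ * EB n (fun w => (Fo w - 2 * Ew n F) ^ 4) := by
      rw [← EB_mul_left]
      refine EB_congr fun w _ _ => ?_
      rw [← hσ2 n, hZ]
      simp only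
      rw [div_pow, ← pow_mul, div_eq_inv_mul]
    rw [h1]
    have h2 := hM n (by omega)
    have h3 := hV n hn
    calc ((2 * Vw n F) ^ 2)⁻¹ * EB n (fun w => (Fo w - 2 * Ew n F) ^ 4)
        ≤ ((2 * Vw n F) ^ 2)⁻¹ * (κ * (2 * Vw n F) ^ 2) :=
          mul_le_mul_of_nonneg_left h2 (by positivity)
      _ = κ := by field_simp
  have hcf : ∀ t : ℝ, Tendsto (fun n : ℕ => EB n fun w =>
      Complex.exp (Complex.I * ((t * Z n w : ℝ) : ℂ))) atTop
        (𝓝 (Complex.exp ((-(t ^ 2) / 2 : ℝ) : ℂ))) := fun t => h0 F Fo C c r₀ hA t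
  obtain ⟨hm1, hm2⟩ := moments (fun n hn => hbb n (by omega)) Z κ hZ4 hcf
  set m1 : ℕ → ℝ := fun n => EB n (Z n) with hm1d
  set m2 : ℕ → ℝ := fun n => EB n (fun w => Z n w ^ 2) with hm2d
  set q : ℕ → ℝ := fun n => m2 n - m1 n ^ 2 with hqd
  have hq : Tendsto q atTop (𝓝 1) := by
    have := hm2.sub (hm1.pow 2)
    simpa using this
  have hEB : ∀ n, N0 ≤ n → EB n Fo = 2 * Ew n F + σ n * m1 n := by
    intro n hn
    have h1 : EB n Fo = EB n (fun _ => 2 * Ew n F) + σ n * EB n (Z n) := by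
      rw [← EB_mul_left, ← EB_add]
      refine EB_congr fun w _ _ => ?_
      have := (hσ0 n hn).ne'
      rw [hZ]
      simp only
      field_simp
      ring
    rw [h1, EB_const (hbb n (by omega)).ne']
  have hdev : ∀ n, N0 ≤ n → ∀ w, Fo w - EB n Fo = σ n * (Z n w - m1 n) := by
    intro n hn w
    rw [hEB n hn, hZ]
    simp only
    have := (hσ0 n hn).ne'
    field_simp
    ring
  have hVB : ∀ n, N0 ≤ n → VB n Fo = σ n ^ 2 * q n := by
    intro n hn
    unfold VB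
    have h1 : EB n (fun w => (Fo w - EB n Fo) ^ 2) = σ n ^ 2 * EB n (fun w => Z n w ^ 2) -
        (2 * σ n ^ 2 * m1 n) * EB n (Z n) + EB n (fun _ => σ n ^ 2 * m1 n ^ 2) := by
      rw [← EB_mul_left, ← EB_mul_left, ← EB_sub, ← EB_add]
      refine EB_congr fun w _ _ => ?_
      rw [hdev n hn w]
      ring
    rw [h1, EB_const (hbb n (by omega)).ne', hqd, hm2d]
    simp only
    rw [hm1d]
    ring
  have hq2 : ∀ᶠ n in atTop, 1 / 2 < q n := hq.eventually_const_lt (by norm_num)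
  refine ⟨c, hc, ?_, fun t => ?_⟩
  · filter_upwards [hq2, eventually_ge_atTop N0] with n h1 h2
    rw [hVB n h2, hσ2]
    have h3 := hA.var n (by omega : r₀ ≤ n)
    have h5 := hV n h2
    nlinarith
  · refine (hcf t).congr_dist ?_
    have hup : Tendsto (fun n => |t| * (|(Real.sqrt (q n))⁻¹ - 1| * (1 + m2 n) +
        |m1 n| * (Real.sqrt (q n))⁻¹)) atTop (𝓝 0) := by
      have hs : Tendsto (fun n => (Real.sqrt (q n))⁻¹) atTop (𝓝 1) := by
        have h1 := (Real.continuous_sqrt.tendsto 1).comp hq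
        rw [Real.sqrt_one] at h1
        have h2 := h1.inv₀ one_ne_zero
        rw [inv_one] at h2
        exact h2
      have h3 := (((hs.sub_const 1).abs.mul (hm2.const_add 1)).add (hm1.abs.mul hs)).const_mul |t|
      simpa using h3
    refine squeeze_zero' (Eventually.of_forall fun n => dist_nonneg) ?_ hup
    filter_upwards [hq2, eventually_ge_atTop N0] with n h1 h2
    have hbn := hbb n (by omega)
    have hs0 : 0 < Real.sqrt (q n) := Real.sqrt_pos.2 (by linarith)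
    rw [dist_eq_norm, ← EB_sub]
    refine (norm_EB_le _ _).trans ?_
    have h3 : ∀ w, (Fo w - EB n Fo) / Real.sqrt (VB n Fo) =
        (Z n w - m1 n) * (Real.sqrt (q n))⁻¹ := by
      intro w
      rw [hdev n h2 w, hVB n h2, Real.sqrt_mul (sq_nonneg _), Real.sqrt_sq (hσ0 n h2).le]
      have := (hσ0 n h2).ne'
      field_simp
    have h5 : EB n (fun w => ‖Complex.exp (Complex.I * ((t * Z n w : ℝ) : ℂ)) -
        Complex.exp (Complex.I *
          ((t * ((Fo w - EB n Fo) / Real.sqrt (VB n Fo)) : ℝ) : ℂ))‖) ≤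
        EB n (fun w => |t| * |(Real.sqrt (q n))⁻¹ - 1| * (1 + Z n w ^ 2) +
          |t| * (|m1 n| * (Real.sqrt (q n))⁻¹)) := by
      refine EB_mono fun w _ _ => ?_
      refine (norm_exp_sub_le _ _).trans ?_
      rw [h3 w]
      have h6 : t * Z n w - t * ((Z n w - m1 n) * (Real.sqrt (q n))⁻¹) =
          t * (-((Real.sqrt (q n))⁻¹ - 1) * Z n w + m1 n * (Real.sqrt (q n))⁻¹) := by ring
      rw [h6, abs_mul]
      have h7 : |-((Real.sqrt (q n))⁻¹ - 1) * Z n w + m1 n * (Real.sqrt (q n))⁻¹| ≤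
          |(Real.sqrt (q n))⁻¹ - 1| * (1 + Z n w ^ 2) + |m1 n| * (Real.sqrt (q n))⁻¹ := by
        refine (abs_add_le _ _).trans (add_le_add ?_ (le_of_eq ?_))
        · rw [abs_mul, abs_neg]
          refine mul_le_mul_of_nonneg_left ?_ (abs_nonneg _)
          rw [abs_le]
          constructor <;> nlinarith [sq_nonneg (Z n w - 1), sq_nonneg (Z n w + 1)]
        · rw [abs_mul, abs_of_pos (inv_pos.2 hs0)]
      calc |t| * |-((Real.sqrt (q n))⁻¹ - 1) * Z n w + m1 n * (Real.sqrt (q n))⁻¹|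
          ≤ |t| * (|(Real.sqrt (q n))⁻¹ - 1| * (1 + Z n w ^ 2) +
            |m1 n| * (Real.sqrt (q n))⁻¹) := mul_le_mul_of_nonneg_left h7 (abs_nonneg _)
        _ = _ := by ring
    refine h5.trans (le_of_eq ?_)
    rw [EB_add, EB_const hbn.ne', EB_mul_left, EB_add, EB_const hbn.ne']
    ring

end Pool.Agent.N940.MN.Aclt
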