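import Pool.Agent.N940.MN.Stm3

/-!
# Asymptotic additivity of the number of closed loops
-/

set_option autoImplicit false

open Filter Topology Finset

namespace Pool.Agent.N940.MN.Approx

/-- the deterministic part -/
lemma det (M m m' q q' : ℕ) (hM : 0 < M) (hq : q = m / M) (hq' : q' = m' / M)
    (N G G' b1 b2 b3 b4 aG aB aB' a ε C1 C2 C3 s : ℝ) (hε : 0 ≤ ε)
    (hN1 : G + G' ≤ N)
    (hN2 : N + ((q * M - b1) / 2 + (q * M - b2) / 2 + (q' * M - b3) / 2 + (q' * M - b4) / 2) ≤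
      G + G' + (m + m'))
    (hG : |G - q * aG| ≤ C1 + ε * (m + s)) (hG' : |G' - q' * aG| ≤ C1 + ε * (m' + s))
    (h1 : |b1 - q * aB| ≤ C2 + ε * (m + s)) (h2 : |b2 - q * aB'| ≤ C3 + ε * (m + s))
    (h3 : |b3 - q' * aB| ≤ C2 + ε * (m' + s)) (h4 : |b4 - q' * aB'| ≤ C3 + ε * (m' + s))
    (hs : 0 ≤ s) (haG0 : 0 ≤ aG) (haG1 : aG ≤ M) (haG : |aG / M - a| ≤ ε) (haB : aB ≤ ε * M)
    (haB' : aB' ≤ ε * M) :
    |N - a * (m + m')| ≤ (2 * |C1| + |C2| + |C3| + 4 * M) + 10 * ε * (m + m' + s) := by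
  have hMr : (0 : ℝ) < M := by exact_mod_cast hM
  have hqm : (q : ℝ) * M ≤ m := by
    rw [hq]; exact_mod_cast Nat.div_mul_le_self m M
  have hqm' : (q' : ℝ) * M ≤ m' := by
    rw [hq']; exact_mod_cast Nat.div_mul_le_self m' M
  have hqm1 : (m : ℝ) ≤ q * M + M := by
    rw [hq]
    have := Nat.lt_div_mul_add (a := m) hM
    exact_mod_cast this.le
  have hqm1' : (m' : ℝ) ≤ q' * M + M := by
    rw [hq']
    have := Nat.lt_div_mul_add (a := m') hM
    exact_mod_cast this.le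
  have hq0 : (0 : ℝ) ≤ q := Nat.cast_nonneg _
  have hq0' : (0 : ℝ) ≤ q' := Nat.cast_nonneg _
  have hm0 : (0 : ℝ) ≤ m := Nat.cast_nonneg _
  have hm0' : (0 : ℝ) ≤ m' := Nat.cast_nonneg _
  obtain ⟨x, hx⟩ : ∃ x, x = aG / M := ⟨_, rfl⟩
  have hxG : aG = x * M := by rw [hx]; field_simp
  rw [← hx] at haG
  have hx0 : 0 ≤ x := by rw [hx]; positivity
  have hx1 : x ≤ 1 := by rw [hx, div_le_one hMr]; exact haG1
  rw [abs_le] at haG
  -- q aG
  have e1 : (q : ℝ) * aG ≤ m * x := by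
    rw [hxG]
    calc (q : ℝ) * (x * M) = (q * M) * x := by ring
      _ ≤ m * x := mul_le_mul_of_nonneg_right hqm hx0
  have e1' : (q' : ℝ) * aG ≤ m' * x := by
    rw [hxG]
    calc (q' : ℝ) * (x * M) = (q' * M) * x := by ring
      _ ≤ m' * x := mul_le_mul_of_nonneg_right hqm' hx0
  have e2 : (m : ℝ) * x - M ≤ q * aG := by
    rw [hxG]
    have : (m : ℝ) * x ≤ (q * M + M) * x := mul_le_mul_of_nonneg_right hqm1 hx0
    have h5 : (M : ℝ) * x ≤ M := by nlinarith
    nlinarith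
  have e2' : (m' : ℝ) * x - M ≤ q' * aG := by
    rw [hxG]
    have : (m' : ℝ) * x ≤ (q' * M + M) * x := mul_le_mul_of_nonneg_right hqm1' hx0
    have h5 : (M : ℝ) * x ≤ M := by nlinarith
    nlinarith
  have e3 : (q : ℝ) * aB ≤ ε * m := by
    calc (q : ℝ) * aB ≤ q * (ε * M) := mul_le_mul_of_nonneg_left haB hq0
      _ = ε * (q * M) := by ring
      _ ≤ ε * m := mul_le_mul_of_nonneg_left hqm hε
  have e4 : (q : ℝ) * aB' ≤ ε * m := by
    calc (q : ℝ) * aB' ≤ q * (ε * M) := mul_le_mul_of_nonneg_left haB' hq0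
      _ = ε * (q * M) := by ring
      _ ≤ ε * m := mul_le_mul_of_nonneg_left hqm hε
  have e5 : (q' : ℝ) * aB ≤ ε * m' := by
    calc (q' : ℝ) * aB ≤ q' * (ε * M) := mul_le_mul_of_nonneg_left haB hq0'
      _ = ε * (q' * M) := by ring
      _ ≤ ε * m' := mul_le_mul_of_nonneg_left hqm' hε
  have e6 : (q' : ℝ) * aB' ≤ ε * m' := by
    calc (q' : ℝ) * aB' ≤ q' * (ε * M) := mul_le_mul_of_nonneg_left haB' hq0'
      _ = ε * (q' * M) := by ring
      _ ≤ ε * m' := mul_le_mul_of_nonneg_left hqm' hε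
  have f1 : (m : ℝ) * x ≤ m * a + ε * m := by
    have : (m : ℝ) * (x - a) ≤ m * ε := mul_le_mul_of_nonneg_left haG.2 hm0
    nlinarith
  have f1' : (m' : ℝ) * x ≤ m' * a + ε * m' := by
    have : (m' : ℝ) * (x - a) ≤ m' * ε := mul_le_mul_of_nonneg_left haG.2 hm0'
    nlinarith
  have f2 : (m : ℝ) * a - ε * m ≤ m * x := by
    have : (m : ℝ) * (-ε) ≤ m * (x - a) := mul_le_mul_of_nonneg_left haG.1 hm0
    nlinarith
  have f2' : (m' : ℝ) * a - ε * m' ≤ m' * x := by
    have : (m' : ℝ) * (-ε) ≤ m' * (x - a) := mul_le_mul_of_nonneg_left haG.1 hm0'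
    nlinarith
  have g0 : 0 ≤ ε * m := by positivity
  have g0' : 0 ≤ ε * m' := by positivity
  have g1 : 0 ≤ ε * s := by positivity
  have c1 := le_abs_self C1
  have c2 := le_abs_self C2
  have c3 := le_abs_self C3
  have c1' := abs_nonneg C1
  have c2' := abs_nonneg C2
  have c3' := abs_nonneg C3
  rw [abs_le] at hG hG' h1 h2 h3 h4
  rw [abs_le]
  constructor
  · nlinarith [hG.1, hG'.1]
  · nlinarith [hG.2, hG'.2, h1.2, h2.2, h3.2, h4.2]

/-- the three functions -/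
noncomputable def φG (M : ℕ) (L L' : W) : ℝ := min (GG L L' : ℝ) M

noncomputable def φB (M : ℕ) (L _L' : W) : ℝ := max 0 ((M : ℝ) - 2 * gg L)

noncomputable def φB' (M : ℕ) (_L L' : W) : ℝ := max 0 ((M : ℝ) - 2 * gg L')

lemma φG_nonneg (M : ℕ) (L L' : W) : 0 ≤ φG M L L' := le_min (Nat.cast_nonneg _) (Nat.cast_nonneg _)

lemma φG_le (M : ℕ) (L L' : W) : φG M L L' ≤ M := min_le_right _ _

lemma φB_nonneg (M : ℕ) (L L' : W) : 0 ≤ φB M L L' := le_max_left _ _

lemma φB_le (M : ℕ) (L L' : W) : φB M L L' ≤ M := by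
  refine max_le (Nat.cast_nonneg _) ?_
  have : (0 : ℝ) ≤ gg L := Nat.cast_nonneg _
  linarith

lemma φB'_nonneg (M : ℕ) (L L' : W) : 0 ≤ φB' M L L' := le_max_left _ _

lemma φB'_le (M : ℕ) (L L' : W) : φB' M L L' ≤ M := φB_le M L' L

section win

variable (hG : S_GG)
include hG

lemma φG_win {M : ℕ} {L L' : W} (hL : IsWin M L) : φG M L L' = GG L L' := by
  unfold φG
  apply min_eq_left
  have h1 := hG.2.2 L L'
  have h2 := (hG.1 M L hL).1
  exact_mod_cast (show GG L L' ≤ M by omega)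

lemma φB_win {M : ℕ} {L L' : W} (hL : IsWin M L) : φB M L L' = (M : ℝ) - 2 * gg L := by
  unfold φB
  apply max_eq_right
  have h2 := (hG.1 M L hL).1
  have : (2 : ℝ) * gg L ≤ M := by exact_mod_cast h2
  linarith

lemma φB'_win {M : ℕ} {L L' : W} (hL : IsWin M L') : φB' M L L' = (M : ℝ) - 2 * gg L' := by
  unfold φB'
  apply max_eq_right
  have h2 := (hG.1 M L' hL).1
  have : (2 : ℝ) * gg L' ≤ M := by exact_mod_cast h2
  linarith

end win

section sums

variable (hG : S_GG) (hW : S_WN)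
include hG hW

lemma sum_φG {M q : ℕ} (hM : 0 < M) {I J : W} (hI : q * M ≤ U (up I)) :
    ∑ t ∈ range q, φG M (wn M t I) (wn M t J) = (Gs M I J q : ℝ) := by
  unfold Gs
  push_cast
  refine sum_congr rfl fun t ht => ?_
  rw [φG_win hG]
  refine hW.2.2.1 M I t hM (le_trans (Nat.mul_le_mul_right _ ?_) hI)
  exact mem_range.1 ht

lemma sum_φB {M q : ℕ} (hM : 0 < M) {I : W} (J : W) (hI : q * M ≤ U (up I)) :
    (Bs M I q : ℝ) = (q * M - ∑ t ∈ range q, φB M (wn M t I) (wn M t J)) / 2 := by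
  have h : ∑ t ∈ range q, φB M (wn M t I) (wn M t J) =
      ∑ t ∈ range q, ((M : ℝ) - 2 * gg (wn M t I)) := by
    refine sum_congr rfl fun t ht => ?_
    rw [φB_win hG]
    refine hW.2.2.1 M I t hM (le_trans (Nat.mul_le_mul_right _ ?_) hI)
    exact mem_range.1 ht
  rw [h, sum_sub_distrib, sum_const, card_range, nsmul_eq_mul, ← mul_sum]
  unfold Bs
  push_cast
  ring

lemma sum_φB' {M q : ℕ} (hM : 0 < M) {J : W} (I : W) (hJ : q * M ≤ U (up J)) :
    (Bs M J q : ℝ) = (q * M - ∑ t ∈ range q, φB' M (wn M t I) (wn M t J)) / 2 := by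
  have := sum_φB hG hW hM I hJ
  rw [this]
  rfl

end sums

/-- exponential bounds add up -/
lemma exp_bound {C c d s : ℝ} (hC : 0 ≤ C) (hd : d ≤ c) (hs : 0 ≤ s) :
    C * Real.exp (-(c * s)) ≤ C * Real.exp (-(d * s)) := by
  refine mul_le_mul_of_nonneg_left (Real.exp_le_exp.2 ?_) hC
  nlinarith

lemma ind_six {p a b c d e f : Prop} (h : p → a ∨ b ∨ c ∨ d ∨ e ∨ f) :
    ind p ≤ ind a + ind b + ind c + ind d + ind e + ind f := by
  have n1 := ind_nonneg a
  have n2 := ind_nonneg b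
  have n3 := ind_nonneg c
  have n4 := ind_nonneg d
  have n5 := ind_nonneg e
  have n6 := ind_nonneg f
  by_cases hp : p
  · have h1 : ind p = 1 := by simp [ind, hp]
    rw [h1]
    rcases h hp with h | h | h | h | h | h
    · have : ind a = 1 := by simp [ind, h]
      linarith
    · have : ind b = 1 := by simp [ind, h]
      linarith
    · have : ind c = 1 := by simp [ind, h]
      linarith
    · have : ind d = 1 := by simp [ind, h]
      linarith
    · have : ind e = 1 := by simp [ind, h]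
      linarith
    · have : ind f = 1 := by simp [ind, h]
      linarith
  · have h1 : ind p = 0 := by simp [ind, hp]
    rw [h1]
    positivity

/-- the event of a large deviation -/
def Ev (M : ℕ) (φ : W → W → ℝ) (a ε C : ℝ) (r : ℕ) (I J : W) : Prop :=
  ∃ m : ℕ, m = min (U (up I)) (Dn (up J)) ∧ C + ε * ((m : ℝ) + Real.sqrt r) <
    |∑ t ∈ range (m / M), φ (wn M t I) (wn M t (mir J)) - ((m / M : ℕ) : ℝ) * a|

/-- the event of a large deviation, closing -/
def Evo (M : ℕ) (φ : W → W → ℝ) (a ε C : ℝ) (r : ℕ) (w : W) : Prop :=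
  bal w ∧ ∃ h : ℕ, h = U (up w) ∧ C + ε * ((h : ℝ) + Real.sqrt r) <
    |∑ t ∈ range (h / M), φ (wn M t w) (wn M t (mir w)) - ((h / M : ℕ) : ℝ) * a|

lemma bal_sw {w : W} (h : bal w) : bal (sw w) := by
  unfold bal at h ⊢
  rw [up_sw, lo_sw]
  exact ⟨h.2, h.1⟩

theorem main (hU : S_U) (hW : S_WN) (hG : S_GG) (hw : S_W) (hwo : S_WO) (hD : S_DEV)
    (hB : S_BM) : S_APPROX := by
  -- the means
  have h1 := fun M : ℕ => hD (M + 1) ((M + 1 : ℕ) : ℝ) (φG (M + 1)) (Nat.succ_pos M)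
    (φG_nonneg _) (φG_le _)
  have h2 := fun M : ℕ => hD (M + 1) ((M + 1 : ℕ) : ℝ) (φB (M + 1)) (Nat.succ_pos M)
    (φB_nonneg _) (φB_le _)
  have h3 := fun M : ℕ => hD (M + 1) ((M + 1 : ℕ) : ℝ) (φB' (M + 1)) (Nat.succ_pos M)
    (φB'_nonneg _) (φB'_le _)
  choose aG aG1 aG2 aG3 using h1
  choose aB aB1 aB2 aB3 using h2
  choose aC aC1 aC2 aC3 using h3
  have mn_nonneg : ∀ (M : ℕ) (φ : W → W → ℝ) (_ : ∀ L L', 0 ≤ φ L L') (r : ℕ), 0 ≤ mn M φ r := by
    intro M φ hφ r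
    refine Ew_nonneg fun I _ => Ew_nonneg fun J _ => ?_
    split_ifs
    · exact hφ _ _
    · exact le_rfl
  have mn_le : ∀ (M : ℕ) (φ : W → W → ℝ) (B : ℝ) (_ : 0 ≤ B) (_ : ∀ L L', φ L L' ≤ B) (r : ℕ),
      mn M φ r ≤ B := by
    intro M φ B hB0 hφ r
    unfold mn
    refine (Ew_mono (G := fun _ => B) fun I _ => ?_).trans_eq (Ew_const r B)
    refine (Ew_mono (G := fun _ => B) fun J _ => ?_).trans_eq (Ew_const r B)
    split_ifs
    · exact hφ _ _
    · exact hB0
  have hG0 : ∀ M, 0 ≤ aG M := fun M => (mn_nonneg _ _ (φG_nonneg _) 0).trans (aG1 M 0)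
  have hGM : ∀ M, aG M ≤ ((M + 1 : ℕ) : ℝ) := fun M =>
    le_of_tendsto (aG2 M) (Eventually.of_forall fun r => mn_le _ _ _ (Nat.cast_nonneg _)
      (φG_le _) r)
  -- the constant
  obtain ⟨a, ha, ψ, hψ, hlim⟩ := isCompact_Icc.tendsto_subseq
    (x := fun M : ℕ => aG M / ((M + 1 : ℕ) : ℝ)) (s := Set.Icc (0 : ℝ) 1) (fun M => by
      have hp : (0 : ℝ) < ((M + 1 : ℕ) : ℝ) := by positivity
      exact ⟨div_nonneg (hG0 M) hp.le, (div_le_one hp).2 (hGM M)⟩)
  refine ⟨a, ha.1, ha.2, fun ε hε => ?_⟩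
  obtain ⟨ε1, hε1⟩ : ∃ ε1, ε1 = ε / 20 := ⟨_, rfl⟩
  have hε10 : 0 < ε1 := by rw [hε1]; positivity
  obtain ⟨M₀, hM₀⟩ := hB ε1 hε10
  obtain ⟨k, hk1, hk2⟩ : ∃ k, |aG (ψ k) / ((ψ k + 1 : ℕ) : ℝ) - a| ≤ ε1 ∧ M₀ ≤ ψ k + 1 := by
    have e1 : ∀ᶠ k in atTop, |aG (ψ k) / ((ψ k + 1 : ℕ) : ℝ) - a| < ε1 := by
      have := (Metric.tendsto_nhds.1 hlim) ε1 hε10
      simpa [Real.dist_eq] using this
    have e2 : ∀ᶠ k in atTop, M₀ ≤ ψ k + 1 := by
      filter_upwards [eventually_ge_atTop M₀] with k hk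
      have := hψ.id_le k
      simp only [id] at this
      omega
    obtain ⟨k, hk⟩ := (e1.and e2).exists
    exact ⟨k, hk.1.le, hk.2⟩
  obtain ⟨K, hK⟩ : ∃ K, K = ψ k := ⟨_, rfl⟩
  rw [← hK] at hk1 hk2
  obtain ⟨M, hM⟩ : ∃ M, M = K + 1 := ⟨_, rfl⟩
  have hMpos : 0 < M := by omega
  -- bounds for the means of the defects
  have hBle : aB K ≤ ε1 * M := by
    refine le_of_tendsto (aB2 K) (Eventually.of_forall fun r => ?_)
    rw [← hM]
    refine le_trans ?_ (hM₀ M (by omega) r)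
    unfold mn
    refine Ew_mono fun I _ => ?_
    by_cases hI : M ≤ U (up I)
    · rw [if_pos hI]
      have hwin := (hW.2.1 M I hMpos hI).1
      rw [← φB_win hG (L' := []) hwin]
      refine (Ew_mono (G := fun _ => φB M (sfx M I) []) fun J _ => ?_).trans_eq (Ew_const r _)
      split_ifs
      · exact le_rfl
      · exact φB_nonneg _ _ _
    · rw [if_neg hI]
      have : (fun J : W => if M ≤ U (up I) ∧ M ≤ U (up J) then φB M (sfx M I) (sfx M J) else 0) =
          fun _ => (0 : ℝ) := by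
        funext J
        rw [if_neg (fun h => hI h.1)]
      rw [this, Ew_const]
  have hCle : aC K ≤ ε1 * M := by
    refine le_of_tendsto (aC2 K) (Eventually.of_forall fun r => ?_)
    rw [← hM]
    refine le_trans ?_ (hM₀ M (by omega) r)
    unfold mn
    rw [Ew_comm]
    refine Ew_mono fun I _ => ?_
    by_cases hI : M ≤ U (up I)
    · rw [if_pos hI]
      have hwin := (hW.2.1 M I hMpos hI).1
      rw [← φB'_win hG (L := []) hwin]
      refine (Ew_mono (G := fun _ => φB' M [] (sfx M I)) fun J _ => ?_).trans_eq (Ew_const r _)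
      split_ifs
      · exact le_rfl
      · exact φB'_nonneg _ _ _
    · rw [if_neg hI]
      have : (fun J : W => if M ≤ U (up J) ∧ M ≤ U (up I) then φB' M (sfx M J) (sfx M I) else 0) =
          fun _ => (0 : ℝ) := by
        funext J
        rw [if_neg (fun h => hI h.2)]
      rw [this, Ew_const]
  obtain ⟨C1, c1, hc1, u1, v1⟩ := aG3 K ε1 hε10
  obtain ⟨C2, c2, hc2, u2, v2⟩ := aB3 K ε1 hε10
  obtain ⟨C3, c3, hc3, u3, v3⟩ := aC3 K ε1 hε10
  rw [← hM] at u1 u2 u3 v1 v2 v3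
  obtain ⟨c, hc⟩ : ∃ c, c = min c1 (min c2 c3) := ⟨_, rfl⟩
  have hc0 : 0 < c := by rw [hc]; exact lt_min hc1 (lt_min hc2 hc3)
  obtain ⟨C, hC⟩ : ∃ C, C = 2 * |C1| + 2 * |C2| + 2 * |C3| + 4 * (M : ℝ) := ⟨_, rfl⟩
  have hCabs : ∀ (D d : ℝ) (s : ℝ), c ≤ d → 0 ≤ s → D * Real.exp (-(d * s)) ≤
      |D| * Real.exp (-(c * s)) := by
    intro D d s hd hs
    calc D * Real.exp (-(d * s)) ≤ |D| * Real.exp (-(d * s)) :=
          mul_le_mul_of_nonneg_right (le_abs_self D) (Real.exp_pos _).le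
      _ ≤ |D| * Real.exp (-(c * s)) := exp_bound (abs_nonneg D) hd hs
  have hcc1 : c ≤ c1 := by rw [hc]; exact min_le_left _ _
  have hcc2 : c ≤ c2 := by rw [hc]; exact (min_le_right _ _).trans (min_le_left _ _)
  have hcc3 : c ≤ c3 := by rw [hc]; exact (min_le_right _ _).trans (min_le_right _ _)
  have hfin : ∀ s : ℝ, 0 ≤ s → 2 * (C1 * Real.exp (-(c1 * s))) + 2 * (C2 * Real.exp (-(c2 * s))) +
      2 * (C3 * Real.exp (-(c3 * s))) ≤ C * Real.exp (-(c * s)) := by
    intro s hs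
    have e1 := hCabs C1 c1 s hcc1 hs
    have e2 := hCabs C2 c2 s hcc2 hs
    have e3 := hCabs C3 c3 s hcc3 hs
    have e4 : 0 ≤ 4 * (M : ℝ) * Real.exp (-(c * s)) := by positivity
    rw [hC]
    nlinarith
  have hMr : (M : ℝ) = ((K + 1 : ℕ) : ℝ) := by rw [hM]
  have haM : |aG K / M - a| ≤ ε1 := by rw [hMr]; exact hk1
  have haM1 : aG K ≤ M := by rw [hMr]; exact hGM K
  refine ⟨C, c, hc0, fun r => ?_, fun r => ?_⟩
  · -- joining two words
    have hs : 0 ≤ Real.sqrt r := Real.sqrt_nonneg _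
    have key : ∀ I J : W, C + ε * ((mm I J : ℝ) + Real.sqrt r) <
        |(f (I ++ J) : ℝ) - f I - f J - a * (mm I J : ℝ)| →
        Ev M (φG M) (aG K) ε1 C1 r I J ∨ Ev M (φG M) (aG K) ε1 C1 r (sw I) (sw J) ∨
        Ev M (φB M) (aB K) ε1 C2 r I J ∨ Ev M (φB M) (aB K) ε1 C2 r (sw I) (sw J) ∨
        Ev M (φB' M) (aC K) ε1 C3 r I J ∨ Ev M (φB' M) (aC K) ε1 C3 r (sw I) (sw J) := by
      intro I J hIJ
      by_contra hcon
      push Not at hcon
      obtain ⟨n1, n2, n3, n4, n5, n6⟩ := hcon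
      unfold Ev at n1 n2 n3 n4 n5 n6
      push Not at n1 n2 n3 n4 n5 n6
      obtain ⟨m, hm⟩ : ∃ m, m = min (U (up I)) (Dn (up J)) := ⟨_, rfl⟩
      obtain ⟨m', hm'⟩ : ∃ m', m' = min (U (lo I)) (Dn (lo J)) := ⟨_, rfl⟩
      have hmm : (mm I J : ℝ) = m + m' := by
        unfold mm
        rw [← hm, ← hm']
        push_cast
        ring
      obtain ⟨w1, w2⟩ := hw M I J hMpos m m' hm hm'
      have hUJ : U (up (mir J)) = Dn (up J) := by rw [up_mir]; exact (hU.2.2 _).1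
      have hUJ' : U (up (sw (mir J))) = Dn (lo J) := by
        rw [up_sw, lo_mir]; exact (hU.2.2 _).1
      have q1 : m / M * M ≤ U (up I) := (Nat.div_mul_le_self m M).trans (by rw [hm]; exact min_le_left _ _)
      have q2 : m / M * M ≤ U (up (mir J)) := by
        rw [hUJ]; exact (Nat.div_mul_le_self m M).trans (by rw [hm]; exact min_le_right _ _)
      have q3 : m' / M * M ≤ U (up (sw I)) := by
        rw [up_sw]; exact (Nat.div_mul_le_self m' M).trans (by rw [hm']; exact min_le_left _ _)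
      have q4 : m' / M * M ≤ U (up (sw (mir J))) := by
        rw [hUJ']; exact (Nat.div_mul_le_self m' M).trans (by rw [hm']; exact min_le_right _ _)
      have p1 := n1 m hm
      have p2 := n2 m' (by rw [up_sw, up_sw]; exact hm')
      have p3 := n3 m hm
      have p4 := n4 m' (by rw [up_sw, up_sw]; exact hm')
      have p5 := n5 m hm
      have p6 := n6 m' (by rw [up_sw, up_sw]; exact hm')
      rw [← sw_mir] at p2 p4 p6
      have w1' : (Gs M I (mir J) (m / M) : ℝ) + Gs M (sw I) (sw (mir J)) (m' / M) ≤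
          (f (I ++ J) : ℝ) - f I - f J := by
        have : ((f I + f J + (Gs M I (mir J) (m / M) + Gs M (sw I) (sw (mir J)) (m' / M)) : ℕ) : ℝ) ≤
          (f (I ++ J) : ℕ) := by exact_mod_cast w1
        push_cast at this
        linarith
      have w2' : ((f (I ++ J) : ℝ) - f I - f J) + (((Bs M I (m / M) : ℝ) + Bs M (mir J) (m / M)) +
          Bs M (sw I) (m' / M) + Bs M (sw (mir J)) (m' / M)) ≤
          (Gs M I (mir J) (m / M) : ℝ) + Gs M (sw I) (sw (mir J)) (m' / M) + (m + m') := by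
        have : ((f (I ++ J) + (Bs M I (m / M) + Bs M (mir J) (m / M) + Bs M (sw I) (m' / M) +
            Bs M (sw (mir J)) (m' / M)) : ℕ) : ℝ) ≤ ((f I + f J + (Gs M I (mir J) (m / M) +
            Gs M (sw I) (sw (mir J)) (m' / M)) + (m + m') : ℕ) : ℝ) := by exact_mod_cast w2
        push_cast at this
        linarith
      rw [← sum_φG hG hW hMpos q1, ← sum_φG hG hW hMpos q3] at w1' w2'
      rw [sum_φB hG hW hMpos (mir J) q1, sum_φB' hG hW hMpos I q2,
        sum_φB hG hW hMpos (sw (mir J)) q3, sum_φB' hG hW hMpos (sw I) q4] at w2'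
      have := det M m m' (m / M) (m' / M) hMpos rfl rfl _ _ _ _ _ _ _ (aG K) (aB K) (aC K) a ε1
        C1 C2 C3 (Real.sqrt r) hε10.le w1' w2' p1 p2 p3 p5 p4 p6 hs (hG0 K) haM1 haM hBle hCle
      rw [hmm] at hIJ
      have hle : (2 * |C1| + |C2| + |C3| + 4 * (M : ℝ)) + 10 * ε1 * ((m : ℝ) + m' + Real.sqrt r) ≤
          C + ε * ((m : ℝ) + m' + Real.sqrt r) := by
        have g1 := abs_nonneg C2
        have g2 := abs_nonneg C3
        have g3 : (0 : ℝ) ≤ (m : ℝ) + m' + Real.sqrt r := by positivity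
        rw [hC, hε1]
        nlinarith
      linarith
    have hswap : ∀ (φ : W → W → ℝ) (a' C' : ℝ), Ew r (fun I => Ew r fun J =>
        ind (Ev M φ a' ε1 C' r (sw I) (sw J))) = Ew r (fun I => Ew r fun J =>
        ind (Ev M φ a' ε1 C' r I J)) := by
      intro φ a' C'
      rw [← Ew_sw r (fun I => Ew r fun J => ind (Ev M φ a' ε1 C' r I J))]
      congr 1
      funext I
      exact Ew_sw r (fun J => ind (Ev M φ a' ε1 C' r (sw I) J))
    calc Ew r (fun I => Ew r fun J => ind (C + ε * ((mm I J : ℝ) + Real.sqrt r) <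
          |(f (I ++ J) : ℝ) - f I - f J - a * (mm I J : ℝ)|))
        ≤ Ew r (fun I => Ew r fun J => (ind (Ev M (φG M) (aG K) ε1 C1 r I J) +
            ind (Ev M (φG M) (aG K) ε1 C1 r (sw I) (sw J)) +
            ind (Ev M (φB M) (aB K) ε1 C2 r I J) +
            ind (Ev M (φB M) (aB K) ε1 C2 r (sw I) (sw J)) +
            ind (Ev M (φB' M) (aC K) ε1 C3 r I J) +
            ind (Ev M (φB' M) (aC K) ε1 C3 r (sw I) (sw J)))) :=
          Ew_mono fun I _ => Ew_mono fun J _ => ind_six (key I J)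
      _ = 2 * Ew r (fun I => Ew r fun J => ind (Ev M (φG M) (aG K) ε1 C1 r I J)) +
          2 * Ew r (fun I => Ew r fun J => ind (Ev M (φB M) (aB K) ε1 C2 r I J)) +
          2 * Ew r (fun I => Ew r fun J => ind (Ev M (φB' M) (aC K) ε1 C3 r I J)) := by
          simp only [Ew_add]
          rw [hswap, hswap, hswap]
          ring
      _ ≤ 2 * (C1 * Real.exp (-(c1 * Real.sqrt r))) + 2 * (C2 * Real.exp (-(c2 * Real.sqrt r))) +
          2 * (C3 * Real.exp (-(c3 * Real.sqrt r))) := by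
          have e1 := u1 r
          have e2 := u2 r
          have e3 := u3 r
          unfold Ev
          linarith
      _ ≤ _ := hfin _ hs
  · -- closing a word
    have hs : 0 ≤ Real.sqrt r := Real.sqrt_nonneg _
    have key : ∀ w : W, (bal w ∧ C + ε * ((U (up w) : ℝ) + U (lo w) + Real.sqrt r) <
        |(fo w : ℝ) - f w - a * ((U (up w) : ℝ) + U (lo w))|) →
        Evo M (φG M) (aG K) ε1 C1 r w ∨ Evo M (φG M) (aG K) ε1 C1 r (sw w) ∨
        Evo M (φB M) (aB K) ε1 C2 r w ∨ Evo M (φB M) (aB K) ε1 C2 r (sw w) ∨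
        Evo M (φB' M) (aC K) ε1 C3 r w ∨ Evo M (φB' M) (aC K) ε1 C3 r (sw w) := by
      rintro w ⟨hb, hIJ⟩
      by_contra hcon
      push Not at hcon
      obtain ⟨n1, n2, n3, n4, n5, n6⟩ := hcon
      have hb' := bal_sw hb
      unfold Evo at n1 n2 n3 n4 n5 n6
      push Not at n1 n2 n3 n4 n5 n6
      obtain ⟨m, hm⟩ : ∃ m, m = U (up w) := ⟨_, rfl⟩
      obtain ⟨m', hm'⟩ : ∃ m', m' = U (lo w) := ⟨_, rfl⟩
      obtain ⟨w1, w2⟩ := hwo M w hMpos hb m m' hm hm'
      have hU1 : Dn (up w) = U (up w) := by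
        have h5 := hU.2.1 (up w)
        have h6 := hb.1
        omega
      have hU2 : Dn (lo w) = U (lo w) := by
        have h5 := hU.2.1 (lo w)
        have h6 := hb.2
        omega
      have hUJ : U (up (mir w)) = m := by rw [up_mir, (hU.2.2 _).1, hU1, hm]
      have hUJ' : U (up (sw (mir w))) = m' := by
        rw [up_sw, lo_mir, (hU.2.2 _).1, hU2, hm']
      have q1 : m / M * M ≤ U (up w) := (Nat.div_mul_le_self m M).trans (by rw [hm])
      have q2 : m / M * M ≤ U (up (mir w)) := by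
        rw [hUJ]; exact (Nat.div_mul_le_self m M)
      have q3 : m' / M * M ≤ U (up (sw w)) := by
        rw [up_sw]; exact (Nat.div_mul_le_self m' M).trans (by rw [hm'])
      have q4 : m' / M * M ≤ U (up (sw (mir w))) := by
        rw [hUJ']; exact (Nat.div_mul_le_self m' M)
      have p1 := n1 hb m hm
      have p2 := n2 hb' m' (by rw [up_sw]; exact hm')
      have p3 := n3 hb m hm
      have p4 := n4 hb' m' (by rw [up_sw]; exact hm')
      have p5 := n5 hb m hm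
      have p6 := n6 hb' m' (by rw [up_sw]; exact hm')
      rw [← sw_mir] at p2 p4 p6
      have w1' : (Gs M w (mir w) (m / M) : ℝ) + Gs M (sw w) (sw (mir w)) (m' / M) ≤
          (fo w : ℝ) - f w := by
        have : ((f w + (Gs M w (mir w) (m / M) + Gs M (sw w) (sw (mir w)) (m' / M)) : ℕ) : ℝ) ≤
          (fo w : ℕ) := by exact_mod_cast w1
        push_cast at this
        linarith
      have w2' : ((fo w : ℝ) - f w) + (((Bs M w (m / M) : ℝ) + Bs M (mir w) (m / M)) +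
          Bs M (sw w) (m' / M) + Bs M (sw (mir w)) (m' / M)) ≤
          (Gs M w (mir w) (m / M) : ℝ) + Gs M (sw w) (sw (mir w)) (m' / M) + (m + m') := by
        have : ((fo w + (Bs M w (m / M) + Bs M (mir w) (m / M) + Bs M (sw w) (m' / M) +
            Bs M (sw (mir w)) (m' / M)) : ℕ) : ℝ) ≤ ((f w + (Gs M w (mir w) (m / M) +
            Gs M (sw w) (sw (mir w)) (m' / M)) + (m + m') : ℕ) : ℝ) := by exact_mod_cast w2
        push_cast at this
        linarith
      rw [← sum_φG hG hW hMpos q1, ← sum_φG hG hW hMpos q3] at w1' w2'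
      rw [sum_φB hG hW hMpos (mir w) q1, sum_φB' hG hW hMpos w q2,
        sum_φB hG hW hMpos (sw (mir w)) q3, sum_φB' hG hW hMpos (sw w) q4] at w2'
      have := det M m m' (m / M) (m' / M) hMpos rfl rfl _ _ _ _ _ _ _ (aG K) (aB K) (aC K) a ε1
        C1 C2 C3 (Real.sqrt r) hε10.le w1' w2' p1 p2 p3 p5 p4 p6 hs (hG0 K) haM1 haM hBle hCle
      rw [← hm, ← hm'] at hIJ
      have hle : (2 * |C1| + |C2| + |C3| + 4 * (M : ℝ)) + 10 * ε1 * ((m : ℝ) + m' + Real.sqrt r) ≤
          C + ε * ((m : ℝ) + m' + Real.sqrt r) := by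
        have g1 := abs_nonneg C2
        have g2 := abs_nonneg C3
        have g3 : (0 : ℝ) ≤ (m : ℝ) + m' + Real.sqrt r := by positivity
        rw [hC, hε1]
        nlinarith
      linarith
    have hswap : ∀ (φ : W → W → ℝ) (a' C' : ℝ), Ew r (fun w =>
        ind (Evo M φ a' ε1 C' r (sw w))) = Ew r (fun w => ind (Evo M φ a' ε1 C' r w)) := by
      intro φ a' C'
      exact Ew_sw r (fun w => ind (Evo M φ a' ε1 C' r w))
    calc Ew r (fun w => ind (bal w ∧ C + ε * ((U (up w) : ℝ) + U (lo w) + Real.sqrt r) <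
          |(fo w : ℝ) - f w - a * ((U (up w) : ℝ) + U (lo w))|))
        ≤ Ew r (fun w => (ind (Evo M (φG M) (aG K) ε1 C1 r w) +
            ind (Evo M (φG M) (aG K) ε1 C1 r (sw w)) +
            ind (Evo M (φB M) (aB K) ε1 C2 r w) +
            ind (Evo M (φB M) (aB K) ε1 C2 r (sw w)) +
            ind (Evo M (φB' M) (aC K) ε1 C3 r w) +
            ind (Evo M (φB' M) (aC K) ε1 C3 r (sw w)))) :=
          Ew_mono fun w _ => ind_six (key w)
      _ = 2 * Ew r (fun w => ind (Evo M (φG M) (aG K) ε1 C1 r w)) +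
          2 * Ew r (fun w => ind (Evo M (φB M) (aB K) ε1 C2 r w)) +
          2 * Ew r (fun w => ind (Evo M (φB' M) (aC K) ε1 C3 r w)) := by
          simp only [Ew_add]
          rw [hswap, hswap, hswap]
          ring
      _ ≤ 2 * (C1 * Real.exp (-(c1 * Real.sqrt r))) + 2 * (C2 * Real.exp (-(c2 * Real.sqrt r))) +
          2 * (C3 * Real.exp (-(c3 * Real.sqrt r))) := by
          have e1 := v1 r
          have e2 := v2 r
          have e3 := v3 r
          unfold Evo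
          linarith
      _ ≤ _ := hfin _ hs

end Pool.Agent.N940.MN.Approx
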