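import Pool.Agent.N940.MN.Stm2

/-!
# Heights, arcs, unmatched letters of a bracket word
-/

set_option autoImplicit false

namespace Pool.Agent.N940.MN.Arc1

open Pool.Agent.N940.MN

/-! ### numbers of unmatched letters -/

theorem tot_nil : tot [] = 0 := rfl

theorem tot_append (v w : List Bool) : tot (v ++ w) = tot v + tot w := by
  simp [tot]

theorem Dn_nil : Dn [] = 0 := rfl

theorem U_nil : U [] = 0 := rfl

theorem Dn_snoc_true (v : List Bool) : Dn (v ++ [true]) = Dn v := by
  simp [Dn, stp]

theorem U_snoc_true (v : List Bool) : U (v ++ [true]) = U v + 1 := by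
  simp [U, stp]

theorem foldl_snoc (v : List Bool) (b : Bool) :
    (v ++ [b]).foldl stp (0, 0) = stp (Dn v, U v) b := by
  rw [List.foldl_append]
  rfl

theorem Dn_snoc_false (v : List Bool) : Dn (v ++ [false]) = if U v = 0 then Dn v + 1 else Dn v := by
  have h : Dn (v ++ [false]) = (stp (Dn v, U v) false).1 := congrArg Prod.fst (foldl_snoc v false)
  rw [h]
  by_cases hU : U v = 0
  · rw [if_pos hU]
    simp [stp, hU]
  · rw [if_neg hU]
    simp [stp, hU]

theorem U_snoc_false (v : List Bool) : U (v ++ [false]) = U v - 1 := by
  have h : U (v ++ [false]) = (stp (Dn v, U v) false).2 := congrArg Prod.snd (foldl_snoc v false)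
  rw [h]
  by_cases hU : U v = 0
  · simp [stp, hU]
  · simp [stp, hU]

theorem foldl_stp (w : List Bool) (d u : ℕ) :
    w.foldl stp (d, u) = (d + (Dn w - u), U w + (u - Dn w)) := by
  induction w using List.reverseRecOn with
  | nil => simp [Dn_nil, U_nil]
  | append_singleton w b ih =>
    rw [List.foldl_append, ih]
    cases b with
    | true =>
      rw [Dn_snoc_true, U_snoc_true]
      simp only [List.foldl_cons, List.foldl_nil, stp, if_true]
      ext
      · rfl
      · simp only; omega
    | false =>
      rw [Dn_snoc_false, U_snoc_false]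
      simp only [List.foldl_cons, List.foldl_nil, stp, Bool.false_eq_true, if_false]
      split_ifs <;> ext <;> simp only <;> omega

theorem Dn_append (v w : List Bool) : Dn (v ++ w) = Dn v + (Dn w - U v) := by
  have : Dn (v ++ w) = (w.foldl stp (Dn v, U v)).1 := by
    simp only [Dn, U, List.foldl_append]
  rw [this, foldl_stp]

theorem U_append (v w : List Bool) : U (v ++ w) = U w + (U v - Dn w) := by
  have : U (v ++ w) = (w.foldl stp (Dn v, U v)).2 := by
    simp only [Dn, U, List.foldl_append]
  rw [this, foldl_stp]

theorem tot_true : tot [true] = 1 := rfl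

theorem tot_false : tot [false] = -1 := rfl

theorem tot_eq (v : List Bool) : tot v = (U v : ℤ) - Dn v := by
  induction v using List.reverseRecOn with
  | nil => simp [Dn_nil, U_nil, tot_nil]
  | append_singleton w b ih =>
    cases b with
    | true =>
      rw [tot_append, tot_true, Dn_snoc_true, U_snoc_true]
      omega
    | false =>
      rw [tot_append, tot_false, Dn_snoc_false, U_snoc_false]
      split_ifs <;> omega

theorem mirror (v : List Bool) :
    U ((v.map not).reverse) = Dn v ∧ Dn ((v.map not).reverse) = U v := by
  have h1 : U [true] = 1 := rfl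
  have h2 : U [false] = 0 := rfl
  have h3 : Dn [true] = 0 := rfl
  have h4 : Dn [false] = 1 := rfl
  induction v with
  | nil => exact ⟨rfl, rfl⟩
  | cons b v ih =>
    obtain ⟨i1, i2⟩ := ih
    have e : ((b :: v).map not).reverse = (v.map not).reverse ++ [!b] := by simp
    have e' : b :: v = [b] ++ v := rfl
    rw [e, U_append, Dn_append, e', U_append, Dn_append, i1, i2]
    cases b
    · rw [Bool.not_false, h1, h2, h3, h4]
      omega
    · rw [Bool.not_true, h1, h2, h3, h4]
      omega

theorem uu : S_U :=
  ⟨fun v w => ⟨Dn_append v w, U_append v w⟩, tot_eq, mirror⟩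

/-! ### heights -/

theorem ht_zero (v : List Bool) : ht v 0 = 0 := by
  simp [ht, tot]

theorem ht_length (v : List Bool) : ht v v.length = tot v := by
  simp [ht]

theorem ht_succ {v : List Bool} {i : ℕ} {b : Bool} (h : v[i]? = some b) :
    ht v (i + 1) = ht v i + sg b := by
  rw [ht, ht, List.take_add_one, h, tot_append]
  simp [tot]

theorem ht_up {v : List Bool} {i : ℕ} (h : v[i]? = some true) : ht v (i + 1) = ht v i + 1 :=
  ht_succ h

theorem ht_down {v : List Bool} {i : ℕ} (h : v[i]? = some false) :
    ht v (i + 1) = ht v i - 1 := ht_succ h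

theorem letter {v : List Bool} {i : ℕ} (h : i < v.length) :
    v[i]? = some true ∧ ht v (i + 1) = ht v i + 1 ∨
      v[i]? = some false ∧ ht v (i + 1) = ht v i - 1 := by
  have h0 : v[i]? = some v[i] := List.getElem?_eq_getElem h
  cases hb : v[i] with
  | true => rw [hb] at h0; exact Or.inl ⟨h0, ht_up h0⟩
  | false => rw [hb] at h0; exact Or.inr ⟨h0, ht_down h0⟩

theorem arc_letters (v : List Bool) (x y : ℕ) (h : arc v x y) :
    v[x]? = some true ∧ v[y]? = some false := by
  obtain ⟨h1, h2, h3, h4⟩ := h
  have a := h4 (x + 1) (by omega) (by omega)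
  have b := h4 y h1 le_rfl
  constructor
  · rcases letter (v := v) (i := x) (by omega) with ⟨c, d⟩ | ⟨c, d⟩
    · exact c
    · omega
  · rcases letter (v := v) (i := y) (by omega) with ⟨c, d⟩ | ⟨c, d⟩
    · omega
    · exact c

theorem rop_letter (v : List Bool) (k x : ℕ) (h : rop v k x) : v[x]? = some true := by
  obtain ⟨h1, h2, h3⟩ := h
  have a := h3 (x + 1) (by omega) (by omega)
  rcases letter (v := v) (i := x) (by omega) with ⟨c, d⟩ | ⟨c, d⟩
  · exact c
  · omega

theorem lop_letter (v : List Bool) (k x : ℕ) (h : lop v k x) : v[x]? = some false := by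
  obtain ⟨h1, h2, h3⟩ := h
  have a := h3 x le_rfl
  rcases letter (v := v) (i := x) (by omega) with ⟨c, d⟩ | ⟨c, d⟩
  · omega
  · exact c

theorem arc_right (v : List Bool) (x y z : ℕ) (h : arc v x y) (h' : arc v x z) : y = z := by
  obtain ⟨h1, h2, h3, h4⟩ := h
  obtain ⟨g1, g2, g3, g4⟩ := h'
  rcases lt_trichotomy y z with c | c | c
  · have := g4 (y + 1) (by omega) (by omega)
    omega
  · exact c
  · have := h4 (z + 1) (by omega) (by omega)
    omega

theorem arc_left (v : List Bool) (x y z : ℕ) (h : arc v x z) (h' : arc v y z) : x = y := by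
  obtain ⟨h1, h2, h3, h4⟩ := h
  obtain ⟨g1, g2, g3, g4⟩ := h'
  rcases lt_trichotomy x y with c | c | c
  · have := h4 y (by omega) (by omega)
    omega
  · exact c
  · have := g4 x (by omega) (by omega)
    omega

theorem rop_unique (v : List Bool) (k x y : ℕ) (h : rop v k x) (h' : rop v k y) : x = y := by
  obtain ⟨h1, h2, h3⟩ := h
  obtain ⟨g1, g2, g3⟩ := h'
  rcases lt_trichotomy x y with c | c | c
  · have := h3 y (by omega) (by omega)
    omega
  · exact c
  · have := g3 x (by omega) (by omega)
    omega

theorem rop_unique' (v : List Bool) (k l x : ℕ) (h : rop v k x) (h' : rop v l x) : k = l := by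
  obtain ⟨h1, h2, h3⟩ := h
  obtain ⟨g1, g2, g3⟩ := h'
  omega

theorem lop_unique (v : List Bool) (k x y : ℕ) (h : lop v k x) (h' : lop v k y) : x = y := by
  obtain ⟨h1, h2, h3⟩ := h
  obtain ⟨g1, g2, g3⟩ := h'
  rcases lt_trichotomy x y with c | c | c
  · have := g3 (x + 1) (by omega)
    omega
  · exact c
  · have := h3 (y + 1) (by omega)
    omega

theorem lop_unique' (v : List Bool) (k l x : ℕ) (h : lop v k x) (h' : lop v l x) : k = l := by
  obtain ⟨h1, h2, h3⟩ := h
  obtain ⟨g1, g2, g3⟩ := h'
  omega

theorem rop_not_arc (v : List Bool) (k x y : ℕ) (h : rop v k x) : ¬ arc v x y := by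
  rintro ⟨g1, g2, g3, g4⟩
  obtain ⟨h1, h2, h3⟩ := h
  have := h3 (y + 1) (by omega) (by omega)
  omega

theorem lop_not_arc (v : List Bool) (k x y : ℕ) (h : lop v k y) : ¬ arc v x y := by
  rintro ⟨g1, g2, g3, g4⟩
  obtain ⟨h1, h2, h3⟩ := h
  have := h3 x (by omega)
  omega

theorem lt_length {v : List Bool} {x : ℕ} {b : Bool} (h : v[x]? = some b) : x < v.length := by
  by_contra hc
  rw [List.getElem?_eq_none (by omega)] at h
  cases h

theorem opening (v : List Bool) (x : ℕ) (h : v[x]? = some true) :
    (∃ y, arc v x y) ∨ ∃ k, rop v k x := by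
  classical
  have hx := lt_length h
  have h1 := ht_up h
  by_cases hc : ∃ z, x < z ∧ z ≤ v.length ∧ ht v z ≤ ht v x
  · left
    obtain ⟨a1, a2, a3⟩ := Nat.find_spec hc
    have hmin : ∀ z, z < Nat.find hc → x < z → ht v x < ht v z := by
      intro z hz hxz
      by_contra hn
      exact Nat.find_min hc hz ⟨hxz, by omega, by omega⟩
    have hne : Nat.find hc ≠ x + 1 := by
      intro he
      rw [he] at a3
      omega
    obtain ⟨y, hy⟩ : ∃ y, Nat.find hc = y + 1 := ⟨Nat.find hc - 1, by omega⟩
    rw [hy] at a1 a2 a3 hmin hne
    have b1 := hmin y (by omega) (by omega)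
    refine ⟨y, by omega, by omega, ?_, fun z hz1 hz2 => hmin z (by omega) hz1⟩
    rcases letter (v := v) (i := y) (by omega) with ⟨c, d⟩ | ⟨c, d⟩ <;> omega
  · right
    push Not at hc
    have h2 := hc v.length hx le_rfl
    rw [ht_length] at h2
    refine ⟨(tot v - ht v x - 1).toNat, hx, ?_, fun z hz1 hz2 => hc z hz1 hz2⟩
    omega

theorem closing (v : List Bool) (y : ℕ) (h : v[y]? = some false) :
    (∃ x, arc v x y) ∨ ∃ k, lop v k y := by
  classical
  have hy := lt_length h
  have h1 := ht_down h
  by_cases hc : ∃ z, z ≤ y ∧ ht v z ≤ ht v (y + 1)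
  · left
    obtain ⟨z₀, hz₀, hz₁⟩ := hc
    set x := Nat.findGreatest (fun z => ht v z ≤ ht v (y + 1)) y with hxd
    have hxs : ht v x ≤ ht v (y + 1) :=
      Nat.findGreatest_spec (P := fun z => ht v z ≤ ht v (y + 1)) hz₀ hz₁
    have hxy : x ≤ y := Nat.findGreatest_le y
    have hmax : ∀ z, x < z → z ≤ y → ht v (y + 1) < ht v z := by
      intro z hz1 hz2
      have := Nat.findGreatest_is_greatest (P := fun z => ht v z ≤ ht v (y + 1)) hz1 hz2
      simp only [not_le] at this
      exact this
    have hne : x ≠ y := by
      intro he
      rw [he] at hxs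
      omega
    have b1 := hmax (x + 1) (by omega) (by omega)
    have he : ht v (y + 1) = ht v x := by
      rcases letter (v := v) (i := x) (by omega) with ⟨c, d⟩ | ⟨c, d⟩ <;> omega
    exact ⟨x, by omega, hy, he, fun z hz1 hz2 => he ▸ hmax z hz1 hz2⟩
  · right
    push Not at hc
    have h2 := hc 0 (by omega)
    rw [ht_zero] at h2
    refine ⟨(-ht v (y + 1) - 1).toNat, hy, ?_, fun z hz => hc z hz⟩
    omega

/-! ### counting the unmatched letters -/

theorem ht_append_le (v w : List Bool) {i : ℕ} (h : i ≤ v.length) : ht (v ++ w) i = ht v i := by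
  rw [ht, ht, List.take_append_of_le_length h]

theorem ht_snoc_last (v : List Bool) (b : Bool) :
    ht (v ++ [b]) (v.length + 1) = tot v + sg b := by
  have : (v ++ [b]).length = v.length + 1 := by simp
  rw [← this, ht_length, tot_append]
  simp [tot]

theorem neg_Dn_le_ht (v : List Bool) (i : ℕ) : -(Dn v : ℤ) ≤ ht v i := by
  have h1 : Dn (v.take i) ≤ Dn v := by
    conv_rhs => rw [← List.take_append_drop i v]
    rw [Dn_append]
    omega
  rw [ht, tot_eq]
  omega

theorem rop_iff (v : List Bool) : ∀ k : ℕ, (∃ x, rop v k x) ↔ k < U v := by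
  induction v using List.reverseRecOn with
  | nil =>
    intro k
    rw [U_nil]
    constructor
    · rintro ⟨x, h, -⟩
      simp at h
    · intro h
      omega
  | append_singleton w b ih =>
    intro k
    have hlen : (w ++ [b]).length = w.length + 1 := by simp
    have hlast := ht_snoc_last w b
    have hle : ∀ i, i ≤ w.length → ht (w ++ [b]) i = ht w i := fun i hi => ht_append_le w [b] hi
    have hwl := ht_length w
    cases b with
    | true =>
      have hs : sg true = 1 := rfl
      have ht1 : tot (w ++ [true]) = tot w + 1 := by rw [tot_append, tot_true]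
      rw [U_snoc_true]
      rw [hs] at hlast
      constructor
      · rintro ⟨x, h1, h2, h3⟩
        rw [hlen] at h1 h3
        by_cases hk : k = 0
        · omega
        · obtain ⟨l, rfl⟩ : ∃ l, k = l + 1 := ⟨k - 1, by omega⟩
          have hx : x < w.length := by
            by_contra hx
            have : x = w.length := by omega
            rw [this, hle _ le_rfl, hwl, ht1] at h2
            push_cast at h2
            omega
          have : l < U w := by
            refine (ih l).1 ⟨x, hx, ?_, fun z hz1 hz2 => ?_⟩
            · rw [hle x hx.le, ht1] at h2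
              push_cast at h2
              omega
            · have := h3 z hz1 (by omega)
              rwa [hle x hx.le, hle z hz2] at this
          omega
      · intro hk
        by_cases hk0 : k = 0
        · refine ⟨w.length, by omega, ?_, fun z hz1 hz2 => ?_⟩
          · rw [hle _ le_rfl, ht1, hwl, hk0]
            norm_num
          · rw [hlen] at hz2
            have : z = w.length + 1 := by omega
            rw [this, hlast, hle _ le_rfl, hwl]
            omega
        · obtain ⟨l, rfl⟩ : ∃ l, k = l + 1 := ⟨k - 1, by omega⟩
          obtain ⟨x, h1, h2, h3⟩ := (ih l).2 (by omega)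
          refine ⟨x, by omega, ?_, fun z hz1 hz2 => ?_⟩
          · rw [hle x h1.le, ht1, h2]
            push_cast
            ring
          · rw [hlen] at hz2
            rw [hle x h1.le]
            rcases Nat.lt_or_ge w.length z with hz | hz
            · have : z = w.length + 1 := by omega
              rw [this, hlast]
              omega
            · rw [hle z hz]
              exact h3 z hz1 hz
    | false =>
      have hs : sg false = -1 := rfl
      have ht1 : tot (w ++ [false]) = tot w - 1 := by rw [tot_append, tot_false]; rfl
      rw [U_snoc_false]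
      rw [hs] at hlast
      have key : (∃ x, rop (w ++ [false]) k x) ↔ ∃ x, rop w (k + 1) x := by
        constructor
        · rintro ⟨x, h1, h2, h3⟩
          rw [hlen] at h1 h3
          have hx : x < w.length := by
            by_contra hx
            have hx' : x = w.length := by omega
            have := h3 (w.length + 1) (by omega) le_rfl
            rw [hx', hlast, hle _ le_rfl, hwl] at this
            omega
          refine ⟨x, hx, ?_, fun z hz1 hz2 => ?_⟩
          · rw [hle x hx.le, ht1] at h2
            push_cast
            omega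
          · have := h3 z hz1 (by omega)
            rwa [hle x hx.le, hle z hz2] at this
        · rintro ⟨x, h1, h2, h3⟩
          push_cast at h2
          refine ⟨x, by omega, ?_, fun z hz1 hz2 => ?_⟩
          · rw [hle x h1.le, ht1, h2]
            ring
          · rw [hlen] at hz2
            rw [hle x h1.le]
            rcases Nat.lt_or_ge w.length z with hz | hz
            · have : z = w.length + 1 := by omega
              rw [this, hlast]
              omega
            · rw [hle z hz]
              exact h3 z hz1 hz
      rw [key, ih (k + 1)]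
      omega

theorem lop_iff (v : List Bool) : ∀ k : ℕ, (∃ x, lop v k x) ↔ k < Dn v := by
  induction v using List.reverseRecOn with
  | nil =>
    intro k
    rw [Dn_nil]
    constructor
    · rintro ⟨x, h, -⟩
      simp at h
    · intro h
      omega
  | append_singleton w b ih =>
    intro k
    have hlen : (w ++ [b]).length = w.length + 1 := by simp
    have hlast := ht_snoc_last w b
    have hle : ∀ i, i ≤ w.length → ht (w ++ [b]) i = ht w i := fun i hi => ht_append_le w [b] hi
    have hwl := ht_length w
    have old : (∃ x, lop w k x) → ∃ x, lop (w ++ [b]) k x := by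
      rintro ⟨x, h1, h2, h3⟩
      refine ⟨x, by omega, ?_, fun z hz => ?_⟩
      · rw [hle _ (by omega), h2]
      · rw [hle _ (by omega), hle _ (by omega)]
        exact h3 z hz
    have new : (∃ x, lop (w ++ [b]) k x) → (∃ x, lop w k x) ∨ lop (w ++ [b]) k w.length := by
      rintro ⟨x, h1, h2, h3⟩
      rw [hlen] at h1
      by_cases hx : x = w.length
      · right
        rw [← hx]
        exact ⟨by omega, h2, h3⟩
      · left
        refine ⟨x, by omega, ?_, fun z hz => ?_⟩
        · rw [hle _ (by omega)] at h2
          exact h2
        · have := h3 z hz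
          rwa [hle _ (by omega), hle _ (by omega)] at this
    cases b with
    | true =>
      rw [Dn_snoc_true, ← ih k]
      refine ⟨fun h => (new h).resolve_right ?_, old⟩
      intro h
      have := lop_letter _ _ _ h
      simp at this
    | false =>
      have hs : sg false = -1 := rfl
      rw [hs] at hlast
      rw [Dn_snoc_false]
      split_ifs with hU
      · have htw : tot w = -(Dn w : ℤ) := by
          rw [tot_eq, hU]
          simp
        have hl : lop (w ++ [false]) (Dn w) w.length := by
          refine ⟨by omega, ?_, fun z hz => ?_⟩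
          · rw [hlast, htw]
            ring
          · rw [hlast, hle z hz, htw]
            have := neg_Dn_le_ht w z
            omega
        constructor
        · intro h
          rcases new h with h | h
          · have := (ih k).1 h
            omega
          · have := lop_unique' _ _ _ _ h hl
            omega
        · intro h
          rcases Nat.lt_or_ge k (Dn w) with hk | hk
          · exact old ((ih k).2 hk)
          · have : k = Dn w := by omega
            rw [this]
            exact ⟨_, hl⟩
      · rw [← ih k]
        refine ⟨fun h => (new h).resolve_right ?_, old⟩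
        rintro ⟨h1, h2, h3⟩
        obtain ⟨x, g1, g2, g3⟩ := (rop_iff w 0).2 (by omega)
        have := h3 x (by omega)
        rw [hlast, hle x (by omega)] at this
        push_cast at g2
        omega

theorem arc1 : S_ARC1 :=
  ⟨arc_letters, rop_letter, lop_letter, arc_right, arc_left, rop_unique, rop_unique', lop_unique,
    lop_unique', rop_not_arc, lop_not_arc, opening, closing, rop_iff, lop_iff⟩

end Pool.Agent.N940.MN.Arc1

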