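import Pool.Agent.N940.MN.Stm2

set_option autoImplicit false

/-!
# Project MN: arcs of concatenations and mirror images
-/

namespace Pool.Agent.N940.MN.Arc2

lemma tot_append (v w : List Bool) : tot (v ++ w) = tot v + tot w := by
  unfold tot
  rw [List.map_append, List.sum_append]

lemma ht_app_le (v w : List Bool) {i : ℕ} (h : i ≤ v.length) : ht (v ++ w) i = ht v i := by
  unfold ht
  rw [List.take_append_of_le_length h]

lemma ht_app_add (v w : List Bool) (i : ℕ) : ht (v ++ w) (v.length + i) = tot v + ht w i := by
  unfold ht
  rw [List.take_length_add_append, tot_append]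

lemma ht_len (v : List Bool) : ht v v.length = tot v := by
  unfold ht
  rw [List.take_length]

lemma ht_zero (v : List Bool) : ht v 0 = 0 := by
  unfold ht
  simp [tot]

lemma tot_drop (v : List Bool) (i : ℕ) : tot (v.drop i) = tot v - ht v i := by
  have := tot_append (v.take i) (v.drop i)
  rw [List.take_append_drop] at this
  unfold ht
  linarith

lemma tot_mirror (v : List Bool) : tot ((v.map not).reverse) = - tot v := by
  induction v with
  | nil => simp [tot]
  | cons b v ih =>
    rw [List.map_cons, List.reverse_cons, tot_append, ih]
    cases b <;> simp [tot, sg] <;> ring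

lemma ht_mirror (v : List Bool) {i : ℕ} (h : i ≤ v.length) :
    ht ((v.map not).reverse) i = ht v (v.length - i) - tot v := by
  unfold ht
  rw [List.take_reverse, List.length_map, ← List.map_drop, tot_mirror, tot_drop]
  unfold ht
  ring

section
variable (hU : S_U) (h1 : S_ARC1)
include hU

lemma low (v : List Bool) {z : ℕ} (hz : z ≤ v.length) : -(Dn v : ℤ) ≤ ht v z := by
  have e1 := hU.2.1 (v.take z)
  have e2 := (hU.1 (v.take z) (v.drop z)).1
  rw [List.take_append_drop] at e2
  unfold ht
  omega

lemma upp (v : List Bool) {z : ℕ} (hz : z ≤ v.length) : tot v - ht v z ≤ U v := by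
  have e1 := hU.2.1 (v.drop z)
  have e2 := (hU.1 (v.take z) (v.drop z)).2
  rw [List.take_append_drop] at e2
  rw [tot_drop] at e1
  omega

include h1

lemma low_ex (v : List Bool) : ∃ z ≤ v.length, ht v z = -(Dn v : ℤ) := by
  rcases Nat.eq_zero_or_pos (Dn v) with h | h
  · exact ⟨0, Nat.zero_le _, by rw [ht_zero, h]; simp⟩
  · obtain ⟨x, hx⟩ := (h1.2.2.2.2.2.2.2.2.2.2.2.2.2.2 v (Dn v - 1)).2 (by omega)
    refine ⟨x + 1, hx.1, ?_⟩
    rw [hx.2.1]
    omega

theorem main_aux : S_ARC2 := by
  refine ⟨?_, ?_, ?_, ?_, ?_, ?_⟩
  · -- arcs of the concatenation
    intro v w x y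
    constructor
    · rintro ⟨h1, h2, h3, h4⟩
      rw [List.length_append] at h2
      rcases lt_or_ge y v.length with hy | hy
      · left
        refine ⟨h1, hy, ?_, fun z hz hz' => ?_⟩
        · rwa [ht_app_le v w hy, ht_app_le v w (by omega)] at h3
        · have := h4 z hz hz'
          rwa [ht_app_le v w (by omega), ht_app_le v w (by omega)] at this
      · obtain ⟨y', rfl⟩ := Nat.exists_eq_add_of_le hy
        right
        rcases lt_or_ge x v.length with hx | hx
        · right
          rw [add_assoc, ht_app_add, ht_app_le v w hx.le] at h3
          have h5 : ∀ z, x < z → z ≤ v.length → ht v x < ht v z := by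
            intro z hz hz'
            have := h4 z hz (by omega)
            rwa [ht_app_le v w hx.le, ht_app_le v w hz'] at this
          have h6 : ∀ z, z ≤ y' → ht v x < tot v + ht w z := by
            intro z hz
            have := h4 (v.length + z) (by omega) (by omega)
            rwa [ht_app_le v w hx.le, ht_app_add] at this
          have h7 := h5 v.length hx le_rfl
          rw [ht_len] at h7
          refine ⟨(tot v - ht v x - 1).toNat, y', rfl, ⟨hx, ?_, h5⟩, by omega, ?_, ?_⟩
          · omega
          · omega
          · intro z hz
            have := h6 z hz
            omega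
        · left
          obtain ⟨x', rfl⟩ := Nat.exists_eq_add_of_le hx
          refine ⟨x', y', rfl, rfl, by omega, by omega, ?_, fun z hz hz' => ?_⟩
          · rw [add_assoc, ht_app_add, ht_app_add] at h3
            omega
          · have := h4 (v.length + z) (by omega) (by omega)
            rw [ht_app_add, ht_app_add] at this
            omega
    · rintro (⟨h1, h2, h3, h4⟩ | ⟨x', y', rfl, rfl, h1, h2, h3, h4⟩ | ⟨k, y', rfl, ⟨a1, a2, a3⟩,
        b1, b2, b3⟩)
      · refine ⟨h1, by rw [List.length_append]; omega, ?_, fun z hz hz' => ?_⟩
        · rw [ht_app_le v w h2, ht_app_le v w (by omega), h3]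
        · rw [ht_app_le v w (by omega), ht_app_le v w (by omega)]
          exact h4 z hz hz'
      · refine ⟨by omega, by rw [List.length_append]; omega, ?_, fun z hz hz' => ?_⟩
        · rw [add_assoc, ht_app_add, ht_app_add, h3]
        · obtain ⟨z', rfl⟩ := Nat.exists_eq_add_of_le (show v.length ≤ z by omega)
          rw [ht_app_add, ht_app_add]
          have := h4 z' (by omega) (by omega)
          omega
      · refine ⟨by omega, by rw [List.length_append]; omega, ?_, fun z hz hz' => ?_⟩
        · rw [add_assoc, ht_app_add, ht_app_le v w a1.le]
          omega
        · rw [ht_app_le v w a1.le]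
          rcases le_or_gt z v.length with hzv | hzv
          · rw [ht_app_le v w hzv]
            exact a3 z hz hzv
          · obtain ⟨z', rfl⟩ := Nat.exists_eq_add_of_le hzv.le
            rw [ht_app_add]
            have := b3 z' (by omega)
            omega
  · -- unmatched openings of the concatenation
    intro v w k x
    have eT := tot_append v w
    have eW := hU.2.1 w
    constructor
    · rintro ⟨h1, h2, h3⟩
      rw [List.length_append] at h1 h3
      rcases lt_or_ge x v.length with hx | hx
      · right
        rw [ht_app_le v w hx.le] at h2
        obtain ⟨z, hz, hz'⟩ := low_ex hU ‹_› w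
        have h4 := h3 (v.length + z) (by omega) (by omega)
        rw [ht_app_add, ht_app_le v w hx.le] at h4
        refine ⟨by omega, hx, by omega, fun z hz hz' => ?_⟩
        have := h3 z hz (by omega)
        rwa [ht_app_le v w hx.le, ht_app_le v w hz'] at this
      · left
        obtain ⟨x', rfl⟩ := Nat.exists_eq_add_of_le hx
        rw [ht_app_add] at h2
        refine ⟨x', rfl, by omega, by omega, fun z hz hz' => ?_⟩
        have := h3 (v.length + z) (by omega) (by omega)
        rw [ht_app_add, ht_app_add] at this
        omega
    · rintro (⟨x', rfl, a1, a2, a3⟩ | ⟨hk, a1, a2, a3⟩)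
      · refine ⟨by rw [List.length_append]; omega, ?_, fun z hz hz' => ?_⟩
        · rw [ht_app_add]
          omega
        · rw [List.length_append] at hz'
          obtain ⟨z', rfl⟩ := Nat.exists_eq_add_of_le (show v.length ≤ z by omega)
          rw [ht_app_add, ht_app_add]
          have := a3 z' (by omega) (by omega)
          omega
      · refine ⟨by rw [List.length_append]; omega, ?_, fun z hz hz' => ?_⟩
        · rw [ht_app_le v w a1.le]
          omega
        · rw [List.length_append] at hz'
          rw [ht_app_le v w a1.le]
          rcases le_or_gt z v.length with hzv | hzv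
          · rw [ht_app_le v w hzv]
            exact a3 z hz hzv
          · obtain ⟨z', rfl⟩ := Nat.exists_eq_add_of_le hzv.le
            rw [ht_app_add]
            have := low hU w (z := z') (by omega)
            omega
  · -- unmatched closings of the concatenation
    intro v w k x
    have eV := hU.2.1 v
    constructor
    · rintro ⟨h1, h2, h3⟩
      rw [List.length_append] at h1
      rcases lt_or_ge x v.length with hx | hx
      · left
        rw [ht_app_le v w hx] at h2
        refine ⟨hx, h2, fun z hz => ?_⟩
        have := h3 z hz
        rwa [ht_app_le v w hx, ht_app_le v w (by omega)] at this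
      · right
        obtain ⟨x', rfl⟩ := Nat.exists_eq_add_of_le hx
        rw [add_assoc, ht_app_add] at h2
        obtain ⟨z, hz, hz'⟩ := low_ex hU ‹_› v
        have h4 := h3 z (by omega)
        rw [add_assoc, ht_app_add, ht_app_le v w hz] at h4
        refine ⟨by omega, x', rfl, by omega, by omega, fun z hz => ?_⟩
        have := h3 (v.length + z) (by omega)
        rw [add_assoc, ht_app_add, ht_app_add] at this
        omega
    · rintro (⟨a1, a2, a3⟩ | ⟨hk, x', rfl, a1, a2, a3⟩)
      · refine ⟨by rw [List.length_append]; omega, ?_, fun z hz => ?_⟩
        · rw [ht_app_le v w a1]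
          exact a2
        · rw [ht_app_le v w a1, ht_app_le v w (by omega)]
          exact a3 z hz
      · refine ⟨by rw [List.length_append]; omega, ?_, fun z hz => ?_⟩
        · rw [add_assoc, ht_app_add]
          omega
        · rw [add_assoc, ht_app_add]
          rcases le_or_gt z v.length with hzv | hzv
          · rw [ht_app_le v w hzv]
            have := low hU v hzv
            omega
          · obtain ⟨z', rfl⟩ := Nat.exists_eq_add_of_le hzv.le
            rw [ht_app_add]
            have := a3 z' (by omega)
            omega
  · -- arcs of the mirror image
    intro v x y hy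
    unfold arc
    rw [List.length_reverse, List.length_map]
    constructor
    · rintro ⟨h1, h2, h3, h4⟩
      rw [ht_mirror v (i := y + 1) hy, ht_mirror v (by omega)] at h3
      refine ⟨by omega, by omega, by omega, ?_, fun z hz hz' => ?_⟩
      · rw [show v.length - 1 - x + 1 = v.length - x by omega,
          show v.length - 1 - y = v.length - (y + 1) by omega]
        omega
      · have := h4 (v.length - z) (by omega) (by omega)
        rw [ht_mirror v (by omega), ht_mirror v (by omega),
          show v.length - (v.length - z) = z by omega] at this
        rw [show v.length - 1 - y = v.length - (y + 1) by omega]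
        omega
    · rintro ⟨h0, h1, h2, h3, h4⟩
      rw [show v.length - 1 - x + 1 = v.length - x by omega,
          show v.length - 1 - y = v.length - (y + 1) by omega] at h3
      refine ⟨by omega, hy, ?_, fun z hz hz' => ?_⟩
      · rw [ht_mirror v (i := y + 1) hy, ht_mirror v (by omega)]
        omega
      · rw [ht_mirror v (by omega), ht_mirror v (by omega)]
        have := h4 (v.length - z) (by omega) (by omega)
        rw [show v.length - 1 - y = v.length - (y + 1) by omega] at this
        omega
  · -- unmatched openings of the mirror image
    intro v k x hx
    unfold rop lop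
    rw [List.length_reverse, List.length_map, tot_mirror]
    constructor
    · rintro ⟨h1, h2, h3⟩
      rw [ht_mirror v hx.le] at h2
      refine ⟨by omega, ?_, fun z hz => ?_⟩
      · rw [show v.length - 1 - x + 1 = v.length - x by omega]
        omega
      · have := h3 (v.length - z) (by omega) (by omega)
        rw [ht_mirror v (by omega), ht_mirror v (by omega),
          show v.length - (v.length - z) = z by omega] at this
        rw [show v.length - 1 - x + 1 = v.length - x by omega]
        omega
    · rintro ⟨h1, h2, h3⟩
      rw [show v.length - 1 - x + 1 = v.length - x by omega] at h2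
      refine ⟨hx, ?_, fun z hz hz' => ?_⟩
      · rw [ht_mirror v hx.le]
        omega
      · rw [ht_mirror v (by omega), ht_mirror v (by omega)]
        have := h3 (v.length - z) (by omega)
        rw [show v.length - 1 - x + 1 = v.length - x by omega] at this
        omega
  · -- unmatched closings of the mirror image
    intro v k x hx
    unfold rop lop
    rw [List.length_reverse, List.length_map]
    constructor
    · rintro ⟨h1, h2, h3⟩
      rw [ht_mirror v (i := x + 1) hx] at h2
      refine ⟨by omega, ?_, fun z hz hz' => ?_⟩
      · rw [show v.length - 1 - x = v.length - (x + 1) by omega]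
        omega
      · have := h3 (v.length - z) (by omega)
        rw [ht_mirror v (by omega), ht_mirror v (by omega),
          show v.length - (v.length - z) = z by omega] at this
        rw [show v.length - 1 - x = v.length - (x + 1) by omega]
        omega
    · rintro ⟨h1, h2, h3⟩
      rw [show v.length - 1 - x = v.length - (x + 1) by omega] at h2
      refine ⟨hx, ?_, fun z hz => ?_⟩
      · rw [ht_mirror v (i := x + 1) hx]
        omega
      · rw [ht_mirror v (by omega), ht_mirror v (by omega)]
        have := h3 (v.length - z) (by omega) (by omega)
        rw [show v.length - 1 - x = v.length - (x + 1) by omega] at this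
        omega

end

/-- arcs and unmatched letters of concatenations and mirror images -/
theorem main (hU : S_U) (h1 : S_ARC1) : S_ARC2 := main_aux hU h1

end Pool.Agent.N940.MN.Arc2
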