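import Pool.Agent.N940.MN.Stm2

/-!
# Uniformly random words: basic properties of the expectation
-/

set_option autoImplicit false

open Filter Topology Finset

namespace Pool.Agent.N940.MN

section gen

variable {E : Type} [AddCommGroup E] [Module ℝ E]

lemma Ew_zero (F : W → E) : Ew 0 F = F [] := by
  simp [Ew]

lemma Ew_cons (r : ℕ) (F : W → E) :
    Ew (r + 1) F = (4 : ℝ)⁻¹ • ∑ x : Bool × Bool, Ew r fun w => F (x :: w) := by
  unfold Ew
  rw [pow_succ, mul_inv, mul_comm, mul_smul]
  congr 1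
  rw [← Finset.smul_sum]
  congr 1
  rw [← (Fin.consEquiv fun _ : Fin (r + 1) => Bool × Bool).sum_comp, Fintype.sum_prod_type]
  refine sum_congr rfl fun x _ => sum_congr rfl fun w _ => ?_
  congr 1
  simp [Fin.consEquiv, List.ofFn_succ]

lemma Ew_congr {r : ℕ} {F G : W → E} (h : ∀ w : W, w.length = r → F w = G w) :
    Ew r F = Ew r G := by
  unfold Ew
  congr 1
  exact sum_congr rfl fun w _ => h _ (by simp)

lemma Ew_add (r : ℕ) (F G : W → E) : Ew r (fun w => F w + G w) = Ew r F + Ew r G := by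
  unfold Ew
  rw [sum_add_distrib, smul_add]

lemma Ew_sub (r : ℕ) (F G : W → E) : Ew r (fun w => F w - G w) = Ew r F - Ew r G := by
  unfold Ew
  rw [sum_sub_distrib, smul_sub]

lemma Ew_sum {κ : Type} (r : ℕ) (s : Finset κ) (F : κ → W → E) :
    Ew r (fun w => ∑ i ∈ s, F i w) = ∑ i ∈ s, Ew r (F i) := by
  unfold Ew
  rw [sum_comm, smul_sum]

lemma Ew_smul (r : ℕ) (c : ℝ) (F : W → E) : Ew r (fun w => c • F w) = c • Ew r F := by
  unfold Ew
  rw [← smul_sum, smul_comm]

lemma Ew_const (r : ℕ) (c : E) : Ew r (fun _ => c) = c := by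
  unfold Ew
  rw [sum_const, card_univ, Fintype.card_fun, Fintype.card_fin, Fintype.card_prod,
    Fintype.card_bool, ← Nat.cast_smul_eq_nsmul ℝ, smul_smul]
  norm_num

/-- concatenation -/
lemma Ew_append (r s : ℕ) (F : W → E) :
    Ew (r + s) F = Ew r fun u => Ew s fun v => F (u ++ v) := by
  induction r generalizing F with
  | zero =>
    rw [Ew_zero, Nat.zero_add]
    rfl
  | succ r ih =>
    rw [show r + 1 + s = (r + s) + 1 by ring, Ew_cons, Ew_cons]
    congr 1
    refine sum_congr rfl fun x _ => ?_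
    rw [ih]
    rfl

lemma Ew_snoc (r : ℕ) (F : W → E) :
    Ew (r + 1) F = Ew r fun w => (4 : ℝ)⁻¹ • ∑ x : Bool × Bool, F (w ++ [x]) := by
  rw [Ew_append]
  congr 1
  funext u
  rw [show (1 : ℕ) = 0 + 1 by rfl, Ew_cons]
  simp only [Ew_zero]

lemma Ew_comm (r s : ℕ) (F : W → W → E) :
    Ew r (fun u => Ew s fun v => F u v) = Ew s fun v => Ew r fun u => F u v := by
  unfold Ew
  simp only [smul_sum]
  rw [sum_comm]
  refine sum_congr rfl fun v _ => sum_congr rfl fun u _ => ?_
  rw [smul_comm]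

lemma Ew_map (r : ℕ) (g : Bool × Bool ≃ Bool × Bool) (F : W → E) :
    Ew r (fun w => F (w.map g)) = Ew r F := by
  unfold Ew
  congr 1
  rw [← (Equiv.piCongrRight fun _ : Fin r => g).sum_comp (fun w => F (List.ofFn w))]
  refine sum_congr rfl fun w _ => ?_
  show F (List.map g (List.ofFn w)) = F (List.ofFn ((Equiv.piCongrRight fun _ : Fin r => g) w))
  rw [List.map_ofFn]
  rfl

lemma Ew_reverse (r : ℕ) (F : W → E) : Ew r (fun w => F w.reverse) = Ew r F := by
  induction r generalizing F with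
  | zero => rw [Ew_zero, Ew_zero]; rfl
  | succ r ih =>
    rw [Ew_cons, Ew_snoc]
    rw [Ew_smul, Ew_sum]
    congr 1
    refine sum_congr rfl fun x _ => ?_
    rw [← ih fun w => F (w ++ [x])]
    congr 1
    funext w
    rw [List.reverse_cons]

lemma Ew_mir (r : ℕ) (F : W → E) : Ew r (fun w => F (mir w)) = Ew r F := by
  have h : ∀ w : W, mir w = (w.map (Equiv.prodCongr Equiv.boolNot Equiv.boolNot)).reverse := by
    intro w
    unfold mir
    rfl
  simp only [h]
  rw [Ew_map r _ (fun w => F w.reverse)]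
  exact Ew_reverse r F

lemma Ew_sw (r : ℕ) (F : W → E) : Ew r (fun w => F (sw w)) = Ew r F :=
  Ew_map r (Equiv.prodComm Bool Bool) F

end gen

lemma Ew_mono {r : ℕ} {F G : W → ℝ} (h : ∀ w : W, w.length = r → F w ≤ G w) :
    Ew r F ≤ Ew r G := by
  unfold Ew
  rw [smul_eq_mul, smul_eq_mul]
  refine mul_le_mul_of_nonneg_left (sum_le_sum fun w _ => h _ (by simp)) (by positivity)

lemma Ew_nonneg {r : ℕ} {F : W → ℝ} (h : ∀ w : W, w.length = r → 0 ≤ F w) : 0 ≤ Ew r F := by
  have := Ew_mono (r := r) (F := fun _ => 0) (G := F) h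
  rwa [Ew_const] at this

lemma Ew_mul_left (r : ℕ) (c : ℝ) (F : W → ℝ) : Ew r (fun w => c * F w) = c * Ew r F :=
  Ew_smul r c F

lemma Ew_mul_right (r : ℕ) (c : ℝ) (F : W → ℝ) : Ew r (fun w => F w * c) = Ew r F * c := by
  simp only [mul_comm _ c]
  exact Ew_smul r c F

lemma Ew_cmul_left (r : ℕ) (c : ℂ) (F : W → ℂ) : Ew r (fun w => c * F w) = c * Ew r F := by
  unfold Ew
  rw [← mul_sum, mul_smul_comm]

lemma norm_Ew_le {E : Type} [NormedAddCommGroup E] [NormedSpace ℝ E] (r : ℕ) (F : W → E) :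
    ‖Ew r F‖ ≤ Ew r fun w => ‖F w‖ := by
  unfold Ew
  rw [norm_smul, Real.norm_of_nonneg (by positivity), smul_eq_mul]
  exact mul_le_mul_of_nonneg_left (norm_sum_le _ _) (by positivity)

lemma Ew_ofReal (r : ℕ) (F : W → ℝ) : Ew r (fun w => ((F w : ℝ) : ℂ)) = ((Ew r F : ℝ) : ℂ) := by
  unfold Ew
  rw [smul_eq_mul, Complex.real_smul]
  push_cast
  rfl

lemma abs_Ew_le (r : ℕ) (F : W → ℝ) : |Ew r F| ≤ Ew r fun w => |F w| := norm_Ew_le r F

/-- Cauchy-Schwarz -/
lemma Ew_cs (r : ℕ) (F G : W → ℝ) :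
    (Ew r fun w => F w * G w) ^ 2 ≤ (Ew r fun w => F w ^ 2) * Ew r fun w => G w ^ 2 := by
  unfold Ew
  rw [smul_eq_mul, smul_eq_mul, smul_eq_mul, mul_pow]
  have := sum_mul_sq_le_sq_mul_sq (univ : Finset (Fin r → Bool × Bool))
    (fun w => F (List.ofFn w)) (fun w => G (List.ofFn w))
  have h4 : (0 : ℝ) < ((4 : ℝ) ^ r)⁻¹ := by positivity
  calc _ ≤ (((4 : ℝ) ^ r)⁻¹) ^ 2 * ((∑ w : Fin r → Bool × Bool, F (List.ofFn w) ^ 2) *
        ∑ w : Fin r → Bool × Bool, G (List.ofFn w) ^ 2) :=
        mul_le_mul_of_nonneg_left this (by positivity)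
    _ = _ := by ring

lemma ind_nonneg (p : Prop) : 0 ≤ ind p := by
  unfold ind; split_ifs <;> norm_num

lemma ind_le_one (p : Prop) : ind p ≤ 1 := by
  unfold ind; split_ifs <;> norm_num

lemma ind_mono {p q : Prop} (h : p → q) : ind p ≤ ind q := by
  unfold ind
  split_ifs with h1 h2 h2
  · exact le_rfl
  · exact absurd (h h1) h2
  · norm_num
  · exact le_rfl

lemma ind_or_le (p q : Prop) : ind (p ∨ q) ≤ ind p + ind q := by
  unfold ind
  split_ifs with h1 h2 h3 h3 h2 h3 <;> first | (exfalso; tauto) | norm_num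

/-- Markov's inequality -/
lemma Ew_markov (r : ℕ) (F : W → ℝ) (h0 : ∀ w : W, w.length = r → 0 ≤ F w) {t : ℝ} (ht : 0 < t) :
    Ew r (fun w => ind (t ≤ F w)) ≤ Ew r F / t := by
  rw [le_div_iff₀ ht, ← Ew_mul_right]
  refine Ew_mono fun w hw => ?_
  unfold ind
  split_ifs with h
  · linarith
  · have := h0 w hw
    linarith

@[simp] lemma up_append (u v : W) : up (u ++ v) = up u ++ up v := by simp [up]

@[simp] lemma lo_append (u v : W) : lo (u ++ v) = lo u ++ lo v := by simp [lo]

@[simp] lemma up_cons (x : Bool × Bool) (v : W) : up (x :: v) = x.1 :: up v := rfl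

@[simp] lemma lo_cons (x : Bool × Bool) (v : W) : lo (x :: v) = x.2 :: lo v := rfl

@[simp] lemma up_nil : up [] = [] := rfl

@[simp] lemma lo_nil : lo [] = [] := rfl

@[simp] lemma up_sw (w : W) : up (sw w) = lo w := by simp [up, lo, sw]

@[simp] lemma lo_sw (w : W) : lo (sw w) = up w := by simp [up, lo, sw]

lemma up_mir (w : W) : up (mir w) = ((up w).map not).reverse := by
  simp [up, mir]

lemma lo_mir (w : W) : lo (mir w) = ((lo w).map not).reverse := by
  simp [lo, mir]

@[simp] lemma length_up (w : W) : (up w).length = w.length := by simp [up]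

@[simp] lemma length_lo (w : W) : (lo w).length = w.length := by simp [lo]

@[simp] lemma length_sw (w : W) : (sw w).length = w.length := by simp [sw]

@[simp] lemma length_mir (w : W) : (mir w).length = w.length := by simp [mir]

@[simp] lemma sw_sw (w : W) : sw (sw w) = w := by
  unfold sw
  rw [List.map_map]
  simp

@[simp] lemma mir_mir (w : W) : mir (mir w) = w := by
  unfold mir
  rw [List.map_reverse, List.reverse_reverse, List.map_map]
  convert List.map_id w using 2
  funext p
  simp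

lemma mir_append (u v : W) : mir (u ++ v) = mir v ++ mir u := by
  unfold mir
  rw [List.map_append, List.reverse_append]

lemma sw_append (u v : W) : sw (u ++ v) = sw u ++ sw v := by
  unfold sw
  rw [List.map_append]

lemma sw_mir (w : W) : sw (mir w) = mir (sw w) := by
  unfold sw mir
  rw [List.map_reverse, List.map_map, List.map_map]
  rfl

/-- the letters of the upper and of the lower word are independent -/
lemma Ew_prod (r : ℕ) (F G : List Bool → ℝ) :
    Ew r (fun w => F (up w) * G (lo w)) = Ew r (fun w => F (up w)) * Ew r (fun w => G (lo w)) := by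
  induction r generalizing F G with
  | zero => simp [Ew_zero]
  | succ r ih =>
    rw [Ew_cons, Ew_cons, Ew_cons]
    simp only [Fintype.sum_prod_type, Fintype.sum_bool, smul_eq_mul, up_cons, lo_cons]
    have h1 := ih (fun v => F (true :: v)) (fun v => G (true :: v))
    have h2 := ih (fun v => F (true :: v)) (fun v => G (false :: v))
    have h3 := ih (fun v => F (false :: v)) (fun v => G (true :: v))
    have h4 := ih (fun v => F (false :: v)) (fun v => G (false :: v))
    rw [h1, h2, h3, h4]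
    ring

end Pool.Agent.N940.MN
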