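import Pool.Agent.N940.MN.Kur

/-!
# Block decomposition and fourth moments for bridges
-/

set_option autoImplicit false

open Filter Topology Finset

namespace Pool.Agent.N940.MN.Blk

open Pool.Agent.N940.MN Pool.Agent.N940.MN.Kur

/-! ### the expectation over bridges -/

/-- the probability that both words are bridges -/
noncomputable def pb (n : ℕ) : ℝ := Ew (2 * n) fun w => if bal w then (1 : ℝ) else 0

lemma EB_eq (n : ℕ) (G : W → ℝ) :
    EB n G = (pb n)⁻¹ * Ew (2 * n) fun w => if bal w then G w else 0 := rfl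

lemma pb_nonneg (n : ℕ) : 0 ≤ pb n := Ew_nonneg fun w _ => by split_ifs <;> norm_num

lemma EB_mono {n : ℕ} {G H : W → ℝ} (h : ∀ w : W, w.length = 2 * n → bal w → G w ≤ H w) :
    EB n G ≤ EB n H := by
  rw [EB_eq, EB_eq]
  refine mul_le_mul_of_nonneg_left (Ew_mono fun w hw => ?_) (inv_nonneg.2 (pb_nonneg n))
  split_ifs with hb
  · exact h w hw hb
  · exact le_rfl

lemma EB_nonneg {n : ℕ} {G : W → ℝ} (h : ∀ w : W, w.length = 2 * n → bal w → 0 ≤ G w) :
    0 ≤ EB n G := by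
  rw [EB_eq]
  refine mul_nonneg (inv_nonneg.2 (pb_nonneg n)) (Ew_nonneg fun w hw => ?_)
  split_ifs with hb
  · exact h w hw hb
  · exact le_rfl

lemma EB_add (n : ℕ) (G H : W → ℝ) : EB n (fun w => G w + H w) = EB n G + EB n H := by
  rw [EB_eq, EB_eq, EB_eq, ← mul_add, ← Ew_add]
  congr 1
  refine Ew_congr fun w _ => ?_
  split_ifs <;> simp

lemma EB_mul_left (n : ℕ) (x : ℝ) (G : W → ℝ) : EB n (fun w => x * G w) = x * EB n G := by
  have h : (Ew (2 * n) fun w => if bal w then x * G w else 0) =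
      Ew (2 * n) fun w => x * (if bal w then G w else 0) :=
    Ew_congr fun w _ => by split_ifs <;> simp
  rw [EB_eq, EB_eq, h, Ew_mul_left]
  ring

lemma EB_const (n : ℕ) (h : 0 < pb n) (x : ℝ) : EB n (fun _ => x) = x := by
  have h1 := EB_mul_left n x (fun _ => 1)
  simp only [mul_one] at h1
  have h2 : EB n (fun _ => (1 : ℝ)) = (pb n)⁻¹ * pb n := rfl
  rw [h1, h2, inv_mul_cancel₀ h.ne', mul_one]

lemma EB_cs (n : ℕ) (G H : W → ℝ) :
    EB n (fun w => G w * H w) ≤
      Real.sqrt (EB n fun w => G w ^ 2) * Real.sqrt (EB n fun w => H w ^ 2) := by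
  have h1 := (abs_le.1 (Ew_mul_le (2 * n) (fun w => if bal w then G w else 0)
    (fun w => if bal w then H w else 0))).2
  have e1 : (Ew (2 * n) fun w => (if bal w then G w else 0) * (if bal w then H w else 0)) =
      Ew (2 * n) fun w => if bal w then G w * H w else 0 :=
    Ew_congr fun w _ => by split_ifs <;> simp
  have e2 : ∀ G : W → ℝ, n2 (2 * n) (fun w => if bal w then G w else 0) =
      Real.sqrt (Ew (2 * n) fun w => if bal w then G w ^ 2 else 0) := by
    intro G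
    unfold n2
    congr 1
    exact Ew_congr fun w _ => by by_cases hb : bal w <;> simp [hb]
  rw [e1, e2, e2] at h1
  rw [EB_eq, EB_eq, EB_eq, Real.sqrt_mul (inv_nonneg.2 (pb_nonneg n)),
    Real.sqrt_mul (inv_nonneg.2 (pb_nonneg n))]
  have h2 := mul_le_mul_of_nonneg_left h1 (inv_nonneg.2 (pb_nonneg n))
  refine h2.trans (le_of_eq ?_)
  have h3 := Real.mul_self_sqrt (inv_nonneg.2 (pb_nonneg n))
  calc (pb n)⁻¹ * (Real.sqrt (Ew (2 * n) fun w => if bal w then G w ^ 2 else 0) *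
        Real.sqrt (Ew (2 * n) fun w => if bal w then H w ^ 2 else 0))
      = (Real.sqrt (pb n)⁻¹ * Real.sqrt (pb n)⁻¹) *
        (Real.sqrt (Ew (2 * n) fun w => if bal w then G w ^ 2 else 0) *
        Real.sqrt (Ew (2 * n) fun w => if bal w then H w ^ 2 else 0)) := by rw [h3]
    _ = _ := by ring

lemma EB_le_sqrt (n : ℕ) (h : 0 < pb n) (G : W → ℝ) :
    EB n G ≤ Real.sqrt (EB n fun w => G w ^ 2) := by
  have h1 := EB_cs n (fun _ => 1) G
  simp only [one_mul, one_pow] at h1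
  rwa [EB_const n h, Real.sqrt_one, one_mul] at h1

/-- Markov's inequality for bridges -/
lemma EB_markov (n : ℕ) (G : W → ℝ) (h0 : ∀ w : W, 0 ≤ G w) {t : ℝ} (ht : 0 < t) :
    EB n (fun w => ind (t < G w)) ≤ EB n G / t := by
  rw [le_div_iff₀ ht, mul_comm, ← EB_mul_left]
  refine EB_mono fun w _ _ => ?_
  unfold ind
  split_ifs with h
  · linarith
  · have := h0 w
    linarith

/-! ### sub-words -/

/-- the sub-word of length `l` at position `a` -/
def sub (a l : ℕ) (w : W) : W := (w.drop a).take l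

lemma sub_length {a l : ℕ} {w : W} {N : ℕ} (hw : w.length = N) (h : a + l ≤ N) :
    (sub a l w).length = l := by
  unfold sub
  rw [List.length_take, List.length_drop, hw]
  omega

lemma sub_append (a l l' : ℕ) (w : W) : sub a l w ++ sub (a + l) l' w = sub a (l + l') w := by
  unfold sub
  rw [List.take_add, List.drop_drop]

lemma Ew_subword (N a l : ℕ) (h : a + l ≤ N) (Ψ : W → ℝ) :
    Ew N (fun w => Ψ (sub a l w)) = Ew l Ψ := by
  obtain ⟨b, rfl⟩ : ∃ b, N = a + l + b := ⟨N - (a + l), by omega⟩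
  rw [Ew_append, Ew_append]
  have h1 : (Ew a fun u => Ew l fun v => Ew b fun x => Ψ (sub a l (u ++ v ++ x))) =
      Ew a fun _ => Ew l Ψ := by
    refine Ew_congr fun u hu => Ew_congr fun v hv => ?_
    have h2 : (Ew b fun x => Ψ (sub a l (u ++ v ++ x))) = Ew b fun _ => Ψ v := by
      refine Ew_congr fun x _ => ?_
      congr 1
      unfold sub
      rw [← hu, ← hv, List.append_assoc, List.drop_left, List.take_left]
    rw [h2, Ew_const]
  rw [h1, Ew_const]

/-- constants from the bounded densities -/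
lemma dens (hD : S_DENS) : ∃ c₀ D : ℝ, 0 < c₀ ∧ 0 < D ∧ (∀ n : ℕ, 0 < n → c₀ / n ≤ pb n) ∧
    ∀ n a l : ℕ, 0 < n → a + l ≤ 2 * n → l ≤ n → ∀ Ψ : W → ℝ, (∀ w, 0 ≤ Ψ w) →
      EB n (fun w => Ψ (sub a l w)) ≤ D * Ew l Ψ := by
  obtain ⟨⟨c₀, hc₀, h1⟩, h2⟩ := hD
  obtain ⟨D, hD⟩ := h2 1 one_pos
  refine ⟨c₀, max D 1, hc₀, lt_of_lt_of_le one_pos (le_max_right _ _), h1, ?_⟩
  intro n a l hn hal hl Ψ hΨ
  have hpb : 0 < pb n := lt_of_lt_of_le (div_pos hc₀ (Nat.cast_pos.2 hn)) (h1 n hn)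
  obtain ⟨b, hb⟩ : ∃ b, a + l + b = 2 * n := ⟨2 * n - (a + l), by omega⟩
  have h3 := hD n a l b hn hb (by rw [one_mul]; exact_mod_cast (by omega : n ≤ a + b)) Ψ hΨ
  rw [EB_eq]
  have h4 : (pb n)⁻¹ * (Ew (2 * n) fun w => if bal w then Ψ ((w.drop a).take l) else 0) ≤
      (pb n)⁻¹ * (D * pb n * Ew l Ψ) :=
    mul_le_mul_of_nonneg_left h3 (inv_nonneg.2 hpb.le)
  have h5 : (pb n)⁻¹ * (D * pb n * Ew l Ψ) = D * Ew l Ψ := by
    field_simp
  rw [h5] at h4
  refine h4.trans (mul_le_mul_of_nonneg_right (le_max_left _ _) ?_)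
  exact Ew_nonneg fun w _ => hΨ w

lemma EB_event {c₀ : ℝ} (hc₀ : 0 < c₀) {n : ℕ} (hn : 0 < n) (hpb : c₀ / n ≤ pb n) {G : W → ℝ}
    (hG : ∀ w, 0 ≤ G w) : EB n G ≤ n / c₀ * Ew (2 * n) fun w => if bal w then G w else 0 := by
  rw [EB_eq]
  have hn' : (0 : ℝ) < n := Nat.cast_pos.2 hn
  refine mul_le_mul_of_nonneg_right ?_ (Ew_nonneg fun w _ => ?_)
  · rw [← inv_div]
    exact inv_anti₀ (div_pos hc₀ hn') hpb
  · split_ifs
    · exact hG w
    · exact le_rfl

/-! ### heights -/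

/-- the number of unmatched openings, both half-planes -/
noncomputable def hh (w : W) : ℝ := (U (up w) : ℝ) + U (lo w)

lemma hh_nonneg (w : W) : 0 ≤ hh w := by unfold hh; positivity

lemma U_append_le (hU : S_U) (v w : List Bool) : (U (v ++ w) : ℝ) ≤ (U v : ℝ) + U w := by
  have h := (hU.1 v w).2
  have h1 : U (v ++ w) ≤ U v + U w := by omega
  exact_mod_cast h1

lemma hh_append (hU : S_U) (u v : W) : hh (u ++ v) ≤ hh u + hh v := by
  unfold hh
  rw [up_append, lo_append]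
  have h1 := U_append_le hU (up u) (up v)
  have h2 := U_append_le hU (lo u) (lo v)
  linarith

lemma Ew_hh2 (hM : S_MOM) (r : ℕ) : (Ew r fun w => hh w ^ 2) ≤ 4 * r := by
  obtain ⟨h1, -, h2, -, -, -, -, -⟩ := hM r
  have h3 : (Ew r fun w => hh w ^ 2) ≤
      Ew r fun w => 2 * (U (up w) : ℝ) ^ 2 + 2 * (U (lo w) : ℝ) ^ 2 := by
    refine Ew_mono fun w _ => ?_
    unfold hh
    nlinarith [sq_nonneg ((U (up w) : ℝ) - U (lo w))]
  rw [Ew_add, Ew_mul_left, Ew_mul_left] at h3
  linarith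

lemma Ew_hh4 (hM : S_MOM) (r : ℕ) : (Ew r fun w => hh w ^ 4) ≤ 64 * (r : ℝ) ^ 2 := by
  obtain ⟨-, -, -, -, h1, -, h2, -⟩ := hM r
  have h3 : (Ew r fun w => hh w ^ 4) ≤
      Ew r fun w => 8 * (U (up w) : ℝ) ^ 4 + 8 * (U (lo w) : ℝ) ^ 4 := by
    refine Ew_mono fun w _ => ?_
    have h8 := add_pow_four (U (up w) : ℝ) (U (lo w) : ℝ) 1 one_pos
    norm_num at h8
    exact h8
  rw [Ew_add, Ew_mul_left, Ew_mul_left] at h3
  linarith

section adt

variable {F Fo : W → ℝ} {C c : ℝ} {r₀ : ℕ}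

/-- the error of additivity for two adjacent blocks -/
noncomputable def er (F : W → ℝ) (a s : ℕ) (w : W) : ℝ :=
  F (sub a (s + s) w) - F (sub a s w) - F (sub (a + s) s w)

lemma errEB (hM : S_MOM) (hD : S_DENS) (hA : Adt F Fo C c r₀) (K : ℕ) : ∀ ε : ℝ, 0 < ε →
    ∃ N : ℕ, ∀ n : ℕ, N ≤ n → ∀ s : ℕ, n ≤ K * s → s ≤ n → ∀ a : ℕ, a + (s + s) ≤ 2 * n →
      EB n (fun w => |er F a s w|) ≤ ε * Real.sqrt n := by
  intro ε hε
  have hC := C_nonneg hA
  obtain ⟨c₀, D, hc₀, hD0, hpb, hDs⟩ := dens hD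
  -- constants
  set D1 : ℝ := 2 * Real.sqrt D with hD1
  have hD10 : 0 < D1 := by positivity
  obtain ⟨ε1, hε1, hε1'⟩ : ∃ ε1 : ℝ, 0 < ε1 ∧ ε1 * (D1 + 1) ≤ ε / 2 :=
    ⟨ε / 2 / (D1 + 1), by positivity, le_of_eq (by field_simp)⟩
  obtain ⟨d, hd, hd'⟩ : ∃ d : ℝ, 0 < d ∧ C * D1 * d ≤ ε / 2 := by
    refine ⟨ε / (2 * (C * D1 + 1)), by positivity, ?_⟩
    rw [mul_div_assoc', div_le_div_iff₀ (by positivity) (by norm_num)]
    nlinarith [mul_nonneg (mul_nonneg hC hD10.le) hε.le]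
  have hj := (hA.joinP ε1 hε1).eventually (gt_mem_nhds
    (show (0 : ℝ) < d ^ 2 * c₀ / (K + 1) by positivity))
  obtain ⟨R, hR⟩ := eventually_atTop.1 hj
  refine ⟨K * R + 1, fun n hn s hns hsn a ha => ?_⟩
  have hn1 : 0 < n := by omega
  have hn' : (0 : ℝ) < n := Nat.cast_pos.2 hn1
  have hK0 : 0 < K := by
    rcases Nat.eq_zero_or_pos K with h | h
    · subst h; omega
    · exact h
  have hsR : R ≤ s := by
    by_contra h
    have : K * s ≤ K * R := Nat.mul_le_mul_left K (by omega)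
    omega
  have hs1 : 0 < s := by
    rcases Nat.eq_zero_or_pos s with h | h
    · subst h; omega
    · exact h
  have hs' : (0 : ℝ) < s := Nat.cast_pos.2 hs1
  have hsn' : (s : ℝ) ≤ n := by exact_mod_cast hsn
  have hpbn := hpb n hn1
  have hpb0 : 0 < pb n := lt_of_lt_of_le (by positivity) hpbn
  have hsq : Real.sqrt s ≤ Real.sqrt n := Real.sqrt_le_sqrt hsn'
  -- the bad event
  set bad : W → ℝ := fun w => ind (ε1 * ((mm (sub a s w) (sub (a + s) s w) : ℝ) + Real.sqrt s) <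
    |er F a s w|) with hbad
  have hbad0 : ∀ w, 0 ≤ bad w := fun w => ind_nonneg _
  have hbadE : EB n bad ≤ d ^ 2 := by
    have h1 := EB_event hc₀ hn1 hpbn hbad0
    have h2 : (Ew (2 * n) fun w => if bal w then bad w else 0) ≤ Ew (2 * n) bad := by
      refine Ew_mono fun w _ => ?_
      split_ifs
      · exact le_rfl
      · exact hbad0 w
    have h3 : Ew (2 * n) bad = Ew s fun I => Ew s fun J =>
        ind (ε1 * ((mm I J : ℝ) + Real.sqrt s) < |F (I ++ J) - F I - F J|) := by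
      have h4 := Ew_subword (2 * n) a (s + s) ha (fun x =>
        ind (ε1 * ((mm (x.take s) (x.drop s) : ℝ) + Real.sqrt s) <
          |F (x.take s ++ x.drop s) - F (x.take s) - F (x.drop s)|))
      rw [Ew_split s s (fun I J => ind (ε1 * ((mm I J : ℝ) + Real.sqrt s) <
          |F (I ++ J) - F I - F J|))] at h4
      rw [← h4]
      refine Ew_congr fun w hw => ?_
      have h5 : (sub a (s + s) w).take s = sub a s w := by
        unfold sub
        rw [List.take_take]
        congr 1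
        omega
      have h6 : (sub a (s + s) w).drop s = sub (a + s) s w := by
        unfold sub
        rw [List.drop_take, List.drop_drop]
        congr 1
        omega
      rw [h5, h6, hbad, sub_append]
      rfl
    rw [h3] at h2
    have h4 := hR s hsR
    have h5 : EB n bad ≤ n / c₀ * Ew s fun I => Ew s fun J =>
        ind (ε1 * ((mm I J : ℝ) + Real.sqrt s) < |F (I ++ J) - F I - F J|) :=
      h1.trans (mul_le_mul_of_nonneg_left h2 (by positivity))
    set P := Ew s fun I => Ew s fun J =>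
        ind (ε1 * ((mm I J : ℝ) + Real.sqrt s) < |F (I ++ J) - F I - F J|) with hP
    have hP0 : 0 ≤ P := Ew_nonneg fun _ _ => Ew_nonneg fun _ _ => ind_nonneg _
    refine h5.trans ?_
    rw [lt_div_iff₀ (by positivity)] at h4
    have h6 : (n : ℝ) ≤ (K + 1) * s := by
      have : n ≤ (K + 1) * s := by nlinarith
      exact_mod_cast this
    rw [div_mul_eq_mul_div, div_le_iff₀ hc₀]
    calc (n : ℝ) * P ≤ ((K + 1) * s) * P := mul_le_mul_of_nonneg_right h6 hP0
      _ = s * P * (K + 1) := by ring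
      _ ≤ _ := h4.le
  -- the height of the first block
  set H : W → ℝ := fun w => hh (sub a s w) with hH
  have hH0 : ∀ w, 0 ≤ H w := fun w => hh_nonneg _
  have hH2 : Real.sqrt (EB n fun w => H w ^ 2) ≤ D1 * Real.sqrt n := by
    have h1 := hDs n a s hn1 (by omega) hsn (fun w => hh w ^ 2) (fun w => sq_nonneg _)
    have h2 := Ew_hh2 hM s
    refine Real.sqrt_le_iff.2 ⟨by positivity, ?_⟩
    rw [mul_pow, Real.sq_sqrt hn'.le, hD1, mul_pow, Real.sq_sqrt hD0.le]
    calc _ ≤ D * Ew s fun w => hh w ^ 2 := h1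
      _ ≤ D * (4 * s) := mul_le_mul_of_nonneg_left h2 hD0.le
      _ ≤ D * (4 * n) := by nlinarith
      _ = _ := by ring
  have hH1 : EB n H ≤ D1 * Real.sqrt n := (EB_le_sqrt n hpb0 H).trans hH2
  have hHb : EB n (fun w => H w * bad w) ≤ (D1 * Real.sqrt n) * d := by
    refine (EB_cs n H bad).trans (mul_le_mul hH2 ?_ (Real.sqrt_nonneg _) (by positivity))
    have h1 : (EB n fun w => bad w ^ 2) = EB n bad := by
      congr 1; funext w; exact ind_sq _
    rw [h1]
    exact Real.sqrt_le_iff.2 ⟨hd.le, hbadE⟩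
  -- pointwise bound
  have hpt : ∀ w : W, w.length = 2 * n → bal w →
      |er F a s w| ≤ ε1 * H w + ε1 * Real.sqrt n + C * (H w * bad w) := by
    intro w _ _
    have hm : (mm (sub a s w) (sub (a + s) s w) : ℝ) ≤ H w := mm_le _ _
    have h1 : er F a s w = F (sub a s w ++ sub (a + s) s w) - F (sub a s w) -
        F (sub (a + s) s w) := by
      unfold er
      rw [sub_append]
    have h2 := hA.join (sub a s w) (sub (a + s) s w)
    rw [← h1] at h2
    have h3 := hH0 w
    have h4 := Real.sqrt_nonneg (n : ℝ)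
    show _ ≤ _ + _ + C * (H w * ind _)
    unfold ind
    split_ifs with hb
    · rw [mul_one]
      have h5 : 0 ≤ ε1 * H w + ε1 * Real.sqrt n := by positivity
      have h6 := mul_le_mul_of_nonneg_left hm hC
      linarith
    · rw [mul_zero, mul_zero, add_zero]
      have h5 := not_lt.1 hb
      refine h5.trans ?_
      rw [← mul_add]
      exact mul_le_mul_of_nonneg_left (add_le_add hm hsq) hε1.le
  have h1 : EB n (fun w => |er F a s w|) ≤
      ε1 * EB n H + ε1 * Real.sqrt n + C * EB n (fun w => H w * bad w) := by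
    refine (EB_mono hpt).trans (le_of_eq ?_)
    rw [EB_add, EB_add, EB_mul_left, EB_const n hpb0, EB_mul_left]
  have h2 : ε1 * EB n H ≤ ε1 * (D1 * Real.sqrt n) := mul_le_mul_of_nonneg_left hH1 hε1.le
  have h3 : C * EB n (fun w => H w * bad w) ≤ C * ((D1 * Real.sqrt n) * d) :=
    mul_le_mul_of_nonneg_left hHb hC
  have h4 := Real.sqrt_nonneg (n : ℝ)
  calc EB n (fun w => |er F a s w|) ≤
        ε1 * (D1 * Real.sqrt n) + ε1 * Real.sqrt n + C * ((D1 * Real.sqrt n) * d) := by linarith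
    _ = (ε1 * (D1 + 1)) * Real.sqrt n + (C * D1 * d) * Real.sqrt n := by ring
    _ ≤ ε / 2 * Real.sqrt n + ε / 2 * Real.sqrt n :=
        add_le_add (mul_le_mul_of_nonneg_right hε1' h4) (mul_le_mul_of_nonneg_right hd' h4)
    _ = _ := by ring

/-- the word closed up is close to the word -/
lemma closeEB (hU : S_U) (hM : S_MOM) (hD : S_DENS) (hA : Adt F Fo C c r₀) : ∀ ε : ℝ, 0 < ε →
    ∃ N : ℕ, ∀ n : ℕ, N ≤ n → EB n (fun w => |Fo w - F w|) ≤ ε * Real.sqrt n := by
  intro ε hε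
  have hC := C_nonneg hA
  obtain ⟨c₀, D, hc₀, hD0, hpb, hDs⟩ := dens hD
  set D1 : ℝ := 4 * Real.sqrt D with hD1
  have hD10 : 0 < D1 := by positivity
  obtain ⟨ε1, hε1, hε1'⟩ : ∃ ε1 : ℝ, 0 < ε1 ∧ ε1 * (D1 + 1) ≤ ε / 2 :=
    ⟨ε / 2 / (D1 + 1), by positivity, le_of_eq (by field_simp)⟩
  obtain ⟨d, hd, hd'⟩ : ∃ d : ℝ, 0 < d ∧ C * D1 * d ≤ ε / 2 := by
    refine ⟨ε / (2 * (C * D1 + 1)), by positivity, ?_⟩
    rw [mul_div_assoc', div_le_div_iff₀ (by positivity) (by norm_num)]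
    nlinarith [mul_nonneg (mul_nonneg hC hD10.le) hε.le]
  have hj := (hA.closeP ε1 hε1).eventually (gt_mem_nhds
    (show (0 : ℝ) < d ^ 2 * c₀ by positivity))
  obtain ⟨R, hR⟩ := eventually_atTop.1 hj
  refine ⟨R + 1, fun n hn => ?_⟩
  have hn1 : 0 < n := by omega
  have hn' : (0 : ℝ) < n := Nat.cast_pos.2 hn1
  have hpbn := hpb n hn1
  have hpb0 : 0 < pb n := lt_of_lt_of_le (by positivity) hpbn
  set bad : W → ℝ := fun w => ind (bal w ∧ ε1 * ((U (up w) : ℝ) + U (lo w) + Real.sqrt n) <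
    |Fo w - F w|) with hbad
  have hbad0 : ∀ w, 0 ≤ bad w := fun w => ind_nonneg _
  have hbadE : EB n bad ≤ d ^ 2 := by
    have h1 := EB_event hc₀ hn1 hpbn hbad0
    have h2 : (Ew (2 * n) fun w => if bal w then bad w else 0) ≤ Ew (2 * n) bad := by
      refine Ew_mono fun w _ => ?_
      split_ifs
      · exact le_rfl
      · exact hbad0 w
    have h4 := hR n (by omega)
    refine (h1.trans (mul_le_mul_of_nonneg_left h2 (by positivity))).trans ?_
    rw [div_mul_eq_mul_div, div_le_iff₀ hc₀]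
    exact h4.le
  have hH2 : Real.sqrt (EB n fun w => hh w ^ 2) ≤ D1 * Real.sqrt n := by
    have h1 := hDs n 0 n hn1 (by omega) le_rfl (fun w => hh w ^ 2) (fun w => sq_nonneg _)
    have h1' := hDs n n n hn1 (by omega) le_rfl (fun w => hh w ^ 2) (fun w => sq_nonneg _)
    have h2 := Ew_hh2 hM n
    refine Real.sqrt_le_iff.2 ⟨by positivity, ?_⟩
    rw [mul_pow, Real.sq_sqrt hn'.le, hD1, mul_pow, Real.sq_sqrt hD0.le]
    have h3 : (EB n fun w => hh w ^ 2) ≤
        2 * (EB n fun w => hh (sub 0 n w) ^ 2) + 2 * EB n fun w => hh (sub n n w) ^ 2 := by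
      rw [← EB_mul_left, ← EB_mul_left, ← EB_add]
      refine EB_mono fun w hw _ => ?_
      have h4 := hh_append hU (sub 0 n w) (sub n n w)
      have h5 : sub 0 n w ++ sub n n w = w := by
        have h6 := sub_append 0 n n w
        rw [Nat.zero_add] at h6
        rw [h6]
        unfold sub
        rw [List.drop_zero]
        exact List.take_of_length_le (by omega)
      rw [h5] at h4
      have h7 := hh_nonneg w
      nlinarith [sq_nonneg (hh (sub 0 n w) - hh (sub n n w))]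
    nlinarith
  have hH1 : EB n hh ≤ D1 * Real.sqrt n := (EB_le_sqrt n hpb0 hh).trans hH2
  have hHb : EB n (fun w => hh w * bad w) ≤ (D1 * Real.sqrt n) * d := by
    refine (EB_cs n hh bad).trans (mul_le_mul hH2 ?_ (Real.sqrt_nonneg _) (by positivity))
    have h1 : (EB n fun w => bad w ^ 2) = EB n bad := by
      congr 1; funext w; exact ind_sq _
    rw [h1]
    exact Real.sqrt_le_iff.2 ⟨hd.le, hbadE⟩
  have hpt : ∀ w : W, w.length = 2 * n → bal w →
      |Fo w - F w| ≤ ε1 * hh w + ε1 * Real.sqrt n + C * (hh w * bad w) := by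
    intro w _ hbw
    have h2 := hA.close w hbw
    have h3 := hh_nonneg w
    have h4 := Real.sqrt_nonneg (n : ℝ)
    show _ ≤ _ + _ + C * (hh w * ind _)
    unfold ind
    split_ifs with hb
    · rw [mul_one]
      have h5 : 0 ≤ ε1 * hh w + ε1 * Real.sqrt n := by positivity
      have h6 : C * ((U (up w) : ℝ) + U (lo w)) = C * hh w := rfl
      linarith
    · rw [mul_zero, mul_zero, add_zero]
      have h5 := not_lt.1 fun h => hb ⟨hbw, h⟩
      refine h5.trans (le_of_eq ?_)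
      unfold hh
      ring
  have h1 : EB n (fun w => |Fo w - F w|) ≤
      ε1 * EB n hh + ε1 * Real.sqrt n + C * EB n (fun w => hh w * bad w) := by
    refine (EB_mono hpt).trans (le_of_eq ?_)
    rw [EB_add, EB_add, EB_mul_left, EB_const n hpb0, EB_mul_left]
  have h2 : ε1 * EB n hh ≤ ε1 * (D1 * Real.sqrt n) := mul_le_mul_of_nonneg_left hH1 hε1.le
  have h3 : C * EB n (fun w => hh w * bad w) ≤ C * ((D1 * Real.sqrt n) * d) :=
    mul_le_mul_of_nonneg_left hHb hC
  have h4 := Real.sqrt_nonneg (n : ℝ)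
  calc EB n (fun w => |Fo w - F w|) ≤
        ε1 * (D1 * Real.sqrt n) + ε1 * Real.sqrt n + C * ((D1 * Real.sqrt n) * d) := by linarith
    _ = (ε1 * (D1 + 1)) * Real.sqrt n + (C * D1 * d) * Real.sqrt n := by ring
    _ ≤ ε / 2 * Real.sqrt n + ε / 2 * Real.sqrt n :=
        add_le_add (mul_le_mul_of_nonneg_right hε1' h4) (mul_le_mul_of_nonneg_right hd' h4)
    _ = _ := by ring

/-- the last letters -/
lemma step_many (hA : Adt F Fo C c r₀) (u : W) : ∀ v : W, |F (u ++ v) - F u| ≤ C * v.length := by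
  intro v
  induction v using List.reverseRecOn with
  | nil => simp
  | append_singleton v x ih =>
    have h1 := hA.step (u ++ v) x
    rw [List.length_append, List.length_singleton, ← List.append_assoc]
    push_cast
    have h2 : F (u ++ v ++ [x]) - F u = (F (u ++ v ++ [x]) - F (u ++ v)) + (F (u ++ v) - F u) := by
      ring
    rw [h2]
    refine (abs_add_le _ _).trans ?_
    linarith

/-- dyadic decomposition -/
lemma dyadic (F : W → ℝ) (n : ℕ) (δ : ℝ) (r p : ℕ)
    (h : ∀ j < p, ∀ a : ℕ, a + (2 ^ j * r + 2 ^ j * r) ≤ 2 * n →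
      EB n (fun w => |er F a (2 ^ j * r) w|) ≤ δ) :
    ∀ j ≤ p, ∀ a : ℕ, a + 2 ^ j * r ≤ 2 * n →
      EB n (fun w => |F (sub a (2 ^ j * r) w) -
        ∑ i ∈ range (2 ^ j), F (sub (a + i * r) r w)|) ≤ (2 ^ j - 1) * δ := by
  intro j
  induction j with
  | zero =>
    intro _ a _
    have h1 : (fun w => |F (sub a (2 ^ 0 * r) w) -
        ∑ i ∈ range (2 ^ 0), F (sub (a + i * r) r w)|) = fun _ => 0 * (0 : ℝ) := by
      funext w
      simp
    rw [h1, EB_mul_left]
    simp
  | succ j ih =>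
    intro hj a ha
    have e0 : 2 ^ (j + 1) * r = 2 ^ j * r + 2 ^ j * r := by ring
    rw [e0] at ha ⊢
    have h1 := h j (by omega) a ha
    have h2 := ih (by omega) a (by omega)
    have h3 := ih (by omega) (a + 2 ^ j * r) (by omega)
    have h4 : EB n (fun w => |F (sub a (2 ^ j * r + 2 ^ j * r) w) -
        ∑ i ∈ range (2 ^ (j + 1)), F (sub (a + i * r) r w)|) ≤
        EB n (fun w => |er F a (2 ^ j * r) w|) +
        EB n (fun w => |F (sub a (2 ^ j * r) w) -
          ∑ i ∈ range (2 ^ j), F (sub (a + i * r) r w)|) +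
        EB n (fun w => |F (sub (a + 2 ^ j * r) (2 ^ j * r) w) -
          ∑ i ∈ range (2 ^ j), F (sub (a + 2 ^ j * r + i * r) r w)|) := by
      rw [← EB_add, ← EB_add]
      refine EB_mono fun w _ _ => ?_
      have h5 : ∑ i ∈ range (2 ^ (j + 1)), F (sub (a + i * r) r w) =
          (∑ i ∈ range (2 ^ j), F (sub (a + i * r) r w)) +
            ∑ i ∈ range (2 ^ j), F (sub (a + 2 ^ j * r + i * r) r w) := by
        rw [pow_succ, mul_two, sum_range_add]
        congr 1
        refine sum_congr rfl fun i _ => ?_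
        rw [add_mul, ← add_assoc]
      rw [h5]
      have h6 : F (sub a (2 ^ j * r + 2 ^ j * r) w) -
          ((∑ i ∈ range (2 ^ j), F (sub (a + i * r) r w)) +
            ∑ i ∈ range (2 ^ j), F (sub (a + 2 ^ j * r + i * r) r w)) =
          er F a (2 ^ j * r) w + (F (sub a (2 ^ j * r) w) -
            ∑ i ∈ range (2 ^ j), F (sub (a + i * r) r w)) +
          (F (sub (a + 2 ^ j * r) (2 ^ j * r) w) -
            ∑ i ∈ range (2 ^ j), F (sub (a + 2 ^ j * r + i * r) r w)) := by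
        unfold er
        ring
      rw [h6]
      exact (abs_add_le _ _).trans (add_le_add (abs_add_le _ _) le_rfl)
    refine h4.trans ?_
    rw [pow_succ]
    linarith

end adt

theorem main (hU : S_U) (hM : S_MOM) (hD : S_DENS) : S_BLK := by
  intro F Fo C c r₀ hA p ε hε
  have hC := C_nonneg hA
  rw [Metric.tendsto_atTop]
  intro η hη
  obtain ⟨c₀, D, hc₀, hD0, hpb, hDs⟩ := dens hD
  set q : ℝ := (2 : ℝ) ^ p with hq
  have hq0 : 0 < q := by positivity
  set δ : ℝ := ε * η / (4 * q) with hδ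
  have hδ0 : 0 < δ := by positivity
  obtain ⟨N1, hN1⟩ := closeEB hU hM hD hA δ hδ0
  obtain ⟨N2, hN2⟩ := errEB hM hD hA (2 ^ p) δ hδ0
  obtain ⟨N3, hN3⟩ := exists_nat_gt ((4 * C * q / (ε * η)) ^ 2)
  refine ⟨N1 + N2 + N3 + 2 ^ p, fun n hn => ?_⟩
  have h2p : 0 < 2 ^ p := by positivity
  have hn1 : 0 < n := by omega
  have hn' : (0 : ℝ) < n := Nat.cast_pos.2 hn1
  have hpbn := hpb n hn1
  have hpb0 : 0 < pb n := lt_of_lt_of_le (by positivity) hpbn
  have hsn0 : 0 < Real.sqrt n := Real.sqrt_pos.2 hn'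
  set r := 2 * n / 2 ^ p with hr
  have hr1 : 2 ^ p * r ≤ 2 * n := Nat.mul_div_le _ _
  have hr2 : 2 * n < 2 ^ p * r + 2 ^ p := by
    have := Nat.lt_mul_div_succ (2 * n) h2p
    rw [Nat.mul_add, Nat.mul_one] at this
    exact this
  -- the errors
  have herr : ∀ j < p, ∀ a : ℕ, a + (2 ^ j * r + 2 ^ j * r) ≤ 2 * n →
      EB n (fun w => |er F a (2 ^ j * r) w|) ≤ δ * Real.sqrt n := by
    intro j hj a ha
    refine hN2 n (by omega) (2 ^ j * r) ?_ (by omega) a ha
    have h1 : r ≤ 2 ^ j * r := Nat.le_mul_of_pos_left _ (by positivity)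
    have h2 := Nat.mul_le_mul_left (2 ^ p) h1
    omega
  have hdy := dyadic F n (δ * Real.sqrt n) r p herr p le_rfl 0 (by omega)
  have hcl := hN1 n (by omega)
  -- the total
  have htot : EB n (fun w => |Fo w - ∑ i ∈ range (2 ^ p), F (blk r i w)|) ≤
      q * δ * Real.sqrt n + C * q := by
    have h1 : EB n (fun w => |Fo w - ∑ i ∈ range (2 ^ p), F (blk r i w)|) ≤
        EB n (fun w => |Fo w - F w|) + EB n (fun _ => C * q) +
        EB n (fun w => |F (sub 0 (2 ^ p * r) w) -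
          ∑ i ∈ range (2 ^ p), F (sub (0 + i * r) r w)|) := by
      rw [← EB_add, ← EB_add]
      refine EB_mono fun w hw _ => ?_
      have h2 : ∑ i ∈ range (2 ^ p), F (blk r i w) =
          ∑ i ∈ range (2 ^ p), F (sub (0 + i * r) r w) := by
        refine sum_congr rfl fun i _ => ?_
        rw [Nat.zero_add]
        rfl
      have h3 : |F w - F (sub 0 (2 ^ p * r) w)| ≤ C * q := by
        have h4 := step_many hA (w.take (2 ^ p * r)) (w.drop (2 ^ p * r))
        rw [List.take_append_drop, List.length_drop, hw] at h4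
        have h5 : sub 0 (2 ^ p * r) w = w.take (2 ^ p * r) := by
          unfold sub
          rw [List.drop_zero]
        rw [h5]
        refine h4.trans (mul_le_mul_of_nonneg_left ?_ hC)
        have h6 : 2 * n - 2 ^ p * r ≤ 2 ^ p := by omega
        rw [hq]
        exact_mod_cast h6
      rw [h2]
      have h7 : Fo w - ∑ i ∈ range (2 ^ p), F (sub (0 + i * r) r w) =
          (Fo w - F w) + (F w - F (sub 0 (2 ^ p * r) w)) +
          (F (sub 0 (2 ^ p * r) w) - ∑ i ∈ range (2 ^ p), F (sub (0 + i * r) r w)) := by ring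
      rw [h7]
      exact (abs_add_le _ _).trans (add_le_add ((abs_add_le _ _).trans
        (add_le_add le_rfl h3)) le_rfl)
    rw [EB_const n hpb0] at h1
    refine h1.trans ?_
    have h8 : (2 : ℝ) ^ p = q := rfl
    rw [h8] at hdy
    linarith
  have hmk := EB_markov n (fun w => |Fo w - ∑ i ∈ range (2 ^ p), F (blk r i w)|)
    (fun w => abs_nonneg _) (show 0 < ε * Real.sqrt n by positivity)
  have hnn : 0 ≤ EB n fun w => ind (ε * Real.sqrt n <
      |Fo w - ∑ i ∈ range (2 ^ p), F (blk r i w)|) := EB_nonneg fun _ _ _ => ind_nonneg _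
  rw [Real.dist_eq, sub_zero, abs_of_nonneg hnn]
  refine lt_of_le_of_lt hmk ?_
  rw [div_lt_iff₀ (by positivity)]
  refine lt_of_le_of_lt htot ?_
  have e1 : q * δ = ε * η / 4 := by rw [hδ]; field_simp
  have e2 : C * q ≤ ε * η / 4 * Real.sqrt n := by
    have e3 : 4 * C * q / (ε * η) ≤ Real.sqrt n := by
      refine Real.le_sqrt_of_sq_le (hN3.le.trans ?_)
      exact_mod_cast (by omega : N3 ≤ n)
    rw [div_le_iff₀ (by positivity)] at e3
    linarith
  rw [e1]
  have e4 : 0 < ε * η * Real.sqrt n := by positivity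
  nlinarith

theorem m4 (hU : S_U) (hM : S_MOM) (hD : S_DENS) (hK : S_KUR) : S_M4 := by
  intro F Fo C c r₀ hA
  have hC := C_nonneg hA
  have hc := hA.cpos
  obtain ⟨c₀, D, hc₀, hD0, hpb, hDs⟩ := dens hD
  obtain ⟨-, -, -, κ, R, hκ, hR⟩ := hK F Fo C c r₀ hA
  refine ⟨64 * (C ^ 4 * (1024 * D) / c ^ 2 + C ^ 4 * (64 * D) / c ^ 2 + 2 * (D * κ)), R + r₀ + 1,
    by positivity, fun n hn => ?_⟩
  have hn1 : 0 < n := by omega
  have hn' : (0 : ℝ) < n := Nat.cast_pos.2 hn1
  have hpbn := hpb n hn1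
  have hpb0 : 0 < pb n := lt_of_lt_of_le (by positivity) hpbn
  have hv := hA.var n (by omega)
  have hn2 : (n : ℝ) ^ 2 ≤ Vw n F ^ 2 / c ^ 2 := by
    rw [le_div_iff₀ (by positivity)]
    have := pow_le_pow_left₀ (by positivity) hv 2
    nlinarith
  -- the two halves
  have hsplit : ∀ w : W, w.length = 2 * n → sub 0 n w ++ sub n n w = w := by
    intro w hw
    have h6 := sub_append 0 n n w
    rw [Nat.zero_add] at h6
    rw [h6]
    unfold sub
    rw [List.drop_zero]
    exact List.take_of_length_le (by omega)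
  have f0 := fun Ψ hΨ => hDs n 0 n hn1 (by omega) le_rfl Ψ hΨ
  have f1 := fun Ψ hΨ => hDs n n n hn1 (by omega) le_rfl Ψ hΨ
  have hh4 := Ew_hh4 hM n
  -- fourth powers
  have e1 : EB n (fun w => (Fo w - F w) ^ 4) ≤ C ^ 4 * (1024 * D) * (n : ℝ) ^ 2 := by
    have h1 : EB n (fun w => (Fo w - F w) ^ 4) ≤
        C ^ 4 * (8 * (EB n fun w => hh (sub 0 n w) ^ 4) + 8 * EB n fun w => hh (sub n n w) ^ 4) := by
      rw [← EB_mul_left n 8, ← EB_mul_left n 8, ← EB_add, ← EB_mul_left]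
      refine EB_mono fun w hw hb => ?_
      have h2 := hA.close w hb
      have h3 : |Fo w - F w| ≤ C * (hh (sub 0 n w) + hh (sub n n w)) := by
        refine h2.trans (mul_le_mul_of_nonneg_left ?_ hC)
        have h4 := hh_append hU (sub 0 n w) (sub n n w)
        rw [hsplit w hw] at h4
        exact h4
      have h4 := pow_le_pow_left₀ (abs_nonneg _) h3 4
      have h5 : |Fo w - F w| ^ 4 = (Fo w - F w) ^ 4 := by
        rw [pow_abs, abs_of_nonneg (by positivity)]
      rw [h5, mul_pow] at h4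
      refine h4.trans (mul_le_mul_of_nonneg_left ?_ (by positivity))
      have h6 := add_pow_four (hh (sub 0 n w)) (hh (sub n n w)) 1 one_pos
      norm_num at h6
      exact h6
    refine h1.trans ?_
    have h2 := f0 (fun w => hh w ^ 4) (fun w => by positivity)
    have h3 := f1 (fun w => hh w ^ 4) (fun w => by positivity)
    have h4 : D * (Ew n fun w => hh w ^ 4) ≤ D * (64 * (n : ℝ) ^ 2) :=
      mul_le_mul_of_nonneg_left hh4 hD0.le
    calc C ^ 4 * (8 * (EB n fun w => hh (sub 0 n w) ^ 4) + 8 * EB n fun w => hh (sub n n w) ^ 4)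
        ≤ C ^ 4 * (8 * (D * (64 * (n : ℝ) ^ 2)) + 8 * (D * (64 * (n : ℝ) ^ 2))) := by
          refine mul_le_mul_of_nonneg_left ?_ (by positivity)
          linarith
      _ = _ := by ring
  have e2 : EB n (fun w => (F w - F (sub 0 n w) - F (sub n n w)) ^ 4) ≤
      C ^ 4 * (64 * D) * (n : ℝ) ^ 2 := by
    have h1 : EB n (fun w => (F w - F (sub 0 n w) - F (sub n n w)) ^ 4) ≤
        C ^ 4 * EB n fun w => hh (sub 0 n w) ^ 4 := by
      rw [← EB_mul_left]
      refine EB_mono fun w hw hb => ?_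
      have h2 := hA.join (sub 0 n w) (sub n n w)
      rw [hsplit w hw] at h2
      have h3 : |F w - F (sub 0 n w) - F (sub n n w)| ≤ C * hh (sub 0 n w) :=
        h2.trans (mul_le_mul_of_nonneg_left (mm_le _ _) hC)
      have h4 := pow_le_pow_left₀ (abs_nonneg _) h3 4
      have h5 : |F w - F (sub 0 n w) - F (sub n n w)| ^ 4 =
          (F w - F (sub 0 n w) - F (sub n n w)) ^ 4 := by
        rw [pow_abs, abs_of_nonneg (by positivity)]
      rwa [h5, mul_pow] at h4
    refine h1.trans ?_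
    have h2 := f0 (fun w => hh w ^ 4) (fun w => by positivity)
    have h4 : D * (Ew n fun w => hh w ^ 4) ≤ D * (64 * (n : ℝ) ^ 2) :=
      mul_le_mul_of_nonneg_left hh4 hD0.le
    calc C ^ 4 * (EB n fun w => hh (sub 0 n w) ^ 4) ≤ C ^ 4 * (D * (64 * (n : ℝ) ^ 2)) :=
          mul_le_mul_of_nonneg_left (h2.trans h4) (by positivity)
      _ = _ := by ring
  have h4 := hR n (by omega)
  have e3 : EB n (fun w => (F (sub 0 n w) - Ew n F) ^ 4) ≤ D * κ * Vw n F ^ 2 := by
    refine (f0 (fun w => (F w - Ew n F) ^ 4) (fun w => by positivity)).trans ?_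
    have := mul_le_mul_of_nonneg_left h4 hD0.le
    linarith
  have e4 : EB n (fun w => (F (sub n n w) - Ew n F) ^ 4) ≤ D * κ * Vw n F ^ 2 := by
    refine (f1 (fun w => (F w - Ew n F) ^ 4) (fun w => by positivity)).trans ?_
    have := mul_le_mul_of_nonneg_left h4 hD0.le
    linarith
  have e5 : EB n (fun w => (Fo w - 2 * Ew n F) ^ 4) ≤
      64 * (EB n (fun w => (Fo w - F w) ^ 4) +
        EB n (fun w => (F w - F (sub 0 n w) - F (sub n n w)) ^ 4) +
        EB n (fun w => (F (sub 0 n w) - Ew n F) ^ 4) +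
        EB n (fun w => (F (sub n n w) - Ew n F) ^ 4)) := by
    rw [← EB_add, ← EB_add, ← EB_add, ← EB_mul_left]
    refine EB_mono fun w _ _ => ?_
    have h5 : ∀ x y : ℝ, (x + y) ^ 4 ≤ 8 * (x ^ 4 + y ^ 4) := by
      intro x y
      have h6 := add_pow_four x y 1 one_pos
      norm_num at h6
      linarith
    have h6 := h5 ((Fo w - F w) + (F w - F (sub 0 n w) - F (sub n n w)))
      ((F (sub 0 n w) - Ew n F) + (F (sub n n w) - Ew n F))
    have h7 := h5 (Fo w - F w) (F w - F (sub 0 n w) - F (sub n n w))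
    have h8 := h5 (F (sub 0 n w) - Ew n F) (F (sub n n w) - Ew n F)
    have h9 : Fo w - 2 * Ew n F = ((Fo w - F w) + (F w - F (sub 0 n w) - F (sub n n w))) +
      ((F (sub 0 n w) - Ew n F) + (F (sub n n w) - Ew n F)) := by ring
    rw [h9]
    linarith
  refine e5.trans ?_
  have e6 : C ^ 4 * (1024 * D) * (n : ℝ) ^ 2 ≤ C ^ 4 * (1024 * D) / c ^ 2 * Vw n F ^ 2 := by
    calc _ ≤ C ^ 4 * (1024 * D) * (Vw n F ^ 2 / c ^ 2) :=
          mul_le_mul_of_nonneg_left hn2 (by positivity)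
      _ = _ := by ring
  have e7 : C ^ 4 * (64 * D) * (n : ℝ) ^ 2 ≤ C ^ 4 * (64 * D) / c ^ 2 * Vw n F ^ 2 := by
    calc _ ≤ C ^ 4 * (64 * D) * (Vw n F ^ 2 / c ^ 2) :=
          mul_le_mul_of_nonneg_left hn2 (by positivity)
      _ = _ := by ring
  have e8 : Vw n F ^ 2 ≤ (2 * Vw n F) ^ 2 := by
    nlinarith [sq_nonneg (Vw n F)]
  have e9 : 0 ≤ 64 * (C ^ 4 * (1024 * D) / c ^ 2 + C ^ 4 * (64 * D) / c ^ 2 + 2 * (D * κ)) := by
    positivity
  calc _ ≤ 64 * (C ^ 4 * (1024 * D) / c ^ 2 + C ^ 4 * (64 * D) / c ^ 2 + 2 * (D * κ)) *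
        Vw n F ^ 2 := by
        nlinarith
    _ ≤ _ := mul_le_mul_of_nonneg_left e8 e9

end Pool.Agent.N940.MN.Blk
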