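import Pool.Agent.N940.MN.Stm3

/-!
# Most of the ends of a window are joined inside the window
-/

set_option autoImplicit false

open Filter Topology Finset

namespace Pool.Agent.N940.MN.Bm

/-! ### the parse lemma -/

lemma Ew_split (m l : ℕ) (G : W → W → ℝ) :
    Ew m (fun p => Ew l (fun L => G p L)) = Ew (m + l) (fun w => G (w.take m) (w.drop m)) := by
  rw [Ew_append]
  refine Ew_congr fun p hp => Ew_congr fun L _ => ?_
  rw [List.take_left' hp, List.drop_left' hp]

lemma parse (hW : S_WN) {M : ℕ} (hM : 0 < M) (Φ : W → W → ℝ) (r : ℕ) :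
    Ew r (fun I => if M ≤ U (up I) then Φ (pre M I) (sfx M I) else 0) =
      ∑ l ∈ range (r + 1), Ew (r - l) (fun p => Ew l fun L => ind (IsWin M L) * Φ p L) := by
  have h1 : ∀ l ∈ range (r + 1), Ew (r - l) (fun p => Ew l fun L => ind (IsWin M L) * Φ p L) =
      Ew r (fun w => ind (IsWin M (w.drop (r - l))) * Φ (w.take (r - l)) (w.drop (r - l))) := by
    intro l hl
    rw [mem_range] at hl
    rw [Ew_split (r - l) l (fun p L => ind (IsWin M L) * Φ p L), show r - l + l = r by omega]
  rw [sum_congr rfl h1, ← Ew_sum]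
  refine Ew_congr fun w hw => ?_
  obtain ⟨w1, w2, -, w4, -, -⟩ := hW
  split_ifs with h
  · obtain ⟨h2, -⟩ := w2 M w hM h
    obtain ⟨p, L, hp, hL, e⟩ : ∃ p L, p = pre M w ∧ L = sfx M w ∧ p ++ L = w :=
      ⟨_, _, rfl, rfl, w1 M w⟩
    rw [← hL] at h2
    rw [← hp, ← hL]
    have hr : p.length + L.length = r := by rw [← List.length_append, e, hw]
    rw [sum_eq_single L.length]
    · have e1 : w.drop (r - L.length) = L := by
        rw [← e]; exact List.drop_left' (by omega)
      have e2 : w.take (r - L.length) = p := by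
        rw [← e]; exact List.take_left' (by omega)
      rw [e1, e2]; simp [ind, h2]
    · intro l hl hne
      have : ¬ IsWin M (w.drop (r - l)) := by
        intro h5
        have h6 := (w4 M (w.take (r-l)) _ hM h5).1
        rw [List.take_append_drop] at h6
        apply hne
        have := congrArg List.length h6
        rw [← hL, List.length_drop, hw] at this
        rw [mem_range] at hl
        omega
      simp [ind, this]
    · intro h5
      exfalso; apply h5; rw [mem_range]; omega
  · symm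
    apply sum_eq_zero
    intro l hl
    have : ¬ IsWin M (w.drop (r - l)) := by
      intro h5
      have h6 := (w4 M (w.take (r-l)) _ hM h5).2.2
      rw [List.take_append_drop] at h6
      exact h h6
    simp [ind, this]

/-! ### windows -/

/-- the number of ends which are not joined inside the window -/
noncomputable def bt (M : ℕ) (L : W) : ℝ := (M : ℝ) - 2 * (gg L : ℝ)

/-- its mean -/
noncomputable def b (M r : ℕ) : ℝ :=
  Ew r (fun I => if M ≤ U (up I) then bt M (sfx M I) else 0)

lemma bt_nonneg (hG : S_GG) {M : ℕ} {L : W} (h : IsWin M L) : 0 ≤ bt M L := by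
  have h1 := (hG.1 M L h).1
  have h2 : 2 * (gg L : ℝ) ≤ M := by exact_mod_cast h1
  unfold bt
  linarith

lemma bt_le (M : ℕ) (L : W) : bt M L ≤ M := by
  unfold bt
  have : (0 : ℝ) ≤ gg L := by positivity
  linarith

lemma bt_le_D (hG : S_GG) {M : ℕ} {L : W} (h : IsWin M L) :
    bt M L ≤ (U (lo L) : ℝ) + Dn (lo L) := by
  have h1 := (hG.1 M L h).2
  have h2 : (M : ℝ) ≤ 2 * (gg L : ℝ) + ((U (lo L) : ℝ) + Dn (lo L)) := by exact_mod_cast h1
  unfold bt
  linarith

lemma b_nonneg (hW : S_WN) (hG : S_GG) {M : ℕ} (hM : 0 < M) (r : ℕ) : 0 ≤ b M r := by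
  refine Ew_nonneg fun w _ => ?_
  split_ifs with h
  · exact bt_nonneg hG (hW.2.1 M w hM h).1
  · exact le_rfl

lemma b_le (M r : ℕ) : b M r ≤ M := by
  have h : b M r ≤ Ew r (fun _ => (M : ℝ)) := by
    refine Ew_mono fun w _ => ?_
    split_ifs with h
    · exact bt_le M _
    · positivity
  rwa [Ew_const] at h

/-- the limit of the mean -/
noncomputable def bb (M : ℕ) : ℝ := ⨆ r, b M r

lemma bdd (M : ℕ) : BddAbove (Set.range (b M)) := ⟨M, by rintro _ ⟨r, rfl⟩; exact b_le M r⟩

lemma le_bb (M r : ℕ) : b M r ≤ bb M := le_ciSup (bdd M) r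

lemma bb_nonneg (hW : S_WN) (hG : S_GG) {M : ℕ} (hM : 0 < M) : 0 ≤ bb M :=
  (b_nonneg hW hG hM 0).trans (le_bb M 0)

lemma bb_le (M : ℕ) : bb M ≤ M := ciSup_le fun r => b_le M r

lemma sfx_add (hW : S_WN) {M M' : ℕ} (hM : 0 < M) (hM' : 0 < M') {I : W}
    (h : M + M' ≤ U (up I)) :
    IsWin M (sfx M I) ∧ M' ≤ U (up (pre M I)) ∧ IsWin M' (sfx M' (pre M I)) ∧
      sfx (M + M') I = sfx M' (pre M I) ++ sfx M I := by
  obtain ⟨w1, w2, -, w4, -, w6⟩ := hW
  obtain ⟨h1, h2⟩ := w2 M I hM (by omega)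
  obtain ⟨h3, -⟩ := w2 M' (pre M I) hM' (by omega)
  refine ⟨h1, by omega, h3, ?_⟩
  have h4 := w6 M M' _ _ h1 h3
  have h5 := (w4 (M + M') (pre M' (pre M I)) _ (by omega) h4).1
  rwa [← List.append_assoc, w1 M' (pre M I), w1 M I] at h5

lemma bt_add (hW : S_WN) (hG : S_GG) {M M' : ℕ} (hM : 0 < M) (hM' : 0 < M') {I : W}
    (h : M + M' ≤ U (up I)) :
    bt (M + M') (sfx (M + M') I) ≤ bt M (sfx M I) + bt M' (sfx M' (pre M I)) := by
  obtain ⟨h1, -, h3, h4⟩ := sfx_add hW hM hM' h
  have h5 := hG.2.1 M M' _ _ h1 h3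
  rw [h4]
  have h6 : (gg (sfx M' (pre M I)) : ℝ) + gg (sfx M I) ≤ gg (sfx M' (pre M I) ++ sfx M I) := by
    exact_mod_cast h5
  unfold bt
  push_cast
  linarith

lemma second_le (hW : S_WN) (hG : S_GG) {M M' : ℕ} (hM : 0 < M) (hM' : 0 < M') (r : ℕ) :
    Ew r (fun I => if M + M' ≤ U (up I) then bt M' (sfx M' (pre M I)) else 0) ≤ bb M' := by
  have e : Ew r (fun I => if M + M' ≤ U (up I) then bt M' (sfx M' (pre M I)) else 0) =
      Ew r (fun I => if M ≤ U (up I) then
        (fun p _ => if M' ≤ U (up p) then bt M' (sfx M' p) else 0) (pre M I) (sfx M I) else 0) := by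
    refine Ew_congr fun w _ => ?_
    by_cases h : M ≤ U (up w)
    · have h2 := (hW.2.1 M w hM h).2
      rw [if_pos h]
      simp only
      by_cases h3 : M + M' ≤ U (up w)
      · rw [if_pos h3, if_pos (by omega)]
      · rw [if_neg h3, if_neg (by omega)]
    · rw [if_neg h, if_neg (by omega)]
  have e1 : Ew r (fun I => if M ≤ U (up I) then (fun _ _ => (1 : ℝ)) (pre M I) (sfx M I) else 0)
      ≤ 1 := by
    have h : Ew r (fun I => if M ≤ U (up I) then (fun _ _ => (1 : ℝ)) (pre M I) (sfx M I) else 0)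
        ≤ Ew r (fun _ => (1 : ℝ)) := by
      refine Ew_mono fun w _ => ?_
      split_ifs with h
      · exact le_rfl
      · norm_num
    rwa [Ew_const] at h
  rw [parse hW hM (fun _ _ => (1 : ℝ)) r] at e1
  rw [e, parse hW hM (fun p _ => if M' ≤ U (up p) then bt M' (sfx M' p) else 0) r]
  have hb := bb_nonneg hW hG hM'
  calc ∑ l ∈ range (r + 1), Ew (r - l) (fun p => Ew l fun L => ind (IsWin M L) *
        (fun p _ => if M' ≤ U (up p) then bt M' (sfx M' p) else 0) p L)
      = ∑ l ∈ range (r + 1), b M' (r - l) * Ew l (fun L => ind (IsWin M L)) := by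
        refine sum_congr rfl fun l _ => ?_
        unfold b
        rw [← Ew_mul_right]
        congr 1
        funext p
        simp only
        rw [Ew_mul_right, mul_comm]
    _ ≤ ∑ l ∈ range (r + 1), bb M' * Ew (r - l) (fun _ => Ew l fun L => ind (IsWin M L) *
        (fun _ _ => (1 : ℝ)) ([] : W) L) := by
        refine sum_le_sum fun l _ => ?_
        simp only [mul_one, Ew_const]
        exact mul_le_mul_of_nonneg_right (le_bb _ _) (Ew_nonneg fun _ _ => ind_nonneg _)
    _ ≤ bb M' * 1 := by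
        rw [← mul_sum]
        exact mul_le_mul_of_nonneg_left e1 hb
    _ = bb M' := mul_one _

lemma b_add (hW : S_WN) (hG : S_GG) {M M' : ℕ} (hM : 0 < M) (hM' : 0 < M') (r : ℕ) :
    b (M + M') r ≤ bb M + bb M' := by
  have h1 : b (M + M') r ≤ b M r +
      Ew r (fun I => if M + M' ≤ U (up I) then bt M' (sfx M' (pre M I)) else 0) := by
    unfold b
    rw [← Ew_add]
    refine Ew_mono fun w _ => ?_
    by_cases h : M + M' ≤ U (up w)
    · rw [if_pos h, if_pos h, if_pos (by omega)]
      exact bt_add hW hG hM hM' h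
    · rw [if_neg h, if_neg h, add_zero]
      split_ifs with h2
      · exact bt_nonneg hG (hW.2.1 M w hM h2).1
      · exact le_rfl
  have h2 := second_le hW hG hM hM' r
  have h3 := le_bb M r
  linarith

/-- the subadditive sequence -/
noncomputable def u (M : ℕ) : ℝ := if M = 0 then 0 else bb M

lemma sub (hW : S_WN) (hG : S_GG) : Subadditive u := by
  intro m n
  unfold u
  by_cases hm : m = 0
  · subst hm; simp
  by_cases hn : n = 0
  · subst hn; simp
  rw [if_neg (by omega), if_neg hm, if_neg hn]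
  exact ciSup_le fun r => b_add hW hG (by omega) (by omega) r

lemma u_nonneg (hW : S_WN) (hG : S_GG) (M : ℕ) : 0 ≤ u M := by
  unfold u
  split_ifs with h
  · exact le_rfl
  · exact bb_nonneg hW hG (by omega)

lemma u_bdd (hW : S_WN) (hG : S_GG) : BddBelow (Set.range fun n : ℕ => u n / n) := by
  refine ⟨0, ?_⟩
  rintro _ ⟨n, rfl⟩
  exact div_nonneg (u_nonneg hW hG n) (by positivity)

lemma sum_bt (hW : S_WN) (hG : S_GG) {M : ℕ} (hM : 0 < M) (q : ℕ) : ∀ I : W,
    (q + 1) * M ≤ U (up I) →
    bt ((q + 1) * M) (sfx ((q + 1) * M) I) ≤ ∑ t ∈ range (q + 1), bt M (wn M t I) := by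
  induction q with
  | zero =>
    intro I _
    simp only [zero_add, one_mul, range_one, sum_singleton]
    exact le_of_eq rfl
  | succ q ih =>
    intro I h
    rw [sum_range_succ']
    have e : (q + 1 + 1) * M = M + (q + 1) * M := by ring
    rw [e] at h ⊢
    have h1 := bt_add hW hG hM (by positivity) h
    have h2 := (sfx_add hW hM (by positivity) h).2.1
    have h3 := ih (pre M I) h2
    have e1 : ∀ t, wn M (t + 1) I = wn M t (pre M I) := fun t => rfl
    have e2 : wn M 0 I = sfx M I := rfl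
    simp only [e1, e2]
    linarith

/-- the exponential estimate -/
lemma exp_le (hW : S_WN) (hK : S_KR) (hG : S_GG) {M : ℕ} (hM : 0 < M) {s : ℝ} (hs0 : 0 ≤ s)
    (hs : s * M ≤ 1) (r q : ℕ) :
    Ew r (fun I => if q * M ≤ U (up I) then Real.exp (s * ∑ t ∈ range q, bt M (wn M t I)) else 0) ≤
      Real.exp (q * (s * bb M + (s * M) ^ 2)) := by
  have h1 := hK.1 M (fun L => Real.exp (s * bt M L)) hM (fun L => (Real.exp_pos _).le) r q
  have e : Ew r (fun I => if q * M ≤ U (up I) then
      Real.exp (s * ∑ t ∈ range q, bt M (wn M t I)) else 0) =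
      Ew r (fun I => if q * M ≤ U (up I) then
        ∏ t ∈ range q, (fun L => Real.exp (s * bt M L)) (wn M t I) else 0) := by
    congr 1
    funext I
    split_ifs
    · rw [mul_sum, Real.exp_sum]
    · rfl
  rw [e]
  refine h1.trans ?_
  rw [Real.exp_nat_mul]
  have h2 : Ew r (fun I => if M ≤ U (up I) then Real.exp (s * bt M (sfx M I)) else 0) ≤
      Real.exp (s * bb M + (s * M) ^ 2) := by
    have h3 : Ew r (fun I => if M ≤ U (up I) then Real.exp (s * bt M (sfx M I)) else 0) ≤
        Ew r (fun I => (1 + (s * M) ^ 2) + s * (if M ≤ U (up I) then bt M (sfx M I) else 0)) := by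
      refine Ew_mono fun w _ => ?_
      split_ifs with h
      · have h4 := bt_nonneg hG (hW.2.1 M w hM h).1
        have h5 := bt_le M (sfx M w)
        have h6 : 0 ≤ s * bt M (sfx M w) := mul_nonneg hs0 h4
        have h7 : s * bt M (sfx M w) ≤ s * M := mul_le_mul_of_nonneg_left h5 hs0
        have h8 := Real.abs_exp_sub_one_sub_id_le (x := s * bt M (sfx M w))
          (by rw [abs_of_nonneg h6]; linarith)
        have h9 := (abs_le.1 h8).2
        nlinarith
      · nlinarith [sq_nonneg (s * (M : ℝ))]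
    rw [Ew_add, Ew_const, Ew_mul_left] at h3
    have h4 := le_bb M r
    unfold b at h4
    have h5 := mul_le_mul_of_nonneg_left h4 hs0
    have h6 := Real.add_one_le_exp (s * bb M + (s * M) ^ 2)
    linarith
  refine pow_le_pow_left₀ ?_ h2 q
  refine Ew_nonneg fun w _ => ?_
  split_ifs
  · exact (Real.exp_pos _).le
  · exact le_rfl

/-- a large sum is unlikely -/
lemma P2_le (hW : S_WN) (hK : S_KR) (hG : S_GG) {M : ℕ} (hM : 0 < M) {e : ℝ} (he0 : 0 ≤ e)
    (he : e ≤ 2) (r q : ℕ) :
    Ew r (fun I => ind (q * M ≤ U (up I) ∧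
      q * (bb M + e * M) ≤ ∑ t ∈ range q, bt M (wn M t I))) ≤ Real.exp (-(q * e ^ 2 / 4)) := by
  have hMr : (0 : ℝ) < M := by exact_mod_cast hM
  set s : ℝ := e / (2 * M) with hs
  have hs0 : 0 ≤ s := by positivity
  have hsM : s * M = e / 2 := by rw [hs]; field_simp
  have h1 := exp_le hW hK hG hM hs0 (by rw [hsM]; linarith) r q
  have h2 : Ew r (fun I => ind (q * M ≤ U (up I) ∧
      q * (bb M + e * M) ≤ ∑ t ∈ range q, bt M (wn M t I))) ≤
      Ew r (fun I => Real.exp (-(s * (q * (bb M + e * M)))) * (if q * M ≤ U (up I) then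
        Real.exp (s * ∑ t ∈ range q, bt M (wn M t I)) else 0)) := by
    refine Ew_mono fun w _ => ?_
    unfold ind
    split_ifs with h3 h4 h4
    · rw [← Real.exp_add, ← Real.exp_zero]
      apply Real.exp_le_exp.2
      have := mul_le_mul_of_nonneg_left h3.2 hs0
      linarith
    · exact absurd h3.1 h4
    · positivity
    · simp
  rw [Ew_mul_left] at h2
  refine h2.trans ?_
  calc Real.exp (-(s * (q * (bb M + e * M)))) * Ew r (fun I => if q * M ≤ U (up I) then
        Real.exp (s * ∑ t ∈ range q, bt M (wn M t I)) else 0)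
      ≤ Real.exp (-(s * (q * (bb M + e * M)))) * Real.exp (q * (s * bb M + (s * M) ^ 2)) :=
        mul_le_mul_of_nonneg_left h1 (Real.exp_pos _).le
    _ = Real.exp (-(q * e ^ 2 / 4)) := by
        rw [← Real.exp_add]
        congr 1
        have : s * (q * (bb M + e * M)) = q * (s * bb M + e * (s * M)) := by ring
        rw [this, hsM]
        ring

/-- the main step -/
lemma lim_zero (hW : S_WN) (hK : S_KR) (hH : S_HIT) (hG : S_GG) : (sub hW hG).lim ≤ 0 := by
  by_contra hcon
  rw [not_le] at hcon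
  set B : ℝ := (sub hW hG).lim with hB
  have hle : ∀ M : ℕ, 0 < M → B * M ≤ bb M := by
    intro M hM
    have h1 := (sub hW hG).lim_le_div (u_bdd hW hG) (n := M) (by omega)
    rw [← hB, le_div_iff₀ (by exact_mod_cast hM)] at h1
    unfold u at h1
    rwa [if_neg (by omega)] at h1
  have hB1 : B ≤ 1 := by
    have h1 := hle 1 one_pos
    have h2 := bb_le 1
    push_cast at h1 h2
    linarith
  obtain ⟨c, M₀, hc, hhit⟩ := hH (B / 2) (by positivity)
  have hc1 : c ≤ 1 := by
    obtain ⟨r₀, h1⟩ := hhit M₀ le_rfl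
    refine (h1 r₀ le_rfl).trans ?_
    have h : Ew r₀ (fun I => ind (M₀ ≤ U (up I) ∧
        ((U (lo (sfx M₀ I)) : ℝ) + Dn (lo (sfx M₀ I)) ≤ B / 2 * M₀))) ≤
        Ew r₀ (fun _ => (1 : ℝ)) := Ew_mono fun w _ => ind_le_one _
    rwa [Ew_const] at h
  set e : ℝ := c * B / 16 with he
  have he0 : 0 < e := by positivity
  have he1 : e ≤ 1 := by
    have : c * B ≤ 1 := by nlinarith
    linarith
  -- a good window size
  obtain ⟨M, hM, hbM⟩ : ∃ M : ℕ, 0 < M ∧ bb M ≤ (B + e) * M := by
    have h1 := (sub hW hG).tendsto_lim (u_bdd hW hG)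
    have h2 : ∀ᶠ n : ℕ in atTop, u n / n < B + e :=
      h1.eventually_lt_const (by rw [← hB]; linarith)
    obtain ⟨M, h3, h4⟩ := (h2.and (eventually_ge_atTop 1)).exists
    refine ⟨M, by omega, ?_⟩
    rw [div_lt_iff₀ (by exact_mod_cast (by omega : 0 < M))] at h3
    unfold u at h3
    rw [if_neg (by omega)] at h3
    exact h3.le
  have hMr : (0 : ℝ) < M := by exact_mod_cast hM
  -- the number of windows
  obtain ⟨Q, hQ⟩ := exists_nat_ge (4 / e ^ 3 + M₀ + 1)
  have he3 : 0 < 4 / e ^ 3 := by positivity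
  have hQ0 : 0 < Q := by
    have : (0 : ℝ) < Q := by
      have : (0 : ℝ) ≤ M₀ := by positivity
      linarith
    exact_mod_cast this
  have hQM : M₀ ≤ Q := by
    have : (M₀ : ℝ) ≤ Q := by linarith
    exact_mod_cast this
  have hQe : Real.exp (-(Q * e ^ 2 / 4)) ≤ e := by
    have h1 : 4 / e ^ 3 ≤ (Q : ℝ) := by
      have : (0 : ℝ) ≤ M₀ := by positivity
      linarith
    rw [div_le_iff₀ (by positivity)] at h1
    have h2 : 1 / e ≤ Q * e ^ 2 / 4 := by
      rw [div_le_div_iff₀ he0 (by norm_num)]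
      nlinarith
    have h3 := Real.add_one_le_exp (Q * e ^ 2 / 4)
    rw [Real.exp_neg]
    apply inv_le_of_inv_le₀ he0
    rw [← one_div]
    linarith
  have hQMM : M₀ ≤ Q * M := hQM.trans (Nat.le_mul_of_pos_right _ hM)
  obtain ⟨r₀, hr₀⟩ := hhit (Q * M) hQMM
  -- the contradiction
  have key : ∀ r, r₀ ≤ r → b (Q * M) r ≤ (B - 5 * e) * ((Q * M : ℕ) : ℝ) := by
    intro r hr
    have h1 := hr₀ r hr
    have h2 := P2_le hW hK hG hM he0.le (by linarith) r Q
    have h3 := h2.trans hQe
    have hN : (0 : ℝ) ≤ ((Q * M : ℕ) : ℝ) := by positivity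
    set A : W → Prop := fun I => Q * M ≤ U (up I) ∧
      ((U (lo (sfx (Q * M) I)) : ℝ) + Dn (lo (sfx (Q * M) I)) ≤ B / 2 * ((Q * M : ℕ) : ℝ)) with hA
    set A2 : W → Prop := fun I => Q * M ≤ U (up I) ∧
      Q * (bb M + e * M) ≤ ∑ t ∈ range Q, bt M (wn M t I) with hA2
    have h4 : b (Q * M) r ≤ Ew r (fun I => (B + 2 * e) * ((Q * M : ℕ) : ℝ) +
        (-((B / 2 + 2 * e) * ((Q * M : ℕ) : ℝ)) * ind (A I) +
        ((Q * M : ℕ) : ℝ) * ind (A2 I))) := by
      unfold b
      refine Ew_mono fun I _ => ?_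
      split_ifs with hU
      · have hwin := (hW.2.1 (Q * M) I (by positivity) hU).1
        have h5 := bt_le_D hG hwin
        have h6 := bt_le (Q * M) (sfx (Q * M) I)
        have h7 : bt (Q * M) (sfx (Q * M) I) ≤ ∑ t ∈ range Q, bt M (wn M t I) := by
          obtain ⟨q, rfl⟩ : ∃ q, Q = q + 1 := ⟨Q - 1, by omega⟩
          exact sum_bt hW hG hM q I hU
        by_cases hA' : A I
        · have e1 : ind (A I) = 1 := by unfold ind; rw [if_pos hA']
          have e2 := ind_nonneg (A2 I)
          rw [e1]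
          have h8 := hA'.2
          nlinarith [mul_nonneg hN e2]
        · have e1 : ind (A I) = 0 := by unfold ind; rw [if_neg hA']
          rw [e1]
          by_cases hA2' : A2 I
          · have e2 : ind (A2 I) = 1 := by unfold ind; rw [if_pos hA2']
            rw [e2]
            nlinarith [mul_nonneg (by positivity : (0:ℝ) ≤ B + 2 * e) hN]
          · have e2 : ind (A2 I) = 0 := by unfold ind; rw [if_neg hA2']
            rw [e2]
            have h8 : ∑ t ∈ range Q, bt M (wn M t I) < Q * (bb M + e * M) := by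
              by_contra hc
              exact hA2' ⟨hU, not_lt.1 hc⟩
            have h9 : (Q : ℝ) * (bb M + e * M) ≤ (B + 2 * e) * ((Q * M : ℕ) : ℝ) := by
              push_cast
              have hQr : (0 : ℝ) ≤ Q := by positivity
              have := mul_le_mul_of_nonneg_left hbM hQr
              nlinarith
            linarith
      · have e1 := ind_le_one (A I)
        have e2 := ind_nonneg (A2 I)
        have e3 : (B / 2 + 2 * e) * ((Q * M : ℕ) : ℝ) * ind (A I) ≤
            (B / 2 + 2 * e) * ((Q * M : ℕ) : ℝ) :=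
          mul_le_of_le_one_right (by positivity) e1
        nlinarith [mul_nonneg hN e2, mul_nonneg hcon.le hN]
    rw [Ew_add, Ew_const, Ew_add, Ew_mul_left, Ew_mul_left] at h4
    have h5 : (B / 2 + 2 * e) * ((Q * M : ℕ) : ℝ) * c ≤
        (B / 2 + 2 * e) * ((Q * M : ℕ) : ℝ) * Ew r (fun I => ind (A I)) :=
      mul_le_mul_of_nonneg_left h1 (by positivity)
    have h6 : ((Q * M : ℕ) : ℝ) * Ew r (fun I => ind (A2 I)) ≤ ((Q * M : ℕ) : ℝ) * e :=
      mul_le_mul_of_nonneg_left h3 hN
    have h7 : (8 * e) * ((Q * M : ℕ) : ℝ) ≤ (B / 2 + 2 * e) * ((Q * M : ℕ) : ℝ) * c := by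
      have h8 : 8 * e ≤ (B / 2 + 2 * e) * c := by
        have : 8 * e = B / 2 * c := by rw [he]; ring
        nlinarith [mul_pos he0 hc]
      nlinarith
    nlinarith
  have hfin : bb (Q * M) ≤ (B - 5 * e) * ((Q * M : ℕ) : ℝ) := by
    apply ciSup_le
    intro r
    rcases le_total r₀ r with h | h
    · exact key r h
    · refine le_trans ?_ (key r₀ le_rfl)
      -- monotonicity in the length
      have h4 := hK.2.2.2.1 (Q * M) (fun L => max (bt (Q * M) L) 0) (by positivity)
        (fun L => le_max_right _ _) r r₀ h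
      have e1 : ∀ r, Ew r (fun I => if Q * M ≤ U (up I) then
          (fun L => max (bt (Q * M) L) 0) (sfx (Q * M) I) else 0) = b (Q * M) r := by
        intro r
        unfold b
        refine Ew_congr fun w _ => ?_
        split_ifs with hU
        · exact max_eq_left (bt_nonneg hG (hW.2.1 (Q * M) w (by positivity) hU).1)
        · rfl
      rw [e1, e1] at h4
      exact h4
  have h1 := hle (Q * M) (by positivity)
  have h2 : (0 : ℝ) < ((Q * M : ℕ) : ℝ) := by
    exact_mod_cast (by positivity : 0 < Q * M)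
  nlinarith [mul_pos he0 h2]

/-- **most of the ends of a window are joined inside the window** -/
theorem main (hW : S_WN) (hK : S_KR) (hH : S_HIT) (hG : S_GG) : S_BM := by
  intro ε hε
  have h1 := (sub hW hG).tendsto_lim (u_bdd hW hG)
  have h2 : ∀ᶠ n : ℕ in atTop, u n / n < ε :=
    h1.eventually_lt_const (lt_of_le_of_lt (lim_zero hW hK hH hG) hε)
  obtain ⟨M₀, h3⟩ := (h2.and (eventually_ge_atTop 1)).exists_forall_of_atTop
  refine ⟨M₀, fun M hM r => ?_⟩
  obtain ⟨h4, h5⟩ := h3 M hM
  rw [div_lt_iff₀ (by exact_mod_cast (by omega : 0 < M))] at h4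
  unfold u at h4
  rw [if_neg (by omega)] at h4
  exact (le_bb M r).trans h4.le

end Pool.Agent.N940.MN.Bm
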