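import Pool.Agent.N940.MN.Stm3

set_option autoImplicit false

open Filter Topology Finset MeasureTheory

namespace Pool.Agent.N940.MN.Cf

/-! ### sums of the steps -/

/-- the upper sum -/
def X (w : W) : ℝ := (tot (up w) : ℝ)

/-- the lower sum -/
def Y (w : W) : ℝ := (tot (lo w) : ℝ)

lemma tot_nil : tot [] = 0 := rfl

lemma tot_cons (b : Bool) (v : List Bool) : tot (b :: v) = sg b + tot v := by simp [tot]

lemma tot_append (u v : List Bool) : tot (u ++ v) = tot u + tot v := by simp [tot]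

lemma sg_not (b : Bool) : sg (!b) = - sg b := by cases b <;> simp [sg]

lemma tot_mirror (v : List Bool) : tot ((v.map not).reverse) = - tot v := by
  induction v with
  | nil => simp [tot]
  | cons b v ih =>
    rw [List.map_cons, List.reverse_cons, tot_append, ih, tot_cons, tot_cons, tot_nil, sg_not]
    ring

lemma X_mir (w : W) : X (mir w) = - X w := by
  rw [X, up_mir, tot_mirror, X]; push_cast; ring

lemma Y_mir (w : W) : Y (mir w) = - Y w := by
  rw [Y, lo_mir, tot_mirror, Y]; push_cast; ring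

lemma X_sw (w : W) : X (sw w) = Y w := by rw [X, up_sw, Y]

lemma X_cons (x : Bool × Bool) (w : W) : X (x :: w) = (sg x.1 : ℝ) + X w := by
  rw [X, up_cons, tot_cons, X]; push_cast; ring

lemma Y_cons (x : Bool × Bool) (w : W) : Y (x :: w) = (sg x.2 : ℝ) + Y w := by
  rw [Y, lo_cons, tot_cons, Y]; push_cast; ring

lemma X_append (u v : W) : X (u ++ v) = X u + X v := by
  rw [X, up_append, tot_append, X, X]; push_cast; ring

lemma Y_append (u v : W) : Y (u ++ v) = Y u + Y v := by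
  rw [Y, lo_append, tot_append, Y, Y]; push_cast; ring

lemma even_tot (v : List Bool) : ∃ k : ℤ, tot v = v.length + 2 * k := by
  induction v with
  | nil => exact ⟨0, by simp [tot]⟩
  | cons b v ih =>
    obtain ⟨k, hk⟩ := ih
    cases b
    · refine ⟨k - 1, ?_⟩
      rw [tot_cons, hk, List.length_cons, show sg false = -1 from rfl]
      push_cast
      ring
    · refine ⟨k, ?_⟩
      rw [tot_cons, hk, List.length_cons, show sg true = 1 from rfl]
      push_cast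
      ring

lemma Ew_neg (r : ℕ) (G : W → ℝ) : Ew r (fun w => - G w) = - Ew r G := by
  have := Ew_mul_left r (-1) G
  simp only [neg_one_mul] at this
  exact this

/-- odd functions have mean zero -/
lemma Ew_odd (r : ℕ) (G : W → ℝ) (h : ∀ w, G (mir w) = - G w) : Ew r G = 0 := by
  have h1 := Ew_mir r G
  have h2 : (fun w => G (mir w)) = fun w => - G w := funext h
  rw [h2, Ew_neg] at h1
  linarith

lemma EX (r : ℕ) : Ew r X = 0 := Ew_odd r X X_mir

lemma EY (r : ℕ) : Ew r Y = 0 := Ew_odd r Y Y_mir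

lemma Ew_consX (r : ℕ) (g : ℝ → ℝ) : Ew (r + 1) (fun w => g (X w)) =
    (Ew r (fun w => g (1 + X w)) + Ew r (fun w => g (-1 + X w))) / 2 := by
  rw [Ew_cons]
  simp only [Fintype.sum_prod_type, Fintype.sum_bool, smul_eq_mul, X_cons, sg]
  norm_num
  ring

lemma EX2 (r : ℕ) : Ew r (fun w => X w ^ 2) = r := by
  induction r with
  | zero => rw [Ew_zero]; simp [X, tot]
  | succ r ih =>
    rw [Ew_consX r (fun x => x ^ 2), ← Ew_add]
    have h1 : (fun w => (1 + X w) ^ 2 + (-1 + X w) ^ 2) = fun w => 2 + 2 * X w ^ 2 := by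
      funext w; ring
    rw [h1, Ew_add, Ew_const, Ew_mul_left, ih]
    push_cast
    ring

lemma EX4 (r : ℕ) : Ew r (fun w => X w ^ 4) = 3 * (r : ℝ) ^ 2 - 2 * r := by
  induction r with
  | zero => rw [Ew_zero]; simp [X, tot]
  | succ r ih =>
    rw [Ew_consX r (fun x => x ^ 4), ← Ew_add]
    have h1 : (fun w => (1 + X w) ^ 4 + (-1 + X w) ^ 4) =
        fun w => (2 + 12 * X w ^ 2) + 2 * X w ^ 4 := by
      funext w; ring
    rw [h1, Ew_add, Ew_add, Ew_const, Ew_mul_left, Ew_mul_left, ih, EX2]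
    push_cast
    ring

lemma EY_eq (r : ℕ) (g : ℝ → ℝ) : Ew r (fun w => g (Y w)) = Ew r (fun w => g (X w)) := by
  rw [← Ew_sw r (fun w => g (X w))]
  simp only [X_sw]

lemma EXY (r : ℕ) : Ew r (fun w => X w * Y w) = 0 := by
  have h := Ew_prod r (fun v => (tot v : ℝ)) (fun v => (tot v : ℝ))
  change Ew r (fun w => X w * Y w) = Ew r X * Ew r Y at h
  rw [h, EX, zero_mul]

/-! ### third moments -/

lemma third (r : ℕ) (G : W → ℝ) (κ v : ℝ) (hκ : 0 ≤ κ) (hv : 0 ≤ v)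
    (h2 : Ew r (fun w => G w ^ 2) ≤ v) (h4 : Ew r (fun w => G w ^ 4) ≤ κ * v ^ 2) :
    Ew r (fun w => |G w| ^ 3) ≤ Real.sqrt κ * Real.sqrt v ^ 3 := by
  have h0 : 0 ≤ Ew r (fun w => |G w| ^ 3) := Ew_nonneg fun w _ => by positivity
  have h1 := Ew_cs r (fun w => |G w|) (fun w => |G w| ^ 2)
  have e1 : (fun w => |G w| * |G w| ^ 2) = fun w => |G w| ^ 3 := by funext w; ring
  have e2 : (fun w => |G w| ^ 2) = fun w => G w ^ 2 := by funext w; rw [sq_abs]
  have e3 : (fun w => (|G w| ^ 2) ^ 2) = fun w => G w ^ 4 := by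
    funext w; rw [sq_abs]; ring
  rw [e1, e2, e3] at h1
  have h3 : 0 ≤ Ew r (fun w => G w ^ 4) := Ew_nonneg fun w _ => by positivity
  have h5 : Ew r (fun w => |G w| ^ 3) ^ 2 ≤ (Real.sqrt κ * Real.sqrt v ^ 3) ^ 2 := by
    have e4 : (Real.sqrt κ * Real.sqrt v ^ 3) ^ 2 = v * (κ * v ^ 2) := by
      rw [mul_pow, Real.sq_sqrt hκ, ← pow_mul, show 3 * 2 = 2 * 3 by norm_num, pow_mul,
        Real.sq_sqrt hv]
      ring
    rw [e4]
    calc _ ≤ _ := h1
      _ ≤ v * (κ * v ^ 2) := by gcongr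
  exact (pow_le_pow_iff_left₀ h0 (by positivity) two_ne_zero).1 h5

/-! ### Taylor expansion -/

lemma taylor (T : ℝ) : ‖Complex.exp (Complex.I * (T : ℂ)) - (1 + Complex.I * (T : ℂ) -
    ((T ^ 2 / 2 : ℝ) : ℂ))‖ ≤ 5 * |T| ^ 3 := by
  have hn : ‖Complex.I * (T : ℂ)‖ = |T| := by
    rw [norm_mul, Complex.norm_I, one_mul, Complex.norm_real, Real.norm_eq_abs]
  by_cases h : |T| ≤ 1
  · have h1 := Complex.exp_bound (x := Complex.I * (T : ℂ)) (by rw [hn]; exact h) (n := 3)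
      (by norm_num)
    have e1 : ∑ m ∈ range 3, (Complex.I * (T : ℂ)) ^ m / (m.factorial : ℂ) =
        1 + Complex.I * (T : ℂ) - ((T ^ 2 / 2 : ℝ) : ℂ) := by
      have e2 : (Complex.I * (T : ℂ)) ^ 2 = -(T : ℂ) ^ 2 := by
        rw [mul_pow, Complex.I_sq]; ring
      simp only [sum_range_succ, range_zero, sum_empty, Nat.factorial, e2]
      push_cast
      ring
    rw [e1, hn] at h1
    refine h1.trans ?_
    have h2 : (0 : ℝ) ≤ |T| ^ 3 := by positivity
    norm_num [Nat.factorial]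
    nlinarith
  · push Not at h
    have h2 : |T| ≤ |T| ^ 3 := by
      calc |T| = |T| ^ 1 := by ring
        _ ≤ |T| ^ 3 := pow_le_pow_right₀ h.le (by norm_num)
    have h3 : |T| ^ 2 ≤ |T| ^ 3 := pow_le_pow_right₀ h.le (by norm_num)
    have h4 : ‖Complex.exp (Complex.I * (T : ℂ))‖ = 1 := by
      rw [mul_comm, Complex.norm_exp_ofReal_mul_I]
    have h5 : ‖((T ^ 2 / 2 : ℝ) : ℂ)‖ = |T| ^ 2 / 2 := by
      rw [Complex.norm_real, Real.norm_of_nonneg (by positivity), sq_abs]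
    calc _ ≤ ‖Complex.exp (Complex.I * (T : ℂ))‖ + ‖1 + Complex.I * (T : ℂ) -
          ((T ^ 2 / 2 : ℝ) : ℂ)‖ := norm_sub_le _ _
      _ ≤ ‖Complex.exp (Complex.I * (T : ℂ))‖ + (‖1 + Complex.I * (T : ℂ)‖ +
          ‖((T ^ 2 / 2 : ℝ) : ℂ)‖) := by gcongr; exact norm_sub_le _ _
      _ ≤ ‖Complex.exp (Complex.I * (T : ℂ))‖ + ((‖(1 : ℂ)‖ + ‖Complex.I * (T : ℂ)‖) +
          ‖((T ^ 2 / 2 : ℝ) : ℂ)‖) := by gcongr; exact norm_add_le _ _
      _ = 1 + ((1 + |T|) + |T| ^ 2 / 2) := by rw [h4, hn, h5, norm_one]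
      _ ≤ 5 * |T| ^ 3 := by
        have h6 : 1 ≤ |T| ^ 3 := one_le_pow₀ h.le
        nlinarith

/-- characteristic function of a centred function -/
lemma cf_taylor (r : ℕ) (T : W → ℝ) (h : Ew r T = 0) :
    ‖Ew r (fun w => Complex.exp (Complex.I * (T w : ℂ))) -
      (1 - ((Ew r (fun w => T w ^ 2) / 2 : ℝ) : ℂ))‖ ≤ 5 * Ew r (fun w => |T w| ^ 3) := by
  have h1 : (1 - ((Ew r (fun w => T w ^ 2) / 2 : ℝ) : ℂ)) =
      Ew r (fun w => (1 + Complex.I * (T w : ℂ) - ((T w ^ 2 / 2 : ℝ) : ℂ))) := by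
    rw [Ew_sub, Ew_add, Ew_const, Ew_cmul_left, Ew_ofReal, Ew_ofReal, h]
    simp only [Complex.ofReal_zero, mul_zero, add_zero]
    congr 3
    have := Ew_mul_right r (1 / 2) (fun w => T w ^ 2)
    simp only [mul_one_div] at this
    exact this.symm
  rw [h1, ← Ew_sub]
  refine (norm_Ew_le _ _).trans ?_
  rw [← Ew_mul_left]
  exact Ew_mono fun w _ => taylor (T w)

/-! ### characteristic functions -/

/-- joint characteristic function -/
noncomputable def ph (r : ℕ) (G : W → ℝ) (s a b : ℝ) : ℂ :=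
  Ew r fun w => Complex.exp (Complex.I * ((s * G w + a * X w + b * Y w : ℝ) : ℂ))

lemma norm_exp_I (t : ℝ) : ‖Complex.exp (Complex.I * (t : ℂ))‖ = 1 := by
  rw [mul_comm, Complex.norm_exp_ofReal_mul_I]

lemma norm_ph_le (r : ℕ) (G : W → ℝ) (s a b : ℝ) : ‖ph r G s a b‖ ≤ 1 := by
  refine (norm_Ew_le _ _).trans ?_
  simp only [norm_exp_I]
  rw [Ew_const]

lemma Ew_cmul_right (r : ℕ) (c : ℂ) (F : W → ℂ) : Ew r (fun w => F w * c) = Ew r F * c := by
  simp only [mul_comm _ c]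
  exact Ew_cmul_left r c F

lemma two_cos (a : ℝ) : ∑ x : Bool, Complex.exp (Complex.I * ((a * (sg x : ℝ) : ℝ) : ℂ)) =
    2 * ((Real.cos a : ℝ) : ℂ) := by
  rw [Fintype.sum_bool, show sg true = 1 from rfl, show sg false = -1 from rfl,
    Complex.ofReal_cos, Complex.cos]
  push_cast
  rw [show Complex.I * ((a : ℂ) * 1) = (a : ℂ) * Complex.I by ring,
    show Complex.I * ((a : ℂ) * -1) = -(a : ℂ) * Complex.I by ring]
  ring

lemma cf_cos (l : ℕ) (a b : ℝ) :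
    Ew l (fun w => Complex.exp (Complex.I * ((a * X w + b * Y w : ℝ) : ℂ))) =
      ((Real.cos a ^ l * Real.cos b ^ l : ℝ) : ℂ) := by
  induction l with
  | zero => rw [Ew_zero]; simp [X, Y, tot]
  | succ l ih =>
    rw [Ew_cons]
    have h1 : ∀ x : Bool × Bool, Ew l (fun w =>
        Complex.exp (Complex.I * ((a * X (x :: w) + b * Y (x :: w) : ℝ) : ℂ))) =
        Complex.exp (Complex.I * ((a * (sg x.1 : ℝ) : ℝ) : ℂ)) *
        Complex.exp (Complex.I * ((b * (sg x.2 : ℝ) : ℝ) : ℂ)) *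
          ((Real.cos a ^ l * Real.cos b ^ l : ℝ) : ℂ) := by
      intro x
      rw [← ih, ← Ew_cmul_left]
      congr 1
      funext w
      rw [← Complex.exp_add, ← Complex.exp_add, X_cons, Y_cons]
      congr 1
      push_cast
      ring
    simp only [h1]
    rw [← sum_mul, Fintype.sum_prod_type]
    simp only [← mul_sum, ← sum_mul]
    rw [two_cos, two_cos, Complex.real_smul]
    push_cast
    ring

lemma blk_append_zero (r : ℕ) (u v : W) (hu : u.length = r) : blk r 0 (u ++ v) = u := by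
  unfold blk
  rw [Nat.zero_mul, List.drop_zero, ← hu, List.take_left]

lemma blk_append_succ (r i : ℕ) (u v : W) (hu : u.length = r) :
    blk r (i + 1) (u ++ v) = blk r i v := by
  unfold blk
  congr 1
  rw [show (i + 1) * r = u.length + i * r by rw [hu]; ring, ← List.drop_drop, List.drop_left]

lemma cf_blocks (r K l : ℕ) (G : W → ℝ) (s a b : ℝ) :
    Ew (K * r + l) (fun w => Complex.exp (Complex.I *
      ((s * ∑ i ∈ range K, G (blk r i w) + a * X w + b * Y w : ℝ) : ℂ))) =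
    ph r G s a b ^ K * ((Real.cos a ^ l * Real.cos b ^ l : ℝ) : ℂ) := by
  induction K with
  | zero =>
    simp only [range_zero, sum_empty, mul_zero, zero_add, Nat.zero_mul, pow_zero, one_mul]
    exact cf_cos l a b
  | succ K ih =>
    rw [show (K + 1) * r + l = r + (K * r + l) by ring, Ew_append]
    have h1 : ∀ u : W, u.length = r → Ew (K * r + l) (fun v => Complex.exp (Complex.I *
        ((s * ∑ i ∈ range (K + 1), G (blk r i (u ++ v)) + a * X (u ++ v) + b * Y (u ++ v) : ℝ)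
          : ℂ))) = Complex.exp (Complex.I * ((s * G u + a * X u + b * Y u : ℝ) : ℂ)) *
        (ph r G s a b ^ K * ((Real.cos a ^ l * Real.cos b ^ l : ℝ) : ℂ)) := by
      intro u hu
      rw [← ih, ← Ew_cmul_left]
      congr 1
      funext v
      rw [← Complex.exp_add, X_append, Y_append, sum_range_succ', blk_append_zero r u v hu]
      simp only [blk_append_succ r _ u v hu]
      congr 1
      push_cast
      ring
    rw [Ew_congr h1, Ew_cmul_right]
    change ph r G s a b * _ = _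
    ring

/-! ### Fourier inversion -/

/-- the square -/
def Sq : Set (ℝ × ℝ) :=
  Set.Icc (-(Real.pi / 2)) (Real.pi / 2) ×ˢ Set.Icc (-(Real.pi / 2)) (Real.pi / 2)

lemma int_one (k : ℤ) : ∫ a in Set.Icc (-(Real.pi / 2)) (Real.pi / 2),
    Complex.exp (Complex.I * ((a * (2 * k) : ℝ) : ℂ)) = if k = 0 then (Real.pi : ℂ) else 0 := by
  rw [integral_Icc_eq_integral_Ioc, ← intervalIntegral.integral_of_le
    (by linarith [Real.pi_pos])]
  split_ifs with h
  · subst h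
    simp
  · have hc : (2 * (k : ℂ) * Complex.I) ≠ 0 := by
      have h1 : (k : ℂ) ≠ 0 := by exact_mod_cast h
      exact mul_ne_zero (mul_ne_zero two_ne_zero h1) Complex.I_ne_zero
    have h2 : ∀ a : ℝ, Complex.exp (Complex.I * ((a * (2 * k) : ℝ) : ℂ)) =
        Complex.exp ((2 * (k : ℂ) * Complex.I) * a) := by
      intro a
      congr 1
      push_cast
      ring
    simp only [h2]
    rw [integral_exp_mul_complex hc]
    have h3 : Complex.exp (2 * (k : ℂ) * Complex.I * ((Real.pi / 2 : ℝ) : ℂ)) =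
        Complex.exp (2 * (k : ℂ) * Complex.I * ((-(Real.pi / 2) : ℝ) : ℂ)) := by
      rw [Complex.exp_eq_exp_iff_exists_int]
      refine ⟨k, ?_⟩
      push_cast
      ring
    rw [h3, sub_self, zero_div]

lemma int_two (n : ℕ) (w : W) (hw : w.length = 2 * n) :
    ∫ p in Sq, Complex.exp (Complex.I * ((p.1 * X w + p.2 * Y w : ℝ) : ℂ)) =
      if bal w then ((Real.pi ^ 2 : ℝ) : ℂ) else 0 := by
  obtain ⟨k, hk⟩ := even_tot (up w)
  obtain ⟨k', hk'⟩ := even_tot (lo w)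
  rw [length_up, hw] at hk
  rw [length_lo, hw] at hk'
  have hX : X w = 2 * ((n + k : ℤ) : ℝ) := by
    rw [X, hk]; push_cast; ring
  have hY : Y w = 2 * ((n + k' : ℤ) : ℝ) := by
    rw [Y, hk']; push_cast; ring
  have h1 : ∀ p : ℝ × ℝ, Complex.exp (Complex.I * ((p.1 * X w + p.2 * Y w : ℝ) : ℂ)) =
      Complex.exp (Complex.I * ((p.1 * (2 * ((n + k : ℤ) : ℝ)) : ℝ) : ℂ)) *
      Complex.exp (Complex.I * ((p.2 * (2 * ((n + k' : ℤ) : ℝ)) : ℝ) : ℂ)) := by
    intro p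
    rw [← Complex.exp_add, hX, hY]
    congr 1
    push_cast
    ring
  simp only [h1]
  rw [Sq, Measure.volume_eq_prod, setIntegral_prod_mul
    (fun a : ℝ => Complex.exp (Complex.I * ((a * (2 * ((n + k : ℤ) : ℝ)) : ℝ) : ℂ)))
    (fun a : ℝ => Complex.exp (Complex.I * ((a * (2 * ((n + k' : ℤ) : ℝ)) : ℝ) : ℂ))),
    int_one, int_one]
  have hb : bal w ↔ ((n : ℤ) + k = 0 ∧ (n : ℤ) + k' = 0) := by
    unfold bal
    rw [hk, hk']
    push_cast
    constructor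
    · rintro ⟨h2, h3⟩
      constructor <;> linarith
    · rintro ⟨h2, h3⟩
      constructor <;> linarith
  by_cases c1 : (n : ℤ) + k = 0 <;> by_cases c2 : (n : ℤ) + k' = 0 <;> simp [hb, c1, c2, sq]

lemma Sq_compact : IsCompact Sq := isCompact_Icc.prod isCompact_Icc

lemma inversion (n : ℕ) (G : W → ℂ) : Ew (2 * n) (fun w => if bal w then G w else 0) =
    ((Real.pi ^ 2 : ℝ) : ℂ)⁻¹ * ∫ p in Sq, Ew (2 * n) (fun w =>
      G w * Complex.exp (Complex.I * ((p.1 * X w + p.2 * Y w : ℝ) : ℂ))) := by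
  have h1 : ∫ p in Sq, Ew (2 * n) (fun w =>
      G w * Complex.exp (Complex.I * ((p.1 * X w + p.2 * Y w : ℝ) : ℂ))) =
      Ew (2 * n) (fun w => if bal w then ((Real.pi ^ 2 : ℝ) : ℂ) * G w else 0) := by
    unfold Ew
    rw [integral_smul, integral_finsetSum]
    · congr 1
      refine sum_congr rfl fun w _ => ?_
      rw [integral_const_mul, int_two n _ (by simp)]
      by_cases hb : bal (List.ofFn w)
      · simp only [hb, if_true]
        exact mul_comm _ _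
      · simp only [hb, if_false, mul_zero]
    · intro w _
      refine ContinuousOn.integrableOn_compact Sq_compact (Continuous.continuousOn ?_)
      fun_prop
  have h2 : (fun w => if bal w then ((Real.pi ^ 2 : ℝ) : ℂ) * G w else 0) =
      fun w => ((Real.pi ^ 2 : ℝ) : ℂ) * (if bal w then G w else 0) := by
    funext w
    split_ifs
    · rfl
    · rw [mul_zero]
  have hpi : ((Real.pi ^ 2 : ℝ) : ℂ) ≠ 0 := by
    exact_mod_cast (by positivity : Real.pi ^ 2 ≠ 0)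
  rw [h1, h2, Ew_cmul_left, ← mul_assoc, inv_mul_cancel₀ hpi, one_mul]

/-! ### estimates -/

lemma cube_add (x y : ℝ) (hx : 0 ≤ x) (hy : 0 ≤ y) : (x + y) ^ 3 ≤ 4 * (x ^ 3 + y ^ 3) := by
  nlinarith [mul_nonneg (add_nonneg hx hy) (sq_nonneg (x - y))]

lemma cube_add3 (x y z : ℝ) (hx : 0 ≤ x) (hy : 0 ≤ y) (hz : 0 ≤ z) :
    (x + y + z) ^ 3 ≤ 16 * (x ^ 3 + y ^ 3 + z ^ 3) := by
  have h1 := cube_add (x + y) z (by positivity) hz
  have h2 := cube_add x y hx hy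
  have h3 : 0 ≤ z ^ 3 := by positivity
  linarith

lemma cube_le (x y z : ℝ) (hx : 0 ≤ x) (hy : 0 ≤ y) (hz : 0 ≤ z) :
    x ^ 3 + y ^ 3 + z ^ 3 ≤ (x + y + z) ^ 3 := by
  have h1 : 0 ≤ 3 * (x + y) * (y + z) * (z + x) := by positivity
  nlinarith

lemma second (r : ℕ) (G : W → ℝ) (hm : ∀ w, G (mir w) = G w) (s a b : ℝ) :
    Ew r (fun w => (s * G w + a * X w + b * Y w) ^ 2) =
      s ^ 2 * Ew r (fun w => G w ^ 2) + a ^ 2 * r + b ^ 2 * r := by
  have hGX : Ew r (fun w => G w * X w) = 0 := Ew_odd r _ fun w => by rw [hm, X_mir]; ring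
  have hGY : Ew r (fun w => G w * Y w) = 0 := Ew_odd r _ fun w => by rw [hm, Y_mir]; ring
  have hY2 : Ew r (fun w => Y w ^ 2) = r := by
    rw [EY_eq r (fun x => x ^ 2)]; exact EX2 r
  have h1 : (fun w => (s * G w + a * X w + b * Y w) ^ 2) = fun w =>
      s ^ 2 * G w ^ 2 + a ^ 2 * X w ^ 2 + b ^ 2 * Y w ^ 2 + (2 * s * a) * (G w * X w) +
        (2 * s * b) * (G w * Y w) + (2 * a * b) * (X w * Y w) := by
    funext w; ring
  rw [h1, Ew_add, Ew_add, Ew_add, Ew_add, Ew_add, Ew_mul_left, Ew_mul_left, Ew_mul_left,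
    Ew_mul_left, Ew_mul_left, Ew_mul_left, hGX, hGY, EXY, hY2, EX2]
  ring

lemma first (r : ℕ) (G : W → ℝ) (h0 : Ew r G = 0) (s a b : ℝ) :
    Ew r (fun w => s * G w + a * X w + b * Y w) = 0 := by
  rw [Ew_add, Ew_add, Ew_mul_left, Ew_mul_left, Ew_mul_left, h0, EX, EY]
  ring

lemma third_XY (r : ℕ) : Ew r (fun w => |X w| ^ 3) ≤ 2 * Real.sqrt r ^ 3 ∧
    Ew r (fun w => |Y w| ^ 3) ≤ 2 * Real.sqrt r ^ 3 := by
  have h1 : Ew r (fun w => |X w| ^ 3) ≤ Real.sqrt 4 * Real.sqrt r ^ 3 := by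
    refine third r X 4 r (by norm_num) (Nat.cast_nonneg r) (EX2 r).le ?_
    rw [EX4]
    have : (0 : ℝ) ≤ r := Nat.cast_nonneg r
    nlinarith
  have h2 : Real.sqrt 4 = 2 := by
    rw [show (4 : ℝ) = 2 ^ 2 by norm_num, Real.sqrt_sq (by norm_num)]
  rw [h2] at h1
  refine ⟨h1, ?_⟩
  rw [EY_eq r (fun x => |x| ^ 3)]
  exact h1

lemma phi_est (r : ℕ) (G : W → ℝ) (κ : ℝ) (hκ : 0 ≤ κ) (h0 : Ew r G = 0)
    (hm : ∀ w, G (mir w) = G w)
    (h4 : Ew r (fun w => G w ^ 4) ≤ κ * Ew r (fun w => G w ^ 2) ^ 2) (s a b : ℝ) :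
    ‖ph r G s a b - (1 - (((s ^ 2 * Ew r (fun w => G w ^ 2) + a ^ 2 * r + b ^ 2 * r) / 2 : ℝ)
      : ℂ))‖ ≤ 80 * (Real.sqrt κ + 2) *
      (|s| * Real.sqrt (Ew r (fun w => G w ^ 2)) + Real.sqrt r * |a| + Real.sqrt r * |b|) ^ 3 := by
  have h1 := cf_taylor r (fun w => s * G w + a * X w + b * Y w) (first r G h0 s a b)
  rw [second r G hm s a b] at h1
  refine h1.trans ?_
  set v := Ew r (fun w => G w ^ 2) with hv
  have hv0 : 0 ≤ v := Ew_nonneg fun w _ => sq_nonneg _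
  have h2 : Ew r (fun w => |s * G w + a * X w + b * Y w| ^ 3) ≤
      16 * (|s| ^ 3 * Ew r (fun w => |G w| ^ 3) + |a| ^ 3 * Ew r (fun w => |X w| ^ 3) +
        |b| ^ 3 * Ew r (fun w => |Y w| ^ 3)) := by
    rw [← Ew_mul_left, ← Ew_mul_left, ← Ew_mul_left, ← Ew_add, ← Ew_add, ← Ew_mul_left]
    refine Ew_mono fun w _ => ?_
    calc |s * G w + a * X w + b * Y w| ^ 3
        ≤ (|s| * |G w| + |a| * |X w| + |b| * |Y w|) ^ 3 := by
          refine pow_le_pow_left₀ (abs_nonneg _) ?_ 3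
          rw [← abs_mul, ← abs_mul, ← abs_mul]
          exact (abs_add_le _ _).trans (by gcongr; exact abs_add_le _ _)
      _ ≤ 16 * ((|s| * |G w|) ^ 3 + (|a| * |X w|) ^ 3 + (|b| * |Y w|) ^ 3) :=
          cube_add3 _ _ _ (by positivity) (by positivity) (by positivity)
      _ = _ := by ring
  have h3 := third r G κ v hκ hv0 le_rfl h4
  obtain ⟨h5, h6⟩ := third_XY r
  have hs : 0 ≤ |s| ^ 3 := by positivity
  have ha : 0 ≤ |a| ^ 3 := by positivity
  have hb : 0 ≤ |b| ^ 3 := by positivity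
  calc 5 * Ew r (fun w => |s * G w + a * X w + b * Y w| ^ 3)
      ≤ 5 * (16 * (|s| ^ 3 * (Real.sqrt κ * Real.sqrt v ^ 3) +
        |a| ^ 3 * (2 * Real.sqrt r ^ 3) + |b| ^ 3 * (2 * Real.sqrt r ^ 3))) := by
        refine mul_le_mul_of_nonneg_left (h2.trans ?_) (by norm_num)
        gcongr
    _ = 80 * (Real.sqrt κ * (|s| * Real.sqrt v) ^ 3 + 2 * (Real.sqrt r * |a|) ^ 3 +
        2 * (Real.sqrt r * |b|) ^ 3) := by ring
    _ ≤ 80 * ((Real.sqrt κ + 2) * ((|s| * Real.sqrt v) ^ 3 + (Real.sqrt r * |a|) ^ 3 +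
        (Real.sqrt r * |b|) ^ 3)) := by
        have e1 : 0 ≤ (|s| * Real.sqrt v) ^ 3 := by positivity
        have e2 : 0 ≤ (Real.sqrt r * |a|) ^ 3 := by positivity
        have e3 : 0 ≤ (Real.sqrt r * |b|) ^ 3 := by positivity
        have e4 : 0 ≤ Real.sqrt κ := Real.sqrt_nonneg _
        have e5 := mul_nonneg e4 e2
        have e6 := mul_nonneg e4 e3
        nlinarith
    _ ≤ 80 * ((Real.sqrt κ + 2) *
        (|s| * Real.sqrt v + Real.sqrt r * |a| + Real.sqrt r * |b|) ^ 3) := by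
        have e7 := cube_le (|s| * Real.sqrt v) (Real.sqrt r * |a|) (Real.sqrt r * |b|)
          (by positivity) (by positivity) (by positivity)
        gcongr
    _ = _ := by ring

lemma ph_zero (r : ℕ) (a b : ℝ) :
    ph r (fun _ => 0) 0 a b = ((Real.cos a ^ r * Real.cos b ^ r : ℝ) : ℂ) := by
  rw [← cf_cos, ph]
  congr 1
  funext w
  rw [mul_zero, zero_add]

lemma exp_est (u : ℝ) (hu : 0 ≤ u) : |Real.exp (-u) - (1 - u)| ≤ u ^ 2 := by
  have h1 := Real.add_one_le_exp (-u)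
  have h2 := Real.add_one_le_exp u
  have h3 : Real.exp (-u) ≤ 1 / (1 + u) := by
    rw [Real.exp_neg, ← one_div]
    exact one_div_le_one_div_of_le (by linarith) (by linarith)
  have h4 : 1 / (1 + u) ≤ 1 - u + u ^ 2 := by
    rw [div_le_iff₀ (by linarith)]
    have : 0 ≤ u ^ 3 := by positivity
    nlinarith
  rw [abs_le]
  constructor
  · nlinarith [sq_nonneg u]
  · linarith

/-- the limit -/
noncomputable def ps (r : ℕ) (v s a b : ℝ) : ℝ :=
  Real.exp (-(s ^ 2 * v / 2)) * (Real.cos a ^ r * Real.cos b ^ r)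

lemma abs_ps_le (r : ℕ) (v s a b : ℝ) (hv : 0 ≤ v) : |ps r v s a b| ≤ 1 := by
  unfold ps
  rw [abs_mul, abs_mul, abs_pow, abs_pow, abs_of_pos (Real.exp_pos _)]
  have h1 : Real.exp (-(s ^ 2 * v / 2)) ≤ 1 := by
    rw [Real.exp_le_one_iff]
    have : 0 ≤ s ^ 2 * v / 2 := by positivity
    linarith
  have h2 : |Real.cos a| ^ r ≤ 1 := pow_le_one₀ (abs_nonneg _) (Real.abs_cos_le_one a)
  have h3 : |Real.cos b| ^ r ≤ 1 := pow_le_one₀ (abs_nonneg _) (Real.abs_cos_le_one b)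
  have h4 : |Real.cos a| ^ r * |Real.cos b| ^ r ≤ 1 := mul_le_one₀ h2 (by positivity) h3
  exact mul_le_one₀ h1 (by positivity) h4

lemma diff_est (r : ℕ) (G : W → ℝ) (κ : ℝ) (hκ : 0 ≤ κ) (h0 : Ew r G = 0)
    (hm : ∀ w, G (mir w) = G w)
    (h4 : Ew r (fun w => G w ^ 4) ≤ κ * Ew r (fun w => G w ^ 2) ^ 2) (s a b : ℝ) :
    ‖ph r G s a b - (ps r (Ew r (fun w => G w ^ 2)) s a b : ℂ)‖ ≤ (80 * (Real.sqrt κ + 2) + 163) *
      (|s| * Real.sqrt (Ew r (fun w => G w ^ 2)) + Real.sqrt r * |a| + Real.sqrt r * |b|) ^ 3 := by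
  have h1 := phi_est r G κ hκ h0 hm h4 s a b
  have h2 := phi_est r (fun _ => 0) 0 le_rfl (by rw [Ew_const]) (fun _ => rfl)
    (by norm_num [Ew_const]) 0 a b
  set v := Ew r (fun w => G w ^ 2) with hv
  have hv0 : 0 ≤ v := Ew_nonneg fun w _ => sq_nonneg _
  set σ := |s| * Real.sqrt v with hσ
  have hσ0 : 0 ≤ σ := by positivity
  set x := Real.sqrt r * |a| with hx
  set y := Real.sqrt r * |b| with hy
  have hx0 : 0 ≤ x := by positivity
  have hy0 : 0 ≤ y := by positivity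
  set z := σ + x + y with hz
  have hz0 : 0 ≤ z := by positivity
  have hκ0 : 0 ≤ Real.sqrt κ := Real.sqrt_nonneg _
  by_cases hz1 : 1 ≤ z
  · have h5 : 1 ≤ z ^ 3 := one_le_pow₀ hz1
    calc _ ≤ ‖ph r G s a b‖ + ‖(ps r v s a b : ℂ)‖ := norm_sub_le _ _
      _ ≤ 1 + 1 := by
        gcongr
        · exact norm_ph_le _ _ _ _ _
        · rw [Complex.norm_real, Real.norm_eq_abs]
          exact abs_ps_le _ _ _ _ _ hv0
      _ ≤ _ := by nlinarith
  push Not at hz1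
  -- the real function
  set B := Real.cos a ^ r * Real.cos b ^ r with hB
  set u := s ^ 2 * v / 2 with hu
  set t := (a ^ 2 * r + b ^ 2 * r) / 2 with ht
  have hr0 : (0 : ℝ) ≤ r := Nat.cast_nonneg r
  have hx2 : x ^ 2 = a ^ 2 * r := by
    rw [hx, mul_pow, Real.sq_sqrt hr0, sq_abs]; ring
  have hy2 : y ^ 2 = b ^ 2 * r := by
    rw [hy, mul_pow, Real.sq_sqrt hr0, sq_abs]; ring
  have hσ2 : σ ^ 2 = s ^ 2 * v := by
    rw [hσ, mul_pow, Real.sq_sqrt hv0, sq_abs]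
  have hu0 : 0 ≤ u := by positivity
  have ht0 : 0 ≤ t := by positivity
  have hu1 : u ≤ z ^ 2 / 2 := by
    rw [hu, ← hσ2]
    have : σ ≤ z := by linarith
    have := pow_le_pow_left₀ hσ0 this 2
    linarith
  have ht1 : t ≤ z ^ 2 / 2 := by
    rw [ht, ← hx2, ← hy2]
    have e1 : (x + y) ^ 2 ≤ z ^ 2 := pow_le_pow_left₀ (by positivity) (by linarith) 2
    nlinarith [mul_nonneg hx0 hy0]
  have hz21 : z ^ 2 ≤ 1 := pow_le_one₀ hz0 hz1.le
  have hz43 : z ^ 4 ≤ z ^ 3 := pow_le_pow_of_le_one hz0 hz1.le (by norm_num)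
  have hB1 : |B - (1 - t)| ≤ 160 * z ^ 3 := by
    rw [ph_zero] at h2
    simp only [abs_zero, zero_mul, zero_add, Real.sqrt_zero, ne_eq, OfNat.ofNat_ne_zero,
      not_false_eq_true, zero_pow] at h2
    have e1 : ‖((Real.cos a ^ r * Real.cos b ^ r : ℝ) : ℂ) -
        (1 - (((a ^ 2 * r + b ^ 2 * r) / 2 : ℝ) : ℂ))‖ = |B - (1 - t)| := by
      rw [← Complex.ofReal_one, ← Complex.ofReal_sub, ← Complex.ofReal_sub, Complex.norm_real,
        Real.norm_eq_abs]
    rw [e1] at h2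
    have e2 : (x + y) ^ 3 ≤ z ^ 3 := pow_le_pow_left₀ (by positivity) (by linarith) 3
    linarith
  have hA := exp_est u hu0
  set A := Real.exp (-u) with hAd
  have hA0 : 0 < A := Real.exp_pos _
  have hA1 : A ≤ 1 := by rw [hAd, Real.exp_le_one_iff]; linarith
  have h6 : |A * B - (1 - (u + t))| ≤ 162 * z ^ 3 := by
    have e1 : A * B - (1 - (u + t)) = A * (B - (1 - t)) + (A - (1 - u)) * (1 - t) + u * t := by ring
    rw [e1]
    have e2 : |A * (B - (1 - t))| ≤ 160 * z ^ 3 := by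
      rw [abs_mul, abs_of_pos hA0]
      calc A * |B - (1 - t)| ≤ 1 * |B - (1 - t)| := by gcongr
        _ ≤ 160 * z ^ 3 := by rw [one_mul]; exact hB1
    have e3 : |(A - (1 - u)) * (1 - t)| ≤ z ^ 3 := by
      rw [abs_mul]
      have e4 : |1 - t| ≤ 1 := by
        rw [abs_le]; constructor <;> linarith
      have e5 : u ^ 2 ≤ z ^ 4 := by
        have := pow_le_pow_left₀ hu0 hu1 2
        nlinarith [sq_nonneg (z ^ 2)]
      calc |A - (1 - u)| * |1 - t| ≤ u ^ 2 * 1 := by gcongr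
        _ ≤ z ^ 3 := by linarith
    have e6 : |u * t| ≤ z ^ 3 := by
      rw [abs_of_nonneg (by positivity)]
      calc u * t ≤ (z ^ 2 / 2) * (z ^ 2 / 2) := by gcongr
        _ = z ^ 4 / 4 := by ring
        _ ≤ z ^ 3 := by
          have : 0 ≤ z ^ 3 := by positivity
          linarith
    calc _ ≤ |A * (B - (1 - t)) + (A - (1 - u)) * (1 - t)| + |u * t| := abs_add_le _ _
      _ ≤ |A * (B - (1 - t))| + |(A - (1 - u)) * (1 - t)| + |u * t| := by
        gcongr; exact abs_add_le _ _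
      _ ≤ _ := by linarith
  have h7 : (s ^ 2 * v + a ^ 2 * r + b ^ 2 * r) / 2 = u + t := by rw [hu, ht]; ring
  rw [h7] at h1
  have h8 : ‖((A * B : ℝ) : ℂ) - (1 - ((u + t : ℝ) : ℂ))‖ = |A * B - (1 - (u + t))| := by
    rw [← Complex.ofReal_one, ← Complex.ofReal_sub, ← Complex.ofReal_sub, Complex.norm_real,
      Real.norm_eq_abs]
  have h9 : ps r v s a b = A * B := rfl
  rw [h9]
  have hz3 : 0 ≤ z ^ 3 := by positivity
  calc _ = ‖(ph r G s a b - (1 - ((u + t : ℝ) : ℂ))) -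
        (((A * B : ℝ) : ℂ) - (1 - ((u + t : ℝ) : ℂ)))‖ := by congr 1; ring
    _ ≤ ‖ph r G s a b - (1 - ((u + t : ℝ) : ℂ))‖ +
        ‖((A * B : ℝ) : ℂ) - (1 - ((u + t : ℝ) : ℂ))‖ := norm_sub_le _ _
    _ ≤ 80 * (Real.sqrt κ + 2) * z ^ 3 + 162 * z ^ 3 := by
        rw [h8]; exact add_le_add h1 h6
    _ ≤ _ := by nlinarith

lemma pow_diff (x y : ℂ) (hx : ‖x‖ ≤ 1) (hy : ‖y‖ ≤ 1) (K : ℕ) :
    ‖x ^ K - y ^ K‖ ≤ K * ‖x - y‖ := by
  induction K with
  | zero => simp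
  | succ K ih =>
    have h1 : x ^ (K + 1) - y ^ (K + 1) = x * (x ^ K - y ^ K) + (x - y) * y ^ K := by ring
    rw [h1]
    have h2 : ‖y ^ K‖ ≤ 1 := by rw [norm_pow]; exact pow_le_one₀ (norm_nonneg _) hy
    calc _ ≤ ‖x * (x ^ K - y ^ K)‖ + ‖(x - y) * y ^ K‖ := norm_add_le _ _
      _ = ‖x‖ * ‖x ^ K - y ^ K‖ + ‖x - y‖ * ‖y ^ K‖ := by rw [norm_mul, norm_mul]
      _ ≤ 1 * (K * ‖x - y‖) + ‖x - y‖ * 1 := by gcongr
      _ = _ := by push_cast; ring

lemma cos_bound {a : ℝ} (ha : a ∈ Set.Icc (-(Real.pi / 2)) (Real.pi / 2)) :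
    0 ≤ Real.cos a ∧ Real.cos a ≤ Real.exp (-(a ^ 2 / 5)) := by
  refine ⟨Real.cos_nonneg_of_mem_Icc ha, ?_⟩
  have h1 : |a| ≤ Real.pi := by
    rw [abs_le]
    constructor <;> linarith [ha.1, ha.2, Real.pi_pos]
  have h2 := Real.cos_le_one_sub_mul_cos_sq h1
  have h3 : 1 / 5 ≤ 2 / Real.pi ^ 2 := by
    rw [div_le_div_iff₀ (by norm_num) (by positivity)]
    have h4 := Real.pi_lt_d2
    have h5 := Real.pi_pos
    nlinarith
  have h6 := Real.add_one_le_exp (-(a ^ 2 / 5))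
  nlinarith [sq_nonneg a]

lemma gauss_point (x y : ℝ) (hx : 0 ≤ x) (hy : 0 ≤ y) :
    (1 + x + y) ^ 3 * Real.exp (-(x ^ 2 + y ^ 2)) ≤ 125 * Real.exp (-((x ^ 2 + y ^ 2) / 2)) := by
  have h1 := Real.add_one_le_exp ((x ^ 2 + y ^ 2) / 6)
  have h2 : 1 + x + y ≤ 5 * Real.exp ((x ^ 2 + y ^ 2) / 6) := by
    nlinarith [sq_nonneg (x - 3 / 5), sq_nonneg (y - 3 / 5)]
  have h3 : (1 + x + y) ^ 3 ≤ (5 * Real.exp ((x ^ 2 + y ^ 2) / 6)) ^ 3 :=
    pow_le_pow_left₀ (by positivity) h2 3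
  calc (1 + x + y) ^ 3 * Real.exp (-(x ^ 2 + y ^ 2))
      ≤ (5 * Real.exp ((x ^ 2 + y ^ 2) / 6)) ^ 3 * Real.exp (-(x ^ 2 + y ^ 2)) := by gcongr
    _ = 125 * (Real.exp ((x ^ 2 + y ^ 2) / 2) * Real.exp (-(x ^ 2 + y ^ 2))) := by
      rw [mul_pow, ← Real.exp_nat_mul]
      rw [show ((3 : ℕ) : ℝ) * ((x ^ 2 + y ^ 2) / 6) = (x ^ 2 + y ^ 2) / 2 by push_cast; ring]
      ring
    _ = 125 * Real.exp (-((x ^ 2 + y ^ 2) / 2)) := by
      rw [← Real.exp_add]
      congr 2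
      ring

lemma cos_pow_bound {a : ℝ} (ha : a ∈ Set.Icc (-(Real.pi / 2)) (Real.pi / 2)) (l : ℕ) :
    Real.cos a ^ l ≤ Real.exp (-((l : ℝ) / 5 * a ^ 2)) := by
  obtain ⟨h0, h1⟩ := cos_bound ha
  calc Real.cos a ^ l ≤ Real.exp (-(a ^ 2 / 5)) ^ l := pow_le_pow_left₀ h0 h1 l
    _ = _ := by rw [← Real.exp_nat_mul]; congr 1; ring

/-- the pointwise estimate of the integrand -/
lemma point_est (r : ℕ) (G : W → ℝ) (κ : ℝ) (hκ : 0 ≤ κ) (h0 : Ew r G = 0)
    (hm : ∀ w, G (mir w) = G w)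
    (h4 : Ew r (fun w => G w ^ 4) ≤ κ * Ew r (fun w => G w ^ 2) ^ 2) (s : ℝ) (K l : ℕ)
    (hl : 0 < l) (p : ℝ × ℝ) (hp : p ∈ Sq) :
    ‖(ph r G s p.1 p.2 ^ K - (ps r (Ew r (fun w => G w ^ 2)) s p.1 p.2 : ℂ) ^ K) *
      ((Real.cos p.1 ^ l * Real.cos p.2 ^ l : ℝ) : ℂ)‖ ≤
    125 * K * (80 * (Real.sqrt κ + 2) + 163) *
      (|s| * Real.sqrt (Ew r (fun w => G w ^ 2)) + Real.sqrt r / Real.sqrt ((l : ℝ) / 5)) ^ 3 *
      (Real.exp (-((l : ℝ) / 5 / 2) * p.1 ^ 2) * Real.exp (-((l : ℝ) / 5 / 2) * p.2 ^ 2)) := by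
  obtain ⟨ha, hb⟩ := hp
  set a := p.1
  set b := p.2
  have h1 := diff_est r G κ hκ h0 hm h4 s a b
  set v := Ew r (fun w => G w ^ 2) with hv
  have hv0 : 0 ≤ v := Ew_nonneg fun w _ => sq_nonneg _
  have h2 := pow_diff (ph r G s a b) (ps r v s a b : ℂ) (norm_ph_le _ _ _ _ _)
    (by rw [Complex.norm_real, Real.norm_eq_abs]; exact abs_ps_le _ _ _ _ _ hv0) K
  set C₁ := 80 * (Real.sqrt κ + 2) + 163 with hC₁
  have hC0 : 0 ≤ C₁ := by positivity
  set q := Real.sqrt ((l : ℝ) / 5) with hq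
  have hl0 : (0 : ℝ) < l := by exact_mod_cast hl
  have hq0 : 0 < q := Real.sqrt_pos.2 (by positivity)
  have hqq : q ^ 2 = (l : ℝ) / 5 := Real.sq_sqrt (by positivity)
  set σ := |s| * Real.sqrt v with hσ
  have hσ0 : 0 ≤ σ := by positivity
  set ρ := Real.sqrt r / q with hρ
  have hρ0 : 0 ≤ ρ := by positivity
  have h3 : σ + Real.sqrt r * |a| + Real.sqrt r * |b| ≤ (σ + ρ) * (1 + q * |a| + q * |b|) := by
    have e1 : Real.sqrt r * |a| = ρ * (q * |a|) := by rw [hρ]; field_simp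
    have e2 : Real.sqrt r * |b| = ρ * (q * |b|) := by rw [hρ]; field_simp
    rw [e1, e2]
    have e3 : 0 ≤ σ * (q * |a|) := by positivity
    have e4 : 0 ≤ σ * (q * |b|) := by positivity
    nlinarith
  have h5 : ‖((Real.cos a ^ l * Real.cos b ^ l : ℝ) : ℂ)‖ ≤
      Real.exp (-((q * |a|) ^ 2 + (q * |b|) ^ 2)) := by
    have ca := cos_pow_bound ha l
    have cb := cos_pow_bound hb l
    have ca0 : 0 ≤ Real.cos a ^ l := pow_nonneg (cos_bound ha).1 l
    have cb0 : 0 ≤ Real.cos b ^ l := pow_nonneg (cos_bound hb).1 l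
    rw [Complex.norm_real, Real.norm_of_nonneg (by positivity)]
    calc Real.cos a ^ l * Real.cos b ^ l ≤ Real.exp (-((l : ℝ) / 5 * a ^ 2)) *
          Real.exp (-((l : ℝ) / 5 * b ^ 2)) := by gcongr
      _ = _ := by
        rw [← Real.exp_add, mul_pow, mul_pow, hqq, sq_abs, sq_abs]
        congr 1
        ring
  have h6 := gauss_point (q * |a|) (q * |b|) (by positivity) (by positivity)
  have hK0 : (0 : ℝ) ≤ K := Nat.cast_nonneg K
  rw [norm_mul]
  calc _ ≤ (K * (C₁ * ((σ + ρ) * (1 + q * |a| + q * |b|)) ^ 3)) *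
        Real.exp (-((q * |a|) ^ 2 + (q * |b|) ^ 2)) := by
        refine mul_le_mul ?_ h5 (norm_nonneg _) (by positivity)
        refine h2.trans ?_
        refine mul_le_mul_of_nonneg_left (h1.trans ?_) hK0
        refine mul_le_mul_of_nonneg_left ?_ hC0
        exact pow_le_pow_left₀ (by positivity) h3 3
    _ = K * C₁ * (σ + ρ) ^ 3 * ((1 + q * |a| + q * |b|) ^ 3 *
        Real.exp (-((q * |a|) ^ 2 + (q * |b|) ^ 2))) := by ring
    _ ≤ K * C₁ * (σ + ρ) ^ 3 * (125 * Real.exp (-(((q * |a|) ^ 2 + (q * |b|) ^ 2) / 2))) := by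
        gcongr
    _ = _ := by
        have e5 : Real.exp (-(((q * |a|) ^ 2 + (q * |b|) ^ 2) / 2)) =
            Real.exp (-((l : ℝ) / 5 / 2) * a ^ 2) * Real.exp (-((l : ℝ) / 5 / 2) * b ^ 2) := by
          rw [← Real.exp_add, mul_pow, mul_pow, hqq, sq_abs, sq_abs]
          congr 1
          ring
        rw [e5]
        ring

lemma gauss_int (M β : ℝ) (hM : 0 ≤ M) (hβ : 0 < β) (f : ℝ × ℝ → ℂ)
    (hf : ∀ p ∈ Sq, ‖f p‖ ≤ M * (Real.exp (-β * p.1 ^ 2) * Real.exp (-β * p.2 ^ 2))) :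
    ‖∫ p in Sq, f p‖ ≤ M * (Real.pi / β) := by
  have hi : Integrable (fun p : ℝ × ℝ => M * (Real.exp (-β * p.1 ^ 2) *
      Real.exp (-β * p.2 ^ 2))) volume := by
    refine Integrable.const_mul ?_ M
    exact (integrable_exp_neg_mul_sq hβ).mul_prod (integrable_exp_neg_mul_sq hβ)
  have h1 : ‖∫ p in Sq, f p‖ ≤ ∫ p in Sq, M * (Real.exp (-β * p.1 ^ 2) *
      Real.exp (-β * p.2 ^ 2)) := by
    refine norm_integral_le_of_norm_le hi.integrableOn ?_
    exact (ae_restrict_iff' Sq_compact.measurableSet).2 (ae_of_all _ hf)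
  have h2 : ∫ p in Sq, M * (Real.exp (-β * p.1 ^ 2) * Real.exp (-β * p.2 ^ 2)) ≤
      ∫ p : ℝ × ℝ, M * (Real.exp (-β * p.1 ^ 2) * Real.exp (-β * p.2 ^ 2)) :=
    setIntegral_le_integral hi (ae_of_all _ fun p => by positivity)
  have h3 : ∫ p : ℝ × ℝ, M * (Real.exp (-β * p.1 ^ 2) * Real.exp (-β * p.2 ^ 2)) =
      M * (Real.pi / β) := by
    rw [integral_const_mul, Measure.volume_eq_prod,
      integral_prod_mul (fun x : ℝ => Real.exp (-β * x ^ 2)) (fun x : ℝ => Real.exp (-β * x ^ 2)),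
      integral_gaussian, Real.mul_self_sqrt (by positivity)]
  linarith

lemma ph_cont (r : ℕ) (G : W → ℝ) (s : ℝ) : Continuous (fun p : ℝ × ℝ => ph r G s p.1 p.2) := by
  unfold ph Ew
  refine Continuous.const_smul (continuous_finsetSum _ fun w _ => ?_) _
  fun_prop

lemma ps_cont (r : ℕ) (v s : ℝ) : Continuous (fun p : ℝ × ℝ => (ps r v s p.1 p.2 : ℂ)) := by
  unfold ps
  fun_prop

theorem main : S_CF := by
  intro κ η hκ hη
  refine ⟨1250 * (80 * (Real.sqrt κ + 2) + 163) * (1 + Real.sqrt (10 / η)) ^ 3 / η, ?_⟩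
  intro F r K l n hF hr hK hn hnl hl h4 s
  set e := Ew r F with he
  set G : W → ℝ := fun w => F w - e with hG
  have hV : Vw r F = Ew r (fun w => G w ^ 2) := rfl
  set v := Vw r F with hv
  have hv0 : 0 ≤ v := by rw [hV]; exact Ew_nonneg fun w _ => sq_nonneg _
  have h0 : Ew r G = 0 := by
    rw [hG, Ew_sub, Ew_const, ← he, sub_self]
  have hm : ∀ w, G (mir w) = G w := fun w => by simp only [hG, hF]
  have hn0 : (0 : ℝ) < n := by exact_mod_cast hn
  have hK0 : (0 : ℝ) < K := by exact_mod_cast hK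
  have hl0 : (0 : ℝ) < l := lt_of_lt_of_le (by positivity) hl
  have hlpos : 0 < l := by exact_mod_cast hl0
  set C₁ := 80 * (Real.sqrt κ + 2) + 163 with hC₁
  have hC0 : 0 ≤ C₁ := by positivity
  -- Fourier inversion
  have t1 : Ew (2 * n) (fun w => if bal w then Complex.exp (Complex.I *
      ((s * ∑ i ∈ range K, (F (blk r i w) - e) : ℝ) : ℂ)) else 0) =
      ((Real.pi ^ 2 : ℝ) : ℂ)⁻¹ * ∫ p in Sq, ph r G s p.1 p.2 ^ K *
        ((Real.cos p.1 ^ l * Real.cos p.2 ^ l : ℝ) : ℂ) := by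
    rw [inversion n (fun w => Complex.exp (Complex.I *
      ((s * ∑ i ∈ range K, (F (blk r i w) - e) : ℝ) : ℂ)))]
    congr 1
    refine integral_congr_ae (ae_of_all _ fun p => ?_)
    simp only
    rw [← cf_blocks r K l G s p.1 p.2, ← hnl]
    congr 1
    funext w
    rw [← Complex.exp_add]
    congr 1
    simp only [hG]
    push_cast
    ring
  have t2 : ((Ew (2 * n) fun w => if bal w then (1 : ℝ) else 0 : ℝ) : ℂ) =
      ((Real.pi ^ 2 : ℝ) : ℂ)⁻¹ * ∫ p in Sq,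
        ((Real.cos p.1 ^ (2 * n) * Real.cos p.2 ^ (2 * n) : ℝ) : ℂ) := by
    rw [← Ew_ofReal]
    have e1 : (fun w : W => (((if bal w then (1 : ℝ) else 0 : ℝ)) : ℂ)) =
        fun w : W => if bal w then (1 : ℂ) else 0 := by
      funext w
      split_ifs <;> simp
    rw [e1, inversion n (fun _ => 1)]
    congr 1
    refine integral_congr_ae (ae_of_all _ fun p => ?_)
    simp only [one_mul]
    exact cf_cos (2 * n) p.1 p.2
  have t3 : Complex.exp ((-(s ^ 2 * (K * v)) / 2 : ℝ) : ℂ) *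
      ((Ew (2 * n) fun w => if bal w then (1 : ℝ) else 0 : ℝ) : ℂ) =
      ((Real.pi ^ 2 : ℝ) : ℂ)⁻¹ * ∫ p in Sq, (ps r v s p.1 p.2 : ℂ) ^ K *
        ((Real.cos p.1 ^ l * Real.cos p.2 ^ l : ℝ) : ℂ) := by
    rw [t2, mul_left_comm, ← integral_const_mul]
    congr 1
    refine integral_congr_ae (ae_of_all _ fun p => ?_)
    simp only
    rw [← Complex.ofReal_exp, ← Complex.ofReal_mul, ← Complex.ofReal_pow, ← Complex.ofReal_mul]
    congr 1
    rw [ps, mul_pow, mul_pow, ← pow_mul, ← pow_mul, ← Real.exp_nat_mul, hnl, pow_add, pow_add,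
      mul_comm r K]
    rw [show (K : ℝ) * -(s ^ 2 * v / 2) = -(s ^ 2 * (K * v)) / 2 by ring]
    ring
  rw [t1, t3, ← mul_sub, ← integral_sub]
  rotate_left
  · refine ContinuousOn.integrableOn_compact Sq_compact (Continuous.continuousOn ?_)
    have := ph_cont r G s
    fun_prop
  · refine ContinuousOn.integrableOn_compact Sq_compact (Continuous.continuousOn ?_)
    have := ps_cont r v s
    fun_prop
  set q := Real.sqrt ((l : ℝ) / 5) with hq
  have hq0 : 0 < q := Real.sqrt_pos.2 (by positivity)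
  have hqq : q ^ 2 = (l : ℝ) / 5 := Real.sq_sqrt (by positivity)
  set σ := |s| * Real.sqrt v with hσ
  have hσ0 : 0 ≤ σ := by positivity
  set ρ := Real.sqrt r / q with hρ
  have hρ0 : 0 ≤ ρ := by positivity
  have hint := gauss_int (125 * K * C₁ * (σ + ρ) ^ 3) ((l : ℝ) / 5 / 2) (by positivity)
    (by positivity) (fun p => ph r G s p.1 p.2 ^ K *
        ((Real.cos p.1 ^ l * Real.cos p.2 ^ l : ℝ) : ℂ) - (ps r v s p.1 p.2 : ℂ) ^ K *
        ((Real.cos p.1 ^ l * Real.cos p.2 ^ l : ℝ) : ℂ)) (fun p hp => by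
      rw [← sub_mul]
      exact point_est r G κ hκ.le h0 hm h4 s K l hlpos p hp)
  -- the constants
  set sK := Real.sqrt K with hsK
  have hsK0 : 0 < sK := Real.sqrt_pos.2 hK0
  have hsKK : sK ^ 2 = K := Real.sq_sqrt hK0.le
  have hb : sK * (σ + ρ) ≤ (1 + Real.sqrt (10 / η)) * (1 + |s| * Real.sqrt (K * v)) := by
    have e1 : sK * σ = |s| * Real.sqrt (K * v) := by
      rw [hσ, Real.sqrt_mul hK0.le]; ring
    have e2 : sK * ρ ≤ Real.sqrt (10 / η) := by
      have e3 : sK * ρ = Real.sqrt (K * r / (l / 5)) := by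
        rw [hρ, hsK, hq, Real.sqrt_div (by positivity : (0 : ℝ) ≤ K * r), Real.sqrt_mul hK0.le]
        ring
      rw [e3]
      apply Real.sqrt_le_sqrt
      rw [div_le_div_iff₀ (by positivity) hη]
      have e4 : (2 : ℝ) * n = K * r + l := by exact_mod_cast hnl
      have e5 : (K : ℝ) * r ≤ 2 * n := by linarith
      calc (K : ℝ) * r * η ≤ 2 * n * η := by gcongr
        _ = 2 * (η * n) := by ring
        _ ≤ 2 * l := by gcongr
        _ = 10 * (l / 5) := by ring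
    have e6 : 0 ≤ Real.sqrt (10 / η) * (|s| * Real.sqrt (K * v)) := by positivity
    calc sK * (σ + ρ) = sK * σ + sK * ρ := by ring
      _ ≤ |s| * Real.sqrt (K * v) + Real.sqrt (10 / η) := by rw [e1]; gcongr
      _ ≤ _ := by nlinarith
  have hb3 : (sK * (σ + ρ)) ^ 3 ≤ (1 + Real.sqrt (10 / η)) ^ 3 *
      (1 + |s| * Real.sqrt (K * v)) ^ 3 := by
    rw [← mul_pow]
    exact pow_le_pow_left₀ (by positivity) hb 3
  have hpi : (0 : ℝ) < Real.pi := Real.pi_pos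
  have hpi1 : (1 : ℝ) ≤ Real.pi := by linarith [Real.pi_gt_three]
  rw [norm_mul, norm_inv, Complex.norm_real, Real.norm_of_nonneg (by positivity)]
  calc (Real.pi ^ 2)⁻¹ * ‖∫ p in Sq, _‖
      ≤ (Real.pi ^ 2)⁻¹ * (125 * K * C₁ * (σ + ρ) ^ 3 * (Real.pi / ((l : ℝ) / 5 / 2))) := by
        gcongr
    _ = Real.pi⁻¹ * (1250 * C₁ * (K * (σ + ρ) ^ 3) / l) := by
        field_simp
        ring
    _ ≤ 1 * (1250 * C₁ * (K * (σ + ρ) ^ 3) / l) := by
        gcongr
        exact inv_le_one_of_one_le₀ hpi1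
    _ ≤ 1250 * C₁ * (K * (σ + ρ) ^ 3) / (η * n) := by
        rw [one_mul]
        gcongr
    _ = 1250 * C₁ * (sK * (σ + ρ)) ^ 3 / (sK * (η * n)) := by
        rw [← hsKK]
        field_simp
    _ ≤ 1250 * C₁ * ((1 + Real.sqrt (10 / η)) ^ 3 *
        (1 + |s| * Real.sqrt (K * v)) ^ 3) / (sK * (η * n)) := by
        gcongr
    _ = _ := by
        field_simp

end Pool.Agent.N940.MN.Cf
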