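import Pool.Agent.N940.MN.Stm2

/-!
# Project MN, part COUNT (helper545): every arc system comes from `n + 1` bridges
-/

set_option autoImplicit false

namespace Pool.Agent.N940.MN.Count

open Finset

/-! ### heights -/

lemma ht_succ {v : List Bool} {i : ℕ} {b : Bool} (h : v[i]? = some b) :
    ht v (i + 1) = ht v i + sg b := by
  unfold ht tot
  rw [List.take_add_one, h]
  simp

lemma ht_zero (v : List Bool) : ht v 0 = 0 := by simp [ht, tot]

lemma ht_len (v : List Bool) : ht v v.length = tot v := by simp [ht]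

/-! ### the partners -/

/-- `x` and `y` are partners on the circle -/
def R (v : List Bool) (x y : ℕ) : Prop :=
  arc v x y ∨ arc v y x ∨ ∃ k, (rop v k x ∧ lop v k y) ∨ (lop v k x ∧ rop v k y)

lemma R_symm {v : List Bool} {x y : ℕ} (h : R v x y) : R v y x := by
  rcases h with h | h | ⟨k, ⟨h1, h2⟩ | ⟨h1, h2⟩⟩
  · exact Or.inr (Or.inl h)
  · exact Or.inl h
  · exact Or.inr (Or.inr ⟨k, Or.inr ⟨h2, h1⟩⟩)
  · exact Or.inr (Or.inr ⟨k, Or.inl ⟨h2, h1⟩⟩)

lemma R_lt {v : List Bool} {x y : ℕ} (h : R v x y) : y < v.length := by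
  rcases h with h | h | ⟨k, ⟨h1, h2⟩ | ⟨h1, h2⟩⟩
  · exact h.2.1
  · exact h.1.trans h.2.1
  · exact h2.1
  · exact h2.1

lemma R_letter (h1 : S_ARC1) {v : List Bool} {x y : ℕ} (h : R v x y) :
    ∃ b : Bool, v[x]? = some b ∧ v[y]? = some (!b) := by
  obtain ⟨a1, a2, a3, _⟩ := h1
  rcases h with h | h | ⟨k, ⟨h, h'⟩ | ⟨h, h'⟩⟩
  · exact ⟨true, (a1 _ _ _ h).1, (a1 _ _ _ h).2⟩
  · exact ⟨false, (a1 _ _ _ h).2, (a1 _ _ _ h).1⟩
  · exact ⟨true, a2 _ _ _ h, a3 _ _ _ h'⟩
  · exact ⟨false, a3 _ _ _ h, a2 _ _ _ h'⟩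

/-- the two cases according to the letter -/
lemma R_true (h1 : S_ARC1) {v : List Bool} {x y : ℕ} (h : R v x y) (hx : v[x]? = some true) :
    arc v x y ∨ ∃ k, rop v k x ∧ lop v k y := by
  obtain ⟨a1, a2, a3, _⟩ := h1
  rcases h with h | h | ⟨k, ⟨h, h'⟩ | ⟨h, h'⟩⟩
  · exact Or.inl h
  · have := (a1 _ _ _ h).2
    rw [hx] at this
    simp at this
  · exact Or.inr ⟨k, h, h'⟩
  · have := a3 _ _ _ h
    rw [hx] at this
    simp at this

lemma R_fun_true (h1 : S_ARC1) {v : List Bool} {x y z : ℕ} (h : R v x y) (h' : R v x z)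
    (hx : v[x]? = some true) : y = z := by
  have a := R_true h1 h hx
  have b := R_true h1 h' hx
  obtain ⟨a1, a2, a3, a4, a5, a6, a7, a8, a9, a10, a11, _⟩ := h1
  rcases a with a | ⟨k, ak, ak'⟩
  · rcases b with b | ⟨l, bl, bl'⟩
    · exact a4 _ _ _ _ a b
    · exact absurd a (a10 _ _ _ _ bl)
  · rcases b with b | ⟨l, bl, bl'⟩
    · exact absurd b (a10 _ _ _ _ ak)
    · have := a7 _ _ _ _ ak bl
      subst this
      exact a8 _ _ _ _ ak' bl'

lemma R_false (h1 : S_ARC1) {v : List Bool} {x y : ℕ} (h : R v x y) (hx : v[x]? = some false) :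
    arc v y x ∨ ∃ k, lop v k x ∧ rop v k y := by
  obtain ⟨a1, a2, a3, _⟩ := h1
  rcases h with h | h | ⟨k, ⟨h, h'⟩ | ⟨h, h'⟩⟩
  · have := (a1 _ _ _ h).1
    rw [hx] at this
    simp at this
  · exact Or.inl h
  · have := a2 _ _ _ h
    rw [hx] at this
    simp at this
  · exact Or.inr ⟨k, h, h'⟩

lemma R_fun (h1 : S_ARC1) {v : List Bool} {x y z : ℕ} (h : R v x y) (h' : R v x z) : y = z := by
  obtain ⟨b, hb, _⟩ := R_letter h1 h
  cases b
  · have a := R_false h1 h hb
    have c := R_false h1 h' hb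
    obtain ⟨a1, a2, a3, a4, a5, a6, a7, a8, a9, a10, a11, _⟩ := h1
    rcases a with a | ⟨k, ak, ak'⟩
    · rcases c with c | ⟨l, bl, bl'⟩
      · exact a5 _ _ _ _ a c
      · exact absurd a (a11 _ _ _ _ bl)
    · rcases c with c | ⟨l, bl, bl'⟩
      · exact absurd c (a11 _ _ _ _ ak)
      · have := a9 _ _ _ _ ak bl
        subst this
        exact a6 _ _ _ _ ak' bl'
  · exact R_fun_true h1 h h' hb

lemma R_total (hU : S_U) (h1 : S_ARC1) {v : List Bool} (hv : tot v = 0) {x : ℕ}
    (hx : x < v.length) : ∃ y, R v x y := by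
  obtain ⟨a1, a2, a3, a4, a5, a6, a7, a8, a9, a10, a11, a12, a13, a14, a15⟩ := h1
  have hUD : U v = Dn v := by
    have := hU.2.1 v
    rw [hv] at this
    omega
  have hb : ∃ b : Bool, v[x]? = some b := ⟨v[x], List.getElem?_eq_getElem hx⟩
  obtain ⟨b, hb⟩ := hb
  cases b
  · rcases a13 v x hb with ⟨y, hy⟩ | ⟨k, hk⟩
    · exact ⟨y, Or.inr (Or.inl hy)⟩
    · have h2 := (a15 v k).1 ⟨x, hk⟩
      rw [← hUD] at h2
      obtain ⟨y, hy⟩ := (a14 v k).2 h2
      exact ⟨y, Or.inr (Or.inr ⟨k, Or.inr ⟨hk, hy⟩⟩)⟩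
  · rcases a12 v x hb with ⟨y, hy⟩ | ⟨k, hk⟩
    · exact ⟨y, Or.inl hy⟩
    · have h2 := (a14 v k).1 ⟨x, hk⟩
      rw [hUD] at h2
      obtain ⟨y, hy⟩ := (a15 v k).2 h2
      exact ⟨y, Or.inr (Or.inr ⟨k, Or.inl ⟨hk, hy⟩⟩)⟩

lemma exists_per (hU : S_U) (h1 : S_ARC1) {n : ℕ} {v : List Bool} (hl : v.length = 2 * n)
    (hv : tot v = 0) : ∃ σ : Equiv.Perm (Fin (2 * n)), ∀ x : Fin (2 * n), R v x (σ x) := by
  have h2 : ∀ x : Fin (2 * n), ∃ y : Fin (2 * n), R v x y := by
    intro x
    obtain ⟨y, hy⟩ := R_total hU h1 hv (x := x) (by rw [hl]; exact x.2)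
    exact ⟨⟨y, by rw [← hl]; exact R_lt hy⟩, hy⟩
  choose p hp using h2
  have hinv : Function.Involutive p := by
    intro x
    exact Fin.ext (R_fun h1 (hp (p x)) (R_symm (hp x)))
  exact ⟨hinv.toPerm p, hp⟩

lemma mat_of (h1 : S_ARC1) {n : ℕ} {v : List Bool} {σ : Equiv.Perm (Fin (2 * n))}
    (h : ∀ x : Fin (2 * n), R v x (σ x)) : Mat v σ := by
  intro x y
  constructor
  · intro e
    rw [← e]
    exact h x
  · intro hR
    exact Fin.ext (R_fun h1 (h x) hR)

/-- unmatched closings are on the left of unmatched openings -/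
lemma rop_lop {v : List Bool} (hv : tot v = 0) {k l x y : ℕ} (h : rop v k x) (h' : lop v l y) :
    y < x := by
  obtain ⟨h2, h3, h4⟩ := h
  obtain ⟨g2, g3, g4⟩ := h'
  by_contra hcon
  push Not at hcon
  have e1 := g4 x hcon
  have e2 := h4 (y + 1) (by omega) (by omega)
  omega

lemma arcsys (h1 : S_ARC1) {n : ℕ} {v : List Bool} (hl : v.length = 2 * n) (hv : tot v = 0)
    {σ : Equiv.Perm (Fin (2 * n))} (h : ∀ x : Fin (2 * n), R v x (σ x)) : IsArcSystem σ := by
  refine ⟨fun i hi => ?_, fun i => ?_, ?_⟩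
  · obtain ⟨b, hb, hb'⟩ := R_letter h1 (h i)
    rw [hi, hb] at hb'
    simp at hb'
  · exact Fin.ext (R_fun h1 (h (σ i)) (R_symm (h i)))
  · rintro i j ⟨hij, hji, hsj⟩
    have key : ∀ x : Fin (2 * n), x < σ x → arc v x (σ x) ∨ ∃ k, lop v k x ∧ rop v k (σ x) := by
      intro x hx
      have hx' : (x : ℕ) < (σ x : ℕ) := hx
      rcases h x with h2 | h2 | ⟨k, ⟨h2, h3⟩ | ⟨h2, h3⟩⟩
      · exact Or.inl h2
      · have := h2.1
        omega
      · have := rop_lop hv h2 h3
        omega
      · exact Or.inr ⟨k, h2, h3⟩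
    have hi := key i (hij.trans hji)
    have hj := key j (hji.trans hsj)
    have e1 : (i : ℕ) < j := hij
    have e2 : (j : ℕ) < (σ i : ℕ) := hji
    have e3 : (σ i : ℕ) < (σ j : ℕ) := hsj
    rcases hi with ⟨_, hi2, hi3, hi4⟩ | ⟨k, ⟨hi2, hi3, hi4⟩, ⟨ki2, ki3, ki4⟩⟩
    · rcases hj with ⟨_, hj2, hj3, hj4⟩ | ⟨k, ⟨hj2, hj3, hj4⟩, _⟩
      · have f1 := hj4 (σ i + 1) (by omega) (by omega)
        have f2 := hi4 j e1 e2.le
        omega
      · have f1 := hj4 i e1.le
        have f2 := hi4 (j + 1) (by omega) (by omega)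
        omega
    · rcases hj with ⟨_, hj2, hj3, hj4⟩ | ⟨l, ⟨hj2, hj3, hj4⟩, ⟨kj2, kj3, kj4⟩⟩
      · have f1 := ki4 (σ j + 1) (by omega) (by omega)
        have f2 := hj4 (σ i) e2 e3.le
        omega
      · have f1 := hj4 (i + 1) (by omega)
        have f2 := ki4 (σ j) e3 (by omega)
        omega

/-! ### heights of words given by functions -/

variable {n : ℕ}

lemma get_ofFn (w : Fin (2 * n) → Bool) (j : Fin (2 * n)) : (List.ofFn w)[(j : ℕ)]? = some (w j) := by
  rw [List.getElem?_ofFn, dif_pos j.2]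

lemma ht_fin (w : Fin (2 * n) → Bool) : ∀ z : ℕ, z ≤ 2 * n →
    ht (List.ofFn w) z = ∑ j ∈ univ.filter (fun j : Fin (2 * n) => (j : ℕ) < z), sg (w j) := by
  intro z
  induction z with
  | zero =>
    intro _
    rw [ht_zero]
    simp
  | succ z ih =>
    intro hz
    have h1 := get_ofFn w ⟨z, by omega⟩
    rw [ht_succ h1, ih (by omega)]
    have h2 : univ.filter (fun j : Fin (2 * n) => (j : ℕ) < z + 1) =
        insert ⟨z, by omega⟩ (univ.filter (fun j : Fin (2 * n) => (j : ℕ) < z)) := by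
      ext j
      simp only [mem_filter, mem_univ, true_and, mem_insert, Fin.ext_iff]
      omega
    rw [h2, sum_insert (by simp), add_comm]

/-- the arcs over the gap before `z` -/
def B (σ : Equiv.Perm (Fin (2 * n))) (z : ℕ) : Finset (Fin (2 * n)) :=
  univ.filter fun j => (j : ℕ) < z ∧ z ≤ (σ j : ℕ)

lemma mem_B {σ : Equiv.Perm (Fin (2 * n))} {z : ℕ} {j : Fin (2 * n)} :
    j ∈ B σ z ↔ (j : ℕ) < z ∧ z ≤ (σ j : ℕ) := by simp [B]

lemma ht_B {σ : Equiv.Perm (Fin (2 * n))} (hσ : IsArcSystem σ) {w : Fin (2 * n) → Bool}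
    (hw : ∀ j, w (σ j) = !w j) {z : ℕ} (hz : z ≤ 2 * n) :
    ht (List.ofFn w) z = ∑ j ∈ B σ z, sg (w j) := by
  rw [ht_fin w z hz]
  have h1 := sum_filter_add_sum_filter_not (univ.filter (fun j : Fin (2 * n) => (j : ℕ) < z))
    (fun j => (σ j : ℕ) < z) (fun j => sg (w j))
  rw [← h1]
  have h2 : ∑ j ∈ (univ.filter (fun j : Fin (2 * n) => (j : ℕ) < z)).filter
      (fun j => (σ j : ℕ) < z), sg (w j) = 0 := by
    refine sum_involution (fun j _ => σ j) ?_ ?_ ?_ ?_
    · intro j _
      rw [hw]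
      cases w j <;> simp [sg]
    · intro j _ _
      exact hσ.1 j
    · intro j hj
      simp only [mem_filter, mem_univ, true_and] at hj ⊢
      rw [hσ.2.1]
      exact ⟨hj.2, hj.1⟩
    · intro j _
      exact hσ.2.1 j
  rw [h2, zero_add]
  refine sum_congr ?_ fun _ _ => rfl
  ext j
  simp only [B, mem_filter, mem_univ, true_and, not_lt]

/-- openings over the gap -/
def T (σ : Equiv.Perm (Fin (2 * n))) (w : Fin (2 * n) → Bool) (z : ℕ) : Finset (Fin (2 * n)) :=
  (B σ z).filter fun j => w j = true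

/-- closings over the gap -/
def F (σ : Equiv.Perm (Fin (2 * n))) (w : Fin (2 * n) → Bool) (z : ℕ) : Finset (Fin (2 * n)) :=
  (B σ z).filter fun j => ¬ w j = true

lemma mem_T {σ : Equiv.Perm (Fin (2 * n))} {w : Fin (2 * n) → Bool} {z : ℕ} {j : Fin (2 * n)} :
    j ∈ T σ w z ↔ ((j : ℕ) < z ∧ z ≤ (σ j : ℕ)) ∧ w j = true := by
  rw [T, mem_filter, mem_B]

lemma mem_F {σ : Equiv.Perm (Fin (2 * n))} {w : Fin (2 * n) → Bool} {z : ℕ} {j : Fin (2 * n)} :
    j ∈ F σ w z ↔ ((j : ℕ) < z ∧ z ≤ (σ j : ℕ)) ∧ w j = false := by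
  rw [F, mem_filter, mem_B, Bool.not_eq_true]

lemma ht_TF {σ : Equiv.Perm (Fin (2 * n))} (hσ : IsArcSystem σ) {w : Fin (2 * n) → Bool}
    (hw : ∀ j, w (σ j) = !w j) {z : ℕ} (hz : z ≤ 2 * n) :
    ht (List.ofFn w) z = (T σ w z).card - (F σ w z).card := by
  rw [ht_B hσ hw hz, ← sum_filter_add_sum_filter_not (B σ z) (fun j => w j = true)
    (fun j => sg (w j))]
  have h1 : ∑ j ∈ (B σ z).filter (fun j => w j = true), sg (w j) = (T σ w z).card := by
    rw [sum_congr rfl (g := fun _ => (1 : ℤ)) (fun j hj => by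
      rw [(mem_filter.1 hj).2]
      rfl), sum_const, nsmul_eq_mul, mul_one]
    rfl
  have h2 : ∑ j ∈ (B σ z).filter (fun j => ¬ w j = true), sg (w j) = -(F σ w z).card := by
    rw [sum_congr rfl (g := fun _ => (-1 : ℤ)) (fun j hj => by
      have := (mem_filter.1 hj).2
      rw [Bool.not_eq_true] at this
      rw [this]
      rfl), sum_const, nsmul_eq_mul, mul_neg, mul_one]
    rfl
  rw [h1, h2]
  ring

/-- compatible words -/
structure Ok (σ : Equiv.Perm (Fin (2 * n))) (w : Fin (2 * n) → Bool) : Prop where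
  arc : IsArcSystem σ
  opp : ∀ j, w (σ j) = !w j
  ins : ∀ i j, i < σ i → w i = true → i < j → j < σ i → j < σ j → w j = true
  nst : ∀ i j, i < σ i → w i = false → j < σ j → w j = false → i < j → σ j < σ i

lemma ncr {σ : Equiv.Perm (Fin (2 * n))} (hσ : IsArcSystem σ) {i j : Fin (2 * n)} (h1 : i < j)
    (h2 : j < σ i) : σ j < σ i := by
  rcases lt_trichotomy (σ j) (σ i) with h | h | h
  · exact h
  · exact absurd (σ.injective h) h1.ne'
  · exact absurd ⟨h1, h2, h⟩ (hσ.2.2 i j)

/-- a word which is compatible has the given matching -/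
theorem R_of_ok {σ : Equiv.Perm (Fin (2 * n))} {w : Fin (2 * n) → Bool} (h : Ok σ w) :
    tot (List.ofFn w) = 0 ∧ ∀ i : Fin (2 * n), R (List.ofFn w) i (σ i) := by
  have hlen : (List.ofFn w).length = 2 * n := List.length_ofFn
  have hht := fun (z : ℕ) (hz : z ≤ 2 * n) => ht_TF h.arc h.opp hz
  have htot : tot (List.ofFn w) = 0 := by
    rw [← ht_len, hlen, hht _ le_rfl]
    have e1 : T σ w (2 * n) = ∅ := by
      ext j
      rw [mem_T]
      have := (σ j).2
      simp
    have e2 : F σ w (2 * n) = ∅ := by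
      ext j
      rw [mem_F]
      have := (σ j).2
      simp
    rw [e1, e2]
    simp
  refine ⟨htot, ?_⟩
  have key : ∀ i : Fin (2 * n), i < σ i → R (List.ofFn w) i (σ i) := by
    intro i hi
    have hi' : (i : ℕ) < (σ i : ℕ) := hi
    have hi2 := (σ i).2
    have hne : ∀ j, j < i → σ j ≠ i := by
      intro j hj hji
      have : σ i = j := by rw [← hji, h.arc.2.1]
      rw [this] at hi
      exact absurd hi (not_lt.2 hj.le)
    by_cases hwi : w i = true
    · -- an arc
      left
      refine ⟨hi', by rw [hlen]; exact hi2, ?_, ?_⟩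
      · have e : B σ (σ i + 1) = B σ i := by
          ext j
          rw [mem_B, mem_B]
          constructor
          · rintro ⟨g1, g2⟩
            have hjs : j ≠ σ i := by
              intro hj
              rw [hj, h.arc.2.1] at g2
              omega
            have g3 : (j : ℕ) < (σ i : ℕ) := by
              have : (j : ℕ) ≠ (σ i : ℕ) := fun e => hjs (Fin.ext e)
              omega
            have g4 : ¬ (i : ℕ) < j := by
              intro g4
              have := ncr h.arc (i := i) (j := j) g4 g3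
              have : (σ j : ℕ) < (σ i : ℕ) := this
              omega
            have g5 : (j : ℕ) ≠ i := by
              intro e
              have : j = i := Fin.ext e
              subst this
              omega
            omega
          · rintro ⟨g1, g2⟩
            have g3 : (i : ℕ) ≠ (σ j : ℕ) := fun e => hne j g1 (Fin.ext e.symm)
            have g4 := ncr h.arc (i := j) (j := i) g1 (lt_of_le_of_ne g2 (fun e => hne j g1 e.symm))
            have : (σ i : ℕ) < (σ j : ℕ) := g4
            omega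
        rw [ht_B h.arc h.opp (by omega), ht_B h.arc h.opp (by omega), e]
      · intro z hz1 hz2
        rw [hht i (by omega), hht z (by omega)]
        have e1 : insert i (T σ w i) ⊆ T σ w z := by
          intro j hj
          rw [mem_insert] at hj
          rw [mem_T]
          rcases hj with rfl | hj
          · exact ⟨⟨hz1, hz2⟩, hwi⟩
          · rw [mem_T] at hj
            obtain ⟨⟨g1, g2⟩, g3⟩ := hj
            have g4 := ncr h.arc (i := j) (j := i) g1 (lt_of_le_of_ne g2 (fun e => hne j g1 e.symm))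
            have g5 : (σ i : ℕ) < (σ j : ℕ) := g4
            exact ⟨⟨by omega, by omega⟩, g3⟩
        have e2 : F σ w z ⊆ F σ w i := by
          intro j hj
          rw [mem_F] at hj ⊢
          obtain ⟨⟨g1, g2⟩, g3⟩ := hj
          refine ⟨⟨?_, by omega⟩, g3⟩
          by_contra g4
          push Not at g4
          have g5 : (j : ℕ) ≠ i := by
            intro e
            have : j = i := Fin.ext e
            subst this
            rw [hwi] at g3
            simp at g3
          have g6 : w j = true := h.ins i j hi hwi (lt_of_le_of_ne g4 fun e => g5 (by rw [e]))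
            (Fin.lt_def.2 (by omega)) (Fin.lt_def.2 (by omega))
          rw [g6] at g3
          simp at g3
        have e3 := card_le_card e1
        have e4 := card_le_card e2
        rw [card_insert_of_notMem (by rw [mem_T]; omega)] at e3
        omega
    · rw [Bool.not_eq_true] at hwi
      have e1 : T σ w (i + 1) = ∅ := by
        ext j
        rw [mem_T]
        simp only [notMem_empty, iff_false]
        rintro ⟨⟨g1, g2⟩, g3⟩
        have g4 : j ≠ i := by
          rintro rfl
          rw [g3] at hwi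
          simp at hwi
        have g5 : (j : ℕ) ≠ i := fun e => g4 (Fin.ext e)
        have g6 := h.ins j i (Fin.lt_def.2 (by omega)) g3 (Fin.lt_def.2 (by omega))
          (Fin.lt_def.2 (by omega)) hi
        rw [g6] at hwi
        simp at hwi
      have e2 : F σ w (i + 1) = insert i (F σ w i) := by
        ext j
        rw [mem_insert, mem_F, mem_F]
        constructor
        · rintro ⟨⟨g1, g2⟩, g3⟩
          by_cases g4 : j = i
          · exact Or.inl g4
          · have g5 : (j : ℕ) ≠ i := fun e => g4 (Fin.ext e)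
            exact Or.inr ⟨⟨by omega, by omega⟩, g3⟩
        · rintro (rfl | ⟨⟨g1, g2⟩, g3⟩)
          · exact ⟨⟨by omega, by omega⟩, hwi⟩
          · have g4 : (i : ℕ) ≠ (σ j : ℕ) := fun e => hne j g1 (Fin.ext e.symm)
            exact ⟨⟨by omega, by omega⟩, g3⟩
      have hh1 : ht (List.ofFn w) (i + 1) = -((F σ w i).card + 1) := by
        rw [hht _ (by omega), e1, e2, card_insert_of_notMem (by rw [mem_F]; omega), card_empty]
        push_cast
        ring
      have hsub1 : ∀ z : ℕ, z ≤ (i : ℕ) → F σ w z ⊆ F σ w i := by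
        intro z hz j hj
        rw [mem_F] at hj ⊢
        obtain ⟨⟨g1, g2⟩, g3⟩ := hj
        have g4 : j < i := Fin.lt_def.2 (by omega)
        have g5 : (σ i : ℕ) < (σ j : ℕ) := h.nst j i (Fin.lt_def.2 (by omega)) g3 hi hwi g4
        exact ⟨⟨by omega, by omega⟩, g3⟩
      have hjlt : ∀ j : Fin (2 * n), j ≠ i → (j : ℕ) < (σ i : ℕ) → (σ i : ℕ) ≤ (σ j : ℕ) →
          (j : ℕ) < i ∧ (σ i : ℕ) < (σ j : ℕ) := by
        intro j g4 g1 g2
        have g5 : (σ j : ℕ) ≠ (σ i : ℕ) := fun e => g4 (σ.injective (Fin.ext e))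
        have g6 : (j : ℕ) ≠ i := fun e => g4 (Fin.ext e)
        refine ⟨?_, by omega⟩
        by_contra hc
        have g7 : i < j := Fin.lt_def.2 (by omega)
        have g8 : (σ j : ℕ) < (σ i : ℕ) := ncr h.arc g7 g1
        omega
      have e3 : T σ w (σ i) = ∅ := by
        ext j
        rw [mem_T]
        simp only [notMem_empty, iff_false]
        rintro ⟨⟨g1, g2⟩, g3⟩
        have g4 : j ≠ i := by
          rintro rfl
          rw [g3] at hwi
          simp at hwi
        obtain ⟨g5, g6⟩ := hjlt j g4 g1 g2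
        have g8 := h.ins j i (Fin.lt_def.2 (by omega)) g3 (Fin.lt_def.2 (by omega))
          (Fin.lt_def.2 (by omega)) hi
        rw [g8] at hwi
        simp at hwi
      have e4 : F σ w (σ i) = insert i (F σ w i) := by
        ext j
        rw [mem_insert, mem_F, mem_F]
        constructor
        · rintro ⟨⟨g1, g2⟩, g3⟩
          by_cases g4 : j = i
          · exact Or.inl g4
          · obtain ⟨g5, g6⟩ := hjlt j g4 g1 g2
            exact Or.inr ⟨⟨by omega, by omega⟩, g3⟩
        · rintro (rfl | ⟨⟨g1, g2⟩, g3⟩)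
          · exact ⟨⟨hi', le_rfl⟩, hwi⟩
          · have g4 : j < i := Fin.lt_def.2 g1
            have g5 : (σ i : ℕ) < (σ j : ℕ) := h.nst j i (Fin.lt_def.2 (by omega)) g3 hi hwi g4
            exact ⟨⟨by omega, by omega⟩, g3⟩
      have hhs : ht (List.ofFn w) (σ i) = -((F σ w i).card + 1) := by
        rw [hht _ (by omega), e3, e4, card_insert_of_notMem (by rw [mem_F]; omega), card_empty]
        push_cast
        ring
      have hsub2 : ∀ z : ℕ, (σ i : ℕ) < z → F σ w z ⊆ F σ w i := by
        intro z hz j hj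
        rw [mem_F] at hj ⊢
        obtain ⟨⟨g1, g2⟩, g3⟩ := hj
        rcases lt_trichotomy j i with g4 | g4 | g4
        · have : (j : ℕ) < i := g4
          exact ⟨⟨by omega, by omega⟩, g3⟩
        · subst g4
          omega
        · have : (σ j : ℕ) < (σ i : ℕ) := h.nst i j hi hwi (Fin.lt_def.2 (by omega)) g3 g4
          omega
      right
      right
      refine ⟨(F σ w i).card, Or.inr ⟨⟨by rw [hlen]; omega, hh1, ?_⟩,
        ⟨by rw [hlen]; omega, ?_, ?_⟩⟩⟩
      · intro z hz
        have g1 := card_le_card (hsub1 z hz)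
        rw [hh1, hht z (by omega)]
        omega
      · rw [htot, hhs]
        ring
      · intro z hz1 hz2
        rw [hlen] at hz2
        have g1 := card_le_card (hsub2 z hz1)
        rw [hhs, hht z (by omega)]
        omega
  intro i
  rcases lt_trichotomy i (σ i) with hi | hi | hi
  · exact key i hi
  · exact absurd hi.symm (h.arc.1 i)
  · have := key (σ i) (by rw [h.arc.2.1]; exact hi)
    rw [h.arc.2.1] at this
    exact R_symm this

/-! ### the words of an arc system -/

/-- the words with a given matching -/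
def wd (σ : Equiv.Perm (Fin (2 * n))) : Option {x : Fin (2 * n) // x < σ x} → Fin (2 * n) → Bool
  | none => fun y => decide (y < σ y)
  | some x => fun y => if min y (σ y) ≤ x.1 ∧ x.1 ≤ max y (σ y) then !decide (y < σ y)
      else decide (y < σ y)

lemma wd_opp {σ : Equiv.Perm (Fin (2 * n))} (hσ : IsArcSystem σ)
    (o : Option {x : Fin (2 * n) // x < σ x}) (y : Fin (2 * n)) : wd σ o (σ y) = !wd σ o y := by
  have h1 : decide (σ y < σ (σ y)) = !decide (y < σ y) := by
    rw [hσ.2.1]
    rcases lt_trichotomy y (σ y) with h | h | h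
    · rw [decide_eq_false (not_lt.2 h.le), decide_eq_true h]
      rfl
    · exact absurd h.symm (hσ.1 y)
    · rw [decide_eq_false (not_lt.2 h.le), decide_eq_true h]
      rfl
  cases o with
  | none => exact h1
  | some x =>
    have h2 : min (σ y) (σ (σ y)) = min y (σ y) := by rw [hσ.2.1, min_comm]
    have h3 : max (σ y) (σ (σ y)) = max y (σ y) := by rw [hσ.2.1, max_comm]
    show (if min (σ y) (σ (σ y)) ≤ x.1 ∧ x.1 ≤ max (σ y) (σ (σ y)) then !decide (σ y < σ (σ y))
      else decide (σ y < σ (σ y))) = !(if min y (σ y) ≤ x.1 ∧ x.1 ≤ max y (σ y) then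
        !decide (y < σ y) else decide (y < σ y))
    rw [h1, h2, h3]
    split_ifs <;> rfl

lemma wd_none {σ : Equiv.Perm (Fin (2 * n))} {y : Fin (2 * n)} (hy : y < σ y) :
    wd σ none y = true := decide_eq_true hy

lemma wd_some {σ : Equiv.Perm (Fin (2 * n))} {y : Fin (2 * n)} (hy : y < σ y)
    (x : {x : Fin (2 * n) // x < σ x}) :
    (wd σ (some x) y = false ↔ y ≤ x.1 ∧ x.1 ≤ σ y) := by
  show (if min y (σ y) ≤ x.1 ∧ x.1 ≤ max y (σ y) then !decide (y < σ y)
      else decide (y < σ y)) = false ↔ _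
  rw [min_eq_left hy.le, max_eq_right hy.le, decide_eq_true hy]
  split_ifs with h
  · simp [h]
  · simp only [false_iff]
    exact h

lemma wd_ok {σ : Equiv.Perm (Fin (2 * n))} (hσ : IsArcSystem σ)
    (o : Option {x : Fin (2 * n) // x < σ x}) : Ok σ (wd σ o) := by
  refine ⟨hσ, wd_opp hσ o, ?_, ?_⟩
  · intro i j hi hwi hij hji hj
    cases o with
    | none => exact wd_none hj
    | some x =>
      rw [← Bool.not_eq_false] at hwi ⊢
      rw [wd_some hi] at hwi
      rw [wd_some hj]
      rintro ⟨h1, h2⟩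
      exact hwi ⟨hij.le.trans h1, h2.trans (ncr hσ hij hji).le⟩
  · intro i j hi hwi hj hwj hij
    cases o with
    | none =>
      rw [wd_none hi] at hwi
      simp at hwi
    | some x =>
      rw [wd_some hi] at hwi
      rw [wd_some hj] at hwj
      have h1 : j ≤ σ i := hwj.1.trans hwi.2
      have h2 : j ≠ σ i := by
        intro h
        rw [h, hσ.2.1] at hj
        rw [h] at hij
        exact absurd hij (not_lt.2 hj.le)
      exact ncr hσ hij (lt_of_le_of_ne h1 h2)

lemma wd_inj {σ : Equiv.Perm (Fin (2 * n))} : Function.Injective (wd σ) := by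
  intro o o' h
  cases o with
  | none =>
    cases o' with
    | none => rfl
    | some x =>
      have h1 := congrFun h x.1
      rw [wd_none x.2] at h1
      have h2 := (wd_some x.2 x).2 ⟨le_rfl, x.2.le⟩
      rw [← h1] at h2
      simp at h2
  | some x =>
    cases o' with
    | none =>
      have h1 := congrFun h x.1
      rw [wd_none x.2] at h1
      have h2 := (wd_some x.2 x).2 ⟨le_rfl, x.2.le⟩
      rw [h1] at h2
      simp at h2
    | some x' =>
      have h1 := (wd_some x.2 x).2 ⟨le_rfl, x.2.le⟩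
      rw [h, wd_some x.2] at h1
      have h2 := (wd_some x'.2 x').2 ⟨le_rfl, x'.2.le⟩
      rw [← h, wd_some x'.2] at h2
      exact congrArg some (Subtype.ext (le_antisymm h1.1 h2.1))

lemma wd_surj (h1 : S_ARC1) {σ : Equiv.Perm (Fin (2 * n))} (hσ : IsArcSystem σ)
    {w : Fin (2 * n) → Bool} (ht0 : tot (List.ofFn w) = 0)
    (hR : ∀ i : Fin (2 * n), R (List.ofFn w) i (σ i)) : ∃ o, wd σ o = w := by
  have hlen : (List.ofFn w).length = 2 * n := List.length_ofFn
  have hopp : ∀ j, w (σ j) = !w j := by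
    intro j
    obtain ⟨b, hb, hb'⟩ := R_letter h1 (hR j)
    rw [get_ofFn] at hb hb'
    simp only [Option.some.injEq] at hb hb'
    rw [hb', hb]
  have hA : ∀ i : Fin (2 * n), i < σ i → w i = true → arc (List.ofFn w) i (σ i) := by
    intro i hi hwi
    rcases R_true h1 (hR i) (by rw [get_ofFn, hwi]) with h | ⟨k, h2, h3⟩
    · exact h
    · have h4 := rop_lop ht0 h2 h3
      have : (i : ℕ) < (σ i : ℕ) := hi
      omega
  have hL : ∀ i : Fin (2 * n), i < σ i → w i = false →
      ∃ k, lop (List.ofFn w) k i ∧ rop (List.ofFn w) k (σ i) := by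
    intro i hi hwi
    rcases R_false h1 (hR i) (by rw [get_ofFn, hwi]) with h | h
    · have := h.1
      have : (i : ℕ) < (σ i : ℕ) := hi
      omega
    · exact h
  have red : ∀ o, (∀ y, y < σ y → wd σ o y = w y) → wd σ o = w := by
    intro o h
    funext y
    rcases lt_trichotomy y (σ y) with hy | hy | hy
    · exact h y hy
    · exact absurd hy.symm (hσ.1 y)
    · have h2 := h (σ y) (by rw [hσ.2.1]; exact hy)
      rw [wd_opp hσ, hopp] at h2
      simpa using h2
  by_cases hex : ∃ y, y < σ y ∧ w y = false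
  · obtain ⟨x₀, hx₀, hmax⟩ := Finset.exists_max_image
      (univ.filter fun y : Fin (2 * n) => y < σ y ∧ w y = false) id (by
        obtain ⟨y, hy⟩ := hex
        exact ⟨y, by simpa using hy⟩)
    rw [mem_filter] at hx₀
    obtain ⟨_, hx1, hx2⟩ := hx₀
    obtain ⟨k₀, hk1, hk2⟩ := hL x₀ hx1 hx2
    refine ⟨some ⟨x₀, hx1⟩, red _ fun y hy => ?_⟩
    have hy' : (y : ℕ) < (σ y : ℕ) := hy
    cases hwy : w y
    · rw [wd_some hy]
      refine ⟨hmax y (by rw [mem_filter]; exact ⟨mem_univ _, hy, hwy⟩), ?_⟩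
      obtain ⟨k, hk3, hk4⟩ := hL y hy hwy
      show x₀ ≤ σ y
      by_contra hc
      have hc' : (σ y : ℕ) < x₀ := not_le.1 hc
      have g1 := hk1.2.2 (σ y) hc'.le
      have g2 := hk4.2.2 (x₀ + 1) (by omega) (by rw [hlen]; have := x₀.2; omega)
      omega
    · rw [← Bool.not_eq_false, wd_some hy]
      rintro ⟨g1, g2⟩
      have g1' : (y : ℕ) ≤ x₀ := g1
      have g2' : (x₀ : ℕ) ≤ σ y := g2
      have g3 : (x₀ : ℕ) ≠ σ y := by
        intro e
        have e2 : x₀ = σ y := Fin.ext e
        rw [e2, hσ.2.1] at hx1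
        exact absurd hy (not_lt.2 hx1.le)
      have g4 := hk1.2.2 y g1'
      have g5 := (hA y hy hwy).2.2.2 (x₀ + 1) (by omega) (by omega)
      omega
  · push Not at hex
    refine ⟨none, red _ fun y hy => ?_⟩
    rw [wd_none hy]
    have := hex y hy
    rw [ne_eq, Bool.not_eq_false] at this
    exact this.symm

lemma card_open {σ : Equiv.Perm (Fin (2 * n))} (hσ : IsArcSystem σ) :
    Fintype.card {x : Fin (2 * n) // x < σ x} = n := by
  rw [Fintype.card_subtype]
  have h1 := card_filter_add_card_filter_not (s := (univ : Finset (Fin (2 * n))))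
    (fun x => x < σ x)
  have h2 : (univ.filter fun x : Fin (2 * n) => x < σ x).card =
      (univ.filter fun x : Fin (2 * n) => ¬ x < σ x).card := by
    refine card_bij' (fun x _ => σ x) (fun x _ => σ x) ?_ ?_ ?_ ?_
    · intro x hx
      rw [mem_filter] at hx ⊢
      refine ⟨mem_univ _, ?_⟩
      rw [hσ.2.1]
      exact not_lt.2 hx.2.le
    · intro x hx
      rw [mem_filter] at hx ⊢
      refine ⟨mem_univ _, ?_⟩
      rw [hσ.2.1]
      exact lt_of_le_of_ne (not_lt.1 hx.2) (hσ.1 x)
    · intro x _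
      exact hσ.2.1 x
    · intro x _
      exact hσ.2.1 x
  rw [card_univ, Fintype.card_fin] at h1
  omega

open Classical in
/-- COUNT -/
theorem main (hU : S_U) (h1 : S_ARC1) : S_COUNT := by
  intro n
  obtain ⟨per, hper⟩ : ∃ per : List Bool → Equiv.Perm (Fin (2 * n)),
      ∀ v : List Bool, v.length = 2 * n → tot v = 0 → ∀ x : Fin (2 * n), R v x (per v x) := by
    refine ⟨fun v => if h : v.length = 2 * n ∧ tot v = 0 then
      (exists_per hU h1 h.1 h.2).choose else 1, fun v hl hv => ?_⟩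
    show ∀ x : Fin (2 * n), R v x ((if h : v.length = 2 * n ∧ tot v = 0 then
      (exists_per hU h1 h.1 h.2).choose else 1) x)
    rw [dif_pos ⟨hl, hv⟩]
    exact (exists_per hU h1 hl hv).choose_spec
  refine ⟨per, fun v hl hv => ⟨mat_of h1 (hper v hl hv), arcsys h1 hl hv (hper v hl hv)⟩, ?_⟩
  intro E _ _ Φ
  have hlen : ∀ w : Fin (2 * n) → Bool, (List.ofFn w).length = 2 * n := fun w => List.length_ofFn
  rw [← sum_filter, ← sum_fiberwise_of_maps_to (t := AS n) (g := fun w => per (List.ofFn w)),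
    smul_sum]
  · refine sum_congr rfl fun σ hσ => ?_
    have hσ' : IsArcSystem σ := by
      rw [AS, mem_filter] at hσ
      exact hσ.2
    rw [sum_congr rfl (g := fun _ => Φ σ) (fun w hw => by rw [(mem_filter.1 hw).2]), sum_const]
    have hfib : ((univ.filter fun w : Fin (2 * n) → Bool => tot (List.ofFn w) = 0).filter
        fun w => per (List.ofFn w) = σ) = univ.image (wd σ) := by
      ext w
      rw [mem_filter, mem_filter, mem_image]
      constructor
      · rintro ⟨⟨_, h2⟩, h3⟩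
        obtain ⟨o, ho⟩ := wd_surj h1 hσ' h2 (h3 ▸ hper _ (hlen w) h2)
        exact ⟨o, mem_univ _, ho⟩
      · rintro ⟨o, _, rfl⟩
        obtain ⟨h2, h3⟩ := R_of_ok (wd_ok hσ' o)
        refine ⟨⟨mem_univ _, h2⟩, ?_⟩
        ext x
        exact R_fun h1 (hper _ (hlen _) h2 x) (h3 x)
    rw [hfib, card_image_of_injective _ wd_inj, card_univ, Fintype.card_option, card_open hσ',
      ← Nat.cast_smul_eq_nsmul ℝ]
    push_cast
    rfl
  · intro w hw
    rw [mem_filter] at hw
    rw [AS, mem_filter]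
    exact ⟨mem_univ _, arcsys h1 (hlen w) hw.2 (hper _ (hlen w) hw.2)⟩

end Pool.Agent.N940.MN.Count
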