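import Mathlib

/-!
# Meandric systems: words, arcs, spaces of locally constant functions

A letter is a pair of Booleans: the first one for the upper, the second one for the lower half-plane;
`true` is the left end of an arc (an opening), `false` the right end (a closing).
-/

set_option autoImplicit false

namespace Pool.Agent.N940.MN

/-- words over the alphabet of pairs (upper letter, lower letter) -/
abbrev W : Type := List (Bool × Bool)

/-- the upper word -/
def up (w : W) : List Bool := w.map Prod.fst

/-- the lower word -/
def lo (w : W) : List Bool := w.map Prod.snd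

/-- exchange of the two half-planes -/
def sw (w : W) : W := w.map Prod.swap

/-- the mirror image -/
def mir (w : W) : W := (w.map fun p => (!p.1, !p.2)).reverse

/-- the step of a letter -/
def sg (b : Bool) : ℤ := if b then 1 else -1

/-- the sum of all steps -/
def tot (v : List Bool) : ℤ := (v.map sg).sum

/-- the height after `i` letters -/
def ht (v : List Bool) (i : ℕ) : ℤ := tot (v.take i)

/-- one step of the computation of the numbers of unmatched closings and openings -/
def stp (s : ℕ × ℕ) (b : Bool) : ℕ × ℕ :=
  if b then (s.1, s.2 + 1) else if s.2 = 0 then (s.1 + 1, 0) else (s.1, s.2 - 1)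

/-- the number of unmatched closings -/
def Dn (v : List Bool) : ℕ := (v.foldl stp (0, 0)).1

/-- the number of unmatched openings -/
def U (v : List Bool) : ℕ := (v.foldl stp (0, 0)).2

/-- there is an arc from `x` to `y`, `x < y` -/
def arc (v : List Bool) (x y : ℕ) : Prop :=
  x < y ∧ y < v.length ∧ ht v (y + 1) = ht v x ∧ ∀ z, x < z → z ≤ y → ht v x < ht v z

/-- `x` is the unmatched opening number `k`, counted from the right end, `k = 0, 1, …` -/
def rop (v : List Bool) (k x : ℕ) : Prop :=
  x < v.length ∧ tot v = ht v x + (k + 1) ∧ ∀ z, x < z → z ≤ v.length → ht v x < ht v z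

/-- `x` is the unmatched closing number `k`, counted from the left end, `k = 0, 1, …` -/
def lop (v : List Bool) (k x : ℕ) : Prop :=
  x < v.length ∧ ht v (x + 1) = -(k + 1) ∧ ∀ z, z ≤ x → ht v (x + 1) < ht v z

open Classical in
/-- position of the unmatched opening number `k`; the length of the word if there is none -/
noncomputable def rp (v : List Bool) (k : ℕ) : ℕ :=
  if h : ∃ x, rop v k x then h.choose else v.length

open Classical in
/-- position of the unmatched closing number `k`; the length of the word if there is none -/
noncomputable def lp (v : List Bool) (k : ℕ) : ℕ :=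
  if h : ∃ x, lop v k x then h.choose else v.length

/-- functions on the positions which are constant along the arcs -/
def PP (w : W) : Submodule (ZMod 2) (ℕ → ZMod 2) where
  carrier := {c | (∀ i, w.length ≤ i → c i = 0) ∧ (∀ x y, arc (up w) x y → c x = c y) ∧
    ∀ x y, arc (lo w) x y → c x = c y}
  add_mem' := by
    rintro a b ⟨a1, a2, a3⟩ ⟨b1, b2, b3⟩
    refine ⟨fun i hi => ?_, fun x y h => ?_, fun x y h => ?_⟩
    · simp [a1 i hi, b1 i hi]
    · simp [a2 x y h, b2 x y h]
    · simp [a3 x y h, b3 x y h]
  zero_mem' := ⟨fun _ _ => rfl, fun _ _ _ => rfl, fun _ _ _ => rfl⟩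
  smul_mem' := by
    rintro t a ⟨a1, a2, a3⟩
    refine ⟨fun i hi => ?_, fun x y h => ?_, fun x y h => ?_⟩
    · simp [a1 i hi]
    · simp [a2 x y h]
    · simp [a3 x y h]

/-- the values at given positions -/
def ev (p : ℕ → ℕ) : (ℕ → ZMod 2) →ₗ[ZMod 2] (ℕ → ZMod 2) := LinearMap.funLeft (ZMod 2) (ZMod 2) p

/-- functions constant along the arcs which vanish at the unmatched positions -/
noncomputable def CC (w : W) : Submodule (ZMod 2) (ℕ → ZMod 2) :=
  PP w ⊓ (LinearMap.ker (ev (rp (up w))) ⊓ LinearMap.ker (ev (lp (up w))) ⊓
    LinearMap.ker (ev (rp (lo w))) ⊓ LinearMap.ker (ev (lp (lo w))))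

/-- functions constant along the arcs and along the arcs around the word, which join the unmatched
openings and closings with the same number -/
noncomputable def CO (w : W) : Submodule (ZMod 2) (ℕ → ZMod 2) :=
  PP w ⊓ (LinearMap.ker (ev (rp (up w)) - ev (lp (up w))) ⊓
    LinearMap.ker (ev (rp (lo w)) - ev (lp (lo w))))

/-- the number of closed loops of a word -/
noncomputable def f (w : W) : ℕ := Module.finrank (ZMod 2) (CC w)

/-- the number of loops of a word closed up to a circle -/
noncomputable def fo (w : W) : ℕ := Module.finrank (ZMod 2) (CO w)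

/-- boundary values at the unmatched openings of functions which are zero at the unmatched
closings -/
noncomputable def BR (w : W) : Submodule (ZMod 2) ((ℕ → ZMod 2) × (ℕ → ZMod 2)) :=
  (PP w ⊓ (LinearMap.ker (ev (lp (up w))) ⊓ LinearMap.ker (ev (lp (lo w))))).map
    (LinearMap.prod (ev (rp (up w))) (ev (rp (lo w))))

/-- boundary values at the unmatched upper openings of functions which are zero at all other
unmatched positions -/
noncomputable def BW (w : W) : Submodule (ZMod 2) (ℕ → ZMod 2) :=
  (PP w ⊓ (LinearMap.ker (ev (lp (up w))) ⊓ LinearMap.ker (ev (rp (lo w))) ⊓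
    LinearMap.ker (ev (lp (lo w))))).map (ev (rp (up w)))

/-- half the number of the upper openings joined to each other inside the window -/
noncomputable def gg (w : W) : ℕ := Module.finrank (ZMod 2) (BW w)

/-- the number of loops of two windows joined at their upper unmatched openings -/
noncomputable def GG (w w' : W) : ℕ :=
  Module.finrank (ZMod 2) (BW w ⊓ BW w' : Submodule (ZMod 2) (ℕ → ZMod 2))

/-- the shortest suffix with at least `M` unmatched upper openings -/
def sfx (M : ℕ) : W → W
  | [] => []
  | x :: v => if M ≤ U (up v) then sfx M v else x :: v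

/-- the part of the word before `sfx` -/
def pre (M : ℕ) : W → W
  | [] => []
  | x :: v => if M ≤ U (up v) then x :: pre M v else []

/-- the windows with `M` unmatched upper openings, from the right -/
def wn (M : ℕ) : ℕ → W → W
  | 0, w => sfx M w
  | t + 1, w => wn M t (pre M w)

/-- windows -/
def IsWin (M : ℕ) (L : W) : Prop := U (up L) = M ∧ (L = [] ∨ U (up L.tail) < M)

/-- both words are bridges -/
def bal (w : W) : Prop := tot (up w) = 0 ∧ tot (lo w) = 0

instance (w : W) : Decidable (bal w) := by unfold bal; infer_instance

/-- expectation for a uniformly random word of length `r` -/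
noncomputable def Ew {E : Type} [AddCommGroup E] [Module ℝ E] (r : ℕ) (F : W → E) : E :=
  ((4 : ℝ) ^ r)⁻¹ • ∑ w : Fin r → Bool × Bool, F (List.ofFn w)

/-- variance for a uniformly random word of length `r` -/
noncomputable def Vw (r : ℕ) (F : W → ℝ) : ℝ := Ew r fun w => (F w - Ew r F) ^ 2

/-- expectation for a uniformly random pair of bridges of length `2 n` -/
noncomputable def EB {E : Type} [AddCommGroup E] [Module ℝ E] (n : ℕ) (F : W → E) : E :=
  (Ew (2 * n) fun w => if bal w then (1 : ℝ) else 0)⁻¹ •
    Ew (2 * n) fun w => if bal w then F w else 0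

/-- variance for a uniformly random pair of bridges of length `2 n` -/
noncomputable def VB (n : ℕ) (F : W → ℝ) : ℝ := EB n fun w => (F w - EB n F) ^ 2

open Classical in
/-- indicator -/
noncomputable def ind (p : Prop) : ℝ := if p then 1 else 0

/-- the number of the arcs between two words -/
def mm (I J : W) : ℕ := min (U (up I)) (Dn (up J)) + min (U (lo I)) (Dn (lo J))

end Pool.Agent.N940.MN
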