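import Pool.Agent.N940.MN.Stm3

/-!
# Bounded densities for bridges
-/

set_option autoImplicit false

open Filter Topology Finset

namespace Pool.Agent.N940.MN.Dens

open Pool.Agent.N940.MN

lemma tot_nil : tot [] = 0 := rfl

lemma tot_cons (b : Bool) (v : List Bool) : tot (b :: v) = sg b + tot v := by simp [tot]

lemma tot_append (u v : List Bool) : tot (u ++ v) = tot u + tot v := by simp [tot]

/-- the law of the final height of the upper word -/
noncomputable def q (m : ℕ) (x : ℤ) : ℝ := Ew m fun w => if tot (up w) = x then (1 : ℝ) else 0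

lemma q_zero (x : ℤ) : q 0 x = if x = 0 then (1 : ℝ) else 0 := by
  unfold q
  rw [Ew_zero, up_nil, tot_nil]
  by_cases h : x = 0
  · simp [h]
  · simp [h, Ne.symm h]

lemma q_succ (m : ℕ) (x : ℤ) : q (m + 1) x = (q m (x - 1) + q m (x + 1)) / 2 := by
  unfold q
  rw [Ew_cons]
  have e1 : ∀ t : ℤ, (sg true + t = x) = (t = x - 1) := by
    intro t; apply propext; simp only [sg, if_true]; omega
  have e2 : ∀ t : ℤ, (sg false + t = x) = (t = x + 1) := by
    intro t; apply propext
    have : sg false = -1 := rfl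
    rw [this]; omega
  simp only [Fintype.sum_prod_type, Fintype.sum_bool, up_cons, tot_cons, e1, e2, smul_eq_mul]
  ring

lemma q_neg (m : ℕ) : ∀ x : ℤ, x < -(m : ℤ) → q m x = 0 := by
  induction m with
  | zero =>
    intro x hx
    rw [q_zero, if_neg]
    intro h0; subst h0; simp at hx
  | succ m ih =>
    intro x hx
    push_cast at hx
    rw [q_succ, ih _ (by omega), ih _ (by omega)]
    simp

lemma q_odd (m : ℕ) : ∀ x : ℤ, (x + m) % 2 = 1 → q m x = 0 := by
  induction m with
  | zero =>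
    intro x hx
    rw [q_zero, if_neg]
    intro h0; subst h0; simp at hx
  | succ m ih =>
    intro x hx
    push_cast at hx
    rw [q_succ, ih _ (by omega), ih _ (by omega)]
    simp

lemma q_choose (m : ℕ) : ∀ k : ℕ, q m (2 * k - m) = (m.choose k : ℝ) / 2 ^ m := by
  induction m with
  | zero =>
    intro k
    rw [q_zero]
    cases k with
    | zero => simp
    | succ k =>
      rw [if_neg (by push_cast; omega), Nat.choose_zero_succ]
      simp
  | succ m ih =>
    intro k
    rw [q_succ]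
    cases k with
    | zero =>
      rw [q_neg m _ (by push_cast; omega)]
      have h1 : (2 * ((0 : ℕ) : ℤ) - ((m + 1 : ℕ) : ℤ) + 1) = 2 * ((0 : ℕ) : ℤ) - (m : ℤ) := by
        push_cast; ring
      rw [h1, ih 0, Nat.choose_zero_right, Nat.choose_zero_right, pow_succ]
      push_cast
      field_simp
      ring
    | succ k =>
      have h1 : (2 * ((k + 1 : ℕ) : ℤ) - ((m + 1 : ℕ) : ℤ) + 1) =
          2 * ((k + 1 : ℕ) : ℤ) - (m : ℤ) := by
        push_cast; ring
      have h2 : (2 * ((k + 1 : ℕ) : ℤ) - ((m + 1 : ℕ) : ℤ) - 1) = 2 * (k : ℤ) - (m : ℤ) := by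
        push_cast; ring
      rw [h1, h2, ih, ih, Nat.choose_succ_succ, pow_succ]
      push_cast
      field_simp

/-- the maximal probability -/
noncomputable def P (m : ℕ) : ℝ := (m.choose (m / 2) : ℝ) / 2 ^ m

lemma P_nonneg (m : ℕ) : 0 ≤ P m := by unfold P; positivity

lemma q_nonneg (m : ℕ) (x : ℤ) : 0 ≤ q m x :=
  Ew_nonneg fun w _ => by split_ifs <;> norm_num

lemma q_le (m : ℕ) (x : ℤ) : q m x ≤ P m := by
  by_cases h1 : (x + m) % 2 = 1
  · rw [q_odd m x h1]; exact P_nonneg m
  by_cases h2 : x < -(m : ℤ)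
  · rw [q_neg m x h2]; exact P_nonneg m
  obtain ⟨k, hk⟩ : ∃ k : ℕ, x = 2 * k - m := ⟨((x + m) / 2).toNat, by omega⟩
  rw [hk, q_choose]
  unfold P
  have := Nat.choose_le_middle k m
  have h3 : (m.choose k : ℝ) ≤ (m.choose (m / 2) : ℝ) := by exact_mod_cast this
  gcongr

/-- central binomial coefficients -/
noncomputable def cb (n : ℕ) : ℝ := (n.centralBinom : ℝ) / 4 ^ n

lemma cb_succ (n : ℕ) : cb (n + 1) * (2 * n + 2) = cb n * (2 * n + 1) := by
  unfold cb
  have h := Nat.succ_mul_centralBinom_succ n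
  have h' : ((n : ℝ) + 1) * ((n + 1).centralBinom : ℝ) = 2 * (2 * n + 1) * (n.centralBinom : ℝ) := by
    exact_mod_cast h
  rw [pow_succ]
  field_simp
  nlinarith [h']

lemma cb_pos (n : ℕ) : 0 < cb n := by
  unfold cb
  have := Nat.centralBinom_pos n
  positivity

lemma cb_upper (n : ℕ) : (2 * n + 1) * cb n ^ 2 ≤ 1 := by
  induction n with
  | zero => simp [cb]
  | succ n ih =>
    have h := cb_succ n
    have h2 : cb (n + 1) = cb n * (2 * n + 1) / (2 * n + 2) := by
      field_simp; linarith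
    rw [h2]
    push_cast
    have hn : (0 : ℝ) ≤ n := Nat.cast_nonneg n
    have h3 : (2 * ((n : ℝ) + 1) + 1) * (cb n * (2 * n + 1) / (2 * n + 2)) ^ 2 =
        ((2 * n + 1) * cb n ^ 2) * (((2 * n + 3) * (2 * n + 1)) / (2 * n + 2) ^ 2) := by
      field_simp; ring
    rw [h3]
    have h4 : ((2 * (n : ℝ) + 3) * (2 * n + 1)) / (2 * n + 2) ^ 2 ≤ 1 := by
      rw [div_le_one (by positivity)]
      nlinarith
    have h5 : 0 ≤ ((2 * (n : ℝ) + 3) * (2 * n + 1)) / (2 * n + 2) ^ 2 := by positivity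
    calc _ ≤ 1 * 1 := mul_le_mul ih h4 h5 zero_le_one
      _ = 1 := one_mul 1

lemma cb_lower (n : ℕ) : 1 ≤ 4 * ((n : ℝ) + 1) * cb (n + 1) ^ 2 := by
  induction n with
  | zero =>
    have : cb 1 = 1 / 2 := by
      unfold cb
      have h1 : Nat.centralBinom 1 = 2 := by decide
      rw [h1]; norm_num
    rw [show 0 + 1 = 1 from rfl, this]; norm_num
  | succ n ih =>
    have h := cb_succ (n + 1)
    push_cast at h
    have h2 : cb (n + 1 + 1) = cb (n + 1) * (2 * (n + 1) + 1) / (2 * (n + 1) + 2) := by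
      field_simp; linarith
    rw [h2]
    push_cast
    have hn : (0 : ℝ) ≤ n := Nat.cast_nonneg n
    have h3 : 4 * ((n : ℝ) + 1 + 1) * (cb (n + 1) * (2 * (n + 1) + 1) / (2 * (n + 1) + 2)) ^ 2 =
        (4 * ((n : ℝ) + 1) * cb (n + 1) ^ 2) *
          ((2 * n + 3) ^ 2 / (4 * (n + 1) * (n + 2))) := by
      field_simp; ring
    rw [h3]
    have h4 : 1 ≤ (2 * (n : ℝ) + 3) ^ 2 / (4 * (n + 1) * (n + 2)) := by
      rw [le_div_iff₀ (by positivity)]
      nlinarith
    calc (1 : ℝ) = 1 * 1 := (one_mul 1).symm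
      _ ≤ _ := mul_le_mul ih h4 zero_le_one (by linarith)

lemma P_even (n : ℕ) : P (2 * n) = cb n := by
  unfold P cb
  rw [Nat.centralBinom_eq_two_mul_choose, pow_mul]
  have : 2 * n / 2 = n := by omega
  rw [this]
  norm_num

lemma P_odd (n : ℕ) : P (2 * n + 1) = cb (n + 1) := by
  unfold P cb
  have h1 : (2 * n + 1) / 2 = n := by omega
  have h2 : (n + 1).centralBinom = 2 * (2 * n + 1).choose n := by
    rw [Nat.centralBinom_eq_two_mul_choose, show 2 * (n + 1) = (2 * n + 1) + 1 by ring,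
      Nat.choose_succ_succ, Nat.choose_symm_half]
    ring
  rw [h1, h2, pow_succ, pow_mul, pow_succ]
  push_cast
  norm_num
  ring

lemma P_sq (m : ℕ) : (m + 1) * P m ^ 2 ≤ 1 := by
  rcases Nat.even_or_odd' m with ⟨n, rfl | rfl⟩
  · rw [P_even]
    have := cb_upper n
    push_cast
    exact this
  · rw [P_odd]
    have := cb_upper (n + 1)
    push_cast at this ⊢
    nlinarith [sq_nonneg (cb (n + 1))]

/-- the joint law -/
lemma Ew_joint (m : ℕ) (x y : ℤ) :
    (Ew m fun w => if tot (up w) = x ∧ tot (lo w) = y then (1 : ℝ) else 0) = q m x * q m y := by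
  have h1 : (Ew m fun w => if tot (up w) = x ∧ tot (lo w) = y then (1 : ℝ) else 0) =
      Ew m fun w => (fun v => if tot v = x then (1 : ℝ) else 0) (up w) *
        (fun v => if tot v = y then (1 : ℝ) else 0) (lo w) := by
    congr 1
    funext w
    by_cases h : tot (up w) = x <;> by_cases h' : tot (lo w) = y <;> simp [h, h']
  refine h1.trans ((Ew_prod m (fun v => if tot v = x then (1 : ℝ) else 0)
    (fun v => if tot v = y then (1 : ℝ) else 0)).trans ?_)
  have := Ew_sw m (fun w => if tot (up w) = y then (1 : ℝ) else 0)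
  simp only [up_sw] at this
  unfold q
  rw [← this]

lemma Ew_bal (m : ℕ) : (Ew m fun w => if bal w then (1 : ℝ) else 0) = q m 0 * q m 0 :=
  Ew_joint m 0 0

lemma bal_lower (n : ℕ) (hn : 0 < n) :
    (1 / 4 : ℝ) / n ≤ Ew (2 * n) fun w => if bal w then (1 : ℝ) else 0 := by
  obtain ⟨k, rfl⟩ : ∃ k, n = k + 1 := ⟨n - 1, by omega⟩
  rw [Ew_bal]
  have h1 : q (2 * (k + 1)) 0 = cb (k + 1) := by
    have := q_choose (2 * (k + 1)) (k + 1)
    rw [show (2 * ((k + 1 : ℕ) : ℤ) - ((2 * (k + 1) : ℕ) : ℤ)) = 0 by push_cast; ring] at this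
    rw [this]
    unfold cb
    rw [Nat.centralBinom_eq_two_mul_choose, pow_mul]
    norm_num
  rw [h1]
  have h2 := cb_lower k
  push_cast
  rw [div_le_iff₀ (by positivity)]
  nlinarith

theorem main : S_DENS := by
  refine ⟨⟨1 / 4, by norm_num, bal_lower⟩, fun η hη => ⟨4 / η, ?_⟩⟩
  intro n a l b hn hab hηn Ψ hΨ
  have hn' : (0 : ℝ) < n := Nat.cast_pos.2 hn
  -- the left-hand side
  have e1 : Ew (2 * n) (fun w => if bal w then Ψ ((w.drop a).take l) else 0) =
      Ew l fun v => Ψ v * (q (a + b) (-tot (up v)) * q (a + b) (-tot (lo v))) := by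
    rw [← hab, Ew_append, Ew_append, Ew_comm]
    refine Ew_congr fun v hv => ?_
    have e2 : Ew a (fun u => Ew b fun x =>
        if bal (u ++ v ++ x) then Ψ (((u ++ v ++ x).drop a).take l) else 0) =
        Ew a (fun u => Ew b fun x =>
          Ψ v * (fun w => if tot (up w) = -tot (up v) ∧ tot (lo w) = -tot (lo v) then (1 : ℝ)
            else 0) (u ++ x)) := by
      refine Ew_congr fun u hu => Ew_congr fun x hx => ?_
      have h3 : ((u ++ v ++ x).drop a).take l = v := by
        rw [← hu, ← hv, List.append_assoc, List.drop_left, List.take_left]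
      have h4 : bal (u ++ v ++ x) ↔
          tot (up (u ++ x)) = -tot (up v) ∧ tot (lo (u ++ x)) = -tot (lo v) := by
        unfold bal
        simp only [up_append, lo_append, tot_append]
        constructor
        · rintro ⟨h5, h6⟩
          constructor <;> linarith
        · rintro ⟨h5, h6⟩
          constructor <;> linarith
      rw [h3]
      by_cases h5 : bal (u ++ v ++ x)
      · rw [if_pos h5]
        show _ = Ψ v * (if _ then (1 : ℝ) else 0)
        rw [if_pos (h4.1 h5), mul_one]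
      · rw [if_neg h5]
        show _ = Ψ v * (if _ then (1 : ℝ) else 0)
        rw [if_neg (fun h => h5 (h4.2 h)), mul_zero]
    rw [e2]
    have h9 := Ew_append a b (fun w : W =>
      if tot (up w) = -tot (up v) ∧ tot (lo w) = -tot (lo v) then (1 : ℝ) else 0)
    rw [Ew_joint] at h9
    rw [h9]
    simp only [Ew_mul_left]
  rw [e1]
  have hP := P_sq (a + b)
  have hb := bal_lower n hn
  have h6 : P (a + b) ^ 2 ≤ 4 / η * Ew (2 * n) fun w => if bal w then (1 : ℝ) else 0 := by
    have h7 : P (a + b) ^ 2 ≤ 1 / (η * n) := by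
      rw [le_div_iff₀ (by positivity)]
      have h8 : η * n ≤ ((a + b : ℕ) : ℝ) + 1 := by linarith
      calc P (a + b) ^ 2 * (η * n) ≤ P (a + b) ^ 2 * (((a + b : ℕ) : ℝ) + 1) :=
            mul_le_mul_of_nonneg_left h8 (sq_nonneg _)
        _ ≤ 1 := by linarith
    refine h7.trans ?_
    calc 1 / (η * n) = 4 / η * ((1 / 4 : ℝ) / n) := by field_simp
      _ ≤ _ := mul_le_mul_of_nonneg_left hb (by positivity)
  calc Ew l (fun v => Ψ v * (q (a + b) (-tot (up v)) * q (a + b) (-tot (lo v))))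
      ≤ Ew l fun v => Ψ v * P (a + b) ^ 2 := by
        refine Ew_mono fun v _ => mul_le_mul_of_nonneg_left ?_ (hΨ v)
        rw [sq]
        exact mul_le_mul (q_le _ _) (q_le _ _) (q_nonneg _ _) (P_nonneg _)
    _ = P (a + b) ^ 2 * Ew l Ψ := by rw [Ew_mul_right]; ring
    _ ≤ _ := mul_le_mul_of_nonneg_right h6 (Ew_nonneg fun v _ => hΨ v)

end Pool.Agent.N940.MN.Dens
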