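import Pool.Agent.N940.MN.Stm3

/-!
# Deviations of sums over windows
-/

set_option autoImplicit false

open Filter Topology Finset

namespace Pool.Agent.N940.MN.Dev

/-- Chernoff's bound -/
lemma chernoff {Ω : Type} (E : (Ω → ℝ) → ℝ)
    (hmono : ∀ X Y : Ω → ℝ, (∀ ω, X ω ≤ Y ω) → E X ≤ E Y)
    (hmul : ∀ (c : ℝ) (X : Ω → ℝ), E (fun ω => c * X ω) = c * E X)
    (S : Ω → ℝ) (Q : Ω → Prop) [DecidablePred Q] (l s a T e : ℝ) (q : ℕ)
    (h : E (fun ω => if Q ω then Real.exp (l * S ω) else 0) ≤ (Real.exp (l * a + s * e)) ^ q) :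
    E (fun ω => ind (Q ω ∧ s * (e * q + T) < l * (S ω - q * a))) ≤ Real.exp (-(s * T)) := by
  have h1 : E (fun ω => ind (Q ω ∧ s * (e * q + T) < l * (S ω - q * a))) ≤
      E (fun ω => Real.exp (-(s * (e * q + T)) - l * (q * a)) *
        (if Q ω then Real.exp (l * S ω) else 0)) := by
    apply hmono
    intro ω
    unfold ind
    by_cases hc : Q ω ∧ s * (e * q + T) < l * (S ω - q * a)
    · rw [if_pos hc, if_pos hc.1, ← Real.exp_add]
      apply Real.one_le_exp
      have := hc.2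
      nlinarith
    · rw [if_neg hc]
      apply mul_nonneg (Real.exp_nonneg _)
      split_ifs
      · exact Real.exp_nonneg _
      · exact le_rfl
  refine h1.trans ?_
  rw [hmul]
  refine (mul_le_mul_of_nonneg_left h (Real.exp_nonneg _)).trans ?_
  rw [← Real.exp_nat_mul, ← Real.exp_add]
  apply le_of_eq
  congr 1
  ring

/-- indicators and unions -/
lemma ind_union {p : Prop} {A : ℕ → Prop} {B : ℕ → Prop} {r : ℕ}
    (h : p → ∃ q, q ≤ r ∧ (A q ∨ B q)) :
    ind p ≤ ∑ q ∈ range (r + 1), (ind (A q) + ind (B q)) := by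
  by_cases hp : p
  · obtain ⟨q, hq, hAB⟩ := h hp
    have h1 : ind (A q) + ind (B q) ≤ ∑ q ∈ range (r + 1), (ind (A q) + ind (B q)) :=
      single_le_sum (f := fun q => ind (A q) + ind (B q))
        (fun i _ => add_nonneg (ind_nonneg _) (ind_nonneg _)) (mem_range.2 (by omega))
    refine le_trans ?_ h1
    have e1 : ind p = 1 := by unfold ind; rw [if_pos hp]
    rw [e1]
    rcases hAB with h2 | h2
    · have e2 : ind (A q) = 1 := by unfold ind; rw [if_pos h2]
      have := ind_nonneg (B q)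
      linarith
    · have e2 : ind (B q) = 1 := by unfold ind; rw [if_pos h2]
      have := ind_nonneg (A q)
      linarith
  · have e1 : ind p = 0 := by unfold ind; rw [if_neg hp]
    rw [e1]
    exact sum_nonneg fun i _ => add_nonneg (ind_nonneg _) (ind_nonneg _)

/-- the union bound -/
lemma tail {Ω : Type} (G : Ω → Prop) (E : (Ω → ℝ) → ℝ)
    (hmono : ∀ X Y : Ω → ℝ, (∀ ω, G ω → X ω ≤ Y ω) → E X ≤ E Y)
    (hmul : ∀ (c : ℝ) (X : Ω → ℝ), E (fun ω => c * X ω) = c * E X)
    (hadd : ∀ (X Y : Ω → ℝ), E (fun ω => X ω + Y ω) = E X + E Y)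
    (hsum : ∀ (s : Finset ℕ) (X : ℕ → Ω → ℝ), E (fun ω => ∑ i ∈ s, X i ω) = ∑ i ∈ s, E (X i))
    (S : ℕ → Ω → ℝ) (Q : ℕ → Ω → Prop) [∀ q, DecidablePred (Q q)] (s a T e : ℝ) (hs : 0 < s)
    (r : ℕ) (ev : Ω → Prop)
    (hev : ∀ ω, G ω → ev ω → ∃ q, q ≤ r ∧ Q q ω ∧ e * q + T < |S q ω - q * a|)
    (h1 : ∀ q, E (fun ω => if Q q ω then Real.exp (s * S q ω) else 0) ≤
      (Real.exp (s * a + s * e)) ^ q)
    (h2 : ∀ q, E (fun ω => if Q q ω then Real.exp (-s * S q ω) else 0) ≤
      (Real.exp (-s * a + s * e)) ^ q) :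
    E (fun ω => ind (ev ω)) ≤ 2 * ((r : ℝ) + 1) * Real.exp (-(s * T)) := by
  have hm : ∀ X Y : Ω → ℝ, (∀ ω, X ω ≤ Y ω) → E X ≤ E Y := fun X Y h => hmono X Y fun ω _ => h ω
  have k1 : E (fun ω => ind (ev ω)) ≤ E (fun ω => ∑ q ∈ range (r + 1),
      (ind (Q q ω ∧ s * (e * q + T) < s * (S q ω - q * a)) +
        ind (Q q ω ∧ s * (e * q + T) < -s * (S q ω - q * a)))) := by
    apply hmono
    intro ω hω
    apply ind_union
    intro h
    obtain ⟨q, hq, hQ, hlt⟩ := hev ω hω h
    refine ⟨q, hq, ?_⟩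
    rcases lt_abs.1 hlt with h3 | h3
    · left
      exact ⟨hQ, mul_lt_mul_of_pos_left h3 hs⟩
    · right
      refine ⟨hQ, ?_⟩
      have := mul_lt_mul_of_pos_left h3 hs
      linarith
  refine k1.trans ?_
  rw [hsum]
  have k2 : ∀ q ∈ range (r + 1), E (fun ω =>
      (ind (Q q ω ∧ s * (e * q + T) < s * (S q ω - q * a)) +
        ind (Q q ω ∧ s * (e * q + T) < -s * (S q ω - q * a)))) ≤ 2 * Real.exp (-(s * T)) := by
    intro q _
    rw [hadd]
    have e1 := chernoff E hm hmul (S q) (Q q) s s a T e q (h1 q)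
    have e2 := chernoff E hm hmul (S q) (Q q) (-s) s a T e q (h2 q)
    linarith
  refine (sum_le_sum k2).trans (le_of_eq ?_)
  rw [sum_const, card_range, nsmul_eq_mul]
  push_cast
  ring

/-- the exponential beats the polynomial -/
lemma poly_exp {c C : ℝ} (hc : 0 < c) (hC : 2 + 4 / c ^ 2 ≤ C) (r : ℕ) :
    2 * ((r : ℝ) + 1) * Real.exp (-(2 * c * Real.sqrt r)) ≤ C * Real.exp (-(c * Real.sqrt r)) := by
  have h0 : 0 ≤ c * Real.sqrt r := by positivity
  have h1 := Real.quadratic_le_exp_of_nonneg h0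
  have h2 : (c * Real.sqrt r) ^ 2 = c ^ 2 * r := by
    rw [mul_pow, Real.sq_sqrt (Nat.cast_nonneg r)]
  rw [h2] at h1
  have h3 : 2 * ((r : ℝ) + 1) ≤ C * Real.exp (c * Real.sqrt r) := by
    have hr : (0 : ℝ) ≤ r := Nat.cast_nonneg r
    have e1 : 4 / c ^ 2 * (c ^ 2 * r / 2) = 2 * r := by
      field_simp
      ring
    have e2 : 0 ≤ 4 / c ^ 2 := by positivity
    calc 2 * ((r : ℝ) + 1) = 4 / c ^ 2 * (c ^ 2 * r / 2) + 2 * 1 := by rw [e1]; ring
      _ ≤ 4 / c ^ 2 * Real.exp (c * Real.sqrt r) + 2 * Real.exp (c * Real.sqrt r) := by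
          have k1 : c ^ 2 * r / 2 ≤ Real.exp (c * Real.sqrt r) := by linarith
          have k2 : 1 ≤ Real.exp (c * Real.sqrt r) := Real.one_le_exp h0
          have := mul_le_mul_of_nonneg_left k1 e2
          linarith
      _ = (2 + 4 / c ^ 2) * Real.exp (c * Real.sqrt r) := by ring
      _ ≤ C * Real.exp (c * Real.sqrt r) :=
          mul_le_mul_of_nonneg_right hC (Real.exp_nonneg _)
  calc 2 * ((r : ℝ) + 1) * Real.exp (-(2 * c * Real.sqrt r))
      ≤ C * Real.exp (c * Real.sqrt r) * Real.exp (-(2 * c * Real.sqrt r)) :=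
        mul_le_mul_of_nonneg_right h3 (Real.exp_nonneg _)
    _ = C * Real.exp (-(c * Real.sqrt r)) := by
        rw [mul_assoc, ← Real.exp_add]
        congr 2
        ring

/-- the number of unmatched openings is at most the length -/
lemma U_le (v : List Bool) : U v ≤ v.length := by
  have key : ∀ (v : List Bool) (p : ℕ × ℕ), (v.foldl stp p).2 ≤ p.2 + v.length := by
    intro v
    induction v with
    | nil => intro p; simp
    | cons b v ih =>
      intro p
      rw [List.foldl_cons, List.length_cons]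
      refine (ih (stp p b)).trans ?_
      have : (stp p b).2 ≤ p.2 + 1 := by
        unfold stp
        split_ifs <;> simp
        omega
      omega
  have := key v (0, 0)
  unfold U
  simpa using this

/-- the moment generating function of a window -/
lemma mgf {M : ℕ} {B : ℝ} {φ : W → W → ℝ} (hφ0 : ∀ L L', 0 ≤ φ L L') (hφB : ∀ L L', φ L L' ≤ B)
    {l : ℝ} (hl : |l| * B ≤ 1) (r : ℕ) :
    mn M (fun L L' => Real.exp (l * φ L L')) r ≤ Real.exp (l * mn M φ r + l ^ 2 * B ^ 2) := by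
  have h1 : mn M (fun L L' => Real.exp (l * φ L L')) r ≤
      Ew r fun I => Ew r fun J => (1 + l ^ 2 * B ^ 2) + l *
        (if M ≤ U (up I) ∧ M ≤ U (up J) then φ (sfx M I) (sfx M J) else 0) := by
    unfold mn
    refine Ew_mono fun I _ => Ew_mono fun J _ => ?_
    split_ifs with hc
    · obtain ⟨x, hx⟩ : ∃ x, x = l * φ (sfx M I) (sfx M J) := ⟨_, rfl⟩
      have hx1 : |x| ≤ |l| * B := by
        rw [hx, abs_mul, abs_of_nonneg (hφ0 _ _)]
        exact mul_le_mul_of_nonneg_left (hφB _ _) (abs_nonneg _)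
      have hx2 := Real.abs_exp_sub_one_sub_id_le (hx1.trans hl)
      have hx3 : x ^ 2 ≤ l ^ 2 * B ^ 2 := by
        rw [← sq_abs x, ← sq_abs l, ← mul_pow]
        exact pow_le_pow_left₀ (abs_nonneg _) hx1 2
      have hx4 := (abs_le.1 hx2).2
      show Real.exp (l * φ (sfx M I) (sfx M J)) ≤
        (1 + l ^ 2 * B ^ 2) + l * φ (sfx M I) (sfx M J)
      rw [← hx]
      linarith
    · have : 0 ≤ l ^ 2 * B ^ 2 := by positivity
      linarith
  have h2 : (Ew r fun I => Ew r fun J => (1 + l ^ 2 * B ^ 2) + l *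
        (if M ≤ U (up I) ∧ M ≤ U (up J) then φ (sfx M I) (sfx M J) else 0)) =
      (1 + l ^ 2 * B ^ 2) + l * mn M φ r := by
    simp only [Ew_add, Ew_const, Ew_mul_left]
    rfl
  rw [h2] at h1
  refine h1.trans ?_
  have := Real.add_one_le_exp (l * mn M φ r + l ^ 2 * B ^ 2)
  linarith

theorem main (hU : S_U) (hK : S_KR) : S_DEV := by
  obtain ⟨-, hK2, hK3, -, hK5⟩ := hK
  intro M B φ hM hφ0 hφB
  have hB : 0 ≤ B := (hφ0 [] []).trans (hφB [] [])
  have hle : ∀ r, mn M φ r ≤ B := by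
    intro r
    have h1 : mn M φ r ≤ Ew r fun _ => Ew r fun _ => B := by
      unfold mn
      refine Ew_mono fun I _ => Ew_mono fun J _ => ?_
      split_ifs
      · exact hφB _ _
      · exact hB
    rwa [Ew_const, Ew_const] at h1
  have hmono : Monotone (mn M φ) := fun r s h => hK5 M φ hM hφ0 r s h
  have hbdd : BddAbove (Set.range (mn M φ)) := ⟨B, by rintro _ ⟨r, rfl⟩; exact hle r⟩
  have htend := tendsto_atTop_ciSup hmono hbdd
  refine ⟨⨆ r, mn M φ r, fun r => le_ciSup hbdd r, htend, ?_⟩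
  intro ε hε
  have hale : ∀ r, mn M φ r ≤ ⨆ r, mn M φ r := fun r => le_ciSup hbdd r
  generalize (⨆ r, mn M φ r) = a at htend hale ⊢
  have hMr : (0 : ℝ) < M := by exact_mod_cast hM
  have hM1 : (1 : ℝ) ≤ M := by exact_mod_cast hM
  -- the parameter
  obtain ⟨s, hs0, hsB, hsB2⟩ : ∃ s : ℝ, 0 < s ∧ s * B ≤ 1 ∧ s * B ^ 2 ≤ ε * M / 2 := by
    refine ⟨min (1 / (B + 1)) (ε * M / 2 / (B ^ 2 + 1)), ?_, ?_, ?_⟩
    · exact lt_min (by positivity) (by positivity)
    · calc min (1 / (B + 1)) (ε * M / 2 / (B ^ 2 + 1)) * B ≤ 1 / (B + 1) * B :=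
          mul_le_mul_of_nonneg_right (min_le_left _ _) hB
        _ ≤ 1 := by
          rw [div_mul_eq_mul_div, div_le_one (by positivity)]
          linarith
    · calc min (1 / (B + 1)) (ε * M / 2 / (B ^ 2 + 1)) * B ^ 2
          ≤ (ε * M / 2 / (B ^ 2 + 1)) * B ^ 2 :=
          mul_le_mul_of_nonneg_right (min_le_right _ _) (by positivity)
        _ ≤ ε * M / 2 := by
          rw [div_mul_eq_mul_div, div_le_iff₀ (by positivity)]
          have : 0 < ε * M / 2 := by positivity
          nlinarith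
  -- the threshold
  obtain ⟨r₀, hr₀⟩ : ∃ r₀ : ℕ, ∀ r, r₀ ≤ r → a - ε * M / 2 ≤ mn M φ r := by
    have h1 : ∀ᶠ r in atTop, a - ε * M / 2 < mn M φ r :=
      htend.eventually (lt_mem_nhds (by
        have : 0 < ε * M / 2 := by positivity
        linarith))
    obtain ⟨r₀, h2⟩ := eventually_atTop.1 h1
    exact ⟨r₀, fun r hr => (h2 r hr).le⟩
  -- generating functions
  have g1 : ∀ r, mn M (fun L L' => Real.exp (s * φ L L')) r ≤ Real.exp (s * a + s * (ε * M)) := by
    intro r
    refine (mgf hφ0 hφB (l := s) (by rw [abs_of_pos hs0]; exact hsB) r).trans ?_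
    apply Real.exp_le_exp.2
    have h1 := mul_le_mul_of_nonneg_left (hale r) hs0.le
    have h2 := mul_le_mul_of_nonneg_left hsB2 hs0.le
    have h3 : 0 < s * (ε * M) := by positivity
    nlinarith
  have g2 : ∀ r, r₀ ≤ r →
      mn M (fun L L' => Real.exp (-s * φ L L')) r ≤ Real.exp (-s * a + s * (ε * M)) := by
    intro r hr
    refine (mgf hφ0 hφB (l := -s) (by rw [abs_neg, abs_of_pos hs0]; exact hsB) r).trans ?_
    apply Real.exp_le_exp.2
    have h1 := mul_le_mul_of_nonneg_left (hr₀ r hr) hs0.le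
    have h2 := mul_le_mul_of_nonneg_left hsB2 hs0.le
    nlinarith
  have nonneg_mn : ∀ (ψ : W → W → ℝ), (∀ L L', 0 ≤ ψ L L') → ∀ r, 0 ≤ mn M ψ r := by
    intro ψ hψ r
    unfold mn
    refine Ew_nonneg fun I _ => Ew_nonneg fun J _ => ?_
    split_ifs
    · exact hψ _ _
    · exact le_rfl
  -- the constants
  obtain ⟨c, hc⟩ : ∃ c, c = s * ε / 2 := ⟨_, rfl⟩
  have hc0 : 0 < c := by rw [hc]; positivity
  obtain ⟨C, hC⟩ : ∃ C, C = (2 + 4 / c ^ 2) + Real.exp (c * Real.sqrt r₀) := ⟨_, rfl⟩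
  have hC1 : 2 + 4 / c ^ 2 ≤ C := by
    rw [hC]
    have := Real.exp_nonneg (c * Real.sqrt r₀)
    linarith
  have hC0 : 0 ≤ C := by
    have : 0 ≤ 4 / c ^ 2 := by positivity
    linarith
  have hC2 : ∀ r : ℕ, r < r₀ → 1 ≤ C * Real.exp (-(c * Real.sqrt r)) := by
    intro r hr
    have h1 : Real.exp (c * Real.sqrt r) ≤ C := by
      rw [hC]
      have h2 : Real.exp (c * Real.sqrt r) ≤ Real.exp (c * Real.sqrt r₀) := by
        apply Real.exp_le_exp.2
        apply mul_le_mul_of_nonneg_left _ hc0.le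
        apply Real.sqrt_le_sqrt
        exact_mod_cast hr.le
      have h3 : 0 ≤ 4 / c ^ 2 := by positivity
      linarith
    calc (1 : ℝ) = Real.exp (c * Real.sqrt r) * Real.exp (-(c * Real.sqrt r)) := by
          rw [← Real.exp_add]; simp
      _ ≤ _ := mul_le_mul_of_nonneg_right h1 (Real.exp_nonneg _)
  have prodexp : ∀ (l : ℝ) (q : ℕ) (I J : W), ∏ t ∈ range q,
      Real.exp (l * φ (wn M t I) (wn M t J)) =
      Real.exp (l * ∑ t ∈ range q, φ (wn M t I) (wn M t J)) := by
    intro l q I J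
    rw [← Real.exp_sum, mul_sum]
  -- the event
  have evlem : ∀ (r q m : ℕ) (x : ℝ), q = m / M → m ≤ r →
      C + ε * ((m : ℝ) + Real.sqrt r) < |x - (q : ℝ) * a| →
      q ≤ r ∧ q * M ≤ m ∧ (ε * M) * q + ε * Real.sqrt r < |x - q * a| := by
    intro r q m x hq hm hlt
    have h1 : q * M ≤ m := by rw [hq]; exact Nat.div_mul_le_self m M
    have h2 : q ≤ q * M := Nat.le_mul_of_pos_right q hM
    refine ⟨by omega, h1, ?_⟩
    have h3 : (q : ℝ) * M ≤ m := by exact_mod_cast h1
    have h4 := mul_le_mul_of_nonneg_left h3 hε.le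
    nlinarith
  have fin : ∀ (r : ℕ) (p : ℝ), p ≤ 1 →
      (r₀ ≤ r → p ≤ 2 * ((r : ℝ) + 1) * Real.exp (-(s * (ε * Real.sqrt r)))) →
      p ≤ C * Real.exp (-(c * Real.sqrt r)) := by
    intro r p hp h
    rcases Nat.lt_or_ge r r₀ with hr | hr
    · exact hp.trans (hC2 r hr)
    · refine (h hr).trans ?_
      have h1 := poly_exp hc0 hC1 r
      have h2 : 2 * c * Real.sqrt r = s * (ε * Real.sqrt r) := by rw [hc]; ring
      rwa [h2] at h1
  refine ⟨C, c, hc0, ?_, ?_⟩
  · intro r
    have hmir : ∀ I : W, (Ew r fun J =>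
        ind (∃ m : ℕ, m = min (U (up I)) (Dn (up J)) ∧ C + ε * ((m : ℝ) + Real.sqrt r) <
          |∑ t ∈ range (m / M), φ (wn M t I) (wn M t (mir J)) - ((m / M : ℕ) : ℝ) * a|)) =
        Ew r fun J =>
        ind (∃ m : ℕ, m = min (U (up I)) (U (up J)) ∧ C + ε * ((m : ℝ) + Real.sqrt r) <
          |∑ t ∈ range (m / M), φ (wn M t I) (wn M t J) - ((m / M : ℕ) : ℝ) * a|) := by
      intro I
      rw [← Ew_mir r fun J =>
        ind (∃ m : ℕ, m = min (U (up I)) (U (up J)) ∧ C + ε * ((m : ℝ) + Real.sqrt r) <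
          |∑ t ∈ range (m / M), φ (wn M t I) (wn M t J) - ((m / M : ℕ) : ℝ) * a|)]
      congr 1
      funext J
      rw [up_mir, (hU.2.2 (up J)).1]
    simp only [hmir]
    apply fin
    · have h1 : (Ew r fun I => Ew r fun J =>
          ind (∃ m : ℕ, m = min (U (up I)) (U (up J)) ∧ C + ε * ((m : ℝ) + Real.sqrt r) <
            |∑ t ∈ range (m / M), φ (wn M t I) (wn M t J) - ((m / M : ℕ) : ℝ) * a|)) ≤
          Ew r fun _ => Ew r fun _ => (1 : ℝ) :=
        Ew_mono fun I _ => Ew_mono fun J _ => ind_le_one _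
      rwa [Ew_const, Ew_const] at h1
    · intro hr
      have := tail (Ω := W × W) (fun ω => ω.1.length = r ∧ ω.2.length = r)
        (fun X => Ew r fun I => Ew r fun J => X (I, J))
        (fun X Y h => Ew_mono fun I hI => Ew_mono fun J hJ => h (I, J) ⟨hI, hJ⟩)
        (fun c X => by simp only [Ew_mul_left])
        (fun X Y => by simp only [Ew_add])
        (fun s X => by simp only [Ew_sum])
        (fun q ω => ∑ t ∈ range q, φ (wn M t ω.1) (wn M t ω.2))
        (fun q ω => q * M ≤ U (up ω.1) ∧ q * M ≤ U (up ω.2)) s a (ε * Real.sqrt r) (ε * M) hs0 r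
        (fun ω => ∃ m : ℕ, m = min (U (up ω.1)) (U (up ω.2)) ∧ C + ε * ((m : ℝ) + Real.sqrt r) <
            |∑ t ∈ range (m / M), φ (wn M t ω.1) (wn M t ω.2) - ((m / M : ℕ) : ℝ) * a|)
        (by
          rintro ⟨I, J⟩ ⟨hI, hJ⟩ ⟨m, hm, hlt⟩
          have h1 : m ≤ U (up I) := by rw [hm]; exact min_le_left _ _
          have h2 : m ≤ U (up J) := by rw [hm]; exact min_le_right _ _
          have h3 := U_le (up I)
          rw [length_up] at h3
          simp only at hI
          obtain ⟨h4, h5, h6⟩ := evlem r (m / M) m _ rfl (by omega) hlt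
          exact ⟨m / M, h4, ⟨by simp only; omega, by simp only; omega⟩, h6⟩)
        (by
          intro q
          have h1 := hK2 M (fun L L' => Real.exp (s * φ L L')) hM
            (fun _ _ => Real.exp_nonneg _) r q
          simp only [prodexp] at h1
          exact h1.trans (pow_le_pow_left₀ (nonneg_mn _ (fun _ _ => Real.exp_nonneg _) r)
            (g1 r) q))
        (by
          intro q
          have h1 := hK2 M (fun L L' => Real.exp (-s * φ L L')) hM
            (fun _ _ => Real.exp_nonneg _) r q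
          simp only [prodexp] at h1
          exact h1.trans (pow_le_pow_left₀ (nonneg_mn _ (fun _ _ => Real.exp_nonneg _) r)
            (g2 r hr) q))
      exact this
  · intro r
    apply fin
    · have h1 : (Ew r fun w =>
          ind (bal w ∧ ∃ h : ℕ, h = U (up w) ∧ C + ε * ((h : ℝ) + Real.sqrt r) <
            |∑ t ∈ range (h / M), φ (wn M t w) (wn M t (mir w)) - ((h / M : ℕ) : ℝ) * a|)) ≤
          Ew r fun _ => (1 : ℝ) :=
        Ew_mono fun w _ => ind_le_one _
      rwa [Ew_const] at h1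
    · intro hr
      have := tail (Ω := W) (fun ω => ω.length = r)
        (fun X => Ew r fun w => X w)
        (fun X Y h => Ew_mono fun w hw => h w hw)
        (fun c X => by simp only [Ew_mul_left])
        (fun X Y => by simp only [Ew_add])
        (fun s X => by simp only [Ew_sum])
        (fun q ω => ∑ t ∈ range q, φ (wn M t ω) (wn M t (mir ω)))
        (fun q ω => bal ω ∧ q * M ≤ U (up ω)) s a (ε * Real.sqrt r) (ε * M) hs0 r
        (fun ω => bal ω ∧ ∃ h : ℕ, h = U (up ω) ∧ C + ε * ((h : ℝ) + Real.sqrt r) <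
            |∑ t ∈ range (h / M), φ (wn M t ω) (wn M t (mir ω)) - ((h / M : ℕ) : ℝ) * a|)
        (by
          rintro w hw ⟨hb, m, hm, hlt⟩
          have h3 := U_le (up w)
          rw [length_up] at h3
          obtain ⟨h4, h5, h6⟩ := evlem r (m / M) m _ rfl (by omega) hlt
          exact ⟨m / M, h4, ⟨hb, by omega⟩, h6⟩)
        (by
          intro q
          have h1 := hK3 M (fun L L' => Real.exp (s * φ L L')) hM
            (fun _ _ => Real.exp_nonneg _) r q
          simp only [prodexp] at h1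
          exact h1.trans (pow_le_pow_left₀ (nonneg_mn _ (fun _ _ => Real.exp_nonneg _) r)
            (g1 r) q))
        (by
          intro q
          have h1 := hK3 M (fun L L' => Real.exp (-s * φ L L')) hM
            (fun _ _ => Real.exp_nonneg _) r q
          simp only [prodexp] at h1
          exact h1.trans (pow_le_pow_left₀ (nonneg_mn _ (fun _ _ => Real.exp_nonneg _) r)
            (g2 r hr) q))
      exact this

end Pool.Agent.N940.MN.Dev
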