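import Pool.Agent.N940.MN.Stm2

/-!
# Independence of the windows
-/

set_option autoImplicit false

open Finset

namespace Pool.Agent.N940.MN.Dsw

/-! ### linear algebra -/

theorem lin_step {V : Type} [AddCommGroup V] [Module (ZMod 2) V] (A B A₀ : Submodule (ZMod 2) V)
    (hA : Module.Finite (ZMod 2) A) (h : A₀ ≤ A) :
    Module.finrank (ZMod 2) (A ⊓ B : Submodule (ZMod 2) V) + Module.finrank (ZMod 2) A₀ ≤
      Module.finrank (ZMod 2) (A₀ ⊓ B : Submodule (ZMod 2) V) + Module.finrank (ZMod 2) A := by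
  have h1 : Module.Finite (ZMod 2) (A ⊓ B : Submodule (ZMod 2) V) :=
    Submodule.finiteDimensional_of_le inf_le_left
  have h2 : Module.Finite (ZMod 2) A₀ := Submodule.finiteDimensional_of_le h
  have h3 := Submodule.finrank_sup_add_finrank_inf_eq (A ⊓ B) A₀
  have h4 : (A ⊓ B) ⊓ A₀ = A₀ ⊓ B := by
    rw [inf_assoc, inf_comm, inf_assoc, inf_eq_left.2 h, inf_comm]
  have h5 : Module.finrank (ZMod 2) (A ⊓ B ⊔ A₀ : Submodule (ZMod 2) V) ≤
      Module.finrank (ZMod 2) A := Submodule.finrank_mono (sup_le inf_le_left h)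
  rw [h4] at h3
  omega

theorem lin : S_LIN := by
  intro V _ _ A B A₀ B₀ hA hB hA₀ hB₀
  have h1 := lin_step A B A₀ hA hA₀
  have h2 := lin_step B A₀ B₀ hB hB₀
  rw [inf_comm B A₀, inf_comm B₀ A₀] at h2
  omega

/-- functions vanishing before `m` -/
def Lo (m : ℕ) : Submodule (ZMod 2) V2 where
  carrier := {b | ∀ k, k < m → b k = 0}
  add_mem' := by
    intro a b ha hb k hk
    simp [ha k hk, hb k hk]
  zero_mem' := fun _ _ => rfl
  smul_mem' := by
    intro t a ha k hk
    simp [ha k hk]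

theorem disj (m : ℕ) : Disjoint (Sp m) (Lo m) := by
  rw [Submodule.disjoint_def]
  intro x hx hx'
  funext k
  rcases lt_or_ge k m with h | h
  · exact hx' k h
  · exact hx k h

theorem shf_apply (s : ℕ) (b : V2) (k : ℕ) : shf s b k = if s ≤ k then b (k - s) else 0 := rfl

theorem shf_inj (s : ℕ) : Function.Injective (shf s) := by
  intro a b h
  funext k
  have h1 := congrFun h (k + s)
  rw [shf_apply, shf_apply, if_pos (by omega), if_pos (by omega), Nat.add_sub_cancel] at h1
  exact h1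

theorem shf_zero : shf 0 = LinearMap.id := by
  apply LinearMap.ext
  intro b
  funext k
  rw [shf_apply, if_pos (Nat.zero_le _)]
  rfl

theorem shf_shf (s t : ℕ) : (shf s).comp (shf t) = shf (s + t) := by
  apply LinearMap.ext
  intro b
  funext k
  rw [LinearMap.comp_apply, shf_apply, shf_apply, shf_apply]
  by_cases h1 : s ≤ k
  · rw [if_pos h1]
    by_cases h2 : t ≤ k - s
    · rw [if_pos h2, if_pos (by omega), Nat.sub_sub]
    · rw [if_neg h2, if_neg (by omega)]
  · rw [if_neg h1, if_neg (by omega)]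

theorem map_lo (A : Submodule (ZMod 2) V2) (s : ℕ) : A.map (shf s) ≤ Lo s := by
  rintro _ ⟨b, -, rfl⟩ k hk
  rw [shf_apply, if_neg (by omega)]

theorem map_sp {A : Submodule (ZMod 2) V2} {M : ℕ} (hA : A ≤ Sp M) (s : ℕ) :
    A.map (shf s) ≤ Sp (s + M) := by
  rintro _ ⟨b, hb, rfl⟩ k hk
  rw [shf_apply, if_pos (by omega)]
  exact hA hb _ (by omega)

theorem sp_mono {m n : ℕ} (h : m ≤ n) : Sp m ≤ Sp n := fun _ hb k hk => hb k (h.trans hk)

/-- sum of shifted spaces -/
def DD (M : ℕ) (A : ℕ → Submodule (ZMod 2) V2) (q : ℕ) : Submodule (ZMod 2) V2 :=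
  ⨆ t ∈ range q, (A t).map (shf (t * M))

theorem DD_succ (M : ℕ) (A : ℕ → Submodule (ZMod 2) V2) (q : ℕ) :
    DD M A (q + 1) = DD M A q ⊔ (A q).map (shf (q * M)) := by
  unfold DD
  rw [Finset.range_add_one, Finset.iSup_insert, sup_comm]

theorem DD_le (M : ℕ) (A : ℕ → Submodule (ZMod 2) V2) (q : ℕ) (hA : ∀ t < q, A t ≤ Sp M) :
    DD M A q ≤ Sp (q * M) := by
  refine iSup₂_le fun t ht => ?_
  rw [Finset.mem_range] at ht
  refine (map_sp (hA t ht) _).trans (sp_mono ?_)
  rw [← Nat.succ_mul]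
  exact Nat.mul_le_mul_right _ ht

theorem inf_sup {V : Type} [AddCommGroup V] [Module (ZMod 2) V] {P Q R S X Y : Submodule (ZMod 2) V}
    (hP : P ≤ X) (hQ : Q ≤ X) (hR : R ≤ Y) (hS : S ≤ Y) (h : Disjoint X Y) :
    (P ⊔ R) ⊓ (Q ⊔ S) = (P ⊓ Q) ⊔ (R ⊓ S) := by
  apply le_antisymm
  · rintro x ⟨h1, h2⟩
    obtain ⟨p, hp, r, hr, h3⟩ := Submodule.mem_sup.1 h1
    obtain ⟨q, hq, s, hs, h4⟩ := Submodule.mem_sup.1 h2
    have h5 : p - q = s - r := by
      rw [sub_eq_sub_iff_add_eq_add, h3, ← h4, add_comm]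
    have h6 : p - q = 0 := by
      refine Submodule.disjoint_def.1 h _ (X.sub_mem (hP hp) (hQ hq)) ?_
      rw [h5]
      exact Y.sub_mem (hS hs) (hR hr)
    have h7 : p = q := sub_eq_zero.1 h6
    have h8 : r = s := (sub_eq_zero.1 (h5.symm.trans h6)).symm
    rw [← h3]
    exact Submodule.add_mem_sup ⟨hp, h7 ▸ hq⟩ ⟨hr, h8 ▸ hs⟩
  · exact sup_le (inf_le_inf le_sup_left le_sup_left) (inf_le_inf le_sup_right le_sup_right)

theorem finrank_DD (M : ℕ) (A B : ℕ → Submodule (ZMod 2) V2) (q : ℕ)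
    (hA : ∀ t < q, A t ≤ Sp M) (hB : ∀ t < q, B t ≤ Sp M)
    (hf : ∀ t, Module.Finite (ZMod 2) (A t)) :
    Module.Finite (ZMod 2) (DD M A q) ∧
    Module.finrank (ZMod 2) (DD M A q ⊓ DD M B q : Submodule (ZMod 2) V2) =
      ∑ t ∈ range q, Module.finrank (ZMod 2) (A t ⊓ B t : Submodule (ZMod 2) V2) := by
  induction q with
  | zero =>
    have h0 : ∀ A : ℕ → Submodule (ZMod 2) V2, DD M A 0 = ⊥ := by
      intro A
      unfold DD
      simp
    rw [h0, h0, inf_idem]
    exact ⟨inferInstance, by simp⟩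
  | succ q ih =>
    obtain ⟨ih1, ih2⟩ := ih (fun t ht => hA t (by omega)) (fun t ht => hB t (by omega))
    have := hf q
    have hfm : Module.Finite (ZMod 2) ((A q).map (shf (q * M))) := inferInstance
    rw [DD_succ, DD_succ]
    refine ⟨inferInstance, ?_⟩
    have hX := DD_le M A q fun t ht => hA t (by omega)
    have hX' := DD_le M B q fun t ht => hB t (by omega)
    rw [inf_sup hX hX' (map_lo _ _) (map_lo _ _) (disj (q * M)),
      ← Submodule.map_inf _ (shf_inj (q * M))]
    have h1 : Module.Finite (ZMod 2) (DD M A q ⊓ DD M B q : Submodule (ZMod 2) V2) :=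
      Submodule.finiteDimensional_of_le inf_le_left
    have h2 : Module.Finite (ZMod 2) (A q ⊓ B q : Submodule (ZMod 2) V2) :=
      Submodule.finiteDimensional_of_le inf_le_left
    have h3 : Module.Finite (ZMod 2) ((A q ⊓ B q).map (shf (q * M))) := inferInstance
    have h4 := Submodule.finrank_sup_add_finrank_inf_eq (DD M A q ⊓ DD M B q)
      ((A q ⊓ B q).map (shf (q * M)))
    have h5 : (DD M A q ⊓ DD M B q) ⊓ ((A q ⊓ B q).map (shf (q * M))) = ⊥ := by
      rw [← disjoint_iff]
      exact (disj (q * M)).mono (inf_le_left.trans hX) (map_lo _ _)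
    have h6 : Module.finrank (ZMod 2) ((A q ⊓ B q).map (shf (q * M))) =
        Module.finrank (ZMod 2) (A q ⊓ B q : Submodule (ZMod 2) V2) :=
      (LinearEquiv.finrank_eq (Submodule.equivMapOfInjective _ (shf_inj (q * M)) _)).symm
    rw [h5, finrank_bot, add_zero, h6, ih2] at h4
    rw [Finset.sum_range_succ]
    exact h4

/-! ### functions on a concatenation -/

theorem up_append (p L : W) : up (p ++ L) = up p ++ up L := List.map_append

theorem lo_append (p L : W) : lo (p ++ L) = lo p ++ lo L := List.map_append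

theorem up_length (p : W) : (up p).length = p.length := List.length_map _

theorem lo_length (p : W) : (lo p).length = p.length := List.length_map _

/-- values at the numbered openings -/
theorem rp_val {v : List Bool} {c : V2} (hc : ∀ i, v.length ≤ i → c i = 0) {k : ℕ}
    (h : ∀ x, rop v k x → c x = 0) : c (rp v k) = 0 := by
  unfold rp
  split_ifs with h1
  · exact h _ h1.choose_spec
  · exact hc _ le_rfl

theorem lp_val {v : List Bool} {c : V2} (hc : ∀ i, v.length ≤ i → c i = 0) {k : ℕ}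
    (h : ∀ x, lop v k x → c x = 0) : c (lp v k) = 0 := by
  unfold lp
  split_ifs with h1
  · exact h _ h1.choose_spec
  · exact hc _ le_rfl

theorem rp_eq (h1 : S_ARC1) {v : List Bool} {k x : ℕ} (h : rop v k x) : rp v k = x := by
  obtain ⟨-, -, -, -, -, u, -⟩ := h1
  have h2 : ∃ x, rop v k x := ⟨x, h⟩
  unfold rp
  rw [dif_pos h2]
  exact u v k _ _ h2.choose_spec h

theorem lp_eq (h1 : S_ARC1) {v : List Bool} {k x : ℕ} (h : lop v k x) : lp v k = x := by
  obtain ⟨-, -, -, -, -, -, -, u, -⟩ := h1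
  have h2 : ∃ x, lop v k x := ⟨x, h⟩
  unfold lp
  rw [dif_pos h2]
  exact u v k _ _ h2.choose_spec h

theorem mem_ker_ev {p : ℕ → ℕ} {c : V2} : c ∈ LinearMap.ker (ev p) ↔ ∀ k, c (p k) = 0 := by
  rw [LinearMap.mem_ker]
  constructor
  · intro h k
    exact congrFun h k
  · intro h
    funext k
    exact h k

/-- the functions on the last part -/
theorem BW_right (h1 : S_ARC1) (h2 : S_ARC2) (p L : W) : BW L ≤ BW (p ++ L) := by
  obtain ⟨a1, a2, a3, -⟩ := h2
  have hrU : ∀ (v : List Bool) (k : ℕ), (∃ x, rop v k x) ↔ k < U v := by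
    obtain ⟨-, -, -, -, -, -, -, -, -, -, -, -, -, h, -⟩ := h1
    exact h
  rintro _ ⟨c, ⟨hcP, ⟨hc1, hc2⟩, hc3⟩, rfl⟩
  rw [SetLike.mem_coe, mem_ker_ev] at hc1 hc2 hc3
  obtain ⟨hP1, hP2, hP3⟩ := hcP
  have hlow : ∀ x, x < p.length → shf p.length c x = 0 := by
    intro x hx
    rw [shf_apply, if_neg (by omega)]
  have hhigh : ∀ x, shf p.length c (p.length + x) = c x := by
    intro x
    rw [shf_apply, if_pos (by omega), Nat.add_sub_cancel_left]
  have hzero : ∀ i, (p ++ L).length ≤ i → shf p.length c i = 0 := by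
    intro i hi
    rw [List.length_append] at hi
    rw [shf_apply, if_pos (by omega)]
    exact hP1 _ (by omega)
  refine ⟨shf p.length c, ⟨⟨hzero, ?_, ?_⟩, ⟨?_, ?_⟩, ?_⟩, ?_⟩
  · intro x y hxy
    rw [up_append, a1, up_length] at hxy
    rcases hxy with h | ⟨x', y', rfl, rfl, h⟩ | ⟨k, y', rfl, h, h'⟩
    · have := h.1
      have := h.2.1
      rw [up_length] at this
      rw [hlow x (by omega), hlow y (by omega)]
    · rw [hhigh, hhigh]
      exact hP2 _ _ h
    · have h3 := h.1
      rw [up_length] at h3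
      rw [hlow x h3, hhigh, ← lp_eq h1 h', hc1]
  · intro x y hxy
    rw [lo_append, a1, lo_length] at hxy
    rcases hxy with h | ⟨x', y', rfl, rfl, h⟩ | ⟨k, y', rfl, h, h'⟩
    · have := h.1
      have := h.2.1
      rw [lo_length] at this
      rw [hlow x (by omega), hlow y (by omega)]
    · rw [hhigh, hhigh]
      exact hP3 _ _ h
    · have h3 := h.1
      rw [lo_length] at h3
      rw [hlow x h3, hhigh, ← lp_eq h1 h', hc3]
  · rw [SetLike.mem_coe, mem_ker_ev]
    intro k
    refine lp_val (by rw [up_length]; exact hzero) fun x hx => ?_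
    rw [up_append, a3, up_length] at hx
    rcases hx with h | ⟨-, x', rfl, h⟩
    · have h3 := h.1
      rw [up_length] at h3
      exact hlow x h3
    · rw [hhigh, ← lp_eq h1 h, hc1]
  · rw [SetLike.mem_coe, mem_ker_ev]
    intro k
    refine rp_val (by rw [lo_length]; exact hzero) fun x hx => ?_
    rw [lo_append, a2, lo_length] at hx
    rcases hx with ⟨x', rfl, h⟩ | ⟨-, h⟩
    · rw [hhigh, ← rp_eq h1 h, hc2]
    · have h3 := h.1
      rw [lo_length] at h3
      exact hlow x h3
  · rw [SetLike.mem_coe, mem_ker_ev]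
    intro k
    refine lp_val (by rw [lo_length]; exact hzero) fun x hx => ?_
    rw [lo_append, a3, lo_length] at hx
    rcases hx with h | ⟨-, x', rfl, h⟩
    · have h3 := h.1
      rw [lo_length] at h3
      exact hlow x h3
    · rw [hhigh, ← lp_eq h1 h, hc3]
  · funext k
    change shf p.length c (rp (up (p ++ L)) k) = c (rp (up L) k)
    by_cases hk : ∃ x, rop (up L) k x
    · obtain ⟨x, hx⟩ := hk
      rw [rp_eq h1 hx]
      have h3 : rop (up (p ++ L)) k (p.length + x) := by
        rw [up_append, a2, up_length]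
        exact Or.inl ⟨x, rfl, hx⟩
      rw [rp_eq h1 h3, hhigh]
    · have h3 : c (rp (up L) k) = 0 :=
        rp_val (by rw [up_length]; exact hP1) fun x hx => absurd ⟨x, hx⟩ hk
      rw [h3]
      refine rp_val (by rw [up_length]; exact hzero) fun x hx => ?_
      rw [up_append, a2, up_length] at hx
      rcases hx with ⟨x', rfl, h⟩ | ⟨-, h⟩
      · exact absurd ⟨x', h⟩ hk
      · have h3 := h.1
        rw [up_length] at h3
        exact hlow x h3

/-- the functions on the first part -/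
theorem BW_left (h1 : S_ARC1) (h2 : S_ARC2) (p L : W) (hD : Dn (up L) = 0) :
    (BW p).map (shf (U (up L))) ≤ BW (p ++ L) := by
  obtain ⟨a1, a2, a3, -⟩ := h2
  have hrU : ∀ (v : List Bool) (k : ℕ), (∃ x, rop v k x) ↔ k < U v := by
    obtain ⟨-, -, -, -, -, -, -, -, -, -, -, -, -, h, -⟩ := h1
    exact h
  have hlD : ∀ (v : List Bool) (k : ℕ), (∃ x, lop v k x) ↔ k < Dn v := by
    obtain ⟨-, -, -, -, -, -, -, -, -, -, -, -, -, -, h⟩ := h1
    exact h
  rintro _ ⟨_, ⟨c, ⟨hcP, ⟨hc1, hc2⟩, hc3⟩, rfl⟩, rfl⟩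
  rw [SetLike.mem_coe, mem_ker_ev] at hc1 hc2 hc3
  obtain ⟨hP1, hP2, hP3⟩ := hcP
  have hhigh : ∀ x, c (p.length + x) = 0 := fun x => hP1 _ (by omega)
  have hzero : ∀ i, (p ++ L).length ≤ i → c i = 0 := by
    intro i hi
    rw [List.length_append] at hi
    exact hP1 _ (by omega)
  refine ⟨c, ⟨⟨hzero, ?_, ?_⟩, ⟨?_, ?_⟩, ?_⟩, ?_⟩
  · intro x y hxy
    rw [up_append, a1, up_length] at hxy
    rcases hxy with h | ⟨x', y', rfl, rfl, h⟩ | ⟨k, y', rfl, h, h'⟩
    · exact hP2 _ _ h
    · rw [hhigh, hhigh]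
    · have h3 := (hlD _ _).1 ⟨_, h'⟩
      omega
  · intro x y hxy
    rw [lo_append, a1, lo_length] at hxy
    rcases hxy with h | ⟨x', y', rfl, rfl, h⟩ | ⟨k, y', rfl, h, h'⟩
    · exact hP3 _ _ h
    · rw [hhigh, hhigh]
    · rw [hhigh, ← rp_eq h1 h, hc2]
  · rw [SetLike.mem_coe, mem_ker_ev]
    intro k
    refine lp_val (by rw [up_length]; exact hzero) fun x hx => ?_
    rw [up_append, a3, up_length] at hx
    rcases hx with h | ⟨-, x', rfl, h⟩
    · rw [← lp_eq h1 h, hc1]
    · rw [hhigh]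
  · rw [SetLike.mem_coe, mem_ker_ev]
    intro k
    refine rp_val (by rw [lo_length]; exact hzero) fun x hx => ?_
    rw [lo_append, a2, lo_length] at hx
    rcases hx with ⟨x', rfl, h⟩ | ⟨-, h⟩
    · rw [hhigh]
    · rw [← rp_eq h1 h, hc2]
  · rw [SetLike.mem_coe, mem_ker_ev]
    intro k
    refine lp_val (by rw [lo_length]; exact hzero) fun x hx => ?_
    rw [lo_append, a3, lo_length] at hx
    rcases hx with h | ⟨-, x', rfl, h⟩
    · rw [← lp_eq h1 h, hc3]
    · rw [hhigh]
  · funext k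
    rw [shf_apply]
    change c (rp (up (p ++ L)) k) = if U (up L) ≤ k then c (rp (up p) (k - U (up L))) else 0
    by_cases hk : U (up L) ≤ k
    · rw [if_pos hk]
      have hno : ∀ x, ¬ rop (up L) k x := fun x hx => by
        have := (hrU _ _).1 ⟨x, hx⟩
        omega
      by_cases hx : ∃ x, rop (up p) (k - U (up L)) x
      · obtain ⟨x, hx⟩ := hx
        rw [rp_eq h1 hx]
        have h3 : rop (up (p ++ L)) k x := by
          rw [up_append, a2]
          refine Or.inr ⟨hk, ?_⟩
          rw [hD, add_zero]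
          exact hx
        rw [rp_eq h1 h3]
      · have h3 : c (rp (up p) (k - U (up L))) = 0 :=
          rp_val (by rw [up_length]; exact hP1) fun x hx' => absurd ⟨x, hx'⟩ hx
        rw [h3]
        refine rp_val (by rw [up_length]; exact hzero) fun x hx' => ?_
        rw [up_append, a2, up_length] at hx'
        rcases hx' with ⟨x', rfl, h⟩ | ⟨-, h⟩
        · exact absurd h (hno _)
        · rw [hD, add_zero] at h
          exact absurd ⟨x, h⟩ hx
    · rw [if_neg hk]
      obtain ⟨x, hx⟩ := (hrU (up L) k).2 (by omega)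
      have h3 : rop (up (p ++ L)) k (p.length + x) := by
        rw [up_append, a2, up_length]
        exact Or.inl ⟨x, rfl, hx⟩
      rw [rp_eq h1 h3, hhigh]

theorem win_le (h1 : S_ARC1) (h2 : S_ARC2) (hW : S_WN) (M : ℕ) (hM : 0 < M) (t : ℕ) :
    ∀ I : W, (t + 1) * M ≤ U (up I) → (BW (wn M t I)).map (shf (t * M)) ≤ BW I := by
  obtain ⟨w1, w2, -, -, w5, -⟩ := hW
  induction t with
  | zero =>
    intro I _
    rw [Nat.zero_mul, shf_zero, Submodule.map_id]
    change BW (sfx M I) ≤ _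
    conv_rhs => rw [← w1 M I]
    exact BW_right h1 h2 _ _
  | succ t ih =>
    intro I hI
    have hM' : M ≤ U (up I) := by
      refine le_trans ?_ hI
      exact Nat.le_mul_of_pos_left _ (by omega)
    obtain ⟨h3, h4⟩ := w2 M I hM hM'
    have h5 := ih (pre M I) (by
      rw [h4]
      have : (t + 1 + 1) * M = (t + 1) * M + M := by ring
      omega)
    have h6 : (shf ((t + 1) * M)) = (shf M).comp (shf (t * M)) := by
      rw [shf_shf]
      congr 1
      ring
    change (BW (wn M t (pre M I))).map _ ≤ _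
    rw [h6, Submodule.map_comp]
    refine (Submodule.map_mono h5).trans ?_
    conv_rhs => rw [← w1 M I]
    have h7 := BW_left h1 h2 (pre M I) (sfx M I) (w5 M _ hM h3)
    rwa [h3.1] at h7

theorem main (_hU : S_U) (h1 : S_ARC1) (h2 : S_ARC2) (hW : S_WN) (hF : S_FD) : S_DS := by
  have key : ∀ (M : ℕ) (I : W) (q : ℕ), 0 < M → q * M ≤ U (up I) → ∀ t < q,
      BW (wn M t I) ≤ Sp M := by
    intro M I q hM hq t ht
    have h3 : (t + 1) * M ≤ U (up I) := (Nat.mul_le_mul_right _ ht).trans hq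
    obtain ⟨-, -, w3, -⟩ := hW
    have h4 := w3 M I t hM h3
    obtain ⟨-, -, -, -, -, h5, -⟩ := hF (wn M t I)
    rwa [h4.1] at h5
  have hfin : ∀ w : W, Module.Finite (ZMod 2) (BW w) := fun w => (hF w).2.2.1
  intro M I q hM hq
  refine ⟨?_, ?_, ?_, ?_⟩
  · refine iSup₂_le fun t ht => ?_
    rw [Finset.mem_range] at ht
    exact win_le h1 h2 hW M hM t I ((Nat.mul_le_mul_right _ ht).trans hq)
  · exact DD_le M (fun t => BW (wn M t I)) q (key M I q hM hq)
  · have h3 := (finrank_DD M (fun t => BW (wn M t I)) (fun t => BW (wn M t I)) q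
      (key M I q hM hq) (key M I q hM hq) fun t => hfin _).2
    have h4 : ∀ t, Module.finrank (ZMod 2)
        (BW (wn M t I) ⊓ BW (wn M t I) : Submodule (ZMod 2) V2) = gg (wn M t I) := by
      intro t
      rw [inf_idem]
      rfl
    rw [inf_idem, Finset.sum_congr rfl fun t _ => h4 t] at h3
    exact h3
  · intro J hJ
    exact (finrank_DD M (fun t => BW (wn M t I)) (fun t => BW (wn M t J)) q
      (key M I q hM hq) (key M J q hM hJ) fun t => hfin _).2

end Pool.Agent.N940.MN.Dsw
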