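import Pool.Agent.N940.MN.Stm2

/-!
Windows are windows, finite dimension (helper505, for helper940)
-/

set_option autoImplicit false

open Filter Topology Finset

namespace Pool.Agent.N940.MN.Fd

open Pool.Agent.N940.MN

/-! ### windows -/

theorem up_append (v w : W) : up (v ++ w) = up v ++ up w := by simp [up]

theorem up_cons (x : Bool × Bool) (v : W) : up (x :: v) = [x.1] ++ up v := by simp [up]

theorem U_nil : U (up ([] : W)) = 0 := rfl

theorem pre_sfx (M : ℕ) (w : W) : pre M w ++ sfx M w = w := by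
  induction w with
  | nil => rfl
  | cons x v ih =>
    unfold pre sfx
    by_cases h : M ≤ U (up v)
    · rw [if_pos h, if_pos h, List.cons_append, ih]
    · rw [if_neg h, if_neg h]; rfl

theorem U_cons (hU : S_U) (x : Bool × Bool) (v : W) :
    U (up (x :: v)) ≤ U (up v) + 1 ∧ (U (up v) < U (up (x :: v)) → Dn (up (x :: v)) = 0) := by
  have h1 := hU.1 [x.1] (up v)
  rw [up_cons]
  rw [h1.1, h1.2]
  rcases hx : x.1 with _ | _
  · have e1 : U [false] = 0 := rfl
    rw [e1]
    omega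
  · have e1 : U [true] = 1 := rfl
    have e2 : Dn [true] = 0 := rfl
    rw [e1, e2]
    omega

theorem win_dn (hU : S_U) (M : ℕ) (L : W) (hM : 0 < M) (h : IsWin M L) : Dn (up L) = 0 := by
  obtain ⟨h1, h2⟩ := h
  cases L with
  | nil => rfl
  | cons x v =>
    rcases h2 with h2 | h2
    · exact absurd h2 (List.cons_ne_nil _ _)
    · exact (U_cons hU x v).2 (by rw [h1]; exact h2)

theorem U_append (hU : S_U) (p L : W) (hd : Dn (up L) = 0) :
    U (up (p ++ L)) = U (up L) + U (up p) := by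
  rw [up_append, (hU.1 (up p) (up L)).2, hd, Nat.sub_zero]

theorem sfx_win (hU : S_U) (M : ℕ) (w : W) (hM : 0 < M) (h : M ≤ U (up w)) :
    IsWin M (sfx M w) := by
  induction w with
  | nil => rw [U_nil] at h; omega
  | cons x v ih =>
    unfold sfx
    by_cases h2 : M ≤ U (up v)
    · rw [if_pos h2]; exact ih h2
    · rw [if_neg h2]
      have h3 := (U_cons hU x v).1
      refine ⟨by omega, Or.inr ?_⟩
      show U (up v) < M
      omega

theorem pre_U (hU : S_U) (M : ℕ) (w : W) (hM : 0 < M) (h : M ≤ U (up w)) :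
    U (up (pre M w)) = U (up w) - M := by
  have h1 := sfx_win hU M w hM h
  have h2 := win_dn hU M _ hM h1
  have h3 := U_append hU (pre M w) (sfx M w) h2
  rw [pre_sfx, h1.1] at h3
  omega

theorem wn_win (hU : S_U) (M : ℕ) (hM : 0 < M) (t : ℕ) :
    ∀ w : W, (t + 1) * M ≤ U (up w) → IsWin M (wn M t w) := by
  induction t with
  | zero =>
    intro w h
    exact sfx_win hU M w hM (by simpa using h)
  | succ t ih =>
    intro w h
    have h0 : (t + 1 + 1) * M = (t + 1) * M + M := by ring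
    rw [h0] at h
    apply ih (pre M w)
    rw [pre_U hU M w hM (by omega)]
    omega

theorem sfx_append (hU : S_U) (M : ℕ) (p L : W) (hM : 0 < M) (h : IsWin M L) :
    sfx M (p ++ L) = L ∧ pre M (p ++ L) = p ∧ M ≤ U (up (p ++ L)) := by
  have hd := win_dn hU M L hM h
  induction p with
  | nil =>
    rw [List.nil_append]
    refine ⟨?_, ?_, h.1.ge⟩
    · cases L with
      | nil => rfl
      | cons x v =>
        unfold sfx
        rcases h.2 with h2 | h2
        · exact absurd h2 (List.cons_ne_nil _ _)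
        · exact if_neg (not_le.2 h2)
    · cases L with
      | nil => rfl
      | cons x v =>
        unfold pre
        rcases h.2 with h2 | h2
        · exact absurd h2 (List.cons_ne_nil _ _)
        · exact if_neg (not_le.2 h2)
  | cons x p ih =>
    obtain ⟨i1, i2, i3⟩ := ih
    rw [List.cons_append]
    refine ⟨?_, ?_, ?_⟩
    · unfold sfx; rw [if_pos i3, i1]
    · unfold pre; rw [if_pos i3, i2]
    · rw [← List.cons_append, U_append hU _ _ hd, h.1]
      exact Nat.le_add_right _ _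

theorem win_append (hU : S_U) (M M' : ℕ) (L L' : W) (h : IsWin M L) (h' : IsWin M' L') :
    IsWin (M + M') (L' ++ L) := by
  have hd : Dn (up L) = 0 := by
    rcases Nat.eq_zero_or_pos M with h0 | h0
    · rcases h.2 with h2 | h2
      · rw [h2]; rfl
      · omega
    · exact win_dn hU M L h0 h
  refine ⟨by rw [U_append hU _ _ hd, h.1, h'.1], ?_⟩
  cases L' with
  | nil =>
    have : M' = 0 := by rw [← h'.1]; rfl
    rw [this, List.nil_append, Nat.add_zero]
    exact h.2
  | cons x v =>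
    right
    rcases h'.2 with h2 | h2
    · exact absurd h2 (List.cons_ne_nil _ _)
    · show U (up (v ++ L)) < M + M'
      have h3 : U (up v) < M' := h2
      rw [U_append hU _ _ hd, h.1]
      omega

/-- windows are windows -/
theorem wn (hU : S_U) : S_WN := by
  refine ⟨pre_sfx, fun M w hM h => ⟨sfx_win hU M w hM h, pre_U hU M w hM h⟩,
    fun M w t hM h => wn_win hU M hM t w h, fun M p L hM h => sfx_append hU M p L hM h,
    fun M L hM h => win_dn hU M L hM h, fun M M' L L' h h' => win_append hU M M' L L' h h'⟩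

/-! ### positions -/

theorem rp_eq (h1 : S_ARC1) {v : List Bool} {k x : ℕ} (h : rop v k x) : rp v k = x := by
  have hex : ∃ x, rop v k x := ⟨x, h⟩
  unfold rp
  rw [dif_pos hex]
  exact h1.2.2.2.2.2.1 v k _ _ hex.choose_spec h

theorem lp_eq (h1 : S_ARC1) {v : List Bool} {k x : ℕ} (h : lop v k x) : lp v k = x := by
  have hex : ∃ x, lop v k x := ⟨x, h⟩
  unfold lp
  rw [dif_pos hex]
  exact h1.2.2.2.2.2.2.2.1 v k _ _ hex.choose_spec h

theorem rp_none {v : List Bool} {k : ℕ} (h : ¬ ∃ x, rop v k x) : rp v k = v.length := by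
  unfold rp
  exact dif_neg h

theorem lp_none {v : List Bool} {k : ℕ} (h : ¬ ∃ x, lop v k x) : lp v k = v.length := by
  unfold lp
  exact dif_neg h

theorem ropU (h1 : S_ARC1) (v : List Bool) (k : ℕ) : (∃ x, rop v k x) ↔ k < U v :=
  h1.2.2.2.2.2.2.2.2.2.2.2.2.2.1 v k

theorem lopD (h1 : S_ARC1) (v : List Bool) (k : ℕ) : (∃ x, lop v k x) ↔ k < Dn v :=
  h1.2.2.2.2.2.2.2.2.2.2.2.2.2.2 v k

theorem len_up (w : W) : (up w).length = w.length := by simp [up]

theorem len_lo (w : W) : (lo w).length = w.length := by simp [lo]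

theorem ev_apply (p : ℕ → ℕ) (c : ℕ → ZMod 2) (k : ℕ) : ev p c k = c (p k) := rfl

theorem mem_ker_ev (p : ℕ → ℕ) (c : ℕ → ZMod 2) :
    c ∈ LinearMap.ker (ev p) ↔ ∀ k, c (p k) = 0 := by
  rw [LinearMap.mem_ker]
  constructor
  · intro h k
    exact congrFun h k
  · intro h
    funext k
    exact h k

theorem ev_rp_Sp (h1 : S_ARC1) (v : List Bool) (c : ℕ → ZMod 2) (hc : c v.length = 0) :
    ev (rp v) c ∈ Sp (U v) := by
  intro k hk
  rw [ev_apply, rp_none, hc]
  rw [ropU h1]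
  omega

theorem ev_lp_Sp (h1 : S_ARC1) (v : List Bool) (c : ℕ → ZMod 2) (hc : c v.length = 0) :
    ev (lp v) c ∈ Sp (Dn v) := by
  intro k hk
  rw [ev_apply, lp_none, hc]
  rw [lopD h1]
  omega

/-! ### finite dimension -/

theorem Sp_fin (n : ℕ) : Module.Finite (ZMod 2) (Sp n) := by
  let g : Sp n →ₗ[ZMod 2] (Fin n → ZMod 2) :=
    { toFun := fun b i => b.1 i
      map_add' := fun _ _ => rfl
      map_smul' := fun _ _ => rfl }
  refine Module.Finite.of_injective g ?_
  intro a b hab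
  apply Subtype.ext
  funext k
  by_cases hk : k < n
  · exact congrFun hab ⟨k, hk⟩
  · rw [a.2 k (not_lt.1 hk), b.2 k (not_lt.1 hk)]

theorem PP_le (w : W) : PP w ≤ Sp w.length := fun _ hc => hc.1

theorem PP_fin (w : W) : Module.Finite (ZMod 2) (PP w) := by
  have := Sp_fin w.length
  exact Submodule.finiteDimensional_of_le (PP_le w)

theorem PP_zero_up {w : W} {c : ℕ → ZMod 2} (hc : c ∈ PP w) : c (up w).length = 0 :=
  hc.1 _ (len_up w).ge

theorem PP_zero_lo {w : W} {c : ℕ → ZMod 2} (hc : c ∈ PP w) : c (lo w).length = 0 :=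
  hc.1 _ (len_lo w).ge

/-! ### exchange and mirror image -/

theorem up_sw (w : W) : up (sw w) = lo w := by
  unfold up lo sw
  rw [List.map_map]
  rfl

theorem lo_sw (w : W) : lo (sw w) = up w := by
  unfold up lo sw
  rw [List.map_map]
  rfl

theorem PP_sw (w : W) : PP (sw w) = PP w := by
  ext c
  constructor
  · rintro ⟨a1, a2, a3⟩
    rw [up_sw] at a2
    rw [lo_sw] at a3
    refine ⟨fun i hi => a1 i (by unfold sw; rw [List.length_map]; exact hi), a3, a2⟩
  · rintro ⟨a1, a2, a3⟩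
    refine ⟨fun i hi => a1 i (by unfold sw at hi; rw [List.length_map] at hi; exact hi), ?_, ?_⟩
    · rw [up_sw]; exact a3
    · rw [lo_sw]; exact a2

theorem up_mir (w : W) : up (mir w) = ((up w).map not).reverse := by
  unfold up mir
  rw [List.map_reverse, List.map_map, List.map_map]
  rfl

theorem lo_mir (w : W) : lo (mir w) = ((lo w).map not).reverse := by
  unfold lo mir
  rw [List.map_reverse, List.map_map, List.map_map]
  rfl

theorem len_mir (w : W) : (mir w).length = w.length := by simp [mir]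

/-- reflection of a function on `n` positions -/
def flip (n : ℕ) (c : ℕ → ZMod 2) (x : ℕ) : ZMod 2 := if x < n then c (n - 1 - x) else 0

theorem flip_arc (h2 : S_ARC2) (v : List Bool) (c : ℕ → ZMod 2)
    (hc : ∀ x y, arc ((v.map not).reverse) x y → c x = c y) :
    ∀ x y, arc v x y → flip v.length c x = flip v.length c y := by
  intro x y h
  have hxy : x < y := h.1
  have hy : y < v.length := h.2.1
  unfold flip
  rw [if_pos (hxy.trans hy), if_pos hy]
  symm
  apply hc
  rw [h2.2.2.2.1 v _ _ (by omega)]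
  refine ⟨by omega, ?_⟩
  have e1 : v.length - 1 - (v.length - 1 - x) = x := by omega
  have e2 : v.length - 1 - (v.length - 1 - y) = y := by omega
  rw [e1, e2]
  exact h

theorem flip_lp (hU : S_U) (h1 : S_ARC1) (h2 : S_ARC2) (v : List Bool) (c : ℕ → ZMod 2)
    (hc : c v.length = 0) (k : ℕ) :
    flip v.length c (lp v k) = c (rp ((v.map not).reverse) k) := by
  by_cases h : ∃ x, lop v k x
  · obtain ⟨x, hx⟩ := h
    have hxl : x < v.length := hx.1
    rw [lp_eq h1 hx]
    have h3 : rop ((v.map not).reverse) k (v.length - 1 - x) := by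
      rw [h2.2.2.2.2.1 v k _ (by omega)]
      have e1 : v.length - 1 - (v.length - 1 - x) = x := by omega
      rw [e1]; exact hx
    rw [rp_eq h1 h3]
    unfold flip
    rw [if_pos hxl]
  · have h3 : ¬ ∃ x, rop ((v.map not).reverse) k x := by
      rw [ropU h1, (hU.2.2 v).1, ← lopD h1]; exact h
    rw [lp_none h, rp_none h3]
    unfold flip
    rw [if_neg (lt_irrefl _), List.length_reverse, List.length_map, hc]

theorem flip_rp (hU : S_U) (h1 : S_ARC1) (h2 : S_ARC2) (v : List Bool) (c : ℕ → ZMod 2)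
    (hc : c v.length = 0) (k : ℕ) :
    flip v.length c (rp v k) = c (lp ((v.map not).reverse) k) := by
  by_cases h : ∃ x, rop v k x
  · obtain ⟨x, hx⟩ := h
    have hxl : x < v.length := hx.1
    rw [rp_eq h1 hx]
    have h3 : lop ((v.map not).reverse) k (v.length - 1 - x) := by
      rw [h2.2.2.2.2.2 v k _ (by omega)]
      have e1 : v.length - 1 - (v.length - 1 - x) = x := by omega
      rw [e1]; exact hx
    rw [lp_eq h1 h3]
    unfold flip
    rw [if_pos hxl]
  · have h3 : ¬ ∃ x, lop ((v.map not).reverse) k x := by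
      rw [lopD h1, (hU.2.2 v).2, ← ropU h1]; exact h
    rw [rp_none h, lp_none h3]
    unfold flip
    rw [if_neg (lt_irrefl _), List.length_reverse, List.length_map, hc]

theorem flip_PP (h2 : S_ARC2) (w : W) (c : ℕ → ZMod 2) (hc : c ∈ PP (mir w)) :
    flip w.length c ∈ PP w := by
  obtain ⟨_, a2, a3⟩ := hc
  rw [up_mir] at a2
  rw [lo_mir] at a3
  refine ⟨fun i hi => ?_, ?_, ?_⟩
  · unfold flip; rw [if_neg (not_lt.2 hi)]
  · have := flip_arc h2 (up w) c a2
    rw [len_up] at this; exact this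
  · have := flip_arc h2 (lo w) c a3
    rw [len_lo] at this; exact this

theorem flip_vals (hU : S_U) (h1 : S_ARC1) (h2 : S_ARC2) (w : W) (c : ℕ → ZMod 2)
    (hc : c ∈ PP (mir w)) :
    (∀ k, flip w.length c (lp (up w) k) = c (rp (up (mir w)) k)) ∧
    (∀ k, flip w.length c (rp (up w) k) = c (lp (up (mir w)) k)) ∧
    (∀ k, flip w.length c (lp (lo w) k) = c (rp (lo (mir w)) k)) ∧
    (∀ k, flip w.length c (rp (lo w) k) = c (lp (lo (mir w)) k)) := by
  have h0 : c w.length = 0 := hc.1 _ (len_mir w).le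
  refine ⟨fun k => ?_, fun k => ?_, fun k => ?_, fun k => ?_⟩
  · have := flip_lp hU h1 h2 (up w) c (by rw [len_up]; exact h0) k
    rw [len_up] at this; rw [up_mir]; exact this
  · have := flip_rp hU h1 h2 (up w) c (by rw [len_up]; exact h0) k
    rw [len_up] at this; rw [up_mir]; exact this
  · have := flip_lp hU h1 h2 (lo w) c (by rw [len_lo]; exact h0) k
    rw [len_lo] at this; rw [lo_mir]; exact this
  · have := flip_rp hU h1 h2 (lo w) c (by rw [len_lo]; exact h0) k
    rw [len_lo] at this; rw [lo_mir]; exact this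

/-- elements of `BW` -/
theorem mem_BW {w : W} {b : V2} (hb : b ∈ BW w) : ∃ c ∈ PP w, (∀ k, c (rp (up w) k) = b k) ∧
    (∀ k, c (lp (up w) k) = 0) ∧ (∀ k, c (rp (lo w) k) = 0) ∧ ∀ k, c (lp (lo w) k) = 0 := by
  obtain ⟨c, ⟨hc, ⟨hc1, hc2⟩, hc3⟩, rfl⟩ := hb
  exact ⟨c, hc, fun k => rfl, (mem_ker_ev _ _).1 hc1, (mem_ker_ev _ _).1 hc2,
    (mem_ker_ev _ _).1 hc3⟩

theorem mem_Lam {w : W} {b1 b2 b3 b4 : V2} (c : ℕ → ZMod 2) (hc : c ∈ PP w)
    (e1 : ∀ k, c (rp (up w) k) = b1 k) (e2 : ∀ k, c (rp (lo w) k) = b2 k)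
    (e3 : ∀ k, c (lp (up w) k) = b3 k) (e4 : ∀ k, c (lp (lo w) k) = b4 k) :
    ((b1, b2), (b3, b4)) ∈ Lam w := by
  refine ⟨c, hc, ?_⟩
  refine Prod.ext (Prod.ext ?_ ?_) (Prod.ext ?_ ?_)
  · exact funext e1
  · exact funext e2
  · exact funext e3
  · exact funext e4

theorem mem_BR {w : W} {b1 b2 : V2} (c : ℕ → ZMod 2) (hc : c ∈ PP w)
    (e1 : ∀ k, c (rp (up w) k) = b1 k) (e2 : ∀ k, c (rp (lo w) k) = b2 k)
    (e3 : ∀ k, c (lp (up w) k) = 0) (e4 : ∀ k, c (lp (lo w) k) = 0) :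
    (b1, b2) ∈ BR w := by
  refine ⟨c, ⟨hc, (mem_ker_ev _ _).2 e3, (mem_ker_ev _ _).2 e4⟩, ?_⟩
  exact Prod.ext (funext e1) (funext e2)

/-- finite dimension, supports, exchange and mirror image -/
theorem fd (hU : S_U) (h1 : S_ARC1) (h2 : S_ARC2) : S_FD := by
  intro w
  have hP := PP_fin w
  refine ⟨hP, ?_, ?_, ?_, ?_, ?_, ?_, ?_, ?_, ?_, ?_, ?_, ?_⟩
  · unfold BR; infer_instance
  · unfold BW; infer_instance
  · unfold Lam; infer_instance
  · rintro _ ⟨c, ⟨hc, _⟩, rfl⟩
    exact ⟨ev_rp_Sp h1 _ c (PP_zero_up hc), ev_rp_Sp h1 _ c (PP_zero_lo hc)⟩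
  · rintro _ ⟨c, ⟨hc, _⟩, rfl⟩
    exact ev_rp_Sp h1 _ c (PP_zero_up hc)
  · rintro _ ⟨c, hc, rfl⟩
    exact ⟨⟨ev_rp_Sp h1 _ c (PP_zero_up hc), ev_rp_Sp h1 _ c (PP_zero_lo hc)⟩,
      ⟨ev_lp_Sp h1 _ c (PP_zero_up hc), ev_lp_Sp h1 _ c (PP_zero_lo hc)⟩⟩
  · intro b hb
    obtain ⟨c, hc, e1, e2, e3, e4⟩ := mem_BW hb
    exact mem_BR c hc e1 e3 e2 e4
  · intro b hb
    obtain ⟨c, hc, e1, e2, e3, e4⟩ := mem_BW hb
    rw [PP_sw] at hc
    rw [up_sw] at e1 e2
    rw [lo_sw] at e3 e4
    exact mem_BR c hc e3 e1 e4 e2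
  · intro b hb
    obtain ⟨c, hc, e1, e2, e3, e4⟩ := mem_BW hb
    exact mem_Lam c hc e1 e3 e2 e4
  · intro b hb
    obtain ⟨c, hc, e1, e2, e3, e4⟩ := mem_BW hb
    rw [PP_sw] at hc
    rw [up_sw] at e1 e2
    rw [lo_sw] at e3 e4
    exact mem_Lam c hc e3 e1 e4 e2
  · intro b hb
    obtain ⟨c, hc, e1, e2, e3, e4⟩ := mem_BW hb
    obtain ⟨f1, f2, f3, f4⟩ := flip_vals hU h1 h2 w c hc
    exact mem_Lam (flip w.length c) (flip_PP h2 w c hc) (fun k => (f2 k).trans (e2 k))
      (fun k => (f4 k).trans (e4 k)) (fun k => (f1 k).trans (e1 k)) (fun k => (f3 k).trans (e3 k))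
  · intro b hb
    obtain ⟨c, hc, e1, e2, e3, e4⟩ := mem_BW hb
    rw [PP_sw] at hc
    rw [up_sw] at e1 e2
    rw [lo_sw] at e3 e4
    obtain ⟨f1, f2, f3, f4⟩ := flip_vals hU h1 h2 w c hc
    exact mem_Lam (flip w.length c) (flip_PP h2 w c hc) (fun k => (f2 k).trans (e4 k))
      (fun k => (f4 k).trans (e2 k)) (fun k => (f1 k).trans (e3 k)) (fun k => (f3 k).trans (e1 k))

end Pool.Agent.N940.MN.Fd
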