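import Pool.Agent.N940.MN.Stm3

/-!
# The number of loops is asymptotically additive after a correction
-/

set_option autoImplicit false

open Filter Topology Finset

namespace Pool.Agent.N940.MN.Fi

/-- number of all unmatched letters -/
def ends (w : W) : ℕ := U (up w) + Dn (up w) + (U (lo w) + Dn (lo w))

/-- the corrected number of closed loops -/
noncomputable def FF (a : ℝ) (w : W) : ℝ := (f w : ℝ) + a / 2 * (ends w : ℝ)

lemma ends_append (hU : S_U) (I J : W) : ends (I ++ J) + 2 * mm I J = ends I + ends J := by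
  unfold ends mm
  rw [up_append, lo_append, (hU.1 _ _).1, (hU.1 _ _).2, (hU.1 _ _).1, (hU.1 _ _).2]
  omega

lemma FF_append (hU : S_U) (a : ℝ) (I J : W) : FF a (I ++ J) - FF a I - FF a J =
    (f (I ++ J) : ℝ) - f I - f J - a * (mm I J : ℝ) := by
  have h := ends_append hU I J
  have h' : (ends (I ++ J) : ℝ) + 2 * (mm I J : ℝ) = ends I + ends J := by exact_mod_cast h
  unfold FF
  linear_combination (a / 2) * h'

lemma bound_join (hw : S_W) (I J : W) :
    f I + f J ≤ f (I ++ J) ∧ f (I ++ J) ≤ f I + f J + mm I J := by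
  obtain ⟨m, hm⟩ : ∃ m, m = min (U (up I)) (Dn (up J)) := ⟨_, rfl⟩
  obtain ⟨m', hm'⟩ : ∃ m', m' = min (U (lo I)) (Dn (lo J)) := ⟨_, rfl⟩
  obtain ⟨w1, w2⟩ := hw (m + m' + 1) I J (Nat.succ_pos _) m m' hm hm'
  have e1 : m / (m + m' + 1) = 0 := Nat.div_eq_of_lt (by omega)
  have e2 : m' / (m + m' + 1) = 0 := Nat.div_eq_of_lt (by omega)
  rw [e1, e2] at w1 w2
  unfold mm
  rw [← hm, ← hm']
  simp only [Gs, Bs, range_zero, sum_empty] at w1 w2
  omega

lemma bound_close (hwo : S_WO) (w : W) (hb : bal w) :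
    f w ≤ fo w ∧ fo w ≤ f w + (U (up w) + U (lo w)) := by
  obtain ⟨m, hm⟩ : ∃ m, m = U (up w) := ⟨_, rfl⟩
  obtain ⟨m', hm'⟩ : ∃ m', m' = U (lo w) := ⟨_, rfl⟩
  obtain ⟨w1, w2⟩ := hwo (m + m' + 1) w (Nat.succ_pos _) hb m m' hm hm'
  have e1 : m / (m + m' + 1) = 0 := Nat.div_eq_of_lt (by omega)
  have e2 : m' / (m + m' + 1) = 0 := Nat.div_eq_of_lt (by omega)
  rw [e1, e2] at w1 w2
  rw [← hm, ← hm']
  simp only [Gs, Bs, range_zero, sum_empty] at w1 w2
  omega

lemma U_bal (hU : S_U) {w : W} (hb : bal w) : Dn (up w) = U (up w) ∧ Dn (lo w) = U (lo w) := by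
  have h1 := hU.2.1 (up w)
  have h2 := hU.2.1 (lo w)
  have h3 := hb.1
  have h4 := hb.2
  omega

lemma FF_close (hU : S_U) (a : ℝ) {w : W} (hb : bal w) : (fo w : ℝ) - FF a w =
    (fo w : ℝ) - f w - a * ((U (up w) : ℝ) + U (lo w)) := by
  unfold FF ends
  rw [(U_bal hU hb).1, (U_bal hU hb).2]
  push_cast
  ring

lemma tendsto_exp_sqrt (C c : ℝ) (hc : 0 < c) :
    Tendsto (fun r : ℕ => (r : ℝ) * (C * Real.exp (-(c * Real.sqrt r)))) atTop (𝓝 0) := by
  have h1 : Tendsto (fun x : ℝ => x ^ 2 * Real.exp (-c * x)) atTop (𝓝 0) := by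
    have := Real.tendsto_pow_mul_exp_neg_atTop_nhds_zero 2
    have h2 : Tendsto (fun x : ℝ => c * x) atTop atTop := tendsto_id.const_mul_atTop hc
    have h3 := (this.comp h2).const_mul ((c ^ 2)⁻¹)
    rw [mul_zero] at h3
    refine h3.congr fun x => ?_
    simp only [Function.comp]
    rw [mul_pow, show -(c * x) = -c * x by ring]
    field_simp
  have h2 : Tendsto (fun r : ℕ => Real.sqrt (r : ℝ)) atTop atTop :=
    Real.tendsto_sqrt_atTop.comp tendsto_natCast_atTop_atTop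
  have h3 := (h1.comp h2).const_mul C
  rw [mul_zero] at h3
  refine h3.congr fun r => ?_
  simp only [Function.comp]
  rw [Real.sq_sqrt (Nat.cast_nonneg r)]
  ring_nf

/-- the corrected number of loops satisfies the hypotheses of the abstract theorem -/
theorem adt (hU : S_U) (hw : S_W) (hwo : S_WO) (hm : S_MIR) (hp : S_PATCH) (hv : S_VAR)
    (hA : S_APPROX) : ∃ (a C c : ℝ), Adt (FF a) (fun w => (fo w : ℝ)) C c 4 := by
  obtain ⟨a, ha0, ha1, hA⟩ := hA
  obtain ⟨c, hc, hc'⟩ := hv (FF a) 1 one_ne_zero (by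
    intro p s
    have h1 := hp p s
    have h2 : ends (p ++ A1 ++ s) = ends (p ++ A2 ++ s) := by
      have e1 : U (up A1) = 0 := by decide
      have e2 : Dn (up A1) = 0 := by decide
      have e3 : U (lo A1) = 0 := by decide
      have e4 : Dn (lo A1) = 0 := by decide
      have e5 : U (up A2) = 0 := by decide
      have e6 : Dn (up A2) = 0 := by decide
      have e7 : U (lo A2) = 0 := by decide
      have e8 : Dn (lo A2) = 0 := by decide
      unfold ends
      simp only [up_append, lo_append, (hU.1 _ _).1, (hU.1 _ _).2, e1, e2, e3, e4, e5, e6, e7, e8]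
    unfold FF
    rw [h1, h2]
    push_cast
    ring)
  obtain ⟨D, hD⟩ : ∃ D : ℝ, D = ∑ x : Bool × Bool, |FF a [x]| := ⟨_, rfl⟩
  have hD0 : 0 ≤ D := by rw [hD]; exact sum_nonneg fun _ _ => abs_nonneg _
  have hjoin : ∀ I J : W, |FF a (I ++ J) - FF a I - FF a J| ≤ 2 * (mm I J : ℝ) := by
    intro I J
    rw [FF_append hU]
    obtain ⟨h1, h2⟩ := bound_join hw I J
    have h1' : (f I : ℝ) + f J ≤ f (I ++ J) := by exact_mod_cast h1
    have h2' : (f (I ++ J) : ℝ) ≤ f I + f J + mm I J := by exact_mod_cast h2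
    have h3 : (0 : ℝ) ≤ mm I J := Nat.cast_nonneg _
    rw [abs_le]
    constructor <;> nlinarith
  refine ⟨a, D + 4, c, hc, ?_, ?_, ?_, ?_, ?_, ?_, ?_⟩
  · intro w x
    have h1 := hjoin w [x]
    have h2 : |FF a [x]| ≤ D := by
      rw [hD]
      exact single_le_sum (f := fun x : Bool × Bool => |FF a [x]|) (fun _ _ => abs_nonneg _)
        (mem_univ x)
    have h3 : mm w [x] ≤ 2 := by
      have e1 : Dn (up [x]) ≤ 1 := by
        rcases x with ⟨b, b'⟩
        cases b <;> cases b' <;> decide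
      have e2 : Dn (lo [x]) ≤ 1 := by
        rcases x with ⟨b, b'⟩
        cases b <;> cases b' <;> decide
      unfold mm
      omega
    have h3' : (mm w [x] : ℝ) ≤ 2 := by exact_mod_cast h3
    rw [abs_le] at h1 h2 ⊢
    constructor <;> linarith [h1.1, h1.2, h2.1, h2.2]
  · intro w
    unfold FF
    rw [(hm w).1]
    have : ends (mir w) = ends w := by
      unfold ends
      rw [up_mir, lo_mir, (hU.2.2 _).1, (hU.2.2 _).2, (hU.2.2 _).1, (hU.2.2 _).2]
      ring
    rw [this]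
  · intro I J
    refine (hjoin I J).trans ?_
    have h3 : (0 : ℝ) ≤ mm I J := Nat.cast_nonneg _
    nlinarith
  · intro ε hε
    obtain ⟨C₁, c₁, hc₁, h1, -⟩ := hA (ε / 2) (by positivity)
    refine squeeze_zero' (Eventually.of_forall fun r => mul_nonneg (Nat.cast_nonneg _)
      (Ew_nonneg fun _ _ => Ew_nonneg fun _ _ => ind_nonneg _)) ?_ (tendsto_exp_sqrt C₁ c₁ hc₁)
    have h2 : Tendsto (fun r : ℕ => ε / 2 * Real.sqrt (r : ℝ)) atTop atTop :=
      (Real.tendsto_sqrt_atTop.comp tendsto_natCast_atTop_atTop).const_mul_atTop (by positivity)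
    filter_upwards [h2.eventually_ge_atTop C₁] with r hr
    refine mul_le_mul_of_nonneg_left (le_trans ?_ (h1 r)) (Nat.cast_nonneg _)
    refine Ew_mono fun I _ => Ew_mono fun J _ => ind_mono fun h => ?_
    rw [FF_append hU] at h
    refine lt_of_le_of_lt ?_ h
    have h3 : (0 : ℝ) ≤ mm I J := Nat.cast_nonneg _
    nlinarith
  · intro r hr
    exact hc' r hr
  · intro w hb
    rw [FF_close hU a hb]
    obtain ⟨h1, h2⟩ := bound_close hwo w hb
    have h1' : (f w : ℝ) ≤ fo w := by exact_mod_cast h1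
    have h2' : (fo w : ℝ) ≤ f w + (U (up w) + U (lo w)) := by exact_mod_cast h2
    have h3 : (0 : ℝ) ≤ (U (up w) : ℝ) + U (lo w) := by positivity
    have h4 : (U (up w) : ℝ) + U (lo w) ≤ (D + 4) * ((U (up w) : ℝ) + U (lo w)) := by nlinarith
    have h5 : a * ((U (up w) : ℝ) + U (lo w)) ≤ (U (up w) : ℝ) + U (lo w) := by nlinarith
    have h6 : 0 ≤ a * ((U (up w) : ℝ) + U (lo w)) := by positivity
    rw [abs_le]
    constructor <;> linarith
  · intro ε hε
    obtain ⟨C₁, c₁, hc₁, -, h1⟩ := hA (ε / 4) (by positivity)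
    have h2 : Tendsto (fun r : ℕ => ε / 2 * Real.sqrt (r : ℝ)) atTop atTop :=
      (Real.tendsto_sqrt_atTop.comp tendsto_natCast_atTop_atTop).const_mul_atTop (by positivity)
    have h0 := (tendsto_exp_sqrt C₁ c₁ hc₁).comp
      (tendsto_id.const_mul_atTop' (show 0 < 2 by norm_num) : Tendsto (fun n : ℕ => 2 * n) atTop atTop)
    refine squeeze_zero' (Eventually.of_forall fun r => mul_nonneg (Nat.cast_nonneg _)
      (Ew_nonneg fun _ _ => ind_nonneg _)) ?_ h0
    filter_upwards [h2.eventually_ge_atTop C₁] with n hn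
    simp only [Function.comp]
    have hr := h1 (2 * n)
    have hn0 : (0 : ℝ) ≤ n := Nat.cast_nonneg n
    have hsq : Real.sqrt ((2 * n : ℕ) : ℝ) ≤ 2 * Real.sqrt n := by
      rw [show (2 : ℝ) * Real.sqrt n = Real.sqrt (4 * n) by
        rw [Real.sqrt_mul (by norm_num), show Real.sqrt 4 = 2 by
          rw [show (4 : ℝ) = 2 ^ 2 by norm_num]; exact Real.sqrt_sq (by norm_num)]]
      apply Real.sqrt_le_sqrt
      push_cast
      linarith
    have hle : Ew (2 * n) (fun w => ind (bal w ∧ ε * ((U (up w) : ℝ) + U (lo w) + Real.sqrt n) <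
        |(fo w : ℝ) - FF a w|)) ≤ C₁ * Real.exp (-(c₁ * Real.sqrt ((2 * n : ℕ) : ℝ))) := by
      refine le_trans (Ew_mono fun w _ => ind_mono ?_) hr
      rintro ⟨hb, h⟩
      refine ⟨hb, ?_⟩
      rw [FF_close hU a hb] at h
      refine lt_of_le_of_lt ?_ h
      have h3 : (0 : ℝ) ≤ (U (up w) : ℝ) + U (lo w) := by positivity
      nlinarith
    have hpos : 0 ≤ C₁ * Real.exp (-(c₁ * Real.sqrt ((2 * n : ℕ) : ℝ))) :=
      le_trans (Ew_nonneg fun _ _ => ind_nonneg _) hle
    calc (n : ℝ) * _ ≤ (n : ℝ) * (C₁ * Real.exp (-(c₁ * Real.sqrt ((2 * n : ℕ) : ℝ)))) :=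
          mul_le_mul_of_nonneg_left hle hn0
      _ ≤ ((2 * n : ℕ) : ℝ) * (C₁ * Real.exp (-(c₁ * Real.sqrt ((2 * n : ℕ) : ℝ)))) := by
          refine mul_le_mul_of_nonneg_right ?_ hpos
          push_cast
          linarith

end Pool.Agent.N940.MN.Fi
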