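import Pool.Agent.N940.MN.Law
import Pool.Agent.N940.MN.Fin
import Pool.Agent.N940.MN.Approx

/-!
# The central limit theorem for the number of components of a random meandric system
-/

set_option autoImplicit false

open Filter Topology Finset MeasureTheory ProbabilityTheory

namespace Pool.Agent.N940.MN.Final

/-- an arc system of size `n`: a non-crossing perfect matching of `2 n` points (the partner of `i`
is `σ i`) -/
def IsMatching (n : ℕ) (σ : Fin (2 * n) → Fin (2 * n)) : Prop :=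
  (∀ i, σ (σ i) = i) ∧ (∀ i, σ i ≠ i) ∧ ∀ i k, ¬ (i < k ∧ k < σ i ∧ σ i < σ k)

open Classical in
/-- the meandric systems of size `n` -/
noncomputable def systems (n : ℕ) :
    Finset ((Fin (2 * n) → Fin (2 * n)) × (Fin (2 * n) → Fin (2 * n))) :=
  Finset.univ.filter fun p => IsMatching n p.1 ∧ IsMatching n p.2

/-- the number of components -/
noncomputable def components (n : ℕ)
    (p : (Fin (2 * n) → Fin (2 * n)) × (Fin (2 * n) → Fin (2 * n))) : ℕ :=
  Nat.card (Quot fun i j : Fin (2 * n) => p.1 i = j ∨ p.2 i = j)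

lemma mem_AS {n : ℕ} (σ : Equiv.Perm (Fin (2 * n))) : σ ∈ AS n ↔ IsMatching n σ := by
  unfold AS
  rw [mem_filter]
  unfold IsArcSystem IsMatching
  constructor
  · rintro ⟨-, h1, h2, h3⟩
    exact ⟨h2, h1, h3⟩
  · rintro ⟨h1, h2, h3⟩
    exact ⟨mem_univ _, h2, h1, h3⟩

lemma mem_systems {n : ℕ} {p : (Fin (2 * n) → Fin (2 * n)) × (Fin (2 * n) → Fin (2 * n))} :
    p ∈ systems n ↔ IsMatching n p.1 ∧ IsMatching n p.2 := by
  classical
  unfold systems
  simp

/-- sums over the meandric systems -/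
lemma sum_systems {E : Type} [AddCommGroup E] (n : ℕ) (Φ : ℕ → E) :
    ∑ p ∈ systems n, Φ (components n p) = ∑ σ ∈ AS n, ∑ τ ∈ AS n, Φ (comp σ τ) := by
  rw [← sum_product']
  symm
  refine sum_bij (fun q _ => ((q.1 : Fin (2 * n) → Fin (2 * n)), (q.2 : Fin (2 * n) → Fin (2 * n))))
    ?_ ?_ ?_ ?_
  · rintro ⟨σ, τ⟩ h
    rw [mem_product] at h
    exact mem_systems.2 ⟨(mem_AS σ).1 h.1, (mem_AS τ).1 h.2⟩
  · rintro ⟨σ, τ⟩ _ ⟨σ', τ'⟩ _ h
    simp only [Prod.mk.injEq, DFunLike.coe_fn_eq] at h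
    rw [h.1, h.2]
  · rintro ⟨σ, τ⟩ h
    obtain ⟨h1, h2⟩ := mem_systems.1 h
    have i1 : Function.Involutive σ := h1.1
    have i2 : Function.Involutive τ := h2.1
    refine ⟨(i1.toPerm, i2.toPerm), ?_, rfl⟩
    rw [mem_product]
    exact ⟨(mem_AS _).2 h1, (mem_AS _).2 h2⟩
  · rintro ⟨σ, τ⟩ _
    rw [Law.comp_eq]
    rfl

lemma card_systems (n : ℕ) : ((systems n).card : ℝ) = ((AS n).card : ℝ) ^ 2 := by
  have := sum_systems n (fun _ => (1 : ℝ))
  simp only [sum_const, nsmul_eq_mul, mul_one] at this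
  rw [this, pow_two]

/-- the mean -/
noncomputable def mean (n : ℕ) : ℝ :=
  (∑ p ∈ systems n, (components n p : ℝ)) / ((systems n).card : ℝ)

/-- the variance -/
noncomputable def variance (n : ℕ) : ℝ :=
  (∑ p ∈ systems n, ((components n p : ℝ) - mean n) ^ 2) / ((systems n).card : ℝ)

open Classical in
/-- the distribution function -/
noncomputable def distr (n : ℕ) (x : ℝ) : ℝ :=
  (((systems n).filter fun p => ((components n p : ℝ) - mean n) / √(variance n) ≤ x).card : ℝ) /
    ((systems n).card : ℝ)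

lemma expect (hC : S_COUNT) (hO : S_ORB) (n : ℕ) {E : Type} [AddCommGroup E] [Module ℝ E]
    (Φ : ℕ → E) : EB n (fun w => Φ (fo w)) =
      ((systems n).card : ℝ)⁻¹ • ∑ p ∈ systems n, Φ (components n p) := by
  rw [Law.expect hC hO, sum_systems, card_systems]

lemma mean_eq (hC : S_COUNT) (hO : S_ORB) (n : ℕ) : mean n = EB n fun w => (fo w : ℝ) := by
  rw [expect hC hO n (fun k => (k : ℝ)), smul_eq_mul, mean, div_eq_inv_mul]

lemma variance_eq (hC : S_COUNT) (hO : S_ORB) (n : ℕ) :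
    variance n = VB n fun w => (fo w : ℝ) := by
  unfold VB
  rw [← mean_eq hC hO, expect hC hO n (fun k => ((k : ℝ) - mean n) ^ 2), smul_eq_mul, variance,
    div_eq_inv_mul]

theorem main (hC : S_COUNT) (hO : S_ORB) (hU : S_U) (hw : S_W) (hwo : S_WO) (hm : S_MIR)
    (hp : S_PATCH) (hv : S_VAR) (hA : S_APPROX) (hL : S_ACLT) :
    (∃ c : ℝ, 0 < c ∧ ∀ᶠ n : ℕ in atTop, c * n ≤ variance n) ∧
    ∀ x : ℝ, Tendsto (fun n => distr n x) atTop (𝓝 ((gaussianReal 0 1).real (Set.Iic x))) := by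
  obtain ⟨a, C, c, hadt⟩ := Fi.adt hU hw hwo hm hp hv hA
  obtain ⟨c', hc', h1, h2⟩ := hL _ _ _ _ _ hadt
  refine ⟨⟨c', hc', ?_⟩, fun x => ?_⟩
  · filter_upwards [h1] with n hn
    rw [variance_eq hC hO]
    exact hn
  · have hne : ∀ n, (systems n).Nonempty := by
      intro n
      rw [← card_pos]
      have h3 := card_systems n
      have h4 : 0 < (AS n).card := card_pos.2 (Law.AS_nonempty hC n)
      have h5 : (0 : ℝ) < (systems n).card := by rw [h3]; positivity
      exact_mod_cast h5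
    have : ∀ n, Nonempty {p // p ∈ systems n} := fun n => ⟨⟨_, (hne n).choose_spec⟩⟩
    have key := Law.cdf_of_char (fun n => {p // p ∈ systems n})
      (fun n p => ((components n p.1 : ℝ) - mean n) / √(variance n)) ?_ x
    · refine key.congr fun n => ?_
      unfold distr
      rw [Fintype.card_coe]
      congr 2
      rw [← Fintype.card_subtype, ← Fintype.card_coe]
      refine Fintype.card_congr ⟨fun p => ⟨p.1.1, mem_filter.2 ⟨p.1.2, p.2⟩⟩,
        fun p => ⟨⟨p.1, (mem_filter.1 p.2).1⟩, (mem_filter.1 p.2).2⟩, fun _ => rfl, fun _ => rfl⟩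
    · intro t
      refine (h2 t).congr fun n => ?_
      rw [← mean_eq hC hO, ← variance_eq hC hO,
        expect hC hO n (fun k => Complex.exp (Complex.I *
          ((t * (((k : ℝ) - mean n) / √(variance n)) : ℝ) : ℂ))), Fintype.card_coe]
      rw [← Finset.sum_coe_sort (systems n) (fun p => Complex.exp (Complex.I *
          ((t * (((components n p : ℝ) - mean n) / √(variance n)) : ℝ) : ℂ)))]
      rw [Complex.real_smul]
      push_cast
      rfl

end Pool.Agent.N940.MN.Final
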