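import Pool.Agent.N940.MN.Stm2

/-!
# Dimension counts for windows (S_GG), helper607
-/

set_option autoImplicit false

open Finset

namespace Pool.Agent.N940.MN.Gg

open Pool.Agent.N940.MN Module

/-! ### linear algebra -/

lemma rn {V V₂ : Type} [AddCommGroup V] [Module (ZMod 2) V] [AddCommGroup V₂] [Module (ZMod 2) V₂]
    (g : V →ₗ[ZMod 2] V₂) (P : Submodule (ZMod 2) V) [Module.Finite (ZMod 2) P] :
    finrank (ZMod 2) (P.map g) + finrank (ZMod 2) (P ⊓ LinearMap.ker g : Submodule (ZMod 2) V) =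
      finrank (ZMod 2) P := by
  have h := LinearMap.finrank_range_add_finrank_ker (g.domRestrict P)
  rw [LinearMap.range_domRestrict, LinearMap.ker_domRestrict] at h
  rw [← h]
  congr 1
  have e := (Submodule.equivSubtypeMap P ((LinearMap.ker g).comap P.subtype)).finrank_eq
  rw [e, Submodule.map_comap_subtype]

lemma orth_dim {n : ℕ} (S T : Submodule (ZMod 2) (Fin n → ZMod 2))
    (h : ∀ s ∈ S, ∀ t ∈ T, ∑ z, s z * t z = 0) : finrank (ZMod 2) S + finrank (ZMod 2) T ≤ n := by
  have h1 := Subspace.finrank_add_finrank_dualAnnihilator_eq (K := ZMod 2) S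
  rw [Module.finrank_fin_fun] at h1
  have h2 : T.map (dotProductEquiv (ZMod 2) (Fin n)).toLinearMap ≤ S.dualAnnihilator := by
    rintro _ ⟨t, ht, rfl⟩
    rw [Submodule.mem_dualAnnihilator]
    intro s hs
    have h3 := h s hs t ht
    change t ⬝ᵥ s = 0
    unfold dotProduct
    rw [← h3]
    exact sum_congr rfl fun z _ => mul_comm _ _
  have h3 := Submodule.finrank_mono h2
  have h4 : finrank (ZMod 2) (T.map (dotProductEquiv (ZMod 2) (Fin n)).toLinearMap) =
      finrank (ZMod 2) T := LinearEquiv.finrank_map_eq _ _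
  omega

lemma cond_dim {n : ℕ} {ι : Type} [Fintype ι] (φ : (Fin n → ZMod 2) →ₗ[ZMod 2] (ι → ZMod 2))
    (S : Submodule (ZMod 2) (Fin n → ZMod 2)) (h : LinearMap.ker φ ≤ S) :
    n ≤ finrank (ZMod 2) S + Fintype.card ι := by
  have h1 := LinearMap.finrank_range_add_finrank_ker φ
  rw [Module.finrank_fin_fun] at h1
  have h2 : finrank (ZMod 2) (LinearMap.range φ) ≤ finrank (ZMod 2) (ι → ZMod 2) :=
    Submodule.finrank_le _
  rw [Module.finrank_fintype_fun_eq_card] at h2
  have h3 := Submodule.finrank_mono h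
  omega

/-! ### matched and unmatched positions -/

section pos

variable (n : ℕ) (v : List Bool)

open Classical in
/-- matched openings -/
noncomputable def mo : Finset (Fin n) := univ.filter fun x => ∃ y : Fin n, arc v x y

open Classical in
/-- matched closings -/
noncomputable def mc : Finset (Fin n) := univ.filter fun y => ∃ x : Fin n, arc v x y

open Classical in
/-- unmatched positions -/
noncomputable def um : Finset (Fin n) :=
  univ.filter fun z => (¬ ∃ y : Fin n, arc v z y) ∧ ¬ ∃ x : Fin n, arc v x z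

variable {n v}

lemma mem_um {z : Fin n} : z ∈ um n v ↔ (¬ ∃ y : Fin n, arc v z y) ∧ ¬ ∃ x : Fin n, arc v x z := by
  classical
  unfold um
  rw [mem_filter]
  exact and_iff_right (mem_univ _)

lemma arc_lt {x y : ℕ} (h : arc v x y) : x < v.length ∧ y < v.length :=
  ⟨h.1.trans h.2.1, h.2.1⟩

lemma excl (h1 : S_ARC1) {x y z : ℕ} (h : arc v x y) (h' : arc v z x) : False := by
  have e1 := (h1.1 v x y h).1
  have e2 := (h1.1 v z x h').2
  rw [e1] at e2
  cases e2

lemma part (h1 : S_ARC1) {A : Type} [AddCommMonoid A] (g : Fin n → A) :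
    ∑ z, g z = ∑ z ∈ mo n v, g z + ∑ z ∈ mc n v, g z + ∑ z ∈ um n v, g z := by
  classical
  unfold mo mc um
  rw [sum_filter, sum_filter, sum_filter, ← sum_add_distrib, ← sum_add_distrib]
  refine sum_congr rfl fun z _ => ?_
  by_cases hP : ∃ y : Fin n, arc v z y
  · by_cases hQ : ∃ x : Fin n, arc v x z
    · exfalso
      obtain ⟨y, hy⟩ := hP
      obtain ⟨x, hx⟩ := hQ
      exact excl h1 hy hx
    · rw [if_pos hP, if_neg hQ, if_neg (fun h => h.1 hP)]
      simp
  · by_cases hQ : ∃ x : Fin n, arc v x z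
    · rw [if_neg hP, if_pos hQ, if_neg (fun h => h.2 hQ)]
      simp
    · rw [if_neg hP, if_neg hQ, if_pos ⟨hP, hQ⟩]
      simp

lemma bij (h1 : S_ARC1) {A : Type} [AddCommMonoid A] (g g' : Fin n → A)
    (h : ∀ x y : Fin n, arc v x y → g x = g' y) : ∑ z ∈ mo n v, g z = ∑ z ∈ mc n v, g' z := by
  classical
  obtain ⟨a1, a2, a3, a4, a5, -⟩ := h1
  have hmo : ∀ x, x ∈ mo n v → ∃ y : Fin n, arc v x y := by
    intro x hx
    unfold mo at hx
    exact (mem_filter.1 hx).2
  have hmc : ∀ y, y ∈ mc n v → ∃ x : Fin n, arc v x y := by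
    intro x hx
    unfold mc at hx
    exact (mem_filter.1 hx).2
  refine sum_bij (fun x hx => (hmo x hx).choose) ?_ ?_ ?_ ?_
  · intro x hx
    unfold mc
    exact mem_filter.2 ⟨mem_univ _, x, (hmo x hx).choose_spec⟩
  · intro x hx x' hx' he
    have e1 := (hmo x hx).choose_spec
    have e2 := (hmo x' hx').choose_spec
    rw [← he] at e2
    exact Fin.ext (a5 v _ _ _ e1 e2)
  · intro y hy
    obtain ⟨x, hx⟩ := hmc y hy
    have hxm : x ∈ mo n v := by
      unfold mo
      exact mem_filter.2 ⟨mem_univ _, y, hx⟩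
    refine ⟨x, hxm, ?_⟩
    exact Fin.ext (a4 v _ _ _ (hmo x hxm).choose_spec hx)
  · intro x hx
    exact h _ _ (hmo x hx).choose_spec

lemma card_part (h1 : S_ARC1) : 2 * (mo n v).card + (um n v).card = n := by
  have e1 := part (n := n) (v := v) h1 (fun _ => (1 : ℕ))
  have e2 := bij (n := n) (v := v) h1 (fun _ => (1 : ℕ)) (fun _ => 1) (fun _ _ _ => rfl)
  simp only [sum_const, smul_eq_mul, mul_one, card_univ, Fintype.card_fin] at e1 e2
  omega

lemma card_um (h1 : S_ARC1) (hn : v.length = n) : (um n v).card = U v + Dn v := by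
  classical
  obtain ⟨a1, a2, a3, a4, a5, a6, a7, a8, a9, a10, a11, a12, a13, a14, a15⟩ := h1
  rcases Nat.eq_zero_or_pos n with hn0 | hn0
  · subst hn0
    have hv : v = [] := List.length_eq_zero_iff.1 hn
    subst hv
    have e1 : um 0 [] = ∅ := by
      ext z
      exact z.elim0
    rw [e1]
    rfl
  have hne : Nonempty (Fin n) := ⟨⟨0, hn0⟩⟩
  have hU : ((range (U v)).disjSum (range (Dn v))).card = U v + Dn v := by
    rw [card_disjSum, card_range, card_range]
  rw [← hU]
  symm
  have hr : ∀ k, k < U v → ∃ x : Fin n, rop v k x := by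
    intro k hk
    obtain ⟨x, hx⟩ := (a14 v k).2 hk
    exact ⟨⟨x, hn ▸ hx.1⟩, hx⟩
  have hl : ∀ k, k < Dn v → ∃ x : Fin n, lop v k x := by
    intro k hk
    obtain ⟨x, hx⟩ := (a15 v k).2 hk
    exact ⟨⟨x, hn ▸ hx.1⟩, hx⟩
  choose! R hR using hr
  choose! Lf hLf using hl
  refine card_bij (fun s _ => Sum.elim R Lf s) ?_ ?_ ?_
  · intro s hs
    rw [mem_um]
    rcases s with k | k
    · have hk : k < U v := by
        have := (inl_mem_disjSum).1 hs
        exact mem_range.1 this
      refine ⟨?_, ?_⟩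
      · rintro ⟨y, hy⟩
        exact a10 v k _ _ (hR k hk) hy
      · rintro ⟨y, hy⟩
        have e1 := (a1 v _ _ hy).2
        have e2 := a2 v k _ (hR k hk)
        simp only [Sum.elim_inl] at e1
        rw [e2] at e1
        cases e1
    · have hk : k < Dn v := by
        have := (inr_mem_disjSum).1 hs
        exact mem_range.1 this
      refine ⟨?_, ?_⟩
      · rintro ⟨y, hy⟩
        have e1 := (a1 v _ _ hy).1
        have e2 := a3 v k _ (hLf k hk)
        simp only [Sum.elim_inr] at e1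
        rw [e2] at e1
        cases e1
      · rintro ⟨y, hy⟩
        exact a11 v k _ _ (hLf k hk) hy
  · intro s hs s' hs' he
    rcases s with k | k <;> rcases s' with l | l
    · have hk : k < U v := mem_range.1 (inl_mem_disjSum.1 hs)
      have hl' : l < U v := mem_range.1 (inl_mem_disjSum.1 hs')
      simp only [Sum.elim_inl] at he
      have e1 := hR k hk
      rw [he] at e1
      rw [a7 v k l _ e1 (hR l hl')]
    · have hk : k < U v := mem_range.1 (inl_mem_disjSum.1 hs)
      have hl' : l < Dn v := mem_range.1 (inr_mem_disjSum.1 hs')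
      simp only [Sum.elim_inl, Sum.elim_inr] at he
      have e1 := a2 v _ _ (hR k hk)
      have e2 := a3 v _ _ (hLf l hl')
      rw [he, e2] at e1
      cases e1
    · have hk : k < Dn v := mem_range.1 (inr_mem_disjSum.1 hs)
      have hl' : l < U v := mem_range.1 (inl_mem_disjSum.1 hs')
      simp only [Sum.elim_inl, Sum.elim_inr] at he
      have e1 := a3 v _ _ (hLf k hk)
      have e2 := a2 v _ _ (hR l hl')
      rw [he, e2] at e1
      cases e1
    · have hk : k < Dn v := mem_range.1 (inr_mem_disjSum.1 hs)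
      have hl' : l < Dn v := mem_range.1 (inr_mem_disjSum.1 hs')
      simp only [Sum.elim_inr] at he
      have e1 := hLf k hk
      rw [he] at e1
      rw [a9 v k l _ e1 (hLf l hl')]
  · intro z hz
    rw [mem_um] at hz
    obtain ⟨hz1, hz2⟩ := hz
    have hzl : (z : ℕ) < v.length := by rw [hn]; exact z.2
    have hcase : v[(z : ℕ)]? = some true ∨ v[(z : ℕ)]? = some false := by
      rw [List.getElem?_eq_getElem hzl]
      cases v[(z : ℕ)]
      · exact Or.inr rfl
      · exact Or.inl rfl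
    rcases hcase with h | h
    · rcases a12 v z h with ⟨y, hy⟩ | ⟨k, hk⟩
      · exact absurd ⟨⟨y, hn ▸ (arc_lt hy).2⟩, hy⟩ hz1
      · have hkU : k < U v := (a14 v k).1 ⟨z, hk⟩
        refine ⟨Sum.inl k, inl_mem_disjSum.2 (mem_range.2 hkU), ?_⟩
        exact Fin.ext (a6 v k _ _ (hR k hkU) hk)
    · rcases a13 v z h with ⟨x, hx⟩ | ⟨k, hk⟩
      · exact absurd ⟨⟨x, hn ▸ (arc_lt hx).1⟩, hx⟩ hz2
      · have hkU : k < Dn v := (a15 v k).1 ⟨z, hk⟩
        refine ⟨Sum.inr k, inr_mem_disjSum.2 (mem_range.2 hkU), ?_⟩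
        exact Fin.ext (a8 v k _ _ (hLf k hkU) hk)

variable (n v)

/-- functions constant along the arcs -/
def Bf : Submodule (ZMod 2) (Fin n → ZMod 2) where
  carrier := {c | ∀ x y : Fin n, arc v x y → c x = c y}
  add_mem' := by
    intro a b ha hb x y h
    simp [ha x y h, hb x y h]
  zero_mem' := fun _ _ _ => rfl
  smul_mem' := by
    intro t a ha x y h
    simp [ha x y h]

/-- functions constant along the arcs, zero at the unmatched positions -/
noncomputable def Af : Submodule (ZMod 2) (Fin n → ZMod 2) where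
  carrier := {c | (∀ x y : Fin n, arc v x y → c x = c y) ∧ ∀ z ∈ um n v, c z = 0}
  add_mem' := by
    rintro a b ⟨ha, ha'⟩ ⟨hb, hb'⟩
    exact ⟨fun x y h => by simp [ha x y h, hb x y h], fun z hz => by simp [ha' z hz, hb' z hz]⟩
  zero_mem' := ⟨fun _ _ _ => rfl, fun _ _ => rfl⟩
  smul_mem' := by
    rintro t a ⟨ha, ha'⟩
    exact ⟨fun x y h => by simp [ha x y h], fun z hz => by simp [ha' z hz]⟩

variable {n v}

lemma dim_Bf (h1 : S_ARC1) : n ≤ finrank (ZMod 2) (Bf n v) + (mo n v).card := by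
  classical
  have hmo : ∀ x : mo n v, ∃ y : Fin n, arc v x.1 y := by
    rintro ⟨x, hx⟩
    unfold mo at hx
    exact (mem_filter.1 hx).2
  choose p hp using hmo
  let φ : (Fin n → ZMod 2) →ₗ[ZMod 2] (mo n v → ZMod 2) :=
    { toFun := fun c x => c x.1 - c (p x)
      map_add' := by
        intro a b
        funext x
        simp only [Pi.add_apply]
        ring
      map_smul' := by
        intro t a
        funext x
        simp only [Pi.smul_apply, smul_eq_mul, RingHom.id_apply]
        ring }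
  have h := cond_dim φ (Bf n v) (by
    intro c hc x y hxy
    have hx : x ∈ mo n v := by
      unfold mo
      exact mem_filter.2 ⟨mem_univ _, y, hxy⟩
    have h2 := congrFun (LinearMap.mem_ker.1 hc) ⟨x, hx⟩
    have h3 : p ⟨x, hx⟩ = y := Fin.ext (h1.2.2.2.1 v _ _ _ (hp ⟨x, hx⟩) hxy)
    have h4 : c x - c (p ⟨x, hx⟩) = 0 := h2
    rw [h3] at h4
    exact sub_eq_zero.1 h4)
  rw [Fintype.card_coe] at h
  exact h

lemma dim_Af (h1 : S_ARC1) : (mo n v).card ≤ finrank (ZMod 2) (Af n v) := by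
  classical
  have hmo : ∀ x : mo n v, ∃ y : Fin n, arc v x.1 y := by
    rintro ⟨x, hx⟩
    unfold mo at hx
    exact (mem_filter.1 hx).2
  choose p hp using hmo
  let φ : (Fin n → ZMod 2) →ₗ[ZMod 2] ((mo n v ⊕ um n v) → ZMod 2) :=
    { toFun := fun c s => Sum.elim (fun x : mo n v => c x.1 - c (p x)) (fun z : um n v => c z.1) s
      map_add' := by
        intro a b
        funext s
        rcases s with x | z
        · simp only [Pi.add_apply, Sum.elim_inl]
          ring
        · simp only [Pi.add_apply, Sum.elim_inr]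
      map_smul' := by
        intro t a
        funext s
        rcases s with x | z
        · simp only [Pi.smul_apply, smul_eq_mul, RingHom.id_apply, Sum.elim_inl]
          ring
        · simp only [Pi.smul_apply, smul_eq_mul, RingHom.id_apply, Sum.elim_inr] }
  have h := cond_dim φ (Af n v) (by
    intro c hc
    refine ⟨fun x y hxy => ?_, fun z hz => ?_⟩
    · have hx : x ∈ mo n v := by
        unfold mo
        exact mem_filter.2 ⟨mem_univ _, y, hxy⟩
      have h2 := congrFun (LinearMap.mem_ker.1 hc) (Sum.inl ⟨x, hx⟩)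
      have h3 : p ⟨x, hx⟩ = y := Fin.ext (h1.2.2.2.1 v _ _ _ (hp ⟨x, hx⟩) hxy)
      have h4 : c x - c (p ⟨x, hx⟩) = 0 := h2
      rw [h3] at h4
      exact sub_eq_zero.1 h4
    · exact congrFun (LinearMap.mem_ker.1 hc) (Sum.inr ⟨z, hz⟩))
  rw [Fintype.card_sum, Fintype.card_coe, Fintype.card_coe] at h
  have h5 := card_part (n := n) (v := v) h1
  omega

lemma orth (h1 : S_ARC1) (b a : Fin n → ZMod 2) (hb : b ∈ Bf n v) (ha : a ∈ Af n v) :
    ∑ z, b z * a z = 0 := by
  rw [part (v := v) h1, bij h1 (fun z => b z * a z) (fun z => b z * a z)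
    (fun x y h => by rw [hb x y h, ha.1 x y h])]
  have h2 : ∑ z ∈ um n v, b z * a z = 0 :=
    sum_eq_zero fun z hz => by rw [ha.2 z hz, mul_zero]
  rw [h2, add_zero, CharTwo.add_self_eq_zero]

end pos

/-! ### positions of unmatched letters -/

lemma rp_eq (h1 : S_ARC1) {v : List Bool} {k x : ℕ} (h : rop v k x) : rp v k = x := by
  have hex : ∃ x, rop v k x := ⟨x, h⟩
  unfold rp
  rw [dif_pos hex]
  exact h1.2.2.2.2.2.1 v k _ _ hex.choose_spec h

lemma lp_eq (h1 : S_ARC1) {v : List Bool} {k x : ℕ} (h : lop v k x) : lp v k = x := by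
  have hex : ∃ x, lop v k x := ⟨x, h⟩
  unfold lp
  rw [dif_pos hex]
  exact h1.2.2.2.2.2.2.2.1 v k _ _ hex.choose_spec h

lemma rp_none {v : List Bool} {k : ℕ} (h : ¬ ∃ x, rop v k x) : rp v k = v.length := by
  unfold rp
  rw [dif_neg h]

lemma lp_none {v : List Bool} {k : ℕ} (h : ¬ ∃ x, lop v k x) : lp v k = v.length := by
  unfold lp
  rw [dif_neg h]

/-- `c` vanishes at all unmatched openings -/
lemma zr_iff (h1 : S_ARC1) {v : List Bool} {c : ℕ → ZMod 2} (hc : c v.length = 0) :
    (∀ k, c (rp v k) = 0) ↔ ∀ k x, rop v k x → c x = 0 := by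
  constructor
  · intro h k x hx
    have := h k
    rwa [rp_eq h1 hx] at this
  · intro h k
    by_cases hex : ∃ x, rop v k x
    · obtain ⟨x, hx⟩ := hex
      rw [rp_eq h1 hx]
      exact h k x hx
    · rw [rp_none hex, hc]

lemma zl_iff (h1 : S_ARC1) {v : List Bool} {c : ℕ → ZMod 2} (hc : c v.length = 0) :
    (∀ k, c (lp v k) = 0) ↔ ∀ k x, lop v k x → c x = 0 := by
  constructor
  · intro h k x hx
    have := h k
    rwa [lp_eq h1 hx] at this
  · intro h k
    by_cases hex : ∃ x, lop v k x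
    · obtain ⟨x, hx⟩ := hex
      rw [lp_eq h1 hx]
      exact h k x hx
    · rw [lp_none hex, hc]

lemma up_len (w : W) : (up w).length = w.length := by simp [up]
lemma lo_len (w : W) : (lo w).length = w.length := by simp [lo]
lemma up_app (v w : W) : up (v ++ w) = up v ++ up w := by simp [up]
lemma lo_app (v w : W) : lo (v ++ w) = lo v ++ lo w := by simp [lo]

/-- the functions whose boundary values are in `BW` -/
noncomputable def Q (w : W) : Submodule (ZMod 2) (ℕ → ZMod 2) :=
  PP w ⊓ (LinearMap.ker (ev (lp (up w))) ⊓ LinearMap.ker (ev (rp (lo w))) ⊓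
    LinearMap.ker (ev (lp (lo w))))

lemma mem_Q (h1 : S_ARC1) {w : W} {c : ℕ → ZMod 2} : c ∈ Q w ↔ c ∈ PP w ∧
    (∀ k x, lop (up w) k x → c x = 0) ∧ (∀ k x, rop (lo w) k x → c x = 0) ∧
    ∀ k x, lop (lo w) k x → c x = 0 := by
  unfold Q
  rw [Submodule.mem_inf, Submodule.mem_inf, Submodule.mem_inf]
  constructor
  · rintro ⟨hP, ⟨h2, h3⟩, h4⟩
    have hl : c w.length = 0 := hP.1 _ le_rfl
    refine ⟨hP, ?_, ?_, ?_⟩
    · rw [← zl_iff h1 (by rw [up_len]; exact hl)]
      intro k
      exact congrFun (LinearMap.mem_ker.1 h2) k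
    · rw [← zr_iff h1 (by rw [lo_len]; exact hl)]
      intro k
      exact congrFun (LinearMap.mem_ker.1 h3) k
    · rw [← zl_iff h1 (by rw [lo_len]; exact hl)]
      intro k
      exact congrFun (LinearMap.mem_ker.1 h4) k
  · rintro ⟨hP, h2, h3, h4⟩
    have hl : c w.length = 0 := hP.1 _ le_rfl
    rw [← zl_iff h1 (by rw [up_len]; exact hl)] at h2
    rw [← zr_iff h1 (by rw [lo_len]; exact hl)] at h3
    rw [← zl_iff h1 (by rw [lo_len]; exact hl)] at h4
    exact ⟨hP, ⟨LinearMap.mem_ker.2 (funext h2), LinearMap.mem_ker.2 (funext h3)⟩,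
      LinearMap.mem_ker.2 (funext h4)⟩

lemma BW_eq (w : W) : BW w = (Q w).map (ev (rp (up w))) := rfl

lemma Q_ker (w : W) : Q w ⊓ LinearMap.ker (ev (rp (up w))) = CC w := by
  unfold Q CC
  ext c
  simp only [Submodule.mem_inf]
  tauto

lemma fin_Q (hF : S_FD) (w : W) : Module.Finite (ZMod 2) (Q w) := by
  have h := (hF w).1
  exact Submodule.finiteDimensional_of_le (inf_le_left : Q w ≤ PP w)

lemma fin_BW (hF : S_FD) (w : W) : Module.Finite (ZMod 2) (BW w) := (hF w).2.2.1

/-! ### the lower bound -/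

lemma lower (h1 : S_ARC1) (hF : S_FD) (L : W) (hD : Dn (up L) = 0) :
    U (up L) ≤ 2 * gg L + (U (lo L) + Dn (lo L)) := by
  have := fin_Q hF L
  have hPP := (hF L).1
  have hrn := rn (ev (rp (up L))) (Q L)
  rw [Q_ker, ← BW_eq] at hrn
  change gg L + _ = _ at hrn
  set n := L.length with hn
  -- extension by zero
  let ι : (Fin n → ZMod 2) →ₗ[ZMod 2] (ℕ → ZMod 2) :=
    { toFun := fun c x => if h : x < n then c ⟨x, h⟩ else 0
      map_add' := by
        intro a b
        funext x
        simp only [Pi.add_apply]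
        split_ifs <;> simp
      map_smul' := by
        intro t a
        funext x
        simp only [Pi.smul_apply, smul_eq_mul, RingHom.id_apply]
        split_ifs <;> simp }
  have hι : ∀ (c : Fin n → ZMod 2) (x : Fin n), ι c x = c x := by
    intro c x
    change (if h : (x : ℕ) < n then c ⟨x, h⟩ else 0) = c x
    rw [dif_pos x.2]
  have hι0 : ∀ (c : Fin n → ZMod 2) (x : ℕ), n ≤ x → ι c x = 0 := by
    intro c x hx
    change (if h : (x : ℕ) < n then c ⟨x, h⟩ else 0) = 0
    rw [dif_neg (by omega)]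
  have hιi : Function.Injective ι := by
    intro a b hab
    funext x
    rw [← hι a x, hab, hι]
  -- restriction
  let ρ : (ℕ → ZMod 2) →ₗ[ZMod 2] (Fin n → ZMod 2) := LinearMap.funLeft _ _ (fun x : Fin n => (x : ℕ))
  have hρ : ∀ (c : ℕ → ZMod 2) (x : Fin n), ρ c x = c x := fun c x => rfl
  have hP' : (Bf n (up L) ⊓ Af n (lo L)).map ι ≤ Q L := by
    rintro _ ⟨c, ⟨hc1, hc2⟩, rfl⟩
    rw [mem_Q h1]
    refine ⟨⟨fun i hi => hι0 c i hi, fun x y hxy => ?_, fun x y hxy => ?_⟩, ?_, ?_, ?_⟩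
    · have hl := arc_lt hxy
      rw [up_len] at hl
      have e1 := hι c ⟨x, hl.1⟩
      have e2 := hι c ⟨y, hl.2⟩
      simp only at e1 e2
      rw [e1, e2]
      exact hc1 ⟨x, hl.1⟩ ⟨y, hl.2⟩ hxy
    · have hl := arc_lt hxy
      rw [lo_len] at hl
      have e1 := hι c ⟨x, hl.1⟩
      have e2 := hι c ⟨y, hl.2⟩
      simp only at e1 e2
      rw [e1, e2]
      exact hc2.1 ⟨x, hl.1⟩ ⟨y, hl.2⟩ hxy
    · intro k x hx
      exfalso
      have := (h1.2.2.2.2.2.2.2.2.2.2.2.2.2.2 (up L) k).1 ⟨x, hx⟩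
      omega
    · intro k x hx
      have hxl : x < n := by
        have := hx.1
        rwa [lo_len] at this
      have e1 := hι c ⟨x, hxl⟩
      simp only at e1
      rw [e1]
      refine hc2.2 _ ?_
      rw [mem_um]
      refine ⟨?_, ?_⟩
      · rintro ⟨y, hy⟩
        exact h1.2.2.2.2.2.2.2.2.2.1 _ _ _ _ hx hy
      · rintro ⟨y, hy⟩
        have e1 := (h1.1 _ _ _ hy).2
        have e2 := h1.2.1 _ _ _ hx
        simp only at e1
        rw [e2] at e1
        cases e1
    · intro k x hx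
      have hxl : x < n := by
        have := hx.1
        rwa [lo_len] at this
      have e1 := hι c ⟨x, hxl⟩
      simp only at e1
      rw [e1]
      refine hc2.2 _ ?_
      rw [mem_um]
      refine ⟨?_, ?_⟩
      · rintro ⟨y, hy⟩
        have e1 := (h1.1 _ _ _ hy).1
        have e2 := h1.2.2.1 _ _ _ hx
        simp only at e1
        rw [e2] at e1
        cases e1
      · rintro ⟨y, hy⟩
        exact h1.2.2.2.2.2.2.2.2.2.2.1 _ _ _ _ hx hy
  have hdP : finrank (ZMod 2) (Bf n (up L) ⊓ Af n (lo L) :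
      Submodule (ZMod 2) (Fin n → ZMod 2)) ≤ finrank (ZMod 2) (Q L) := by
    have e := (Submodule.equivMapOfInjective ι hιi (Bf n (up L) ⊓ Af n (lo L))).finrank_eq
    rw [e]
    exact Submodule.finrank_mono hP'
  -- the closed loops
  have hCC : CC L ≤ PP L := inf_le_left
  have hfC : Module.Finite (ZMod 2) (CC L) := Submodule.finiteDimensional_of_le hCC
  have hdC : finrank (ZMod 2) (CC L) = finrank (ZMod 2) ((CC L).map ρ) := by
    have hrn' := rn ρ (CC L)
    have h0 : CC L ⊓ LinearMap.ker ρ = ⊥ := by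
      rw [eq_bot_iff]
      rintro c ⟨hc, hc'⟩
      rw [Submodule.mem_bot]
      funext x
      by_cases hx : x < n
      · exact congrFun (LinearMap.mem_ker.1 hc') ⟨x, hx⟩
      · exact (hCC hc).1 x (by omega)
    rw [h0, finrank_bot, add_zero] at hrn'
    exact hrn'.symm
  have hA : ∀ c ∈ CC L, ρ c ∈ Af n (up L) ∧ ρ c ∈ Af n (lo L) := by
    intro c hc
    have hcP := hCC hc
    have hl : c L.length = 0 := hcP.1 _ le_rfl
    obtain ⟨-, ⟨⟨k1, k2⟩, k3⟩, k4⟩ := hc
    have z1 := (zr_iff h1 (v := up L) (c := c) (by rw [up_len]; exact hl)).1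
      fun k => congrFun (LinearMap.mem_ker.1 k1) k
    have z2 := (zl_iff h1 (v := up L) (c := c) (by rw [up_len]; exact hl)).1
      fun k => congrFun (LinearMap.mem_ker.1 k2) k
    have z3 := (zr_iff h1 (v := lo L) (c := c) (by rw [lo_len]; exact hl)).1
      fun k => congrFun (LinearMap.mem_ker.1 k3) k
    have z4 := (zl_iff h1 (v := lo L) (c := c) (by rw [lo_len]; exact hl)).1
      fun k => congrFun (LinearMap.mem_ker.1 k4) k
    have key : ∀ v : List Bool, v.length = n → (∀ x y, arc v x y → c x = c y) →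
        (∀ k x, rop v k x → c x = 0) → (∀ k x, lop v k x → c x = 0) → ρ c ∈ Af n v := by
      intro v hv q1 q2 q3
      refine ⟨fun x y h => q1 _ _ h, fun z hz => ?_⟩
      rw [mem_um] at hz
      obtain ⟨hz1, hz2⟩ := hz
      have hzl : (z : ℕ) < v.length := by rw [hv]; exact z.2
      have hcase : v[(z : ℕ)]? = some true ∨ v[(z : ℕ)]? = some false := by
        rw [List.getElem?_eq_getElem hzl]
        cases v[(z : ℕ)]
        · exact Or.inr rfl
        · exact Or.inl rfl
      obtain ⟨a1, a2, a3, a4, a5, a6, a7, a8, a9, a10, a11, a12, a13, a14, a15⟩ := h1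
      rcases hcase with h | h
      · rcases a12 v z h with ⟨y, hy⟩ | ⟨k, hk⟩
        · exact absurd ⟨⟨y, by rw [← hv]; exact (arc_lt hy).2⟩, hy⟩ hz1
        · exact q2 k z hk
      · rcases a13 v z h with ⟨x, hx⟩ | ⟨k, hk⟩
        · exact absurd ⟨⟨x, by rw [← hv]; exact (arc_lt hx).1⟩, hx⟩ hz2
        · exact q3 k z hk
    exact ⟨key _ (up_len L) hcP.2.1 z1 z2, key _ (lo_len L) hcP.2.2 z3 z4⟩
  have horth := orth_dim (Bf n (up L) ⊔ Af n (lo L)) ((CC L).map ρ) (by
    rintro s hs _ ⟨c, hc, rfl⟩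
    obtain ⟨b, hb, a, ha, rfl⟩ := Submodule.mem_sup.1 hs
    obtain ⟨q1, q2⟩ := hA c hc
    have e1 := orth h1 b (ρ c) hb q1
    have e2 := orth h1 a (ρ c) (v := lo L) ha.1 q2
    simp only [Pi.add_apply, add_mul, sum_add_distrib]
    rw [e1, e2, add_zero])
  have hsup := Submodule.finrank_sup_add_finrank_inf_eq (Bf n (up L)) (Af n (lo L))
  have d1 := dim_Bf (n := n) (v := up L) h1
  have d2 := dim_Af (n := n) (v := lo L) h1
  have c1 := card_part (n := n) (v := up L) h1
  have c2 := card_part (n := n) (v := lo L) h1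
  have c3 := card_um (n := n) (v := up L) h1 (up_len L)
  have c4 := card_um (n := n) (v := lo L) h1 (lo_len L)
  omega

/-! ### the upper bound -/

lemma upper (hI : S_ISO) (hF : S_FD) (L : W) : 2 * gg L ≤ U (up L) := by
  obtain ⟨-, f2, f3, -, f5, f6, -, f8, -⟩ := hF L
  have h2 := hI.1 L (U (up L)) 0
  have h3 : (BW L).map (LinearMap.inl (ZMod 2) (ℕ → ZMod 2) (ℕ → ZMod 2)) ≤
      BR L ⊓ (Sp (U (up L))).prod (Sp 0) := by
    rintro _ ⟨b, hb, rfl⟩
    exact ⟨f8 b hb, ⟨f6 hb, fun _ _ => rfl⟩⟩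
  have h4 : Module.Finite (ZMod 2) (BR L ⊓ (Sp (U (up L))).prod (Sp 0) :
      Submodule (ZMod 2) (V2 × V2)) := Submodule.finiteDimensional_of_le inf_le_left
  have h5 := Submodule.finrank_mono h3
  have h6 := (Submodule.equivMapOfInjective (LinearMap.inl (ZMod 2) (ℕ → ZMod 2) (ℕ → ZMod 2))
    LinearMap.inl_injective (BW L)).finrank_eq
  have h7 : gg L = finrank (ZMod 2) (BW L) := rfl
  rw [h7, h6]
  exact (Nat.mul_le_mul_left 2 h5).trans h2

/-! ### concatenation of windows -/

lemma cat1 (h1 : S_ARC1) (h2 : S_ARC2) {L L' : W} (hD : Dn (up L) = 0) :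
    BW L ≤ BW (L' ++ L) := by
  obtain ⟨b1, b2, b3, -⟩ := h2
  rintro _ ⟨c, hc, rfl⟩
  change c ∈ Q L at hc
  obtain ⟨hP, z1, z2, z3⟩ := (mem_Q h1).1 hc
  have hnl : ∀ k x, ¬ lop (up L) k x := by
    intro k x hx
    have := (h1.2.2.2.2.2.2.2.2.2.2.2.2.2.2 (up L) k).1 ⟨x, hx⟩
    omega
  -- the shifted function
  have hs : ∀ x, shf L'.length c (L'.length + x) = c x := by
    intro x
    change (if L'.length ≤ L'.length + x then c (L'.length + x - L'.length) else 0) = c x
    rw [if_pos (by omega), Nat.add_sub_cancel_left]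
  have hs0 : ∀ x, x < L'.length → shf L'.length c x = 0 := by
    intro x hx
    change (if L'.length ≤ x then c (x - L'.length) else 0) = 0
    rw [if_neg (by omega)]
  have hPc : shf L'.length c ∈ Q (L' ++ L) := by
    rw [mem_Q h1]
    refine ⟨⟨fun i hi => ?_, fun x y hxy => ?_, fun x y hxy => ?_⟩, fun k x hx => ?_,
      fun k x hx => ?_, fun k x hx => ?_⟩
    · rw [List.length_append] at hi
      obtain ⟨j, rfl⟩ := Nat.exists_eq_add_of_le (show L'.length ≤ i by omega)
      rw [hs]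
      exact hP.1 j (by omega)
    · rw [up_app] at hxy
      rcases (b1 _ _ _ _).1 hxy with h | ⟨x', y', rfl, rfl, h⟩ | ⟨k, y', rfl, h, h'⟩
      · have := arc_lt h
        rw [up_len] at this
        rw [hs0 x this.1, hs0 y this.2]
      · rw [up_len, hs, hs]
        exact hP.2.1 _ _ h
      · exact absurd h' (hnl _ _)
    · rw [lo_app] at hxy
      rcases (b1 _ _ _ _).1 hxy with h | ⟨x', y', rfl, rfl, h⟩ | ⟨k, y', rfl, h, h'⟩
      · have := arc_lt h
        rw [lo_len] at this
        rw [hs0 x this.1, hs0 y this.2]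
      · rw [lo_len, hs, hs]
        exact hP.2.2 _ _ h
      · have := h.1
        rw [lo_len] at this
        rw [hs0 x this, lo_len, hs, z3 _ _ h']
    · rw [up_app] at hx
      rcases (b3 _ _ _ _).1 hx with h | ⟨-, x', rfl, h⟩
      · have := h.1
        rw [up_len] at this
        exact hs0 x this
      · rw [up_len, hs]
        exact z1 _ _ h
    · rw [lo_app] at hx
      rcases (b2 _ _ _ _).1 hx with ⟨x', rfl, h⟩ | ⟨-, h⟩
      · rw [lo_len, hs]
        exact z2 _ _ h
      · have := h.1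
        rw [lo_len] at this
        exact hs0 x this
    · rw [lo_app] at hx
      rcases (b3 _ _ _ _).1 hx with h | ⟨-, x', rfl, h⟩
      · have := h.1
        rw [lo_len] at this
        exact hs0 x this
      · rw [lo_len, hs]
        exact z3 _ _ h
  refine ⟨shf L'.length c, hPc, ?_⟩
  funext k
  change shf L'.length c (rp (up (L' ++ L)) k) = c (rp (up L) k)
  by_cases hex : ∃ x, rop (up L) k x
  · obtain ⟨x, hx⟩ := hex
    have h3 : rop (up (L' ++ L)) k (L'.length + x) := by
      rw [up_app, b2]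
      exact Or.inl ⟨x, by rw [up_len], hx⟩
    rw [rp_eq h1 h3, hs, rp_eq h1 hx]
  · rw [rp_none hex]
    have e0 : c (up L).length = 0 := hP.1 _ (by rw [up_len])
    rw [e0]
    by_cases hex2 : ∃ x, rop (up (L' ++ L)) k x
    · obtain ⟨x, hx⟩ := hex2
      rw [rp_eq h1 hx]
      rw [up_app] at hx
      rcases (b2 _ _ _ _).1 hx with ⟨x', rfl, h⟩ | ⟨-, h⟩
      · exact absurd ⟨x', h⟩ hex
      · have := h.1
        rw [up_len] at this
        exact hs0 x this
    · rw [rp_none hex2, up_len, List.length_append, hs]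
      exact hP.1 _ le_rfl

lemma cat2 (h1 : S_ARC1) (h2 : S_ARC2) {L L' : W} (hD : Dn (up L) = 0) :
    (BW L').map (shf (U (up L))) ≤ BW (L' ++ L) := by
  obtain ⟨b1, b2, b3, -⟩ := h2
  rintro _ ⟨_, ⟨c, hc, rfl⟩, rfl⟩
  change c ∈ Q L' at hc
  obtain ⟨hP, z1, z2, z3⟩ := (mem_Q h1).1 hc
  have hnl : ∀ k x, ¬ lop (up L) k x := by
    intro k x hx
    have := (h1.2.2.2.2.2.2.2.2.2.2.2.2.2.2 (up L) k).1 ⟨x, hx⟩
    omega
  have hc0 : ∀ x, c (L'.length + x) = 0 := fun x => hP.1 _ (by omega)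
  have hPc : c ∈ Q (L' ++ L) := by
    rw [mem_Q h1]
    refine ⟨⟨fun i hi => ?_, fun x y hxy => ?_, fun x y hxy => ?_⟩, fun k x hx => ?_,
      fun k x hx => ?_, fun k x hx => ?_⟩
    · rw [List.length_append] at hi
      exact hP.1 i (by omega)
    · rw [up_app] at hxy
      rcases (b1 _ _ _ _).1 hxy with h | ⟨x', y', rfl, rfl, h⟩ | ⟨k, y', rfl, h, h'⟩
      · exact hP.2.1 _ _ h
      · rw [up_len, hc0, hc0]
      · exact absurd h' (hnl _ _)
    · rw [lo_app] at hxy
      rcases (b1 _ _ _ _).1 hxy with h | ⟨x', y', rfl, rfl, h⟩ | ⟨k, y', rfl, h, h'⟩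
      · exact hP.2.2 _ _ h
      · rw [lo_len, hc0, hc0]
      · rw [lo_len, hc0, z2 _ _ h]
    · rw [up_app] at hx
      rcases (b3 _ _ _ _).1 hx with h | ⟨-, x', rfl, h⟩
      · exact z1 _ _ h
      · rw [up_len, hc0]
    · rw [lo_app] at hx
      rcases (b2 _ _ _ _).1 hx with ⟨x', rfl, h⟩ | ⟨-, h⟩
      · rw [lo_len, hc0]
      · exact z2 _ _ h
    · rw [lo_app] at hx
      rcases (b3 _ _ _ _).1 hx with h | ⟨-, x', rfl, h⟩
      · exact z3 _ _ h
      · rw [lo_len, hc0]
  refine ⟨c, hPc, ?_⟩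
  funext k
  change c (rp (up (L' ++ L)) k) =
    if U (up L) ≤ k then c (rp (up L') (k - U (up L))) else 0
  have hup : ∀ x, rop (up (L' ++ L)) k x ↔ (∃ x', x = (up L').length + x' ∧ rop (up L) k x') ∨
      (U (up L) ≤ k ∧ rop (up L') (k - U (up L) + Dn (up L)) x) := by
    intro x
    rw [up_app]
    exact b2 _ _ _ _
  rw [hD] at hup
  simp only [add_zero] at hup
  by_cases hk : U (up L) ≤ k
  · rw [if_pos hk]
    by_cases hex : ∃ x, rop (up L') (k - U (up L)) x
    · obtain ⟨x, hx⟩ := hex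
      rw [rp_eq h1 hx, rp_eq h1 ((hup x).2 (Or.inr ⟨hk, hx⟩))]
    · rw [rp_none hex]
      have hex2 : ¬ ∃ x, rop (up (L' ++ L)) k x := by
        rintro ⟨x, hx⟩
        rcases (hup x).1 hx with ⟨x', -, h⟩ | ⟨-, h⟩
        · have := (h1.2.2.2.2.2.2.2.2.2.2.2.2.2.1 (up L) k).1 ⟨x', h⟩
          omega
        · exact hex ⟨x, h⟩
      rw [rp_none hex2, up_len, up_len, List.length_append, hc0, hP.1 _ le_rfl]
  · rw [if_neg hk]
    obtain ⟨x, hx⟩ := (h1.2.2.2.2.2.2.2.2.2.2.2.2.2.1 (up L) k).2 (by omega)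
    rw [rp_eq h1 ((hup _).2 (Or.inl ⟨x, rfl, hx⟩)), up_len, hc0]

lemma shf_inj (s : ℕ) : Function.Injective (shf s) := by
  intro a b hab
  funext k
  have := congrFun hab (k + s)
  change (if s ≤ k + s then a (k + s - s) else 0) = if s ≤ k + s then b (k + s - s) else 0 at this
  rw [if_pos (by omega), if_pos (by omega), Nat.add_sub_cancel] at this
  exact this

lemma win_Dn (hW : S_WN) {M : ℕ} {L : W} (h : IsWin M L) : Dn (up L) = 0 := by
  rcases Nat.eq_zero_or_pos M with rfl | hM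
  · rcases h.2 with h' | h'
    · rw [h']; rfl
    · omega
  · exact hW.2.2.2.2.1 M L hM h

theorem main (h1 : S_ARC1) (h2 : S_ARC2) (hW : S_WN) (hI : S_ISO) (hF : S_FD) : S_GG := by
  refine ⟨fun M L h => ⟨?_, ?_⟩, fun M M' L L' h h' => ?_, fun L L' => ?_⟩
  · have := upper hI hF L
    rwa [h.1] at this
  · have := lower h1 hF L (win_Dn hW h)
    rwa [h.1] at this
  · have f1 := fin_BW hF L
    have f2 := fin_BW hF L'
    have f3 := fin_BW hF (L' ++ L)
    have hD := win_Dn hW h
    have e1 := Submodule.finrank_sup_add_finrank_inf_eq (BW L) ((BW L').map (shf (U (up L))))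
    have e2 : BW L ⊓ (BW L').map (shf (U (up L))) = ⊥ := by
      rw [eq_bot_iff]
      rintro b ⟨hb, ⟨b', -, rfl⟩⟩
      rw [Submodule.mem_bot]
      have e3 := (hF L).2.2.2.2.2.1 hb
      funext k
      by_cases hk : U (up L) ≤ k
      · exact e3 k hk
      · change (if U (up L) ≤ k then b' (k - U (up L)) else 0) = 0
        rw [if_neg hk]
    rw [e2, finrank_bot, add_zero] at e1
    have e4 := (Submodule.equivMapOfInjective (shf (U (up L))) (shf_inj _) (BW L')).finrank_eq
    have e5 := Submodule.finrank_mono (sup_le (cat1 h1 h2 (L' := L') hD) (cat2 h1 h2 (L' := L') hD))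
    have g1 : gg L = finrank (ZMod 2) (BW L) := rfl
    have g2 : gg L' = finrank (ZMod 2) (BW L') := rfl
    have g3 : gg (L' ++ L) = finrank (ZMod 2) (BW (L' ++ L)) := rfl
    rw [g1, g2, g3, e4, add_comm, ← e1]
    exact e5
  · have f1 := fin_BW hF L
    exact Submodule.finrank_mono inf_le_left

end Pool.Agent.N940.MN.Gg
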