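import Pool.Agent.N940.MN.Stm3

/-!
# Short windows have positive probability (helper711)
-/

set_option autoImplicit false

open Filter Topology Finset

namespace Pool.Agent.N940.MN.Hit

open Pool.Agent.N940.MN

/-- the sum of the steps of the upper word -/
noncomputable def X (w : W) : ℝ := (tot (up w) : ℝ)

lemma X_nil : X [] = 0 := by simp [X, tot]

lemma X_cons (x : Bool × Bool) (w : W) : X (x :: w) = (if x.1 then 1 else -1) + X w := by
  unfold X tot
  rw [up_cons, List.map_cons, List.sum_cons]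
  push_cast
  unfold sg
  split_ifs <;> simp

lemma X_append (u v : W) : X (u ++ v) = X u + X v := by
  unfold X tot
  rw [up_append, List.map_append, List.sum_append]
  push_cast
  rfl

lemma Ew_cons' (r : ℕ) (F : W → ℝ) :
    Ew (r + 1) F = Ew r fun w => (4 : ℝ)⁻¹ * ∑ x : Bool × Bool, F (x :: w) := by
  rw [Ew_cons, Ew_mul_left, Ew_sum, smul_eq_mul]

lemma X2 (r : ℕ) : Ew r (fun w => X w ^ 2) = r := by
  induction r with
  | zero =>
    rw [Ew_zero, X_nil]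
    norm_num
  | succ r ih =>
    rw [Ew_cons']
    have h : ∀ w : W, w.length = r → (4 : ℝ)⁻¹ * ∑ x : Bool × Bool, X (x :: w) ^ 2 =
        X w ^ 2 + 1 := by
      intro w _
      simp only [Fintype.sum_prod_type, Fintype.sum_bool, X_cons]
      simp only [if_true, Bool.false_eq_true, if_false]
      ring
    rw [Ew_congr h, Ew_add, Ew_const, ih]
    push_cast
    rfl

lemma X4 (r : ℕ) : Ew r (fun w => X w ^ 4) ≤ 3 * (r : ℝ) ^ 2 := by
  induction r with
  | zero =>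
    rw [Ew_zero, X_nil]
    norm_num
  | succ r ih =>
    rw [Ew_cons']
    have h : ∀ w : W, w.length = r → (4 : ℝ)⁻¹ * ∑ x : Bool × Bool, X (x :: w) ^ 4 =
        X w ^ 4 + (6 * X w ^ 2 + 1) := by
      intro w _
      simp only [Fintype.sum_prod_type, Fintype.sum_bool, X_cons]
      simp only [if_true, Bool.false_eq_true, if_false]
      ring
    rw [Ew_congr h, Ew_add, Ew_add, Ew_const, Ew_mul_left, X2]
    push_cast
    nlinarith

lemma PZ {r : ℕ} (hr : 0 < r) : 3 / 16 ≤ Ew r fun w => ind ((r : ℝ) / 4 ≤ X w ^ 2) := by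
  have hr' : (0 : ℝ) < r := by exact_mod_cast hr
  have h : Ew r (fun w => X w ^ 2) ≤ Ew r fun w => (r : ℝ) / 4 + ((8 * (r : ℝ))⁻¹ * X w ^ 4 +
      2 * r * ind ((r : ℝ) / 4 ≤ X w ^ 2)) := by
    refine Ew_mono fun w _ => ?_
    have h0 : (0 : ℝ) ≤ (8 * (r : ℝ))⁻¹ * X w ^ 4 := by positivity
    unfold ind
    split_ifs with h1
    · have h2 : X w ^ 2 ≤ (8 * (r : ℝ))⁻¹ * X w ^ 4 + 2 * r := by
        have h3 : (8 * (r : ℝ))⁻¹ * X w ^ 4 + 2 * r - X w ^ 2 =
            (8 * (r : ℝ))⁻¹ * (X w ^ 2 - 4 * r) ^ 2 := by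
          field_simp
          ring
        have h4 : 0 ≤ (8 * (r : ℝ))⁻¹ * (X w ^ 2 - 4 * r) ^ 2 := by positivity
        linarith
      linarith
    · push Not at h1
      linarith
  rw [X2, Ew_add, Ew_add, Ew_const, Ew_mul_left, Ew_mul_left] at h
  have h5 : (8 * (r : ℝ))⁻¹ * Ew r (fun w => X w ^ 4) ≤ (8 * (r : ℝ))⁻¹ * (3 * (r : ℝ) ^ 2) :=
    mul_le_mul_of_nonneg_left (X4 r) (by positivity)
  have h6 : (8 * (r : ℝ))⁻¹ * (3 * (r : ℝ) ^ 2) = 3 / 8 * r := by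
    field_simp
    try ring
  have h7 : 3 / 16 * (2 * (r : ℝ)) ≤ (Ew r fun w => ind ((r : ℝ) / 4 ≤ X w ^ 2)) * (2 * r) := by
    linarith
  exact le_of_mul_le_mul_right h7 (by positivity)

lemma X_mir (hU : S_U) (w : W) : X (mir w) = - X w := by
  unfold X
  rw [up_mir, hU.2.1, hU.2.1, (hU.2.2 _).1, (hU.2.2 _).2]
  push_cast
  ring

lemma piece (hU : S_U) {r : ℕ} (hr : 0 < r) :
    3 / 32 ≤ Ew r fun w => ind (Real.sqrt r / 2 ≤ X w) := by
  have h1 := PZ hr
  have h2 : Ew r (fun w => ind ((r : ℝ) / 4 ≤ X w ^ 2)) ≤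
      Ew r fun w => ind (Real.sqrt r / 2 ≤ X w) + ind (Real.sqrt r / 2 ≤ X (mir w)) := by
    refine Ew_mono fun w _ => ?_
    refine (ind_mono fun h => ?_).trans (ind_or_le _ _)
    rw [X_mir hU]
    have h3 : Real.sqrt r / 2 ≤ |X w| := by
      refine abs_le_of_sq_le_sq' ?_ ?_ |>.2
      · rw [sq_abs, div_pow, Real.sq_sqrt (Nat.cast_nonneg r)]
        linarith
      · exact abs_nonneg _
    exact le_abs.1 h3
  rw [Ew_add, Ew_mir r fun w => ind (Real.sqrt r / 2 ≤ X w)] at h2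
  linarith

lemma pieces (hU : S_U) {t : ℕ} (ht : 0 < t) (k : ℕ) :
    (3 / 32 : ℝ) ^ k ≤ Ew (k * t) fun w => ind (k * (Real.sqrt t / 2) ≤ X w) := by
  induction k with
  | zero =>
    rw [Nat.zero_mul, Ew_zero, X_nil]
    unfold ind
    simp
  | succ k ih =>
    rw [Nat.succ_mul, Ew_append]
    have h1 : Ew (k * t) (fun u => ind (k * (Real.sqrt t / 2) ≤ X u) * (3 / 32)) ≤
        Ew (k * t) fun u => Ew t fun v =>
          ind (((k + 1 : ℕ) : ℝ) * (Real.sqrt t / 2) ≤ X (u ++ v)) := by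
      refine Ew_mono fun u _ => ?_
      refine (mul_le_mul_of_nonneg_left (piece hU ht) (ind_nonneg _)).trans ?_
      rw [← Ew_mul_left]
      refine Ew_mono fun v _ => ?_
      unfold ind
      rw [X_append]
      push_cast
      split_ifs with a b c c <;> first
        | exact absurd (by linarith : ((k : ℝ) + 1) * (Real.sqrt t / 2) ≤ X u + X v) c
        | norm_num
    rw [Ew_mul_right] at h1
    refine le_trans ?_ h1
    rw [pow_succ]
    exact mul_le_mul_of_nonneg_right ih (by norm_num)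

/-- the suffix does not depend on what is before -/
lemma suffix (hW : S_WN) {M : ℕ} (hM : 0 < M) (u v : W) (h : M ≤ U (up v)) :
    M ≤ U (up (u ++ v)) ∧ sfx M (u ++ v) = sfx M v := by
  obtain ⟨h1, -⟩ := hW.2.1 M v hM h
  have h2 := hW.1 M v
  have h3 := hW.2.2.2.1 M (u ++ pre M v) (sfx M v) hM h1
  rw [List.append_assoc, h2] at h3
  exact ⟨h3.2.2, h3.1⟩

/-- mean over the last window -/
noncomputable def G (M : ℕ) (ψ : W → ℝ) (r : ℕ) : ℝ :=
  Ew r fun I => if M ≤ U (up I) then ψ (sfx M I) else 0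

open Classical in
lemma G_succ (hU : S_U) {M : ℕ} (hM : 0 < M) (ψ : W → ℝ) (r : ℕ) :
    G M ψ (r + 1) = G M ψ r + Ew (r + 1) fun L => if IsWin M L then ψ L else 0 := by
  have h1 : G M ψ r = Ew (r + 1) fun I => if M ≤ U (up I.tail) then ψ (sfx M I.tail) else 0 := by
    unfold G
    rw [Ew_cons']
    refine Ew_congr fun w _ => ?_
    have h : ∀ x : Bool × Bool, (if M ≤ U (up (x :: w).tail) then ψ (sfx M (x :: w).tail) else 0) =
        if M ≤ U (up w) then ψ (sfx M w) else 0 := fun x => rfl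
    rw [sum_congr rfl fun x _ => h x, sum_const, card_univ, Fintype.card_prod, Fintype.card_bool,
      nsmul_eq_mul]
    push_cast
    ring
  rw [h1, ← Ew_add]
  unfold G
  refine Ew_congr fun I hI => ?_
  obtain ⟨x, v, rfl⟩ : ∃ x v, I = x :: v := by
    cases I with
    | nil => simp at hI
    | cons x v => exact ⟨x, v, rfl⟩
  have h2 : U (up (x :: v)) = U (up v) + (U [x.1] - Dn (up v)) := by
    have := (hU.1 [x.1] (up v)).2
    exact this
  have h3 : U [x.1] ≤ 1 := by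
    cases x.1 <;> simp [U, stp]
  unfold IsWin
  rw [List.tail_cons]
  simp only [sfx]
  by_cases hv : M ≤ U (up v)
  · rw [if_pos hv, if_pos hv, if_pos (by omega), if_neg]
    · rw [add_zero]
    · rintro ⟨-, h4⟩
      rcases h4 with h4 | h4
      · exact List.cons_ne_nil _ _ h4
      · omega
  · rw [if_neg hv, if_neg hv]
    by_cases h5 : M ≤ U (up (x :: v))
    · rw [if_pos h5, if_pos, zero_add]
      exact ⟨by omega, Or.inr (by omega)⟩
    · rw [if_neg h5, if_neg, zero_add]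
      rintro ⟨h6, -⟩
      omega

open Classical in
lemma win_up (M : ℕ) (L : W) (y : ℝ) : (if IsWin M L then y else 0) =
    ind (U (up L) = M ∧ (up L = [] ∨ U (up L).tail < M)) * y := by
  have h : IsWin M L ↔ (U (up L) = M ∧ (up L = [] ∨ U (up L).tail < M)) := by
    unfold IsWin up
    rw [List.map_eq_nil_iff, List.map_tail]
  unfold ind
  by_cases h1 : IsWin M L
  · rw [if_pos h1, if_pos (h.1 h1), one_mul]
  · rw [if_neg h1, if_neg (fun h2 => h1 (h.2 h2)), zero_mul]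

/-- a bad lower word -/
noncomputable def bad (b : ℝ) (v : List Bool) : ℝ := ind (¬ ((U v : ℝ) + Dn v ≤ b))

lemma cheb (hM : S_MOM) {b : ℝ} (hb : 0 < b) {l : ℕ} (hl : (32 : ℝ) * l ≤ b ^ 2) :
    Ew l (fun w => bad b (lo w)) ≤ 1 / 8 := by
  have h1 : Ew l (fun w => bad b (lo w)) ≤ Ew l fun w => (2 * (b ^ 2)⁻¹) *
      ((U (lo w) : ℝ) ^ 2 + (Dn (lo w) : ℝ) ^ 2) := by
    refine Ew_mono fun w _ => ?_
    unfold bad ind
    by_cases h : (U (lo w) : ℝ) + Dn (lo w) ≤ b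
    · rw [if_neg (not_not.2 h)]
      positivity
    · rw [if_pos h]
      push Not at h
      have h2 : b ^ 2 ≤ 2 * ((U (lo w) : ℝ) ^ 2 + (Dn (lo w) : ℝ) ^ 2) := by
        nlinarith [sq_nonneg ((U (lo w) : ℝ) - (Dn (lo w) : ℝ))]
      rw [mul_comm (2 : ℝ), mul_assoc, inv_mul_eq_div, le_div_iff₀ (by positivity), one_mul]
      exact h2
  rw [Ew_mul_left, Ew_add] at h1
  obtain ⟨-, -, h3, h4, -⟩ := hM l
  have h5 : (2 * (b ^ 2)⁻¹) * (Ew l (fun w => (U (lo w) : ℝ) ^ 2) +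
      Ew l (fun w => (Dn (lo w) : ℝ) ^ 2)) ≤ (2 * (b ^ 2)⁻¹) * (l + l) :=
    mul_le_mul_of_nonneg_left (add_le_add h3 h4) (by positivity)
  refine h1.trans (h5.trans ?_)
  rw [mul_comm (2 : ℝ), mul_assoc, inv_mul_eq_div, div_le_iff₀ (by positivity)]
  linarith

open Classical in
lemma G_bad (hU : S_U) (hMM : S_MOM) {M : ℕ} (hM : 0 < M) {b : ℝ} (hb : 0 < b) (r : ℕ)
    (hr : (32 : ℝ) * r ≤ b ^ 2) : G M (fun L => bad b (lo L)) r ≤ 1 / 8 * G M (fun _ => 1) r := by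
  induction r with
  | zero =>
    unfold G
    rw [Ew_zero, Ew_zero]
    have : ¬ M ≤ U (up []) := by
      simp [U]
      omega
    rw [if_neg this, if_neg this]
    norm_num
  | succ r ih =>
    push_cast at hr
    rw [G_succ hU hM, G_succ hU hM, mul_add]
    refine add_le_add (ih (by linarith)) ?_
    simp only [win_up]
    rw [Ew_prod (r + 1) (fun v => ind (U v = M ∧ (v = [] ∨ U v.tail < M))) (fun v => bad b v)]
    simp only [mul_one]
    rw [mul_comm (1 / 8 : ℝ)]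
    refine mul_le_mul_of_nonneg_left (cheb hMM hb ?_) (Ew_nonneg fun _ _ => ind_nonneg _)
    push_cast
    linarith

theorem main (hU : S_U) (hW : S_WN) (hM : S_MOM) : S_HIT := by
  classical
  intro δ hδ
  obtain ⟨k, hk⟩ := exists_nat_ge (256 / δ ^ 2 + 1)
  have hδ2 : 0 < δ ^ 2 := by positivity
  have hk1 : (1 : ℝ) ≤ k := by
    have : 0 < 256 / δ ^ 2 := by positivity
    linarith
  have hk2 : 256 ≤ k * δ ^ 2 := by
    have h1 : 256 / δ ^ 2 ≤ k := by linarith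
    rwa [div_le_iff₀ hδ2] at h1
  obtain ⟨M₁, hM₁⟩ := exists_nat_ge (64 * k / δ ^ 2 + 1)
  refine ⟨7 / 8 * (3 / 32 : ℝ) ^ k, M₁ + 1, by positivity, fun M hMM => ?_⟩
  have hM0 : 0 < M := by omega
  have hM1 : (1 : ℝ) ≤ M := by exact_mod_cast hM0
  have hM2 : 64 * k ≤ (M : ℝ) ^ 2 * δ ^ 2 := by
    have h1 : (M₁ : ℝ) ≤ M := by exact_mod_cast (by omega : M₁ ≤ M)
    have h2 : 64 * k / δ ^ 2 ≤ M := by linarith
    rw [div_le_iff₀ hδ2] at h2
    have h3 : (M : ℝ) * δ ^ 2 ≤ (M : ℝ) ^ 2 * δ ^ 2 :=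
      mul_le_mul_of_nonneg_right (by nlinarith) hδ2.le
    linarith
  -- the length of a piece
  set t : ℕ := ⌈4 * (M : ℝ) ^ 2 / (k : ℝ) ^ 2⌉₊ with ht
  have hk0 : (0 : ℝ) < k := by linarith
  have ht0 : 0 < t := Nat.ceil_pos.2 (by positivity)
  have ht1 : 4 * (M : ℝ) ^ 2 / (k : ℝ) ^ 2 ≤ t := Nat.le_ceil _
  have ht2 : (t : ℝ) < 4 * (M : ℝ) ^ 2 / (k : ℝ) ^ 2 + 1 := Nat.ceil_lt_add_one (by positivity)
  have ht3 : (M : ℝ) ≤ k * (Real.sqrt t / 2) := by
    have h1 : (2 * (M : ℝ) / k) ≤ Real.sqrt t := by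
      refine Real.le_sqrt_of_sq_le ?_
      rw [div_pow, mul_pow]
      calc (2 : ℝ) ^ 2 * (M : ℝ) ^ 2 / (k : ℝ) ^ 2 = 4 * (M : ℝ) ^ 2 / (k : ℝ) ^ 2 := by norm_num
        _ ≤ (t : ℝ) := ht1
    rw [div_le_iff₀ hk0] at h1
    linarith
  have hT : (32 : ℝ) * ((k * t : ℕ) : ℝ) ≤ (δ * M) ^ 2 := by
    push_cast
    have h1 : (k : ℝ) * t ≤ 4 * (M : ℝ) ^ 2 / k + k := by
      have h2 : (k : ℝ) * t ≤ k * (4 * (M : ℝ) ^ 2 / (k : ℝ) ^ 2 + 1) :=
        mul_le_mul_of_nonneg_left ht2.le hk0.le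
      have h3 : (k : ℝ) * (4 * (M : ℝ) ^ 2 / (k : ℝ) ^ 2 + 1) = 4 * (M : ℝ) ^ 2 / k + k := by
        field_simp
      linarith
    have h4 : 4 * (M : ℝ) ^ 2 / k ≤ (M : ℝ) ^ 2 * δ ^ 2 / 64 := by
      rw [div_le_div_iff₀ hk0 (by norm_num)]
      nlinarith [mul_le_mul_of_nonneg_left hk2 (sq_nonneg (M : ℝ))]
    nlinarith
  refine ⟨k * t, fun r hr => ?_⟩
  obtain ⟨s, rfl⟩ := Nat.exists_eq_add_of_le' hr
  have hb : 0 < δ * M := by positivity
  -- reduction to short words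
  have h1 : Ew (k * t) (fun v => ind (M ≤ U (up v) ∧
      ((U (lo (sfx M v)) : ℝ) + Dn (lo (sfx M v)) ≤ δ * M))) ≤
      Ew (s + k * t) fun I => ind (M ≤ U (up I) ∧
        ((U (lo (sfx M I)) : ℝ) + Dn (lo (sfx M I)) ≤ δ * M)) := by
    rw [Ew_append, ← Ew_const (E := ℝ) s (Ew (k * t) (fun v => ind (M ≤ U (up v) ∧
      ((U (lo (sfx M v)) : ℝ) + Dn (lo (sfx M v)) ≤ δ * M))))]
    refine Ew_mono fun u _ => Ew_mono fun v _ => ind_mono ?_
    rintro ⟨h2, h3⟩
    obtain ⟨h4, h5⟩ := suffix hW hM0 u v h2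
    rw [h5]
    exact ⟨h4, h3⟩
  refine le_trans ?_ h1
  have h2 : Ew (k * t) (fun v => ind (M ≤ U (up v) ∧
      ((U (lo (sfx M v)) : ℝ) + Dn (lo (sfx M v)) ≤ δ * M))) =
      G M (fun _ => 1) (k * t) - G M (fun L => bad (δ * M) (lo L)) (k * t) := by
    unfold G
    rw [← Ew_sub]
    refine Ew_congr fun v _ => ?_
    unfold bad ind
    by_cases h3 : M ≤ U (up v)
    · by_cases h4 : (U (lo (sfx M v)) : ℝ) + Dn (lo (sfx M v)) ≤ δ * M
      · simp [h3, h4]
      · simp [h3, h4]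
    · simp [h3]
  rw [h2]
  have h3 := G_bad hU hM hM0 hb (k * t) hT
  have h4 : (3 / 32 : ℝ) ^ k ≤ G M (fun _ => 1) (k * t) := by
    refine (pieces hU ht0 k).trans ?_
    unfold G
    refine Ew_mono fun w _ => ?_
    unfold ind X
    split_ifs with h5 h6 h6
    · exact le_rfl
    · exfalso
      apply h6
      rw [hU.2.1] at h5
      push_cast at h5
      have h7 : (M : ℝ) ≤ (U (up w) : ℝ) := by
        have : (0 : ℝ) ≤ (Dn (up w) : ℝ) := Nat.cast_nonneg _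
        linarith
      exact_mod_cast h7
    · norm_num
    · exact le_rfl
  linarith

end Pool.Agent.N940.MN.Hit
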