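import Pool.Agent.N940.MN.Orb

/-!
# Stokes formula and isotropy (helper73)
-/

set_option autoImplicit false

open Finset

namespace Pool.Agent.N940.MN.Iso

open Pool.Agent.N940.MN.Orb

/-- partners -/
def Pt (v : List Bool) (x y : ℕ) : Prop := arc v x y ∨ arc v y x

theorem Pt.symm {v : List Bool} {x y : ℕ} (h : Pt v x y) : Pt v y x := h.elim Or.inr Or.inl

theorem Pt.uniq (h1 : S_ARC1) {v : List Bool} {x y z : ℕ} (h : Pt v x y) (h' : Pt v x z) :
    y = z := by
  obtain ⟨a1, -, -, a4, a5, -⟩ := h1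
  rcases h with h | h <;> rcases h' with h' | h'
  · exact a4 v x y z h h'
  · have e1 := (a1 v _ _ h).1
    have e2 := (a1 v _ _ h').2
    rw [e1] at e2
    simp at e2
  · have e1 := (a1 v _ _ h').1
    have e2 := (a1 v _ _ h).2
    rw [e1] at e2
    simp at e2
  · exact a5 v y z x h h'

theorem Pt.ne {v : List Bool} {x y : ℕ} (h : Pt v x y) : y ≠ x := by
  rintro rfl
  rcases h with h | h
  · exact lt_irrefl _ h.1
  · exact lt_irrefl _ h.1

theorem Pt.lt {v : List Bool} {x y : ℕ} (h : Pt v x y) : y < v.length := by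
  rcases h with h | h
  · exact h.2.1
  · exact h.1.trans h.2.1

theorem Pt.not_rop (h1 : S_ARC1) {v : List Bool} {x y k : ℕ} (h : Pt v x y) : ¬ rop v k x := by
  obtain ⟨a1, a2, -, -, -, -, -, -, -, a10, -⟩ := h1
  intro hr
  rcases h with h | h
  · exact a10 v k x y hr h
  · have e1 := (a1 v _ _ h).2
    have e2 := a2 v _ _ hr
    rw [e1] at e2
    simp at e2

theorem Pt.not_lop (h1 : S_ARC1) {v : List Bool} {x y k : ℕ} (h : Pt v x y) : ¬ lop v k x := by
  obtain ⟨a1, -, a3, -, -, -, -, -, -, -, a11, -⟩ := h1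
  intro hr
  rcases h with h | h
  · have e1 := (a1 v _ _ h).1
    have e2 := a3 v _ _ hr
    rw [e1] at e2
    simp at e2
  · exact a11 v k y x hr h

/-- all positions are matched or unmatched -/
theorem cases (h1 : S_ARC1) {v : List Bool} {x : ℕ} (hx : x < v.length) :
    (∃ y, Pt v x y) ∨ (∃ k, rop v k x) ∨ ∃ k, lop v k x := by
  obtain ⟨-, -, -, -, -, -, -, -, -, -, -, a12, a13, -⟩ := h1
  rcases hb : v[x] with _ | _
  · have h2 : v[x]? = some false := by rw [List.getElem?_eq_getElem hx, hb]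
    rcases a13 v x h2 with ⟨y, hy⟩ | ⟨k, hk⟩
    · exact Or.inl ⟨y, Or.inr hy⟩
    · exact Or.inr (Or.inr ⟨k, hk⟩)
  · have h2 : v[x]? = some true := by rw [List.getElem?_eq_getElem hx, hb]
    rcases a12 v x h2 with ⟨y, hy⟩ | ⟨k, hk⟩
    · exact Or.inl ⟨y, Or.inl hy⟩
    · exact Or.inr (Or.inl ⟨k, hk⟩)

theorem rop_rp (h1 : S_ARC1) {v : List Bool} {k : ℕ} (h : k < U v) : rop v k (rp v k) := by
  obtain ⟨x, hx⟩ := exists_rop h1 h
  rwa [rp_eq h1 hx]

theorem lop_lp (h1 : S_ARC1) {v : List Bool} {k : ℕ} (h : k < Dn v) : lop v k (lp v k) := by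
  obtain ⟨x, hx⟩ := exists_lop h1 h
  rwa [lp_eq h1 hx]

theorem sum_eq (h1 : S_ARC1) (v : List Bool) (g : ℕ → ZMod 2)
    (hg : ∀ x y, arc v x y → g x = g y) :
    ∑ k ∈ range (U v), g (rp v k) + ∑ k ∈ range (Dn v), g (lp v k) =
      ∑ x ∈ range v.length, g x := by
  classical
  have a1 := h1.1
  have a2 := h1.2.1
  have a3 := h1.2.2.1
  obtain ⟨-, -, -, -, -, -, a7, -, a9, -, -, -, -, a14, a15⟩ := id h1
  have h2 : ∑ k ∈ range (U v), g (rp v k) = ∑ x ∈ (range (U v)).image (rp v), g x := by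
    rw [Finset.sum_image]
    intro k hk l hl hkl
    rw [Finset.mem_coe, mem_range] at hk hl
    have h3 := rop_rp h1 hk
    rw [hkl] at h3
    exact a7 v k l _ h3 (rop_rp h1 hl)
  have h3 : ∑ k ∈ range (Dn v), g (lp v k) = ∑ x ∈ (range (Dn v)).image (lp v), g x := by
    rw [Finset.sum_image]
    intro k hk l hl hkl
    rw [Finset.mem_coe, mem_range] at hk hl
    have h3 := lop_lp h1 hk
    rw [hkl] at h3
    exact a9 v k l _ h3 (lop_lp h1 hl)
  set R := (range (U v)).image (rp v) with hR
  set L := (range (Dn v)).image (lp v) with hL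
  have hRm : ∀ x, x ∈ R ↔ ∃ k, rop v k x := by
    intro x
    rw [hR, mem_image]
    constructor
    · rintro ⟨k, hk, rfl⟩
      exact ⟨k, rop_rp h1 (mem_range.1 hk)⟩
    · rintro ⟨k, hk⟩
      exact ⟨k, mem_range.2 ((a14 v k).1 ⟨x, hk⟩), rp_eq h1 hk⟩
  have hLm : ∀ x, x ∈ L ↔ ∃ k, lop v k x := by
    intro x
    rw [hL, mem_image]
    constructor
    · rintro ⟨k, hk, rfl⟩
      exact ⟨k, lop_lp h1 (mem_range.1 hk)⟩
    · rintro ⟨k, hk⟩
      exact ⟨k, mem_range.2 ((a15 v k).1 ⟨x, hk⟩), lp_eq h1 hk⟩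
  have hdis : Disjoint R L := by
    rw [Finset.disjoint_left]
    intro x hx hx'
    obtain ⟨k, hk⟩ := (hRm x).1 hx
    obtain ⟨l, hl⟩ := (hLm x).1 hx'
    have e1 := a2 v _ _ hk
    have e2 := a3 v _ _ hl
    rw [e1] at e2
    simp at e2
  have hsub : R ∪ L ⊆ range v.length := by
    intro x hx
    rw [mem_range]
    rcases mem_union.1 hx with hx | hx
    · obtain ⟨k, hk⟩ := (hRm x).1 hx
      exact hk.1
    · obtain ⟨k, hk⟩ := (hLm x).1 hx
      exact hk.1
  have hM : ∀ x ∈ range v.length \ (R ∪ L), ∃ y, Pt v x y := by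
    intro x hx
    rw [mem_sdiff, mem_range, mem_union, not_or, hRm, hLm] at hx
    rcases cases h1 hx.1 with h | h | h
    · exact h
    · exact absurd h hx.2.1
    · exact absurd h hx.2.2
  have hcl : ∀ x (hx : x ∈ range v.length \ (R ∪ L)),
      (hM x hx).choose ∈ range v.length \ (R ∪ L) := by
    intro x hx
    have h5 := (hM x hx).choose_spec.symm
    rw [mem_sdiff, mem_range, mem_union, not_or, hRm, hLm]
    refine ⟨(hM x hx).choose_spec.lt, ?_, ?_⟩
    · rintro ⟨k, hk⟩
      exact h5.not_rop h1 hk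
    · rintro ⟨k, hk⟩
      exact h5.not_lop h1 hk
  have h4 : ∑ x ∈ range v.length \ (R ∪ L), g x = 0 := by
    refine Finset.sum_involution (fun x hx => (hM x hx).choose) ?_ ?_ hcl ?_
    · intro x hx
      have h5 := (hM x hx).choose_spec
      have h6 : g x = g (hM x hx).choose := by
        rcases h5 with h5 | h5
        · exact hg _ _ h5
        · exact (hg _ _ h5).symm
      rw [← h6]
      exact CharTwo.add_self_eq_zero _
    · intro x hx _
      exact (hM x hx).choose_spec.ne
    · intro x hx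
      have h5 := (hM x hx).choose_spec.symm
      exact (hM _ (hcl x hx)).choose_spec.uniq h1 h5
  rw [h2, h3, ← Finset.sum_union hdis, ← Finset.sum_sdiff hsub, h4, zero_add]

theorem stokes (h1 : S_ARC1) : S_STOKES := by
  rintro w c c' ⟨-, h2, h3⟩ ⟨-, h2', h3'⟩
  have e1 := sum_eq h1 (up w) (fun x => c x * c' x) fun x y h => by
    rw [h2 x y h, h2' x y h]
  have e2 := sum_eq h1 (lo w) (fun x => c x * c' x) fun x y h => by
    rw [h3 x y h, h3' x y h]
  have l1 : (up w).length = w.length := by rw [up, List.length_map]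
  have l2 : (lo w).length = w.length := by rw [lo, List.length_map]
  rw [l1] at e1
  rw [l2] at e2
  rw [e1, add_assoc, e2]
  exact CharTwo.add_self_eq_zero _

/-- isotropic subspaces -/
theorem isotropic {V : Type} [AddCommGroup V] [Module (ZMod 2) V] (A : Submodule (ZMod 2) V)
    {ι : Type} [Fintype ι] (T : V →ₗ[ZMod 2] (ι → ZMod 2)) (h0 : ∀ a ∈ A, T a = 0 → a = 0)
    (hiso : ∀ a ∈ A, ∀ b ∈ A, ∑ i, T a i * T b i = 0) :
    2 * Module.finrank (ZMod 2) A ≤ Fintype.card ι := by
  classical
  set B : Submodule (ZMod 2) (ι → ZMod 2) := A.map T with hB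
  have h1 : Module.finrank (ZMod 2) B = Module.finrank (ZMod 2) A := by
    have hinj : Function.Injective (T.domRestrict A) := by
      rw [injective_iff_map_eq_zero]
      intro a ha
      exact Subtype.ext (h0 a.1 a.2 ha)
    have h2 := LinearMap.finrank_range_of_inj hinj
    rw [LinearMap.range_domRestrict] at h2
    exact h2
  let D : (ι → ZMod 2) →ₗ[ZMod 2] Module.Dual (ZMod 2) (ι → ZMod 2) :=
    { toFun := fun x =>
        { toFun := fun y => ∑ i, x i * y i
          map_add' := fun y z => by simp only [Pi.add_apply, mul_add, sum_add_distrib]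
          map_smul' := fun c y => by
            simp only [Pi.smul_apply, smul_eq_mul, RingHom.id_apply, mul_sum]
            exact sum_congr rfl fun i _ => by ring }
      map_add' := fun x y => by
        ext z
        simp [add_mul, sum_add_distrib]
      map_smul' := fun c x => by
        refine LinearMap.ext fun z => ?_
        change ∑ i, (c • x) i * z i = c * ∑ i, x i * z i
        rw [mul_sum]
        exact sum_congr rfl fun i _ => by rw [Pi.smul_apply, smul_eq_mul, mul_assoc] }
  have hD : ∀ x y, D x y = ∑ i, x i * y i := fun x y => rfl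
  have hDinj : Function.Injective D := by
    rw [injective_iff_map_eq_zero]
    intro x hx
    funext i
    have h2 := LinearMap.congr_fun hx (Pi.single i 1)
    rw [hD, LinearMap.zero_apply, Finset.sum_eq_single i] at h2
    · simpa using h2
    · intro j _ hj
      rw [Pi.single_eq_of_ne hj, mul_zero]
    · intro hi
      exact absurd (mem_univ _) hi
  have h2 : B.map D ≤ B.dualAnnihilator := by
    rintro _ ⟨x, hx, rfl⟩
    rw [Submodule.mem_dualAnnihilator]
    rintro y hy
    obtain ⟨a, ha, rfl⟩ := hx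
    obtain ⟨b, hb, rfl⟩ := hy
    exact hiso a ha b hb
  have h3 := Submodule.finrank_mono h2
  have h4 : Module.finrank (ZMod 2) (B.map D) = Module.finrank (ZMod 2) B :=
    (Submodule.equivMapOfInjective D hDinj B).finrank_eq.symm
  have h5 := Subspace.finrank_add_finrank_dualAnnihilator_eq B
  rw [Module.finrank_fintype_fun_eq_card] at h5
  omega

theorem PP_rp (h1 : S_ARC1) {w : W} {c : V2} (hc : c ∈ PP w) {k : ℕ} (hk : U (up w) ≤ k) :
    c (rp (up w) k) = 0 := by
  rw [rp_ge h1 hk]
  exact hc.1 _ (by rw [up, List.length_map])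

theorem PP_rp' (h1 : S_ARC1) {w : W} {c : V2} (hc : c ∈ PP w) {k : ℕ} (hk : U (lo w) ≤ k) :
    c (rp (lo w) k) = 0 := by
  rw [rp_ge h1 hk]
  exact hc.1 _ (by rw [lo, List.length_map])

theorem PP_lp (h1 : S_ARC1) {w : W} {c : V2} (hc : c ∈ PP w) {k : ℕ} (hk : Dn (up w) ≤ k) :
    c (lp (up w) k) = 0 := by
  rw [lp_ge h1 hk]
  exact hc.1 _ (by rw [up, List.length_map])

theorem PP_lp' (h1 : S_ARC1) {w : W} {c : V2} (hc : c ∈ PP w) {k : ℕ} (hk : Dn (lo w) ≤ k) :
    c (lp (lo w) k) = 0 := by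
  rw [lp_ge h1 hk]
  exact hc.1 _ (by rw [lo, List.length_map])

theorem sum_range_eq {g : ℕ → ZMod 2} {a b : ℕ} (ha : ∀ k, a ≤ k → g k = 0)
    (hb : ∀ k, b ≤ k → g k = 0) : ∑ k ∈ range a, g k = ∑ k ∈ range b, g k := by
  have h : ∀ {a b : ℕ}, a ≤ b → (∀ k, a ≤ k → g k = 0) →
      ∑ k ∈ range a, g k = ∑ k ∈ range b, g k := by
    intro a b hab ha
    refine Finset.sum_subset (range_mono hab) fun k _ hk => ha k ?_
    exact not_lt.1 fun h => hk (mem_range.2 h)
  rcases le_total a b with hab | hab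
  · exact h hab ha
  · exact (h hab hb).symm

theorem iso (hs : S_STOKES) (h1 : S_ARC1) : S_ISO := by
  constructor
  · intro w m m'
    have h2 := isotropic (BR w ⊓ (Sp m).prod (Sp m') : Submodule (ZMod 2) (V2 × V2))
      (ι := Fin m ⊕ Fin m')
      { toFun := fun b => Sum.elim (fun k : Fin m => b.1 k) (fun k : Fin m' => b.2 k)
        map_add' := fun a b => by
          funext i
          rcases i with i | i <;> rfl
        map_smul' := fun t a => by
          funext i
          rcases i with i | i <;> rfl } ?_ ?_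
    · rwa [Fintype.card_sum, Fintype.card_fin, Fintype.card_fin] at h2
    · rintro ⟨b, b'⟩ ⟨-, hb, hb'⟩ h0
      have e1 : b = 0 := by
        funext k
        rcases lt_or_ge k m with hk | hk
        · exact congrFun h0 (Sum.inl ⟨k, hk⟩)
        · exact hb k hk
      have e2 : b' = 0 := by
        funext k
        rcases lt_or_ge k m' with hk | hk
        · exact congrFun h0 (Sum.inr ⟨k, hk⟩)
        · exact hb' k hk
      rw [e1, e2]
      rfl
    · rintro a ⟨⟨c, ⟨hc, hc1, hc2⟩, rfl⟩, ha1, ha2⟩ b ⟨⟨d, ⟨hd, hd1, hd2⟩, rfl⟩, hb1, hb2⟩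
      rw [Fintype.sum_sum_type]
      change ∑ k : Fin m, c (rp (up w) k) * d (rp (up w) k) +
        ∑ k : Fin m', c (rp (lo w) k) * d (rp (lo w) k) = 0
      rw [← Finset.sum_range (fun k => c (rp (up w) k) * d (rp (up w) k)),
        ← Finset.sum_range (fun k => c (rp (lo w) k) * d (rp (lo w) k))]
      have e1 : ∑ k ∈ range m, c (rp (up w) k) * d (rp (up w) k) =
          ∑ k ∈ range (U (up w)), c (rp (up w) k) * d (rp (up w) k) := by
        refine sum_range_eq (fun k hk => ?_) fun k hk => ?_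
        · have h3 : c (rp (up w) k) = 0 := ha1 k hk
          rw [h3, zero_mul]
        · rw [PP_rp h1 hc hk, zero_mul]
      have e2 : ∑ k ∈ range m', c (rp (lo w) k) * d (rp (lo w) k) =
          ∑ k ∈ range (U (lo w)), c (rp (lo w) k) * d (rp (lo w) k) := by
        refine sum_range_eq (fun k hk => ?_) fun k hk => ?_
        · have h3 : c (rp (lo w) k) = 0 := ha2 k hk
          rw [h3, zero_mul]
        · rw [PP_rp' h1 hc hk, zero_mul]
      have e3 : ∑ k ∈ range (Dn (up w)), c (lp (up w) k) * d (lp (up w) k) = 0 := by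
        refine Finset.sum_eq_zero fun k _ => ?_
        have h3 : c (lp (up w) k) = 0 := congrFun (LinearMap.mem_ker.1 hc1) k
        rw [h3, zero_mul]
      have e4 : ∑ k ∈ range (Dn (lo w)), c (lp (lo w) k) * d (lp (lo w) k) = 0 := by
        refine Finset.sum_eq_zero fun k _ => ?_
        have h3 : c (lp (lo w) k) = 0 := congrFun (LinearMap.mem_ker.1 hc2) k
        rw [h3, zero_mul]
      have h3 := hs w c d hc hd
      rw [e3, e4, add_zero, add_zero] at h3
      rw [e1, e2, h3]
  · intro w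
    have h2 := isotropic (Lam w)
      (ι := (Fin (U (up w)) ⊕ Fin (U (lo w))) ⊕ (Fin (Dn (up w)) ⊕ Fin (Dn (lo w))))
      { toFun := fun b => Sum.elim
          (Sum.elim (fun k : Fin (U (up w)) => b.1.1 k) (fun k : Fin (U (lo w)) => b.1.2 k))
          (Sum.elim (fun k : Fin (Dn (up w)) => b.2.1 k) (fun k : Fin (Dn (lo w)) => b.2.2 k))
        map_add' := fun a b => by
          funext i
          rcases i with (i | i) | (i | i) <;> rfl
        map_smul' := fun t a => by
          funext i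
          rcases i with (i | i) | (i | i) <;> rfl } ?_ ?_
    · rw [Fintype.card_sum, Fintype.card_sum, Fintype.card_sum, Fintype.card_fin,
        Fintype.card_fin, Fintype.card_fin, Fintype.card_fin] at h2
      omega
    · rintro _ ⟨c, hc, rfl⟩ h0
      have e1 : ∀ k, c (rp (up w) k) = 0 := by
        intro k
        rcases lt_or_ge k (U (up w)) with hk | hk
        · exact congrFun h0 (Sum.inl (Sum.inl ⟨k, hk⟩))
        · exact PP_rp h1 hc hk
      have e2 : ∀ k, c (rp (lo w) k) = 0 := by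
        intro k
        rcases lt_or_ge k (U (lo w)) with hk | hk
        · exact congrFun h0 (Sum.inl (Sum.inr ⟨k, hk⟩))
        · exact PP_rp' h1 hc hk
      have e3 : ∀ k, c (lp (up w) k) = 0 := by
        intro k
        rcases lt_or_ge k (Dn (up w)) with hk | hk
        · exact congrFun h0 (Sum.inr (Sum.inl ⟨k, hk⟩))
        · exact PP_lp h1 hc hk
      have e4 : ∀ k, c (lp (lo w) k) = 0 := by
        intro k
        rcases lt_or_ge k (Dn (lo w)) with hk | hk
        · exact congrFun h0 (Sum.inr (Sum.inr ⟨k, hk⟩))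
        · exact PP_lp' h1 hc hk
      exact Prod.ext (Prod.ext (funext e1) (funext e2)) (Prod.ext (funext e3) (funext e4))
    · rintro _ ⟨c, hc, rfl⟩ _ ⟨d, hd, rfl⟩
      rw [Fintype.sum_sum_type, Fintype.sum_sum_type, Fintype.sum_sum_type]
      change ∑ k : Fin (U (up w)), c (rp (up w) k) * d (rp (up w) k) +
        ∑ k : Fin (U (lo w)), c (rp (lo w) k) * d (rp (lo w) k) +
        (∑ k : Fin (Dn (up w)), c (lp (up w) k) * d (lp (up w) k) +
        ∑ k : Fin (Dn (lo w)), c (lp (lo w) k) * d (lp (lo w) k)) = 0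
      rw [← Finset.sum_range (fun k => c (rp (up w) k) * d (rp (up w) k)),
        ← Finset.sum_range (fun k => c (rp (lo w) k) * d (rp (lo w) k)),
        ← Finset.sum_range (fun k => c (lp (up w) k) * d (lp (up w) k)),
        ← Finset.sum_range (fun k => c (lp (lo w) k) * d (lp (lo w) k))]
      have h3 := hs w c d hc hd
      rw [← h3]
      ring

end Pool.Agent.N940.MN.Iso
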