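import Pool.Agent.N940.MN.Stm2

/-!
# The number of closed loops of a concatenation and of the mirror image
-/

set_option autoImplicit false

open Module

namespace Pool.Agent.N940.MN.Join

/-! ### lists -/

/-- constant along the arcs -/
def Cs (v : List Bool) (c : V2) : Prop := ∀ x y, arc v x y → c x = c y

/-- zero from `m` on -/
def Zr (m : ℕ) (c : V2) : Prop := ∀ i, m ≤ i → c i = 0

/-- truncation -/
def tc (n : ℕ) : V2 →ₗ[ZMod 2] V2 where
  toFun c i := if i < n then c i else 0
  map_add' a b := by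
    funext k
    simp only [Pi.add_apply]
    split_ifs <;> simp
  map_smul' t a := by
    funext k
    simp only [Pi.smul_apply, RingHom.id_apply]
    split_ifs <;> simp

/-- the values after `n` -/
def sh (n : ℕ) : V2 →ₗ[ZMod 2] V2 where
  toFun c i := c (n + i)
  map_add' _ _ := rfl
  map_smul' _ _ := rfl

/-- reflection -/
def rf (m : ℕ) : V2 →ₗ[ZMod 2] V2 where
  toFun c i := if i < m then c (m - 1 - i) else 0
  map_add' a b := by
    funext k
    simp only [Pi.add_apply]
    split_ifs <;> simp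
  map_smul' t a := by
    funext k
    simp only [Pi.smul_apply, RingHom.id_apply]
    split_ifs <;> simp

lemma tc_lt {n i : ℕ} (c : V2) (h : i < n) : tc n c i = c i := if_pos h

lemma tc_ge {n i : ℕ} (c : V2) (h : n ≤ i) : tc n c i = 0 := if_neg (by omega)

lemma sh_ap (n i : ℕ) (c : V2) : sh n c i = c (n + i) := rfl

lemma rf_lt {m i : ℕ} (c : V2) (h : i < m) : rf m c i = c (m - 1 - i) := if_pos h

lemma rf_ge {m i : ℕ} (c : V2) (h : m ≤ i) : rf m c i = 0 := if_neg (by omega)

section

variable (h1 : S_ARC1)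
include h1

lemma rp_eq {v : List Bool} {k x : ℕ} (h : rop v k x) : rp v k = x := by
  have h2 : ∃ x, rop v k x := ⟨x, h⟩
  unfold rp
  rw [dif_pos h2]
  exact h1.2.2.2.2.2.1 v k _ x h2.choose_spec h

lemma lp_eq {v : List Bool} {k x : ℕ} (h : lop v k x) : lp v k = x := by
  have h2 : ∃ x, lop v k x := ⟨x, h⟩
  unfold lp
  rw [dif_pos h2]
  exact h1.2.2.2.2.2.2.2.1 v k _ x h2.choose_spec h

lemma ex_rop {v : List Bool} {k : ℕ} : (∃ x, rop v k x) ↔ k < U v :=
  h1.2.2.2.2.2.2.2.2.2.2.2.2.2.1 v k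

lemma ex_lop {v : List Bool} {k : ℕ} : (∃ x, lop v k x) ↔ k < Dn v :=
  h1.2.2.2.2.2.2.2.2.2.2.2.2.2.2 v k

omit h1

lemma rp_none {v : List Bool} {k : ℕ} (h : ¬ ∃ x, rop v k x) : rp v k = v.length := dif_neg h

lemma lp_none {v : List Bool} {k : ℕ} (h : ¬ ∃ x, lop v k x) : lp v k = v.length := dif_neg h

include h1

/-- zero at the unmatched openings -/
lemma rzero {v : List Bool} {c : V2} (hc : Zr v.length c) :
    (∀ k, c (rp v k) = 0) ↔ ∀ k x, rop v k x → c x = 0 := by
  constructor
  · intro h k x hx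
    rw [← rp_eq h1 hx]
    exact h k
  · intro h k
    by_cases h2 : ∃ x, rop v k x
    · obtain ⟨x, hx⟩ := h2
      rw [rp_eq h1 hx]
      exact h k x hx
    · rw [rp_none h2]
      exact hc _ le_rfl

lemma lzero {v : List Bool} {c : V2} (hc : Zr v.length c) :
    (∀ k, c (lp v k) = 0) ↔ ∀ k x, lop v k x → c x = 0 := by
  constructor
  · intro h k x hx
    rw [← lp_eq h1 hx]
    exact h k
  · intro h k
    by_cases h2 : ∃ x, lop v k x
    · obtain ⟨x, hx⟩ := h2
      rw [lp_eq h1 hx]
      exact h k x hx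
    · rw [lp_none h2]
      exact hc _ le_rfl

/-- **the key equivalence for words over two letters** -/
lemma key (h2 : S_ARC2) (v w : List Bool) (c : V2) (hc : Zr (v.length + w.length) c) :
    (Cs (v ++ w) c ∧ (∀ k, c (rp (v ++ w) k) = 0) ∧ ∀ k, c (lp (v ++ w) k) = 0) ↔
      (Cs v (tc v.length c) ∧ Cs w (sh v.length c) ∧ (∀ k, tc v.length c (lp v k) = 0) ∧
        (∀ k, sh v.length c (rp w k) = 0) ∧
        ∀ k, tc v.length c (rp v k) = sh v.length c (lp w k)) := by
  obtain ⟨a1, a2, a3, -, -, -⟩ := h2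
  have hct : Zr v.length (tc v.length c) := fun i hi => tc_ge c hi
  have hcs : Zr w.length (sh v.length c) := fun i hi => hc _ (by omega)
  have hcl : Zr (v ++ w).length c := by rw [List.length_append]; exact hc
  rw [rzero h1 hcl, lzero h1 hcl, lzero h1 hct, rzero h1 hcs]
  constructor
  · rintro ⟨b1, b2, b3⟩
    refine ⟨fun x y h => ?_, fun x y h => ?_, fun k x h => ?_, fun k x h => ?_, fun k => ?_⟩
    · have h3 : y < v.length := h.2.1
      have h4 : x < y := h.1
      rw [tc_lt c h3, tc_lt c (by omega)]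
      exact b1 x y ((a1 v w x y).mpr (Or.inl h))
    · exact b1 _ _ ((a1 v w _ _).mpr (Or.inr (Or.inl ⟨x, y, rfl, rfl, h⟩)))
    · have h3 : x < v.length := h.1
      rw [tc_lt c h3]
      exact b3 k x ((a3 v w k x).mpr (Or.inl h))
    · exact b2 k _ ((a2 v w k _).mpr (Or.inl ⟨x, rfl, h⟩))
    · by_cases h3 : ∃ x, rop v k x
      · obtain ⟨x, hx⟩ := h3
        have hxl : x < v.length := hx.1
        rw [rp_eq h1 hx, tc_lt c hxl]
        by_cases h4 : ∃ y, lop w k y
        · obtain ⟨y, hy⟩ := h4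
          rw [lp_eq h1 hy]
          exact b1 _ _ ((a1 v w _ _).mpr (Or.inr (Or.inr ⟨k, y, rfl, hx, hy⟩)))
        · rw [lp_none h4, hcs _ le_rfl]
          rw [ex_lop h1] at h4
          refine b2 (k - Dn w + U w) x ((a2 v w _ _).mpr (Or.inr ⟨by omega, ?_⟩))
          have e : k - Dn w + U w - U w + Dn w = k := by omega
          rw [e]
          exact hx
      · rw [rp_none h3, hct _ le_rfl]
        by_cases h4 : ∃ y, lop w k y
        · obtain ⟨y, hy⟩ := h4
          rw [lp_eq h1 hy]
          rw [ex_rop h1] at h3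
          refine (b3 (k - U v + Dn v) _ ((a3 v w _ _).mpr (Or.inr ⟨by omega, y, rfl, ?_⟩))).symm
          have e : k - U v + Dn v - Dn v + U v = k := by omega
          rw [e]
          exact hy
        · rw [lp_none h4, hcs _ le_rfl]
  · rintro ⟨b1, b2, b3, b4, b5⟩
    refine ⟨fun x y h => ?_, fun k x h => ?_, fun k x h => ?_⟩
    · rcases (a1 v w x y).mp h with h3 | ⟨x', y', rfl, rfl, h3⟩ | ⟨k, y', rfl, h3, h4⟩
      · have h4 : y < v.length := h3.2.1
        have h5 : x < y := h3.1
        have h6 := b1 x y h3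
        rwa [tc_lt c h4, tc_lt c (by omega)] at h6
      · exact b2 x' y' h3
      · have h5 := b5 k
        have h6 : x < v.length := h3.1
        rwa [rp_eq h1 h3, lp_eq h1 h4, tc_lt c h6] at h5
    · rcases (a2 v w k x).mp h with ⟨x', rfl, h3⟩ | ⟨h3, h4⟩
      · exact b4 k x' h3
      · have h5 := b5 (k - U w + Dn w)
        have h6 : x < v.length := h4.1
        have h7 : ¬ ∃ y, lop w (k - U w + Dn w) y := by
          rw [ex_lop h1]
          omega
        rwa [rp_eq h1 h4, lp_none h7, tc_lt c h6, hcs _ le_rfl] at h5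
    · rcases (a3 v w k x).mp h with h3 | ⟨h3, x', rfl, h4⟩
      · have h6 : x < v.length := h3.1
        have h5 := b3 k x h3
        rwa [tc_lt c h6] at h5
      · have h5 := b5 (k - Dn v + U v)
        have h7 : ¬ ∃ y, rop v (k - Dn v + U v) y := by
          rw [ex_rop h1]
          omega
        rw [rp_none h7, lp_eq h1 h4, hct _ le_rfl] at h5
        exact h5.symm

/-- the mirror image -/
lemma mirl (h2 : S_ARC2) (v : List Bool) (c : V2) (hc : Zr v.length c) :
    (Cs v c → Cs (v.map not).reverse (rf v.length c)) ∧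
    (∀ k, rf v.length c (rp (v.map not).reverse k) = c (lp v k)) ∧
    ∀ k, rf v.length c (lp (v.map not).reverse k) = c (rp v k) := by
  obtain ⟨-, -, -, a4, a5, a6⟩ := h2
  have hl : (v.map not).reverse.length = v.length := by simp
  refine ⟨fun h x y hxy => ?_, fun k => ?_, fun k => ?_⟩
  · have h3 : y < v.length := by
      have := hxy.2.1
      omega
    have h4 : x < y := hxy.1
    obtain ⟨h5, h6⟩ := (a4 v x y h3).mp hxy
    rw [rf_lt c h3, rf_lt c h5]
    exact (h _ _ h6).symm
  · by_cases h3 : ∃ x, rop (v.map not).reverse k x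
    · obtain ⟨x, hx⟩ := h3
      have h4 : x < v.length := by
        have := hx.1
        omega
      rw [rp_eq h1 hx, rf_lt c h4, lp_eq h1 ((a5 v k x h4).mp hx)]
    · rw [rp_none h3, hl, rf_ge c le_rfl]
      have h4 : ¬ ∃ x, lop v k x := by
        rintro ⟨x, hx⟩
        have h5 : x < v.length := hx.1
        refine h3 ⟨v.length - 1 - x, (a5 v k _ (by omega)).mpr ?_⟩
        have e : v.length - 1 - (v.length - 1 - x) = x := by omega
        rw [e]
        exact hx
      rw [lp_none h4, hc _ le_rfl]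
  · by_cases h3 : ∃ x, lop (v.map not).reverse k x
    · obtain ⟨x, hx⟩ := h3
      have h4 : x < v.length := by
        have := hx.1
        omega
      rw [lp_eq h1 hx, rf_lt c h4, rp_eq h1 ((a6 v k x h4).mp hx)]
    · rw [lp_none h3, hl, rf_ge c le_rfl]
      have h4 : ¬ ∃ x, rop v k x := by
        rintro ⟨x, hx⟩
        have h5 : x < v.length := hx.1
        refine h3 ⟨v.length - 1 - x, (a6 v k _ (by omega)).mpr ?_⟩
        have e : v.length - 1 - (v.length - 1 - x) = x := by omega
        rw [e]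
        exact hx
      rw [rp_none h4, hc _ le_rfl]

end

/-! ### words -/

lemma up_app (I J : W) : up (I ++ J) = up I ++ up J := List.map_append

lemma lo_app (I J : W) : lo (I ++ J) = lo I ++ lo J := List.map_append

lemma up_len (I : W) : (up I).length = I.length := List.length_map _

lemma lo_len (I : W) : (lo I).length = I.length := List.length_map _

lemma up_mir (I : W) : up (mir I) = ((up I).map not).reverse := by
  unfold up mir
  rw [List.map_reverse, List.map_map, List.map_map]
  rfl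

lemma lo_mir (I : W) : lo (mir I) = ((lo I).map not).reverse := by
  unfold lo mir
  rw [List.map_reverse, List.map_map, List.map_map]
  rfl

lemma mir_mir (I : W) : mir (mir I) = I := by
  unfold mir
  rw [List.map_reverse, List.reverse_reverse, List.map_map]
  convert List.map_id I using 1
  apply List.map_congr_left
  rintro ⟨a, b⟩ _
  simp

lemma mir_len (I : W) : (mir I).length = I.length := by
  unfold mir
  simp

lemma mem_PP {w : W} {c : V2} : c ∈ PP w ↔ Zr w.length c ∧ Cs (up w) c ∧ Cs (lo w) c := Iff.rfl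

lemma ev_zero {p : ℕ → ℕ} {c : V2} : ev p c = 0 ↔ ∀ k, c (p k) = 0 := by
  constructor
  · intro h k
    exact congrFun h k
  · intro h
    funext k
    exact h k

lemma ev_ap (p : ℕ → ℕ) (c : V2) (k : ℕ) : ev p c k = c (p k) := rfl

lemma mem_CC {w : W} {c : V2} : c ∈ CC w ↔ c ∈ PP w ∧ (∀ k, c (rp (up w) k) = 0) ∧
    (∀ k, c (lp (up w) k) = 0) ∧ (∀ k, c (rp (lo w) k) = 0) ∧ ∀ k, c (lp (lo w) k) = 0 := by
  unfold CC
  simp only [Submodule.mem_inf, LinearMap.mem_ker, ev_zero]
  tauto

lemma mem_BR {w : W} {b : V2 × V2} : b ∈ BR w ↔ ∃ c ∈ PP w, (∀ k, c (lp (up w) k) = 0) ∧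
    (∀ k, c (lp (lo w) k) = 0) ∧ (∀ k, c (rp (up w) k) = b.1 k) ∧ ∀ k, c (rp (lo w) k) = b.2 k := by
  unfold BR
  simp only [Submodule.mem_map, Submodule.mem_inf, LinearMap.mem_ker, ev_zero]
  constructor
  · rintro ⟨c, ⟨h1, h2, h3⟩, rfl⟩
    exact ⟨c, h1, h2, h3, fun k => rfl, fun k => rfl⟩
  · rintro ⟨c, h1, h2, h3, h4, h5⟩
    refine ⟨c, ⟨h1, h2, h3⟩, Prod.ext (funext h4) (funext h5)⟩

/-- membership in the space of the concatenation -/
lemma mem_app (h1 : S_ARC1) (h2 : S_ARC2) (I J : W) (c : V2) : c ∈ CC (I ++ J) ↔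
    (tc I.length c ∈ PP I ∧ sh I.length c ∈ PP J ∧
      (∀ k, tc I.length c (lp (up I) k) = 0) ∧ (∀ k, tc I.length c (lp (lo I) k) = 0) ∧
      (∀ k, sh I.length c (rp (up J) k) = 0) ∧ (∀ k, sh I.length c (rp (lo J) k) = 0) ∧
      (∀ k, tc I.length c (rp (up I) k) = sh I.length c (lp (up J) k)) ∧
      ∀ k, tc I.length c (rp (lo I) k) = sh I.length c (lp (lo J) k)) := by
  rw [mem_CC, mem_PP, mem_PP, mem_PP, up_app, lo_app, List.length_append]
  by_cases hc : Zr (I.length + J.length) c
  · have ku := key h1 h2 (up I) (up J) c (by rw [up_len, up_len]; exact hc)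
    have kl := key h1 h2 (lo I) (lo J) c (by rw [lo_len, lo_len]; exact hc)
    rw [up_len] at ku
    rw [lo_len] at kl
    have z1 : Zr I.length (tc I.length c) := fun i hi => tc_ge c hi
    have z2 : Zr J.length (sh I.length c) := fun i hi => hc _ (by omega)
    tauto
  · constructor
    · rintro ⟨⟨h, _⟩, _⟩
      exact absurd h hc
    · rintro ⟨_, ⟨h, _⟩, _⟩
      refine absurd (fun i hi => ?_) hc
      have h3 := h (i - I.length) (by omega)
      rw [sh_ap] at h3
      rwa [show I.length + (i - I.length) = i by omega] at h3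

/-- mirror image on words -/
lemma mir_mem (h1 : S_ARC1) (h2 : S_ARC2) (w : W) (c : V2) (hc : c ∈ PP w) :
    rf w.length c ∈ PP (mir w) ∧
    (∀ k, rf w.length c (rp (up (mir w)) k) = c (lp (up w) k)) ∧
    (∀ k, rf w.length c (lp (up (mir w)) k) = c (rp (up w) k)) ∧
    (∀ k, rf w.length c (rp (lo (mir w)) k) = c (lp (lo w) k)) ∧
    ∀ k, rf w.length c (lp (lo (mir w)) k) = c (rp (lo w) k) := by
  rw [mem_PP] at hc
  obtain ⟨h3, h4, h5⟩ := hc
  have mu := mirl h1 h2 (up w) c (by rw [up_len]; exact h3)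
  have ml := mirl h1 h2 (lo w) c (by rw [lo_len]; exact h3)
  rw [up_len, ← up_mir] at mu
  rw [lo_len, ← lo_mir] at ml
  rw [mem_PP, mir_len]
  exact ⟨⟨fun i hi => rf_ge c hi, mu.1 h4, ml.1 h5⟩, mu.2.1, mu.2.2, ml.2.1, ml.2.2⟩

/-! ### dimensions -/

/-- finite dimension -/
lemma fin_PP (w : W) : Module.Finite (ZMod 2) (PP w) := by
  refine Module.Finite.of_injective
    ((LinearMap.funLeft (ZMod 2) (ZMod 2) (fun i : Fin w.length => (i : ℕ))).comp (PP w).subtype) ?_
  rintro ⟨a, ha⟩ ⟨b, hb⟩ h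
  apply Subtype.ext
  funext i
  by_cases hi : i < w.length
  · exact congrFun h ⟨i, hi⟩
  · show a i = b i
    rw [ha.1 i (by omega), hb.1 i (by omega)]

lemma CC_le (w : W) : CC w ≤ PP w := inf_le_left

lemma fin_CC (w : W) : Module.Finite (ZMod 2) (CC w) := by
  have := fin_PP w
  exact Module.Finite.of_injective (Submodule.inclusion (CC_le w)) (Submodule.inclusion_injective _)

/-- rank and nullity on a subspace -/
lemma rn {V V' : Type} [AddCommGroup V] [AddCommGroup V'] [Module (ZMod 2) V] [Module (ZMod 2) V']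
    (Θ : V →ₗ[ZMod 2] V') (C : Submodule (ZMod 2) V) (hC : Module.Finite (ZMod 2) C) :
    finrank (ZMod 2) (C.map Θ) + finrank (ZMod 2) (C ⊓ LinearMap.ker Θ : Submodule (ZMod 2) V) =
      finrank (ZMod 2) C := by
  rw [← (Θ.domRestrict C).finrank_range_add_finrank_ker, LinearMap.range_domRestrict,
    ← Submodule.map_comap_subtype, Submodule.finrank_map_subtype_eq]
  rfl

lemma fprod {V V' : Type} [AddCommGroup V] [AddCommGroup V'] [Module (ZMod 2) V]
    [Module (ZMod 2) V'] (A : Submodule (ZMod 2) V) (B : Submodule (ZMod 2) V')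
    (hA : Module.Finite (ZMod 2) A) (hB : Module.Finite (ZMod 2) B) :
    finrank (ZMod 2) (A.prod B) = finrank (ZMod 2) A + finrank (ZMod 2) B := by
  let e : (A.prod B) ≃ₗ[ZMod 2] A × B :=
    { toFun := fun x => (⟨x.1.1, x.2.1⟩, ⟨x.1.2, x.2.2⟩)
      map_add' := fun _ _ => rfl
      map_smul' := fun _ _ => rfl
      invFun := fun x => ⟨(x.1.1, x.2.1), x.1.2, x.2.2⟩
      left_inv := fun _ => rfl
      right_inv := fun _ => rfl }
  rw [e.finrank_eq, finrank_prod]

/-- gluing -/
def gl (n : ℕ) (a b : V2) : V2 := fun i => if i < n then a i else b (i - n)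

lemma tc_gl {n : ℕ} {a b : V2} (ha : Zr n a) : tc n (gl n a b) = a := by
  funext i
  by_cases hi : i < n
  · rw [tc_lt _ hi]
    exact if_pos hi
  · rw [tc_ge _ (by omega), ha i (by omega)]

lemma sh_gl {n : ℕ} {a b : V2} : sh n (gl n a b) = b := by
  funext i
  rw [sh_ap]
  show (if n + i < n then a (n + i) else b (n + i - n)) = b i
  rw [if_neg (by omega), Nat.add_sub_cancel_left]

/-- the values at the junction -/
noncomputable def Th (I : W) : V2 →ₗ[ZMod 2] V2 × V2 :=
  LinearMap.prod ((ev (rp (up I))).comp (tc I.length)) ((ev (rp (lo I))).comp (tc I.length))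

lemma Th_ap (I : W) (c : V2) : Th I c = (fun k => tc I.length c (rp (up I) k),
    fun k => tc I.length c (rp (lo I) k)) := rfl

lemma ker_part (h1 : S_ARC1) (h2 : S_ARC2) (I J : W) :
    finrank (ZMod 2) (CC (I ++ J) ⊓ LinearMap.ker (Th I) : Submodule (ZMod 2) V2) =
      f I + f J := by
  have hinj : Function.Injective (LinearMap.prod (tc I.length) (sh I.length)) := by
    intro a b h
    have e1 : tc I.length a = tc I.length b := congrArg Prod.fst h
    have e2 : sh I.length a = sh I.length b := congrArg Prod.snd h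
    funext i
    by_cases hi : i < I.length
    · have := congrFun e1 i
      rwa [tc_lt _ hi, tc_lt _ hi] at this
    · have := congrFun e2 (i - I.length)
      rwa [sh_ap, sh_ap, show I.length + (i - I.length) = i by omega] at this
  rw [(Submodule.equivMapOfInjective _ hinj _).finrank_eq]
  have e : (CC (I ++ J) ⊓ LinearMap.ker (Th I) : Submodule (ZMod 2) V2).map
      (LinearMap.prod (tc I.length) (sh I.length)) = (CC I).prod (CC J) := by
    ext ⟨a, b⟩
    rw [Submodule.mem_map, Submodule.mem_prod]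
    constructor
    · rintro ⟨c, ⟨hc, hk⟩, hab⟩
      have ha : tc I.length c = a := congrArg Prod.fst hab
      have hb : sh I.length c = b := congrArg Prod.snd hab
      have hc' := (mem_app h1 h2 I J c).mp hc
      have hk' : Th I c = 0 := hk
      rw [Th_ap] at hk'
      have k1 : ∀ k, tc I.length c (rp (up I) k) = 0 := fun k => congrFun (congrArg Prod.fst hk') k
      have k2 : ∀ k, tc I.length c (rp (lo I) k) = 0 := fun k => congrFun (congrArg Prod.snd hk') k
      rw [ha, hb] at hc'
      rw [ha] at k1 k2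
      obtain ⟨c1, c2, c3, c4, c5, c6, c7, c8⟩ := hc'
      show a ∈ CC I ∧ b ∈ CC J
      rw [mem_CC, mem_CC]
      exact ⟨⟨c1, k1, c3, k2, c4⟩, c2, c5, fun k => by rw [← c7, k1], c6,
        fun k => by rw [← c8, k2]⟩
    · rintro ⟨ha, hb⟩
      have ha' : a ∈ CC I := ha
      have hb' : b ∈ CC J := hb
      rw [mem_CC] at ha' hb'
      obtain ⟨a0, a1, a2, a3, a4⟩ := ha'
      obtain ⟨b0, b1, b2, b3, b4⟩ := hb'
      have e1 : tc I.length (gl I.length a b) = a := tc_gl a0.1
      have e2 : sh I.length (gl I.length a b) = b := sh_gl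
      refine ⟨gl I.length a b, ⟨?_, ?_⟩, Prod.ext e1 e2⟩
      · show gl I.length a b ∈ CC (I ++ J)
        rw [mem_app h1 h2, e1, e2]
        exact ⟨a0, b0, a2, a4, b1, b3, fun k => by rw [a1, b2], fun k => by rw [a3, b4]⟩
      · show Th I _ = 0
        rw [Th_ap, e1]
        exact Prod.ext (funext a1) (funext a3)
  rw [e, fprod _ _ (fin_CC I) (fin_CC J)]
  rfl

lemma range_part (h1 : S_ARC1) (h2 : S_ARC2) (I J : W) :
    (CC (I ++ J)).map (Th I) = BR I ⊓ BR (mir J) := by
  ext ⟨p, q⟩
  rw [Submodule.mem_inf, Submodule.mem_map, mem_BR, mem_BR]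
  constructor
  · rintro ⟨c, hc, he⟩
    rw [Th_ap] at he
    have hp : ∀ k, tc I.length c (rp (up I) k) = p k := fun k => congrFun (congrArg Prod.fst he) k
    have hq : ∀ k, tc I.length c (rp (lo I) k) = q k := fun k => congrFun (congrArg Prod.snd he) k
    obtain ⟨c1, c2, c3, c4, c5, c6, c7, c8⟩ := (mem_app h1 h2 I J c).mp hc
    refine ⟨⟨_, c1, c3, c4, hp, hq⟩, ?_⟩
    obtain ⟨m1, m2, m3, m4, m5⟩ := mir_mem h1 h2 J _ c2
    refine ⟨_, m1, fun k => ?_, fun k => ?_, fun k => ?_, fun k => ?_⟩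
    · rw [m3, c5]
    · rw [m5, c6]
    · rw [m2, ← c7, hp]
    · rw [m4, ← c8, hq]
  · rintro ⟨⟨a, a1, a2, a3, a4, a5⟩, b, b1, b2, b3, b4, b5⟩
    obtain ⟨m1, m2, m3, m4, m5⟩ := mir_mem h1 h2 (mir J) b b1
    rw [mir_mir] at m1 m2 m3 m4 m5
    set b' : V2 := rf (mir J).length b with hb'
    have e1 : tc I.length (gl I.length a b') = a := tc_gl a1.1
    have e2 : sh I.length (gl I.length a b') = b' := sh_gl
    refine ⟨gl I.length a b', ?_, ?_⟩
    · show gl I.length a b' ∈ CC (I ++ J)
      rw [mem_app h1 h2, e1, e2]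
      refine ⟨a1, m1, a2, a3, fun k => ?_, fun k => ?_, fun k => ?_, fun k => ?_⟩
      · rw [m2, b2]
      · rw [m4, b3]
      · rw [m3, b4, a4]
      · rw [m5, b5, a5]
    · rw [Th_ap, e1]
      exact Prod.ext (funext a4) (funext a5)

/-- **joining two words** -/
theorem join (_ : S_U) (h1 : S_ARC1) (h2 : S_ARC2) : S_JOIN := by
  intro I J
  have h := rn (Th I) (CC (I ++ J)) (fin_CC _)
  rw [ker_part h1 h2, range_part h1 h2] at h
  show finrank (ZMod 2) (CC (I ++ J)) = _
  rw [← h]
  ring

lemma mir_le (h1 : S_ARC1) (h2 : S_ARC2) (w : W) : f w ≤ f (mir w) := by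
  have hm : ∀ c : CC w, rf w.length (c : V2) ∈ CC (mir w) := by
    rintro ⟨c, hc⟩
    rw [mem_CC] at hc ⊢
    obtain ⟨c0, c1, c2, c3, c4⟩ := hc
    obtain ⟨m1, m2, m3, m4, m5⟩ := mir_mem h1 h2 w c c0
    exact ⟨m1, fun k => by rw [m2, c2], fun k => by rw [m3, c1], fun k => by rw [m4, c4],
      fun k => by rw [m5, c3]⟩
  have := fin_CC (mir w)
  refine LinearMap.finrank_le_finrank_of_injective
    (f := (((rf w.length).comp (CC w).subtype).codRestrict (CC (mir w)) hm)) ?_
  rintro ⟨a, ha⟩ ⟨b, hb⟩ h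
  apply Subtype.ext
  have h3 : rf w.length a = rf w.length b := congrArg Subtype.val h
  have a0 := (CC_le w ha).1
  have b0 := (CC_le w hb).1
  funext i
  by_cases hi : i < w.length
  · have h4 := congrFun h3 (w.length - 1 - i)
    rw [rf_lt _ (by omega), rf_lt _ (by omega),
      show w.length - 1 - (w.length - 1 - i) = i by omega] at h4
    exact h4
  · show a i = b i
    rw [a0 i (by omega), b0 i (by omega)]

/-- **symmetries** -/
theorem mirr (h1 : S_ARC1) (h2 : S_ARC2) : S_MIR := by
  intro w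
  constructor
  · refine le_antisymm ?_ (mir_le h1 h2 w)
    have h := mir_le h1 h2 (mir w)
    rwa [mir_mir] at h
  · unfold f
    have e : CC (sw w) = CC w := by
      have u : up (sw w) = lo w := by
        unfold up sw lo
        rw [List.map_map]
        rfl
      have l : lo (sw w) = up w := by
        unfold up sw lo
        rw [List.map_map]
        rfl
      ext c
      rw [mem_CC, mem_CC, mem_PP, mem_PP, u, l]
      have hl : (sw w).length = w.length := List.length_map _
      rw [hl]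
      tauto
    rw [e]

end Pool.Agent.N940.MN.Join
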