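import Pool.Agent.N940.MN.Stm3

/-!
# Consecutive windows of a uniformly random word are independent
-/

set_option autoImplicit false

open Filter Topology Finset

namespace Pool.Agent.N940.MN.Kr

open Pool.Agent.N940.MN

/-- expectation of a function of the last window -/
noncomputable def Z (M : ℕ) (φ : W → ℝ) (r : ℕ) : ℝ :=
  Ew r fun I => if M ≤ U (up I) then φ (sfx M I) else 0

open Classical in
/-- contribution of the windows of length `l` -/
noncomputable def Bl (M : ℕ) (φ : W → ℝ) (l : ℕ) : ℝ :=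
  Ew l fun L => if IsWin M L then φ L else 0

open Classical in
/-- the pointwise form of the parse lemma -/
lemma parse_pt (hW : S_WN) {M : ℕ} (hM : 0 < M) (G : W → W → ℝ) (r : ℕ) (w : W)
    (hw : w.length = r) :
    (if M ≤ U (up w) then G (pre M w) (sfx M w) else 0) =
      ∑ l ∈ range (r + 1), if IsWin M (w.drop (r - l)) then
        G (w.take (r - l)) (w.drop (r - l)) else 0 := by
  obtain ⟨h1, h2, -, h4, -, -⟩ := hW
  split_ifs with h
  · have hwin := (h2 M w hM h).1
    have hcat := h1 M w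
    have hlen : (pre M w).length + (sfx M w).length = r := by
      rw [← List.length_append, hcat, hw]
    rw [sum_eq_single (sfx M w).length]
    · have e : r - (sfx M w).length = (pre M w).length := by omega
      have ed : w.drop (r - (sfx M w).length) = sfx M w := by
        have := List.drop_left (l₁ := pre M w) (l₂ := sfx M w)
        rw [hcat] at this
        rw [e]
        exact this
      have et : w.take (r - (sfx M w).length) = pre M w := by
        have := List.take_left (l₁ := pre M w) (l₂ := sfx M w)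
        rw [hcat] at this
        rw [e]
        exact this
      rw [ed, et, if_pos hwin]
    · intro l hl hne
      rw [mem_range] at hl
      rw [if_neg]
      intro hl'
      have := (h4 M (w.take (r - l)) (w.drop (r - l)) hM hl').1
      rw [List.take_append_drop] at this
      apply hne
      rw [this, List.length_drop, hw]
      omega
    · intro hn
      exfalso
      apply hn
      rw [mem_range]
      omega
  · symm
    refine sum_eq_zero fun l _ => ?_
    rw [if_neg]
    intro hl'
    have := (h4 M (w.take (r - l)) (w.drop (r - l)) hM hl').2.2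
    rw [List.take_append_drop] at this
    exact h this

open Classical in
/-- the parse lemma -/
lemma parse (hW : S_WN) {M : ℕ} (hM : 0 < M) (G : W → W → ℝ) (r : ℕ) :
    Ew r (fun w => if M ≤ U (up w) then G (pre M w) (sfx M w) else 0) =
      ∑ l ∈ range (r + 1), Ew l fun L => Ew (r - l) fun p =>
        if IsWin M L then G p L else 0 := by
  rw [Ew_congr (G := fun w => ∑ l ∈ range (r + 1), if IsWin M (w.drop (r - l)) then
        G (w.take (r - l)) (w.drop (r - l)) else 0)
      (fun w hw => parse_pt hW hM G r w hw), Ew_sum]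
  refine sum_congr rfl fun l hl => ?_
  rw [mem_range] at hl
  rw [Ew_comm]
  have e : r = (r - l) + l := by omega
  conv_lhs => rw [e]
  rw [Ew_append]
  refine Ew_congr fun p hp => Ew_congr fun L hL => ?_
  have e2 : r - l + l - l = p.length := by omega
  rw [e2, List.drop_left, List.take_left]

lemma Z_eq (hW : S_WN) {M : ℕ} (hM : 0 < M) (φ : W → ℝ) (r : ℕ) :
    Z M φ r = ∑ l ∈ range (r + 1), Bl M φ l := by
  unfold Z Bl
  rw [parse hW hM (fun _ L => φ L) r]
  refine sum_congr rfl fun l _ => Ew_congr fun L _ => ?_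
  rw [Ew_const]

lemma Bl_nonneg {M : ℕ} {φ : W → ℝ} (hφ : ∀ L, 0 ≤ φ L) (l : ℕ) : 0 ≤ Bl M φ l := by
  unfold Bl
  refine Ew_nonneg fun w _ => ?_
  split_ifs
  · exact hφ _
  · exact le_rfl

lemma Z_nonneg {M : ℕ} {φ : W → ℝ} (hφ : ∀ L, 0 ≤ φ L) (r : ℕ) : 0 ≤ Z M φ r := by
  unfold Z
  refine Ew_nonneg fun w _ => ?_
  split_ifs
  · exact hφ _
  · exact le_rfl

lemma Z_mono (hW : S_WN) {M : ℕ} (hM : 0 < M) {φ : W → ℝ} (hφ : ∀ L, 0 ≤ φ L) {r s : ℕ}
    (h : r ≤ s) : Z M φ r ≤ Z M φ s := by
  rw [Z_eq hW hM, Z_eq hW hM]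
  refine sum_le_sum_of_subset_of_nonneg ?_ fun l _ _ => Bl_nonneg hφ l
  intro l hl
  rw [mem_range] at hl ⊢
  omega

lemma Z_le {M : ℕ} {φ φ' : W → ℝ} (h : ∀ L, φ L ≤ φ' L) (r : ℕ) : Z M φ r ≤ Z M φ' r := by
  unfold Z
  refine Ew_mono fun w _ => ?_
  split_ifs
  · exact h _
  · exact le_rfl

lemma Z_mul {M : ℕ} (c : ℝ) (φ : W → ℝ) (r : ℕ) : Z M (fun L => c * φ L) r = c * Z M φ r := by
  unfold Z
  rw [← Ew_mul_left]
  refine Ew_congr fun w _ => ?_
  split_ifs <;> simp

/-- one window is split off -/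
lemma step (hW : S_WN) {M : ℕ} (hM : 0 < M) (G : W → W → ℝ) (φ : W → ℝ) (r : ℕ)
    (hG : ∀ L, ∀ s ≤ r, Ew s (fun p => G p L) ≤ φ L) :
    Ew r (fun w => if M ≤ U (up w) then G (pre M w) (sfx M w) else 0) ≤ Z M φ r := by
  rw [parse hW hM, Z_eq hW hM]
  refine sum_le_sum fun l _ => ?_
  unfold Bl
  refine Ew_mono fun L _ => ?_
  split_ifs with h
  · exact hG L _ (Nat.sub_le _ _)
  · rw [Ew_const]

/-- the mean over pairs of windows -/
lemma mn_eq (M : ℕ) (ψ : W → W → ℝ) (r : ℕ) : mn M ψ r = Z M (fun L => Z M (ψ L) r) r := by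
  unfold mn Z
  refine Ew_congr fun I _ => ?_
  by_cases h : M ≤ U (up I)
  · simp only [h, true_and, if_true]
  · simp only [h, false_and, if_false]
    rw [Ew_const]

lemma mn_nonneg {M : ℕ} {ψ : W → W → ℝ} (hψ : ∀ L L', 0 ≤ ψ L L') (r : ℕ) : 0 ≤ mn M ψ r := by
  rw [mn_eq]
  exact Z_nonneg (fun L => Z_nonneg (hψ L) r) r

/-- monotonicity in the length -/
lemma mn_mono (hW : S_WN) {M : ℕ} (hM : 0 < M) {ψ : W → W → ℝ} (hψ : ∀ L L', 0 ≤ ψ L L')
    {r s : ℕ} (h : r ≤ s) : mn M ψ r ≤ mn M ψ s := by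
  rw [mn_eq, mn_eq]
  exact (Z_le (fun L => Z_mono hW hM (hψ L) h) r).trans
    (Z_mono hW hM (fun L => Z_nonneg (hψ L) s) h)

/-! ### one word -/

/-- the product over the first `q` windows -/
noncomputable def P1 (M : ℕ) (ψ : W → ℝ) (q : ℕ) (I : W) : ℝ :=
  if q * M ≤ U (up I) then ∏ t ∈ range q, ψ (wn M t I) else 0

lemma P1_succ (hW : S_WN) {M : ℕ} (hM : 0 < M) (ψ : W → ℝ) (q : ℕ) (I : W) :
    P1 M ψ (q + 1) I = if M ≤ U (up I) then P1 M ψ q (pre M I) * ψ (sfx M I) else 0 := by
  unfold P1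
  have hm : (q + 1) * M = q * M + M := by ring
  by_cases h : M ≤ U (up I)
  · have hU := (hW.2.1 M I hM h).2
    rw [if_pos h]
    by_cases h' : (q + 1) * M ≤ U (up I)
    · rw [if_pos h', if_pos (by omega), prod_range_succ']
      rfl
    · rw [if_neg h', if_neg (by omega), zero_mul]
  · rw [if_neg h, if_neg (by omega)]

lemma one (hW : S_WN) {M : ℕ} (hM : 0 < M) {ψ : W → ℝ} (hψ : ∀ L, 0 ≤ ψ L) (r : ℕ) :
    ∀ (q r' : ℕ), r' ≤ r → Ew r' (P1 M ψ q) ≤ (Z M ψ r) ^ q := by
  intro q
  induction q with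
  | zero =>
    intro r' _
    have : P1 M ψ 0 = fun _ => (1 : ℝ) := by
      funext I
      simp [P1]
    rw [this, Ew_const, pow_zero]
  | succ q ih =>
    intro r' hr'
    have h1 : Ew r' (P1 M ψ (q + 1)) ≤ Z M (fun L => (Z M ψ r) ^ q * ψ L) r' := by
      rw [Ew_congr (fun w _ => P1_succ hW hM ψ q w)]
      refine step hW hM (fun p L => P1 M ψ q p * ψ L) _ r' fun L s hs => ?_
      rw [Ew_mul_right]
      exact mul_le_mul_of_nonneg_right (ih s (hs.trans hr')) (hψ L)
    rw [Z_mul] at h1
    refine h1.trans ?_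
    rw [pow_succ]
    exact mul_le_mul_of_nonneg_left (Z_mono hW hM hψ hr') (pow_nonneg (Z_nonneg hψ r) q)

/-! ### two words -/

/-- the product over the first `q` windows of two words -/
noncomputable def P2 (M : ℕ) (ψ : W → W → ℝ) (q : ℕ) (I J : W) : ℝ :=
  if q * M ≤ U (up I) ∧ q * M ≤ U (up J) then ∏ t ∈ range q, ψ (wn M t I) (wn M t J) else 0

lemma P2_succ (hW : S_WN) {M : ℕ} (hM : 0 < M) (ψ : W → W → ℝ) (q : ℕ) (I J : W) :
    P2 M ψ (q + 1) I J = if M ≤ U (up I) then (if M ≤ U (up J) then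
      P2 M ψ q (pre M I) (pre M J) * ψ (sfx M I) (sfx M J) else 0) else 0 := by
  unfold P2
  have hm : (q + 1) * M = q * M + M := by ring
  by_cases h : M ≤ U (up I)
  · have hU := (hW.2.1 M I hM h).2
    rw [if_pos h]
    by_cases h2 : M ≤ U (up J)
    · have hU2 := (hW.2.1 M J hM h2).2
      rw [if_pos h2]
      by_cases h' : (q + 1) * M ≤ U (up I) ∧ (q + 1) * M ≤ U (up J)
      · rw [if_pos h', if_pos (by omega), prod_range_succ']
        rfl
      · rw [if_neg h', if_neg (by omega), zero_mul]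
    · rw [if_neg h2, if_neg (by omega)]
  · rw [if_neg h, if_neg (by omega)]

lemma two (hW : S_WN) {M : ℕ} (hM : 0 < M) {ψ : W → W → ℝ} (hψ : ∀ L L', 0 ≤ ψ L L') (r : ℕ) :
    ∀ (q r₁ r₂ : ℕ), r₁ ≤ r → r₂ ≤ r →
      Ew r₁ (fun I => Ew r₂ fun J => P2 M ψ q I J) ≤ (mn M ψ r) ^ q := by
  intro q
  induction q with
  | zero =>
    intro r₁ r₂ _ _
    have : P2 M ψ 0 = fun _ _ => (1 : ℝ) := by
      funext I J
      simp [P2]
    rw [this]
    simp only [Ew_const]
    simp
  | succ q ih =>
    intro r₁ r₂ h1 h2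
    have hc : 0 ≤ (mn M ψ r) ^ q := pow_nonneg (mn_nonneg hψ r) q
    have key : Ew r₁ (fun I => Ew r₂ fun J => P2 M ψ (q + 1) I J) ≤
        Z M (fun L => (mn M ψ r) ^ q * Z M (ψ L) r) r₁ := by
      rw [Ew_congr (G := fun I => if M ≤ U (up I) then (fun p L => Ew r₂ fun J =>
          if M ≤ U (up J) then P2 M ψ q p (pre M J) * ψ L (sfx M J) else 0)
          (pre M I) (sfx M I) else 0)]
      · refine step hW hM (fun p L => Ew r₂ fun J =>
          if M ≤ U (up J) then P2 M ψ q p (pre M J) * ψ L (sfx M J) else 0)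
          (fun L => (mn M ψ r) ^ q * Z M (ψ L) r) r₁ fun L s hs => ?_
        rw [Ew_comm]
        rw [Ew_congr (G := fun J => if M ≤ U (up J) then (fun p' L' =>
          Ew s (fun p => P2 M ψ q p p') * ψ L L') (pre M J) (sfx M J) else 0)]
        · refine (step hW hM (fun p' L' => Ew s (fun p => P2 M ψ q p p') * ψ L L')
            (fun L' => (mn M ψ r) ^ q * ψ L L') r₂ fun L' s' hs' => ?_).trans ?_
          · rw [Ew_mul_right, Ew_comm]
            exact mul_le_mul_of_nonneg_right (ih s s' (hs.trans h1) (hs'.trans h2)) (hψ L L')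
          · rw [Z_mul]
            exact mul_le_mul_of_nonneg_left (Z_mono hW hM (hψ L) h2) hc
        · intro J _
          dsimp only
          split_ifs
          · rw [Ew_mul_right]
          · rw [Ew_const]
      · intro I _
        dsimp only
        rw [Ew_congr (fun J _ => P2_succ hW hM ψ q I J)]
        split_ifs
        · rfl
        · rw [Ew_const]
    refine key.trans ?_
    rw [Z_mul, pow_succ]
    refine mul_le_mul_of_nonneg_left ?_ hc
    rw [mn_eq M ψ r]
    exact Z_mono hW hM (fun L => Z_nonneg (hψ L) r) h1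

/-! ### windows from both ends of one word -/

/-- the product over the first `q` windows from both ends -/
noncomputable def P3 (M : ℕ) (ψ : W → W → ℝ) (q : ℕ) (w : W) : ℝ :=
  if q * M ≤ U (up w) ∧ q * M ≤ Dn (up w) then
    ∏ t ∈ range q, ψ (wn M t w) (wn M t (mir w)) else 0

/-- the windows do not depend on the beginning of the word -/
lemma wn_append (hW : S_WN) {M : ℕ} (hM : 0 < M) (x : W) :
    ∀ (t : ℕ) (v : W), (t + 1) * M ≤ U (up v) → wn M t (x ++ v) = wn M t v := by
  intro t
  induction t with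
  | zero =>
    intro v hv
    have hv' : M ≤ U (up v) := by omega
    have hwin := (hW.2.1 M v hM hv').1
    have hcat := hW.1 M v
    have := (hW.2.2.2.1 M (x ++ pre M v) (sfx M v) hM hwin).1
    rw [List.append_assoc, hcat] at this
    exact this
  | succ t ih =>
    intro v hv
    have hm : (t + 1 + 1) * M = (t + 1) * M + M := by ring
    have hv' : M ≤ U (up v) := by omega
    have hwin := hW.2.1 M v hM hv'
    have hcat := hW.1 M v
    have := (hW.2.2.2.1 M (x ++ pre M v) (sfx M v) hM hwin.1).2.1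
    rw [List.append_assoc, hcat] at this
    show wn M t (pre M (x ++ v)) = wn M t (pre M v)
    rw [this]
    exact ih _ (by rw [hwin.2]; omega)

lemma P3_succ (hU : S_U) (hW : S_WN) {M : ℕ} (hM : 0 < M) (ψ : W → W → ℝ) (q : ℕ) (w : W) :
    P3 M ψ (q + 1) w = if M ≤ U (up w) then (if M ≤ U (up (mir (pre M w))) then
      P3 M ψ q (mir (pre M (mir (pre M w)))) * ψ (sfx M w) (sfx M (mir (pre M w)))
        else 0) else 0 := by
  obtain ⟨hU1, -, hU3⟩ := hU
  have hUm : ∀ x : W, U (up (mir x)) = Dn (up x) := fun x => by rw [up_mir]; exact (hU3 _).1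
  have hDm : ∀ x : W, Dn (up (mir x)) = U (up x) := fun x => by rw [up_mir]; exact (hU3 _).2
  have hm : (q + 1) * M = q * M + M := by ring
  by_cases h : M ≤ U (up w)
  · rw [if_pos h]
    have hw1 := hW.2.1 M w hM h
    have hcat := hW.1 M w
    set p := pre M w with hp
    set L := sfx M w with hL
    have hDL : Dn (up L) = 0 := hW.2.2.2.2.1 M L hM hw1.1
    have hDw : Dn (up w) = Dn (up p) := by
      rw [← hcat, up_append, (hU1 _ _).1, hDL]
      omega
    by_cases h2 : M ≤ U (up (mir p))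
    · rw [if_pos h2]
      have hw2 := hW.2.1 M (mir p) hM h2
      have hcat2 := hW.1 M (mir p)
      set p' := pre M (mir p) with hp'
      set R := sfx M (mir p) with hR
      have hDR : Dn (up R) = 0 := hW.2.2.2.2.1 M R hM hw2.1
      -- the middle part
      have hpv : p = mir R ++ mir p' := by
        rw [← mir_append, hcat2, mir_mir]
      have hUv : U (up (mir p')) = U (up w) - M := by
        rw [← hw1.2, hpv, up_append, (hU1 _ _).2, hUm R, hDR]
        omega
      have hDv : Dn (up (mir p')) = Dn (up w) - M := by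
        rw [hDm, hw2.2, hUm, hDw]
      have hMD : M ≤ Dn (up w) := by rw [hDw, ← hUm]; exact h2
      have hmw : mir w = (mir L ++ p') ++ R := by
        rw [← hcat, mir_append, List.append_assoc, hcat2]
      have hun := hW.2.2.2.1 M (mir L ++ p') R hM hw2.1
      rw [← hmw] at hun
      unfold P3
      by_cases h' : (q + 1) * M ≤ U (up w) ∧ (q + 1) * M ≤ Dn (up w)
      · rw [if_pos h', if_pos (by rw [hUv, hDv]; omega), prod_range_succ']
        congr 1
        · refine prod_congr rfl fun t ht => ?_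
          rw [mem_range] at ht
          have htq : (t + 1) * M ≤ q * M := Nat.mul_le_mul_right M (by omega)
          congr 1
          · show wn M t (pre M w) = _
            rw [← hp]
            conv_lhs => rw [hpv]
            exact wn_append hW hM _ t _ (by rw [hUv]; omega)
          · show wn M t (pre M (mir w)) = _
            rw [hun.2.1, mir_mir]
            exact wn_append hW hM _ t _ (by rw [hw2.2, hUm, ← hDw]; omega)
        · show ψ (sfx M w) (sfx M (mir w)) = _
          rw [hun.1]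
      · rw [if_neg h', if_neg (by rw [hUv, hDv]; omega), zero_mul]
    · rw [if_neg h2]
      unfold P3
      rw [if_neg]
      rw [hUm] at h2
      omega
  · rw [if_neg h]
    unfold P3
    rw [if_neg (by omega)]

lemma three (hU : S_U) (hW : S_WN) {M : ℕ} (hM : 0 < M) {ψ : W → W → ℝ}
    (hψ : ∀ L L', 0 ≤ ψ L L') (r : ℕ) :
    ∀ (q r' : ℕ), r' ≤ r → Ew r' (P3 M ψ q) ≤ (mn M ψ r) ^ q := by
  intro q
  induction q with
  | zero =>
    intro r' _
    have : P3 M ψ 0 = fun _ => (1 : ℝ) := by
      funext I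
      simp [P3]
    rw [this, Ew_const, pow_zero]
  | succ q ih =>
    intro r' hr'
    have hc : 0 ≤ (mn M ψ r) ^ q := pow_nonneg (mn_nonneg hψ r) q
    have key : Ew r' (P3 M ψ (q + 1)) ≤ Z M (fun L => (mn M ψ r) ^ q * Z M (ψ L) r) r' := by
      rw [Ew_congr (fun w _ => P3_succ hU hW hM ψ q w)]
      refine step hW hM (fun p L => if M ≤ U (up (mir p)) then
        P3 M ψ q (mir (pre M (mir p))) * ψ L (sfx M (mir p)) else 0) _ r' fun L s hs => ?_
      rw [Ew_mir s (fun p => if M ≤ U (up p) then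
        P3 M ψ q (mir (pre M p)) * ψ L (sfx M p) else 0)]
      refine (step hW hM (fun p L' => P3 M ψ q (mir p) * ψ L L')
        (fun L' => (mn M ψ r) ^ q * ψ L L') s fun L' s' hs' => ?_).trans ?_
      · rw [Ew_mul_right, Ew_mir s' (P3 M ψ q)]
        exact mul_le_mul_of_nonneg_right (ih s' (hs'.trans (hs.trans hr'))) (hψ L L')
      · rw [Z_mul]
        exact mul_le_mul_of_nonneg_left (Z_mono hW hM (hψ L) (hs.trans hr')) hc
    refine key.trans ?_
    rw [Z_mul, pow_succ]
    refine mul_le_mul_of_nonneg_left ?_ hc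
    rw [mn_eq M ψ r]
    exact Z_mono hW hM (fun L => Z_nonneg (hψ L) r) hr'

theorem main (hU : S_U) (hW : S_WN) : S_KR := by
  refine ⟨?_, ?_, ?_, ?_, ?_⟩
  · intro M ψ hM hψ r q
    exact one hW hM hψ r q r le_rfl
  · intro M ψ hM hψ r q
    exact two hW hM hψ r q r r le_rfl le_rfl
  · intro M ψ hM hψ r q
    refine le_trans ?_ (three hU hW hM hψ r q r le_rfl)
    refine Ew_mono fun w _ => ?_
    unfold P3
    by_cases hb : bal w ∧ q * M ≤ U (up w)
    · have ht := hU.2.1 (up w)
      rw [hb.1.1] at ht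
      rw [if_pos hb, if_pos ⟨hb.2, by omega⟩]
    · rw [if_neg hb]
      split_ifs
      · exact prod_nonneg fun t _ => hψ _ _
      · exact le_rfl
  · intro M ψ hM hψ r s hrs
    exact Z_mono hW hM hψ hrs
  · intro M ψ hM hψ r s hrs
    exact mn_mono hW hM hψ hrs

end Pool.Agent.N940.MN.Kr
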