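import Pool.Agent.N940.MN.Stm3

/-!
# Variances and fourth moments under doubling
-/

set_option autoImplicit false

open Filter Topology Finset

namespace Pool.Agent.N940.MN.Kur

open Pool.Agent.N940.MN

/-! ### norms -/

/-- the norm in `L²` -/
noncomputable def n2 (r : ℕ) (G : W → ℝ) : ℝ := Real.sqrt (Ew r fun w => G w ^ 2)

lemma Ew_sq_nonneg (r : ℕ) (G : W → ℝ) : 0 ≤ Ew r fun w => G w ^ 2 :=
  Ew_nonneg fun _ _ => sq_nonneg _

lemma n2_nonneg (r : ℕ) (G : W → ℝ) : 0 ≤ n2 r G := Real.sqrt_nonneg _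

lemma n2_sq (r : ℕ) (G : W → ℝ) : n2 r G ^ 2 = Ew r fun w => G w ^ 2 :=
  Real.sq_sqrt (Ew_sq_nonneg r G)

lemma Ew_mul_le (r : ℕ) (G H : W → ℝ) : |Ew r fun w => G w * H w| ≤ n2 r G * n2 r H := by
  unfold n2
  rw [← Real.sqrt_mul (Ew_sq_nonneg r G)]
  exact Real.abs_le_sqrt (Ew_cs r G H)

lemma n2_add (r : ℕ) (G H : W → ℝ) : n2 r (fun w => G w + H w) ≤ n2 r G + n2 r H := by
  refine Real.sqrt_le_iff.2 ⟨add_nonneg (n2_nonneg _ _) (n2_nonneg _ _), ?_⟩
  have h1 : (Ew r fun w => (G w + H w) ^ 2) =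
      (Ew r fun w => G w ^ 2) + 2 * (Ew r fun w => G w * H w) + Ew r fun w => H w ^ 2 := by
    rw [← Ew_mul_left, ← Ew_add, ← Ew_add]
    refine Ew_congr fun w _ => ?_
    ring
  rw [h1, ← n2_sq, ← n2_sq]
  have h2 := (abs_le.1 (Ew_mul_le r G H)).2
  nlinarith

lemma n2_neg (r : ℕ) (G : W → ℝ) : n2 r (fun w => -G w) = n2 r G := by
  unfold n2
  congr 1
  refine Ew_congr fun w _ => ?_
  ring

lemma n2_diff (r : ℕ) (G H : W → ℝ) : |n2 r (fun w => G w + H w) - n2 r G| ≤ n2 r H := by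
  rw [abs_le]
  constructor
  · have h1 := n2_add r (fun w => G w + H w) (fun w => -H w)
    rw [n2_neg] at h1
    have h2 : (fun w => G w + H w + -H w) = G := by funext w; ring
    rw [h2] at h1
    linarith
  · have h1 := n2_add r G H
    linarith

/-- the variance is at most the second moment -/
lemma var_le (r : ℕ) (G : W → ℝ) :
    (Ew r fun w => (G w - Ew r G) ^ 2) ≤ Ew r fun w => G w ^ 2 := by
  have h1 : (Ew r fun w => (G w - Ew r G) ^ 2) =
      (Ew r fun w => G w ^ 2) - (Ew r G) ^ 2 := by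
    have h2 : (fun w => (G w - Ew r G) ^ 2) =
        fun w => (G w ^ 2 - (2 * Ew r G) * G w) + (Ew r G) ^ 2 := by
      funext w; ring
    rw [h2, Ew_add, Ew_sub, Ew_const, Ew_mul_left]
    ring
  rw [h1]
  nlinarith [sq_nonneg (Ew r G)]

lemma n2_var_le (r : ℕ) (G : W → ℝ) : n2 r (fun w => G w - Ew r G) ≤ n2 r G :=
  Real.sqrt_le_sqrt (var_le r G)

lemma n2_le (r : ℕ) (G : W → ℝ) (C : ℝ) (h : ∀ w : W, w.length = r → |G w| ≤ C) (hC : 0 ≤ C) :
    n2 r G ≤ C := by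
  refine Real.sqrt_le_iff.2 ⟨hC, ?_⟩
  have h1 : (Ew r fun w => G w ^ 2) ≤ Ew r fun _ => C ^ 2 := by
    refine Ew_mono fun w hw => ?_
    rw [← sq_abs]
    have := h w hw
    have h0 := abs_nonneg (G w)
    nlinarith
  rwa [Ew_const] at h1

/-- the mean is at most the norm -/
lemma abs_Ew_le_n2 (r : ℕ) (G : W → ℝ) : |Ew r G| ≤ n2 r G := by
  refine Real.abs_le_sqrt ?_
  have h := Ew_cs r (fun _ => 1) G
  simp only [one_mul, one_pow] at h
  rwa [Ew_const, one_mul] at h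

/-- fourth power of a sum -/
lemma add_pow_four (a b t : ℝ) (ht : 0 < t) :
    (a + b) ^ 4 ≤ (1 + t) ^ 3 * a ^ 4 + (1 + 1 / t) ^ 3 * b ^ 4 := by
  have h2 : ∀ x y : ℝ, (x + y) ^ 2 ≤ (1 + t) * x ^ 2 + (1 + 1 / t) * y ^ 2 := by
    intro x y
    have h3 : (1 + t) * x ^ 2 + (1 + 1 / t) * y ^ 2 - (x + y) ^ 2 = (t * x - y) ^ 2 / t := by
      field_simp; ring
    have h4 : 0 ≤ (t * x - y) ^ 2 / t := by positivity
    linarith
  -- `(x + y) ^ 2 ≤ (1 + t) x ^ 2 + (1 + 1/t) y ^ 2`, once more for the squares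
  have h5 := h2 a b
  have h6 : (a + b) ^ 4 ≤ ((1 + t) * a ^ 2 + (1 + 1 / t) * b ^ 2) ^ 2 := by
    have h7 : (a + b) ^ 4 = ((a + b) ^ 2) ^ 2 := by ring
    rw [h7]
    exact pow_le_pow_left₀ (sq_nonneg _) h5 2
  refine h6.trans ?_
  have h8 := h2 ((1 + t) * a ^ 2) ((1 + 1 / t) * b ^ 2)
  calc _ ≤ _ := h8
    _ = _ := by ring

/-- fourth central moment -/
lemma fourth_central (r : ℕ) (G : W → ℝ) :
    (Ew r fun w => (G w - Ew r G) ^ 4) ≤ 16 * Ew r fun w => G w ^ 4 := by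
  have h1 : (Ew r fun w => (G w - Ew r G) ^ 4) ≤ Ew r fun w => 8 * G w ^ 4 + 8 * (Ew r G) ^ 4 := by
    refine Ew_mono fun w _ => ?_
    have := add_pow_four (G w) (-Ew r G) 1 one_pos
    have h2 : G w + -Ew r G = G w - Ew r G := by ring
    rw [h2] at this
    have h3 : (-Ew r G) ^ 4 = (Ew r G) ^ 4 := by ring
    rw [h3] at this
    norm_num at this
    exact this
  rw [Ew_add, Ew_const, Ew_mul_left] at h1
  have h4 : (Ew r G) ^ 4 ≤ Ew r fun w => G w ^ 4 := by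
    have h5 : (Ew r G) ^ 2 ≤ Ew r fun w => G w ^ 2 := by
      have h := Ew_cs r (fun _ => 1) G
      simp only [one_mul, one_pow] at h
      rwa [Ew_const, one_mul] at h
    have h6 : (Ew r fun w => G w ^ 2) ^ 2 ≤ Ew r fun w => G w ^ 4 := by
      have h := Ew_cs r (fun _ => 1) (fun w => G w ^ 2)
      simp only [one_mul, one_pow] at h
      rw [Ew_const, one_mul] at h
      refine h.trans (le_of_eq (Ew_congr fun w _ => by ring))
    calc (Ew r G) ^ 4 = ((Ew r G) ^ 2) ^ 2 := by ring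
      _ ≤ (Ew r fun w => G w ^ 2) ^ 2 := pow_le_pow_left₀ (sq_nonneg _) h5 2
      _ ≤ _ := h6
  linarith

/-! ### two independent words -/

/-- a pair of words as one word -/
lemma Ew_split {E : Type} [AddCommGroup E] [Module ℝ E] (r s : ℕ) (Φ : W → W → E) :
    Ew (r + s) (fun w => Φ (w.take r) (w.drop r)) = Ew r fun u => Ew s fun v => Φ u v := by
  rw [Ew_append]
  refine Ew_congr fun u hu => Ew_congr fun v hv => ?_
  rw [← hu, List.take_left, List.drop_left]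

lemma Ew2_cs (r s : ℕ) (G H : W → W → ℝ) :
    (Ew r fun u => Ew s fun v => G u v * H u v) ≤
      Real.sqrt (Ew r fun u => Ew s fun v => G u v ^ 2) *
        Real.sqrt (Ew r fun u => Ew s fun v => H u v ^ 2) := by
  rw [← Ew_split, ← Ew_split, ← Ew_split]
  exact (abs_le.1 (Ew_mul_le (r + s) (fun w => G (w.take r) (w.drop r))
    (fun w => H (w.take r) (w.drop r)))).2

lemma Ew_two_sq (r : ℕ) (g : W → ℝ) (h0 : Ew r g = 0) :
    (Ew r fun u => Ew r fun v => (g u + g v) ^ 2) = 2 * Ew r fun w => g w ^ 2 := by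
  have h1 : ∀ u, (Ew r fun v => (g u + g v) ^ 2) = g u ^ 2 + Ew r fun w => g w ^ 2 := by
    intro u
    have : (fun v => (g u + g v) ^ 2) = fun v => (g u ^ 2 + (2 * g u) * g v) + g v ^ 2 := by
      funext v; ring
    rw [this, Ew_add, Ew_add, Ew_const, Ew_mul_left, h0]; ring
  simp only [h1]
  rw [Ew_add, Ew_const]; ring

lemma Ew_two_four (r : ℕ) (g : W → ℝ) (h0 : Ew r g = 0) :
    (Ew r fun u => Ew r fun v => (g u + g v) ^ 4) =
      2 * (Ew r fun w => g w ^ 4) + 6 * (Ew r fun w => g w ^ 2) ^ 2 := by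
  have h1 : ∀ u, (Ew r fun v => (g u + g v) ^ 4) = g u ^ 4 + g u ^ 2 * (6 * Ew r fun w => g w ^ 2)
      + g u * (4 * Ew r fun w => g w ^ 3) + Ew r fun w => g w ^ 4 := by
    intro u
    have : (fun v => (g u + g v) ^ 4) = fun v => (((g u ^ 4 + (4 * g u ^ 3) * g v) +
        (6 * g u ^ 2) * g v ^ 2) + (4 * g u) * g v ^ 3) + g v ^ 4 := by
      funext v; ring
    rw [this, Ew_add, Ew_add, Ew_add, Ew_add, Ew_const, Ew_mul_left, Ew_mul_left, Ew_mul_left, h0]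
    ring
  simp only [h1]
  rw [Ew_add, Ew_add, Ew_add, Ew_const, Ew_mul_right, Ew_mul_right, h0]; ring

/-! ### moments of the number of arcs -/

lemma mm_le (I J : W) : (mm I J : ℝ) ≤ (U (up I) : ℝ) + U (lo I) := by
  unfold mm
  push_cast
  exact add_le_add (min_le_left _ _) (min_le_left _ _)

lemma Ew_mm2 (hM : S_MOM) (r s : ℕ) : (Ew r fun I => Ew s fun J => (mm I J : ℝ) ^ 2) ≤ 4 * r := by
  obtain ⟨h1, -, h2, -, -, -, -, -⟩ := hM r
  have h3 : (Ew r fun I => Ew s fun J => (mm I J : ℝ) ^ 2) ≤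
      Ew r fun I => 2 * (U (up I) : ℝ) ^ 2 + 2 * (U (lo I) : ℝ) ^ 2 := by
    refine Ew_mono fun I _ => ?_
    have h4 : (Ew s fun J => (mm I J : ℝ) ^ 2) ≤
        Ew s fun _ => 2 * (U (up I) : ℝ) ^ 2 + 2 * (U (lo I) : ℝ) ^ 2 := by
      refine Ew_mono fun J _ => ?_
      have h5 := mm_le I J
      have h6 : (0 : ℝ) ≤ mm I J := Nat.cast_nonneg _
      nlinarith [sq_nonneg ((U (up I) : ℝ) - U (lo I))]
    rwa [Ew_const] at h4
  rw [Ew_add, Ew_mul_left, Ew_mul_left] at h3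
  linarith

lemma Ew_mm4 (hM : S_MOM) (r s : ℕ) :
    (Ew r fun I => Ew s fun J => (mm I J : ℝ) ^ 4) ≤ 64 * (r : ℝ) ^ 2 := by
  obtain ⟨-, -, -, -, h1, -, h2, -⟩ := hM r
  have h3 : (Ew r fun I => Ew s fun J => (mm I J : ℝ) ^ 4) ≤
      Ew r fun I => 8 * (U (up I) : ℝ) ^ 4 + 8 * (U (lo I) : ℝ) ^ 4 := by
    refine Ew_mono fun I _ => ?_
    have h4 : (Ew s fun J => (mm I J : ℝ) ^ 4) ≤
        Ew s fun _ => 8 * (U (up I) : ℝ) ^ 4 + 8 * (U (lo I) : ℝ) ^ 4 := by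
      refine Ew_mono fun J _ => ?_
      have h5 := mm_le I J
      have h6 : (0 : ℝ) ≤ mm I J := Nat.cast_nonneg _
      have h7 := pow_le_pow_left₀ h6 h5 4
      have h8 := add_pow_four (U (up I) : ℝ) (U (lo I) : ℝ) 1 one_pos
      norm_num at h8
      linarith
    rwa [Ew_const] at h4
  rw [Ew_add, Ew_mul_left, Ew_mul_left] at h3
  linarith

/-! ### asymptotically additive functions -/

section adt

variable {F Fo : W → ℝ} {C c : ℝ} {r₀ : ℕ}

lemma C_nonneg (hA : Adt F Fo C c r₀) : 0 ≤ C :=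
  (abs_nonneg _).trans (hA.step [] (true, true))

lemma ind_sq (p : Prop) : ind p ^ 2 = ind p := by
  unfold ind; split_ifs <;> norm_num

/-- the error of additivity is small in `L²` -/
lemma err2 (hM : S_MOM) (hA : Adt F Fo C c r₀) : ∀ ε : ℝ, 0 < ε → ∃ R : ℕ, ∀ r : ℕ, R ≤ r →
    Ew r (fun I => Ew r fun J => (F (I ++ J) - F I - F J) ^ 2) ≤ ε * r := by
  intro ε hε
  have hC := C_nonneg hA
  obtain ⟨ε1, hε1, hε1'⟩ : ∃ ε1 : ℝ, 0 < ε1 ∧ ε1 ^ 2 = ε / 20 :=
    ⟨Real.sqrt (ε / 20), Real.sqrt_pos.2 (by positivity), Real.sq_sqrt (by positivity)⟩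
  obtain ⟨d, hd, hd'⟩ : ∃ d : ℝ, 0 < d ∧ 8 * C ^ 2 * d ≤ ε / 2 := by
    refine ⟨ε / (16 * C ^ 2 + 1), by positivity, ?_⟩
    rw [mul_div_assoc', div_le_div_iff₀ (by positivity) (by norm_num)]
    nlinarith [mul_nonneg hε.le (sq_nonneg C)]
  have hj := (hA.joinP ε1 hε1).eventually (gt_mem_nhds (show (0 : ℝ) < d ^ 2 by positivity))
  obtain ⟨R, hR⟩ := eventually_atTop.1 hj
  refine ⟨max R 1, fun r hr => ?_⟩
  have hrR := (le_max_left _ _).trans hr
  have hr1 : 1 ≤ r := (le_max_right _ _).trans hr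
  have hr1' : (1 : ℝ) ≤ r := by exact_mod_cast hr1
  have h1 := hR r hrR
  set P : ℝ := Ew r fun I => Ew r fun J =>
    ind (ε1 * ((mm I J : ℝ) + Real.sqrt r) < |F (I ++ J) - F I - F J|) with hP
  have hP0 : 0 ≤ P := Ew_nonneg fun _ _ => Ew_nonneg fun _ _ => ind_nonneg _
  have hPd : P ≤ d ^ 2 := by nlinarith
  have hpt : ∀ I J : W, (F (I ++ J) - F I - F J) ^ 2 ≤
      (2 * ε1 ^ 2) * (mm I J : ℝ) ^ 2 + 2 * ε1 ^ 2 * r + C ^ 2 * ((mm I J : ℝ) ^ 2 *
        ind (ε1 * ((mm I J : ℝ) + Real.sqrt r) < |F (I ++ J) - F I - F J|)) := by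
    intro I J
    have hm0 : (0 : ℝ) ≤ mm I J := Nat.cast_nonneg _
    have hs0 := Real.sqrt_nonneg (r : ℝ)
    have hs1 := Real.sq_sqrt (Nat.cast_nonneg r : (0 : ℝ) ≤ r)
    have h0 := abs_nonneg (F (I ++ J) - F I - F J)
    rw [← sq_abs (F (I ++ J) - F I - F J)]
    unfold ind
    split_ifs with hb
    · have h2 := hA.join I J
      have h3 := pow_le_pow_left₀ h0 h2 2
      have h4 : 0 ≤ (2 * ε1 ^ 2) * (mm I J : ℝ) ^ 2 + 2 * ε1 ^ 2 * r := by positivity
      nlinarith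
    · have h2 := pow_le_pow_left₀ h0 (not_lt.1 hb) 2
      have h3 : (ε1 * ((mm I J : ℝ) + Real.sqrt r)) ^ 2 ≤
          (2 * ε1 ^ 2) * (mm I J : ℝ) ^ 2 + 2 * ε1 ^ 2 * r := by
        have h4 : ((mm I J : ℝ) + Real.sqrt r) ^ 2 ≤ 2 * (mm I J : ℝ) ^ 2 + 2 * r := by
          nlinarith [sq_nonneg ((mm I J : ℝ) - Real.sqrt r)]
        calc (ε1 * ((mm I J : ℝ) + Real.sqrt r)) ^ 2 = ε1 ^ 2 * ((mm I J : ℝ) + Real.sqrt r) ^ 2 :=
              by ring
          _ ≤ ε1 ^ 2 * (2 * (mm I J : ℝ) ^ 2 + 2 * r) :=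
              mul_le_mul_of_nonneg_left h4 (sq_nonneg _)
          _ = _ := by ring
      linarith
  have h5 : Ew r (fun I => Ew r fun J => (F (I ++ J) - F I - F J) ^ 2) ≤
      (2 * ε1 ^ 2) * (Ew r fun I => Ew r fun J => (mm I J : ℝ) ^ 2) + 2 * ε1 ^ 2 * r +
      C ^ 2 * (Ew r fun I => Ew r fun J => (mm I J : ℝ) ^ 2 *
        ind (ε1 * ((mm I J : ℝ) + Real.sqrt r) < |F (I ++ J) - F I - F J|)) := by
    calc _ ≤ _ := Ew_mono fun I _ => Ew_mono fun J _ => hpt I J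
      _ = _ := by simp only [Ew_add, Ew_mul_left, Ew_const]
  have h6 := Ew2_cs r r (fun I J => (mm I J : ℝ) ^ 2)
    (fun I J => ind (ε1 * ((mm I J : ℝ) + Real.sqrt r) < |F (I ++ J) - F I - F J|))
  simp only [ind_sq] at h6
  rw [← hP] at h6
  have h7 : Real.sqrt (Ew r fun I => Ew r fun J => ((mm I J : ℝ) ^ 2) ^ 2) ≤ 8 * r := by
    refine Real.sqrt_le_iff.2 ⟨by positivity, ?_⟩
    have h8 := Ew_mm4 hM r r
    have h9 : (Ew r fun I => Ew r fun J => ((mm I J : ℝ) ^ 2) ^ 2) =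
        Ew r fun I => Ew r fun J => (mm I J : ℝ) ^ 4 :=
      Ew_congr fun I _ => Ew_congr fun J _ => by ring
    rw [h9]
    linarith
  have h8 : Real.sqrt P ≤ d := Real.sqrt_le_iff.2 ⟨hd.le, hPd⟩
  have h9 : (Ew r fun I => Ew r fun J => (mm I J : ℝ) ^ 2 *
        ind (ε1 * ((mm I J : ℝ) + Real.sqrt r) < |F (I ++ J) - F I - F J|)) ≤ (8 * r) * d :=
    h6.trans (mul_le_mul h7 h8 (Real.sqrt_nonneg _) (by positivity))
  have h10 := Ew_mm2 hM r r
  have h11 : (2 * ε1 ^ 2) * (Ew r fun I => Ew r fun J => (mm I J : ℝ) ^ 2) ≤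
      (2 * ε1 ^ 2) * (4 * r) := mul_le_mul_of_nonneg_left h10 (by positivity)
  have h12 : C ^ 2 * (Ew r fun I => Ew r fun J => (mm I J : ℝ) ^ 2 *
        ind (ε1 * ((mm I J : ℝ) + Real.sqrt r) < |F (I ++ J) - F I - F J|)) ≤
      C ^ 2 * ((8 * r) * d) := mul_le_mul_of_nonneg_left h9 (sq_nonneg _)
  have h13 : C ^ 2 * ((8 * r) * d) ≤ ε / 2 * r := by
    calc C ^ 2 * ((8 * r) * d) = (8 * C ^ 2 * d) * r := by ring
      _ ≤ _ := mul_le_mul_of_nonneg_right hd' (by positivity)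
  rw [hε1'] at h11 h5
  calc _ ≤ _ := h5
    _ ≤ 2 * (ε / 20) * (4 * r) + 2 * (ε / 20) * r + ε / 2 * r := by linarith
    _ = ε * r := by ring

/-- decomposition for doubled length -/
lemma decomp (F : W → ℝ) (r : ℕ) (w : W) :
    F w - Ew (r + r) F = ((F (w.take r) - Ew r F) + (F (w.drop r) - Ew r F)) +
      ((F w - F (w.take r) - F (w.drop r)) -
        Ew (r + r) fun w => F w - F (w.take r) - F (w.drop r)) := by
  rw [Ew_sub, Ew_sub]
  have h1 : (Ew (r + r) fun w => F (w.take r)) = Ew r F := by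
    rw [Ew_split r r (fun u _ => F u)]
    simp only [Ew_const]
  have h2 : (Ew (r + r) fun w => F (w.drop r)) = Ew r F := by
    rw [Ew_split r r (fun _ v => F v), Ew_const]
  rw [h1, h2]
  ring

lemma decomp1 (F : W → ℝ) (r : ℕ) (w : W) :
    F w - Ew (r + 1) F = (F (w.take r) - Ew r F) +
      ((F w - F (w.take r)) - Ew (r + 1) fun w => F w - F (w.take r)) := by
  rw [Ew_sub]
  have h1 : (Ew (r + 1) fun w => F (w.take r)) = Ew r F := by
    rw [Ew_split r 1 (fun u _ => F u)]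
    simp only [Ew_const]
  rw [h1]
  ring

lemma Ew_centered (F : W → ℝ) (r : ℕ) : (Ew r fun w => F w - Ew r F) = 0 := by
  rw [Ew_sub, Ew_const, sub_self]

lemma sqrt_Vw (F : W → ℝ) (r : ℕ) : Real.sqrt (Vw r F) = n2 r fun w => F w - Ew r F := rfl

lemma Vw_nonneg (F : W → ℝ) (r : ℕ) : 0 ≤ Vw r F := Ew_nonneg fun _ _ => sq_nonneg _

/-- the variance for doubled length -/
lemma dbl_bound (F : W → ℝ) (r : ℕ) :
    |Real.sqrt (Vw (2 * r) F) - Real.sqrt (2 * Vw r F)| ≤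
      Real.sqrt (Ew r fun I => Ew r fun J => (F (I ++ J) - F I - F J) ^ 2) := by
  have h1 : Real.sqrt (Vw (2 * r) F) = n2 (r + r) fun w =>
      ((F (w.take r) - Ew r F) + (F (w.drop r) - Ew r F)) +
      ((F w - F (w.take r) - F (w.drop r)) -
        Ew (r + r) fun w => F w - F (w.take r) - F (w.drop r)) := by
    rw [two_mul, sqrt_Vw]
    congr 1
    funext w
    exact decomp F r w
  have h2 : Real.sqrt (2 * Vw r F) = n2 (r + r) fun w =>
      (F (w.take r) - Ew r F) + (F (w.drop r) - Ew r F) := by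
    unfold n2
    congr 1
    rw [Ew_split r r fun u v => ((F u - Ew r F) + (F v - Ew r F)) ^ 2,
      Ew_two_sq r (fun u => F u - Ew r F) (Ew_centered F r)]
    rfl
  rw [h1, h2]
  refine (n2_diff _ _ _).trans ((n2_var_le _ _).trans (le_of_eq ?_))
  unfold n2
  congr 1
  rw [← Ew_split r r fun I J => (F (I ++ J) - F I - F J) ^ 2]
  refine Ew_congr fun w _ => ?_
  rw [List.take_append_drop]

lemma step_abs (hA : Adt F Fo C c r₀) (r : ℕ) (w : W) (hw : w.length = r + 1) :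
    |F w - F (w.take r)| ≤ C := by
  have h1 : w.drop r ≠ [] := by
    intro h
    have := congrArg List.length h
    rw [List.length_drop, hw] at this
    simp at this
  obtain ⟨x, hx⟩ : ∃ x, w.drop r = [x] := by
    have h2 : (w.drop r).length = 1 := by rw [List.length_drop, hw]; omega
    exact List.length_eq_one_iff.1 h2
  have h3 := hA.step (w.take r) x
  rw [← hx, List.take_append_drop] at h3
  exact h3

/-- the variance for length one more -/
lemma step_bound (hA : Adt F Fo C c r₀) (r : ℕ) :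
    |Real.sqrt (Vw (r + 1) F) - Real.sqrt (Vw r F)| ≤ C := by
  have h1 : Real.sqrt (Vw (r + 1) F) = n2 (r + 1) fun w => (F (w.take r) - Ew r F) +
      ((F w - F (w.take r)) - Ew (r + 1) fun w => F w - F (w.take r)) := by
    rw [sqrt_Vw]
    congr 1
    funext w
    exact decomp1 F r w
  have h2 : Real.sqrt (Vw r F) = n2 (r + 1) fun w => F (w.take r) - Ew r F := by
    unfold n2
    congr 1
    rw [Ew_split r 1 fun u _ => (F u - Ew r F) ^ 2]
    simp only [Ew_const]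
    rfl
  rw [h1, h2]
  refine (n2_diff _ _ _).trans ((n2_var_le _ _).trans ?_)
  exact n2_le _ _ _ (fun w hw => step_abs hA r w hw) (C_nonneg hA)

lemma dbl (hM : S_MOM) (hA : Adt F Fo C c r₀) : ∀ ε : ℝ, 0 < ε → ∃ R : ℕ, ∀ r : ℕ, R ≤ r →
    |Real.sqrt (Vw (2 * r) F) - Real.sqrt (2 * Vw r F)| ≤ ε * Real.sqrt (Vw r F) := by
  intro ε hε
  have hc := hA.cpos
  obtain ⟨R, hR⟩ := err2 hM hA (ε ^ 2 * c) (by positivity)
  refine ⟨max R r₀, fun r hr => ?_⟩
  refine (dbl_bound F r).trans ?_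
  have h1 := hR r ((le_max_left _ _).trans hr)
  have h2 := hA.var r ((le_max_right _ _).trans hr)
  refine Real.sqrt_le_iff.2 ⟨mul_nonneg hε.le (Real.sqrt_nonneg _), ?_⟩
  rw [mul_pow, Real.sq_sqrt (Vw_nonneg F r)]
  refine h1.trans ?_
  calc ε ^ 2 * c * r = ε ^ 2 * (c * r) := by ring
    _ ≤ _ := mul_le_mul_of_nonneg_left h2 (sq_nonneg _)

/-! ### fourth moments -/

/-- the fourth central moment -/
noncomputable def M4 (F : W → ℝ) (r : ℕ) : ℝ := Ew r fun w => (F w - Ew r F) ^ 4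

lemma M4_nonneg (F : W → ℝ) (r : ℕ) : 0 ≤ M4 F r := Ew_nonneg fun _ _ => by positivity

lemma M4_dbl (hM : S_MOM) (hA : Adt F Fo C c r₀) (r : ℕ) (t : ℝ) (ht : 0 < t) :
    M4 F (2 * r) ≤ (1 + t) ^ 3 * (2 * M4 F r + 6 * Vw r F ^ 2) +
      (1 + 1 / t) ^ 3 * (16 * (C ^ 4 * (64 * (r : ℝ) ^ 2))) := by
  have h1 : M4 F (2 * r) ≤ (1 + t) ^ 3 *
        (Ew (r + r) fun w => ((F (w.take r) - Ew r F) + (F (w.drop r) - Ew r F)) ^ 4) +
      (1 + 1 / t) ^ 3 * (Ew (r + r) fun w => ((F w - F (w.take r) - F (w.drop r)) -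
        Ew (r + r) fun w => F w - F (w.take r) - F (w.drop r)) ^ 4) := by
    unfold M4
    rw [two_mul, ← Ew_mul_left, ← Ew_mul_left, ← Ew_add]
    refine Ew_mono fun w _ => ?_
    rw [decomp F r w]
    exact add_pow_four _ _ t ht
  have h2 : (Ew (r + r) fun w => ((F (w.take r) - Ew r F) + (F (w.drop r) - Ew r F)) ^ 4) =
      2 * M4 F r + 6 * Vw r F ^ 2 := by
    rw [Ew_split r r fun u v => ((F u - Ew r F) + (F v - Ew r F)) ^ 4,
      Ew_two_four r (fun u => F u - Ew r F) (Ew_centered F r)]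
    rfl
  have h3 := fourth_central (r + r) fun w => F w - F (w.take r) - F (w.drop r)
  have h4 : (Ew (r + r) fun w => (F w - F (w.take r) - F (w.drop r)) ^ 4) ≤
      C ^ 4 * (64 * (r : ℝ) ^ 2) := by
    have h5 : (Ew (r + r) fun w => (F w - F (w.take r) - F (w.drop r)) ^ 4) ≤
        Ew (r + r) fun w => C ^ 4 * (mm (w.take r) (w.drop r) : ℝ) ^ 4 := by
      refine Ew_mono fun w _ => ?_
      have h6 := hA.join (w.take r) (w.drop r)
      rw [List.take_append_drop] at h6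
      have h7 := pow_le_pow_left₀ (abs_nonneg _) h6 4
      have h8 : |F w - F (w.take r) - F (w.drop r)| ^ 4 =
          (F w - F (w.take r) - F (w.drop r)) ^ 4 := by
        rw [pow_abs, abs_of_nonneg (by positivity)]
      rw [h8] at h7
      calc _ ≤ _ := h7
        _ = _ := by ring
    refine h5.trans ?_
    rw [Ew_mul_left, Ew_split r r fun u v => (mm u v : ℝ) ^ 4]
    exact mul_le_mul_of_nonneg_left (Ew_mm4 hM r r) (by positivity)
  rw [h2] at h1
  refine h1.trans (add_le_add le_rfl (mul_le_mul_of_nonneg_left ?_ (by positivity)))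
  exact h3.trans (mul_le_mul_of_nonneg_left h4 (by norm_num))

lemma M4_step (hA : Adt F Fo C c r₀) (r : ℕ) (t : ℝ) (ht : 0 < t) :
    M4 F (r + 1) ≤ (1 + t) ^ 3 * M4 F r + (1 + 1 / t) ^ 3 * (16 * C ^ 4) := by
  have h1 : M4 F (r + 1) ≤ (1 + t) ^ 3 *
        (Ew (r + 1) fun w => (F (w.take r) - Ew r F) ^ 4) +
      (1 + 1 / t) ^ 3 * (Ew (r + 1) fun w => ((F w - F (w.take r)) -
        Ew (r + 1) fun w => F w - F (w.take r)) ^ 4) := by
    unfold M4
    rw [← Ew_mul_left, ← Ew_mul_left, ← Ew_add]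
    refine Ew_mono fun w _ => ?_
    rw [decomp1 F r w]
    exact add_pow_four _ _ t ht
  have h2 : (Ew (r + 1) fun w => (F (w.take r) - Ew r F) ^ 4) = M4 F r := by
    rw [Ew_split r 1 fun u _ => (F u - Ew r F) ^ 4]
    simp only [Ew_const]
    rfl
  have h3 := fourth_central (r + 1) fun w => F w - F (w.take r)
  have h4 : (Ew (r + 1) fun w => (F w - F (w.take r)) ^ 4) ≤ C ^ 4 := by
    have h5 : (Ew (r + 1) fun w => (F w - F (w.take r)) ^ 4) ≤ Ew (r + 1) fun _ => C ^ 4 := by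
      refine Ew_mono fun w hw => ?_
      have h6 := step_abs hA r w hw
      have h7 := pow_le_pow_left₀ (abs_nonneg _) h6 4
      rwa [pow_abs, abs_of_nonneg (by positivity)] at h7
    rwa [Ew_const] at h5
  rw [h2] at h1
  refine h1.trans (add_le_add le_rfl (mul_le_mul_of_nonneg_left ?_ (by positivity)))
  exact h3.trans (mul_le_mul_of_nonneg_left h4 (by norm_num))

/-- lower bounds for the variances -/
lemma V_lower (hM : S_MOM) (hA : Adt F Fo C c r₀) : ∃ R : ℕ, 1 ≤ R ∧ ∀ r : ℕ, R ≤ r →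
    c * r ≤ Vw r F ∧ 0 < Vw r F ∧ 98 / 50 * Vw r F ≤ Vw (2 * r) F ∧
      98 / 100 * Vw r F ≤ Vw (r + 1) F := by
  have hc := hA.cpos
  have hC := C_nonneg hA
  obtain ⟨R1, hR1⟩ := dbl hM hA (1 / 100) (by norm_num)
  obtain ⟨R2, hR2⟩ := exists_nat_gt (10000 * C ^ 2 / c)
  refine ⟨max (max R1 R2) (max r₀ 1), (le_max_right _ _).trans (le_max_right _ _), fun r hr => ?_⟩
  have h1 : R1 ≤ r := ((le_max_left _ _).trans (le_max_left _ _)).trans hr
  have h2 : R2 ≤ r := ((le_max_right _ _).trans (le_max_left _ _)).trans hr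
  have h3 : r₀ ≤ r := ((le_max_left _ _).trans (le_max_right _ _)).trans hr
  have h4 : 1 ≤ r := ((le_max_right _ _).trans (le_max_right _ _)).trans hr
  have h4' : (1 : ℝ) ≤ r := by exact_mod_cast h4
  have hv := hA.var r h3
  have hv0 : 0 < Vw r F := lt_of_lt_of_le (by positivity) hv
  have hs0 : 0 < Real.sqrt (Vw r F) := Real.sqrt_pos.2 hv0
  have hs1 := Real.sq_sqrt hv0.le
  refine ⟨hv, hv0, ?_, ?_⟩
  · have h5 := (abs_le.1 (hR1 r h1)).1
    rw [Real.sqrt_mul (by norm_num)] at h5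
    have h6 : (1.41 : ℝ) ≤ Real.sqrt 2 := by
      refine Real.le_sqrt_of_sq_le (by norm_num)
    have h7 : 1.4 * Real.sqrt (Vw r F) ≤ Real.sqrt (Vw (2 * r) F) := by nlinarith
    have h8 := pow_le_pow_left₀ (by positivity) h7 2
    rw [Real.sq_sqrt (Vw_nonneg _ _), mul_pow, hs1] at h8
    norm_num at h8 ⊢
    linarith
  · have h5 := (abs_le.1 (step_bound hA r)).1
    have h6 : 100 * C ≤ Real.sqrt (Vw r F) := by
      refine Real.le_sqrt_of_sq_le ?_
      refine le_trans ?_ hv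
      have h7 : 10000 * C ^ 2 / c ≤ r := hR2.le.trans (by exact_mod_cast h2)
      rw [div_le_iff₀ hc] at h7
      nlinarith
    have h7 : 0.99 * Real.sqrt (Vw r F) ≤ Real.sqrt (Vw (r + 1) F) := by nlinarith
    have h8 := pow_le_pow_left₀ (by positivity) h7 2
    rw [Real.sq_sqrt (Vw_nonneg _ _), mul_pow, hs1] at h8
    norm_num at h8 ⊢
    linarith

lemma four (hM : S_MOM) (hA : Adt F Fo C c r₀) : ∃ (κ : ℝ) (R : ℕ), 0 < κ ∧ ∀ r : ℕ, R ≤ r →
    Ew r (fun w => (F w - Ew r F) ^ 4) ≤ κ * (Vw r F) ^ 2 := by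
  have hc := hA.cpos
  have hC := C_nonneg hA
  obtain ⟨R, hR1, hR⟩ := V_lower hM hA
  -- one step of the recursion
  obtain ⟨K, hK0, hK⟩ : ∃ K : ℝ, 0 ≤ K ∧ ∀ s : ℕ, R ≤ s → ∀ B : ℝ, 0 ≤ B →
      M4 F s ≤ B * Vw s F ^ 2 → M4 F (2 * s) ≤ (4 / 5 * B + K) * Vw (2 * s) F ^ 2 ∧
        M4 F (2 * s + 1) ≤ (4 / 5 * B + K) * Vw (2 * s + 1) F ^ 2 := by
    set K1 : ℝ := (1.05 : ℝ) ^ 3 * 6 + 21 ^ 3 * (16 * (C ^ 4 * 64)) / c ^ 2 with hK1
    have hK10 : 0 ≤ K1 := by positivity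
    set K2 : ℝ := 21 ^ 3 * (16 * C ^ 4) / c ^ 2 with hK2
    have hK20 : 0 ≤ K2 := by positivity
    refine ⟨2 * K1 + 2 * K2, by positivity, fun s hs B hB hMs => ?_⟩
    obtain ⟨v1, v2, v3, v4⟩ := hR s hs
    obtain ⟨w1, w2, w3, w4⟩ := hR (2 * s) (by omega)
    have hs1 : (1 : ℝ) ≤ s := by exact_mod_cast hR1.trans hs
    have e1 : M4 F (2 * s) ≤ (2.4 * B + K1) * Vw s F ^ 2 := by
      have h1 := M4_dbl hM hA s (1 / 20) (by norm_num)
      have h2 : (s : ℝ) ^ 2 ≤ Vw s F ^ 2 / c ^ 2 := by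
        rw [le_div_iff₀ (by positivity)]
        have := pow_le_pow_left₀ (by positivity) v1 2
        nlinarith
      have h3 : (1 + 1 / (1 / 20 : ℝ)) ^ 3 * (16 * (C ^ 4 * (64 * (s : ℝ) ^ 2))) ≤
          21 ^ 3 * (16 * (C ^ 4 * 64)) / c ^ 2 * Vw s F ^ 2 := by
        have h4 : (1 + 1 / (1 / 20 : ℝ)) ^ 3 * (16 * (C ^ 4 * (64 * (s : ℝ) ^ 2))) =
            21 ^ 3 * (16 * (C ^ 4 * 64)) * (s : ℝ) ^ 2 := by norm_num; ring
        rw [h4]
        calc _ ≤ 21 ^ 3 * (16 * (C ^ 4 * 64)) * (Vw s F ^ 2 / c ^ 2) :=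
              mul_le_mul_of_nonneg_left h2 (by positivity)
          _ = _ := by ring
      have h5 : (1 + 1 / 20 : ℝ) ^ 3 * (2 * M4 F s + 6 * Vw s F ^ 2) ≤
          2.4 * (B * Vw s F ^ 2) + (1.05 : ℝ) ^ 3 * 6 * Vw s F ^ 2 := by
        have h6 : 0 ≤ B * Vw s F ^ 2 := by positivity
        norm_num
        nlinarith
      calc M4 F (2 * s) ≤ _ := h1
        _ ≤ _ := add_le_add h5 h3
        _ = _ := by rw [hK1]; ring
    have e2 : Vw s F ^ 2 ≤ 100 / 384 * Vw (2 * s) F ^ 2 := by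
      have := pow_le_pow_left₀ (by positivity) v3 2
      nlinarith
    have e3 : M4 F (2 * s) ≤ (0.625 * B + K1) * Vw (2 * s) F ^ 2 := by
      refine e1.trans ?_
      calc (2.4 * B + K1) * Vw s F ^ 2 ≤ (2.4 * B + K1) * (100 / 384 * Vw (2 * s) F ^ 2) :=
            mul_le_mul_of_nonneg_left e2 (by positivity)
        _ ≤ _ := by
            have : 0 ≤ Vw (2 * s) F ^ 2 := sq_nonneg _
            nlinarith [mul_nonneg hK10 this]
    constructor
    · refine e3.trans (mul_le_mul_of_nonneg_right ?_ (sq_nonneg _))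
      linarith
    · have h1 := M4_step hA (2 * s) (1 / 20) (by norm_num)
      have h2 : (1 + 1 / (1 / 20 : ℝ)) ^ 3 * (16 * C ^ 4) ≤ K2 * Vw (2 * s) F ^ 2 := by
        have h3 : (1 : ℝ) ≤ Vw (2 * s) F ^ 2 / c ^ 2 := by
          rw [le_div_iff₀ (by positivity), one_mul]
          refine pow_le_pow_left₀ hc.le (le_trans ?_ w1) 2
          push_cast
          nlinarith
        have h4 : (1 + 1 / (1 / 20 : ℝ)) ^ 3 * (16 * C ^ 4) = 21 ^ 3 * (16 * C ^ 4) * 1 := by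
          norm_num
        rw [h4]
        calc 21 ^ 3 * (16 * C ^ 4) * 1 ≤ 21 ^ 3 * (16 * C ^ 4) * (Vw (2 * s) F ^ 2 / c ^ 2) :=
              mul_le_mul_of_nonneg_left h3 (by positivity)
          _ = _ := by rw [hK2]; ring
      have e4 : Vw (2 * s) F ^ 2 ≤ 1.0413 * Vw (2 * s + 1) F ^ 2 := by
        have := pow_le_pow_left₀ (by positivity) w4 2
        nlinarith
      have h5 : M4 F (2 * s + 1) ≤ (1.158 * (0.625 * B + K1) + K2) * Vw (2 * s) F ^ 2 := by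
        have h6 : (1 + 1 / 20 : ℝ) ^ 3 * M4 F (2 * s) ≤
            1.158 * ((0.625 * B + K1) * Vw (2 * s) F ^ 2) := by
          have h7 : (1 + 1 / 20 : ℝ) ^ 3 ≤ 1.158 := by norm_num
          have h8 : 0 ≤ (0.625 * B + K1) * Vw (2 * s) F ^ 2 := by positivity
          exact mul_le_mul h7 e3 (M4_nonneg _ _) (by norm_num)
        calc _ ≤ _ := h1
          _ ≤ _ := add_le_add h6 h2
          _ = _ := by ring
      refine h5.trans ?_
      calc (1.158 * (0.625 * B + K1) + K2) * Vw (2 * s) F ^ 2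
          ≤ (1.158 * (0.625 * B + K1) + K2) * (1.0413 * Vw (2 * s + 1) F ^ 2) :=
            mul_le_mul_of_nonneg_left e4 (by positivity)
        _ ≤ (4 / 5 * B + (2 * K1 + 2 * K2)) * Vw (2 * s + 1) F ^ 2 := by
            have h9 : 0 ≤ Vw (2 * s + 1) F ^ 2 := sq_nonneg _
            have : (1.158 * (0.625 * B + K1) + K2) * 1.0413 ≤ 4 / 5 * B + (2 * K1 + 2 * K2) := by
              nlinarith
            calc _ = ((1.158 * (0.625 * B + K1) + K2) * 1.0413) * Vw (2 * s + 1) F ^ 2 := by ring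
              _ ≤ _ := mul_le_mul_of_nonneg_right this h9
  -- induction
  set B : ℝ := 5 * K + 1 + ∑ i ∈ Icc R (2 * R + 1), M4 F i / Vw i F ^ 2 with hB
  have hsum : 0 ≤ ∑ i ∈ Icc R (2 * R + 1), M4 F i / Vw i F ^ 2 :=
    sum_nonneg fun i _ => div_nonneg (M4_nonneg _ _) (sq_nonneg _)
  have hB0 : 0 < B := by positivity
  refine ⟨B, R, hB0, fun r hr => ?_⟩
  induction r using Nat.strong_induction_on with
  | _ r ih =>
    by_cases h1 : r ≤ 2 * R + 1
    · have h2 : M4 F r / Vw r F ^ 2 ≤ B := by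
        have h3 : M4 F r / Vw r F ^ 2 ≤ ∑ i ∈ Icc R (2 * R + 1), M4 F i / Vw i F ^ 2 :=
          single_le_sum (f := fun i => M4 F i / Vw i F ^ 2)
            (fun i _ => div_nonneg (M4_nonneg _ _) (sq_nonneg _)) (mem_Icc.2 ⟨hr, h1⟩)
        linarith
      obtain ⟨-, v2, -, -⟩ := hR r hr
      rwa [div_le_iff₀ (by positivity)] at h2
    · obtain ⟨s, hs | hs⟩ := Nat.even_or_odd' r
      · have h2 := (hK s (by omega) B hB0.le (ih s (by omega) (by omega))).1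
        rw [← hs] at h2
        refine h2.trans (mul_le_mul_of_nonneg_right ?_ (sq_nonneg _))
        linarith
      · have h2 := (hK s (by omega) B hB0.le (ih s (by omega) (by omega))).2
        rw [← hs] at h2
        refine h2.trans (mul_le_mul_of_nonneg_right ?_ (sq_nonneg _))
        linarith

end adt

theorem main (hM : S_MOM) : S_KUR := by
  intro F Fo C c r₀ hA
  exact ⟨dbl hM hA, step_bound hA, err2 hM hA, four hM hA⟩

end Pool.Agent.N940.MN.Kur
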