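import Pool.Agent.N940.MN.Kur

/-!
# Variances and means for fractions of the length
-/

set_option autoImplicit false

open Filter Topology Finset

namespace Pool.Agent.N940.MN.Kur

open Pool.Agent.N940.MN

section

variable {F Fo : W → ℝ} {C c : ℝ} {r₀ : ℕ}

lemma V_half (hK : S_KUR) (hA : Adt F Fo C c r₀) :
    Tendsto (fun s : ℕ => Vw s F / (2 * Vw (s / 2) F)) atTop (𝓝 1) := by
  obtain ⟨h1, h2, -, -⟩ := hK F Fo C c r₀ hA
  have hc := hA.cpos
  have hC := C_nonneg hA
  have key : Tendsto (fun s : ℕ => Real.sqrt (Vw s F) / Real.sqrt (2 * Vw (s / 2) F))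
      atTop (𝓝 1) := by
    rw [Metric.tendsto_atTop]
    intro ε hε
    obtain ⟨R1, hR1⟩ := h1 (ε / 4) (by positivity)
    obtain ⟨R2, hR2⟩ := exists_nat_gt ((C / (ε / 4)) ^ 2 / c)
    refine ⟨2 * (R1 + R2 + r₀ + 1), fun s hs => ?_⟩
    set t := s / 2 with ht
    have ht1 : R1 ≤ t := by omega
    have ht2 : R2 ≤ t := by omega
    have ht3 : r₀ ≤ t := by omega
    have ht4 : 1 ≤ t := by omega
    have ht4' : (1 : ℝ) ≤ t := by exact_mod_cast ht4
    have hv := hA.var t ht3
    have hv0 : 0 < Vw t F := lt_of_lt_of_le (by positivity) hv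
    have hs0 : 0 < Real.sqrt (Vw t F) := Real.sqrt_pos.2 hv0
    have e1 : C ≤ ε / 4 * Real.sqrt (Vw t F) := by
      have e2 : C / (ε / 4) ≤ Real.sqrt (Vw t F) := by
        refine Real.le_sqrt_of_sq_le (le_trans ?_ hv)
        have h7 : (C / (ε / 4)) ^ 2 / c ≤ t := hR2.le.trans (by exact_mod_cast ht2)
        rw [div_le_iff₀ hc] at h7
        linarith
      rw [div_le_iff₀ (by positivity)] at e2
      linarith
    have e3 : |Real.sqrt (Vw s F) - Real.sqrt (2 * Vw t F)| ≤ ε / 2 * Real.sqrt (Vw t F) := by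
      have e4 := hR1 t ht1
      rcases (by omega : s = 2 * t ∨ s = 2 * t + 1) with h | h
      · rw [h]
        refine e4.trans ?_
        nlinarith
      · rw [h]
        have e5 := h2 (2 * t)
        have e6 : Real.sqrt (Vw (2 * t + 1) F) - Real.sqrt (2 * Vw t F) =
          (Real.sqrt (Vw (2 * t + 1) F) - Real.sqrt (Vw (2 * t) F)) +
          (Real.sqrt (Vw (2 * t) F) - Real.sqrt (2 * Vw t F)) := by ring
        rw [e6]
        refine (abs_add_le _ _).trans ?_
        linarith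
    have e7 : Real.sqrt (Vw t F) ≤ Real.sqrt (2 * Vw t F) := Real.sqrt_le_sqrt (by linarith)
    have e8 : 0 < Real.sqrt (2 * Vw t F) := lt_of_lt_of_le hs0 e7
    rw [Real.dist_eq, div_sub_one e8.ne', abs_div, abs_of_pos e8, div_lt_iff₀ e8]
    calc _ ≤ _ := e3
      _ ≤ ε / 2 * Real.sqrt (2 * Vw t F) := mul_le_mul_of_nonneg_left e7 (by positivity)
      _ < _ := by nlinarith
  have h3 := key.pow 2
  rw [one_pow] at h3
  refine h3.congr fun s => ?_
  rw [div_pow, Real.sq_sqrt (Vw_nonneg _ _), Real.sq_sqrt (by have := Vw_nonneg F (s / 2); linarith)]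

lemma E_half (hK : S_KUR) (hA : Adt F Fo C c r₀) :
    Tendsto (fun s : ℕ => (Ew s F - 2 * Ew (s / 2) F) / Real.sqrt s) atTop (𝓝 0) := by
  obtain ⟨-, -, h3, -⟩ := hK F Fo C c r₀ hA
  have hC := C_nonneg hA
  rw [Metric.tendsto_atTop]
  intro ε hε
  obtain ⟨R1, hR1⟩ := h3 ((ε / 4) ^ 2) (by positivity)
  obtain ⟨R2, hR2⟩ := exists_nat_gt ((C / (ε / 4)) ^ 2)
  refine ⟨2 * (R1 + R2 + 1), fun s hs => ?_⟩
  set t := s / 2 with ht
  have ht1 : R1 ≤ t := by omega
  have hs2 : R2 ≤ s := by omega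
  have hs3 : 1 ≤ s := by omega
  have hs3' : (1 : ℝ) ≤ s := by exact_mod_cast hs3
  have hts : (t : ℝ) ≤ s := by exact_mod_cast (by omega : t ≤ s)
  have hs0 : 0 < Real.sqrt s := Real.sqrt_pos.2 (by linarith)
  have e1 : C ≤ ε / 4 * Real.sqrt s := by
    have e2 : C / (ε / 4) ≤ Real.sqrt s := by
      refine Real.le_sqrt_of_sq_le ?_
      exact hR2.le.trans (by exact_mod_cast hs2)
    rw [div_le_iff₀ (by positivity)] at e2
    linarith
  have e2 : |Ew (2 * t) F - 2 * Ew t F| ≤ ε / 4 * Real.sqrt s := by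
    have f1 : Ew (2 * t) F - 2 * Ew t F =
        Ew (t + t) fun w => F w - F (w.take t) - F (w.drop t) := by
      rw [Ew_sub, Ew_sub, two_mul, Ew_split t t (fun u _ => F u), Ew_split t t (fun _ v => F v),
        Ew_const]
      simp only [Ew_const]
      ring
    rw [f1]
    refine (abs_Ew_le_n2 _ _).trans ?_
    have f2 : n2 (t + t) (fun w => F w - F (w.take t) - F (w.drop t)) =
        Real.sqrt (Ew t fun I => Ew t fun J => (F (I ++ J) - F I - F J) ^ 2) := by
      unfold n2
      congr 1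
      rw [← Ew_split t t fun I J => (F (I ++ J) - F I - F J) ^ 2]
      refine Ew_congr fun w _ => ?_
      rw [List.take_append_drop]
    rw [f2]
    refine Real.sqrt_le_iff.2 ⟨by positivity, ?_⟩
    rw [mul_pow, Real.sq_sqrt (by linarith)]
    refine (hR1 t ht1).trans ?_
    exact mul_le_mul_of_nonneg_left hts (by positivity)
  have e3 : |Ew s F - 2 * Ew t F| ≤ ε / 2 * Real.sqrt s := by
    rcases (by omega : s = 2 * t ∨ s = 2 * t + 1) with h | h
    · rw [← h] at e2
      refine e2.trans ?_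
      nlinarith
    · have f1 : |Ew (2 * t + 1) F - Ew (2 * t) F| ≤ C := by
        have f2 : Ew (2 * t + 1) F - Ew (2 * t) F =
            Ew (2 * t + 1) fun w => F w - F (w.take (2 * t)) := by
          rw [Ew_sub, Ew_split (2 * t) 1 (fun u _ => F u)]
          simp only [Ew_const]
        rw [f2]
        refine (abs_Ew_le _ _).trans ?_
        have f3 : (Ew (2 * t + 1) fun w => |F w - F (w.take (2 * t))|) ≤
            Ew (2 * t + 1) fun _ => C := Ew_mono fun w hw => step_abs hA _ w hw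
        rwa [Ew_const] at f3
      rw [← h] at f1
      have e6 : Ew s F - 2 * Ew t F = (Ew s F - Ew (2 * t) F) + (Ew (2 * t) F - 2 * Ew t F) := by
        ring
      rw [e6]
      refine (abs_add_le _ _).trans ?_
      linarith
  rw [Real.dist_eq, sub_zero, abs_div, abs_of_pos hs0, div_lt_iff₀ hs0]
  nlinarith

lemma tendsto_frac (p : ℕ) : Tendsto (fun n : ℕ => 2 * n / 2 ^ p) atTop atTop := by
  refine tendsto_atTop.2 fun b => eventually_atTop.2 ⟨b * 2 ^ p, fun n hn => ?_⟩
  rw [Nat.le_div_iff_mul_le (by positivity)]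
  omega

theorem rat (hK : S_KUR) : S_RAT := by
  intro F Fo C c r₀ hA p
  have hc := hA.cpos
  have hV := V_half hK hA
  have hE := E_half hK hA
  -- the means, for a general length
  have hE2 : ∀ p : ℕ, Tendsto (fun n : ℕ => (Ew (2 * n / 2 ^ p) F -
      2 * Ew (2 * n / 2 ^ p / 2) F) / Real.sqrt n) atTop (𝓝 0) := by
    intro p
    have h1 := (hE.comp (tendsto_frac p)).abs.const_mul (Real.sqrt 2)
    rw [abs_zero, mul_zero] at h1
    refine squeeze_zero_norm' ?_ h1
    have h2 := (tendsto_frac p).eventually_ge_atTop 1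
    filter_upwards [h2] with n hn
    set s := 2 * n / 2 ^ p with hs
    have hs1 : (1 : ℝ) ≤ s := by exact_mod_cast hn
    have hs2 : (s : ℝ) ≤ 2 * n := by
      have : s ≤ 2 * n := Nat.div_le_self _ _
      exact_mod_cast this
    have hs0 : 0 < Real.sqrt s := Real.sqrt_pos.2 (by linarith)
    have hn0 : 0 < Real.sqrt n := Real.sqrt_pos.2 (by linarith)
    have h3 : Real.sqrt s ≤ Real.sqrt 2 * Real.sqrt n := by
      rw [← Real.sqrt_mul (by norm_num)]
      exact Real.sqrt_le_sqrt hs2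
    show ‖_‖ ≤ Real.sqrt 2 * |(Ew s F - 2 * Ew (s / 2) F) / Real.sqrt s|
    rw [Real.norm_eq_abs, abs_div, abs_div, abs_of_pos hs0, abs_of_pos hn0, mul_div_assoc',
      div_le_div_iff₀ hn0 hs0]
    have h4 := abs_nonneg (Ew s F - 2 * Ew (s / 2) F)
    nlinarith
  induction p with
  | zero =>
    have e0 : ∀ n : ℕ, 2 * n / 2 ^ 0 = 2 * n := fun n => by rw [pow_zero, Nat.div_one]
    have e1 : ∀ n : ℕ, 2 * n / 2 = n := fun n => by omega
    constructor
    · have h1 := hV.comp (tendsto_frac 0)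
      refine h1.congr fun n => ?_
      show Vw (2 * n / 2 ^ 0) F / (2 * Vw (2 * n / 2 ^ 0 / 2) F) = _
      rw [e0, e1, pow_zero, one_mul]
    · refine (hE2 0).congr fun n => ?_
      rw [e0, e1, pow_zero, one_mul]
  | succ p ih =>
    obtain ⟨i1, i2⟩ := ih
    have e0 : ∀ n : ℕ, 2 * n / 2 ^ (p + 1) = 2 * n / 2 ^ p / 2 := fun n => by
      rw [Nat.div_div_eq_div_mul, pow_succ]
    constructor
    · have h1 := i1.mul ((hV.comp (tendsto_frac p)).inv₀ one_ne_zero)
      rw [inv_one, mul_one] at h1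
      refine h1.congr' ?_
      filter_upwards [(tendsto_frac p).eventually_ge_atTop (r₀ + 1)] with n hn
      show 2 ^ p * Vw (2 * n / 2 ^ p) F / (2 * Vw n F) *
        (Vw (2 * n / 2 ^ p) F / (2 * Vw (2 * n / 2 ^ p / 2) F))⁻¹ = _
      rw [e0]
      set s := 2 * n / 2 ^ p
      have hv := hA.var s (by omega)
      have hs1 : (1 : ℝ) ≤ s := by exact_mod_cast (by omega : 1 ≤ s)
      have hv0 : Vw s F ≠ 0 := (lt_of_lt_of_le (by positivity) hv).ne'
      rw [inv_div, pow_succ]
      field_simp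
    · have h1 := i2.sub ((hE2 p).const_mul ((2 : ℝ) ^ p))
      rw [mul_zero, sub_zero] at h1
      refine h1.congr fun n => ?_
      rw [e0, pow_succ]
      ring

end

end Pool.Agent.N940.MN.Kur
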