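import Pool.Agent.N940.MN.Stm3

/-!
# From words to meandric systems, and from characteristic functions to distribution functions
-/

set_option autoImplicit false

open Filter Topology Finset MeasureTheory ProbabilityTheory

namespace Pool.Agent.N940.MN.Law

lemma up_ofFn {m : ℕ} (w : Fin m → Bool × Bool) :
    up (List.ofFn w) = List.ofFn fun i => (w i).1 := by
  unfold up
  rw [List.map_ofFn]
  rfl

lemma lo_ofFn {m : ℕ} (w : Fin m → Bool × Bool) :
    lo (List.ofFn w) = List.ofFn fun i => (w i).2 := by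
  unfold lo
  rw [List.map_ofFn]
  rfl

lemma split_one {E : Type} [AddCommGroup E] (Ψ : List Bool → List Bool → E) (w : W)
    (a b : List Bool) (ha : up w = a) (hb : lo w = b) :
    (if bal w then Ψ (up w) (lo w) else 0) =
      if tot a = 0 then (if tot b = 0 then Ψ a b else 0) else 0 := by
  subst ha hb
  by_cases h1 : tot (up w) = 0
  · by_cases h2 : tot (lo w) = 0
    · rw [if_pos (show bal w from ⟨h1, h2⟩), if_pos h1, if_pos h2]
    · rw [if_neg (fun h : bal w => h2 h.2), if_pos h1, if_neg h2]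
  · rw [if_neg (fun h : bal w => h1 h.1), if_neg h1]

lemma Ew_split {E : Type} [AddCommGroup E] [Module ℝ E] (m : ℕ) (Ψ : List Bool → List Bool → E) :
    Ew m (fun w => if bal w then Ψ (up w) (lo w) else 0) = ((4 : ℝ) ^ m)⁻¹ •
      ∑ v : Fin m → Bool, (if tot (List.ofFn v) = 0 then
        (∑ v' : Fin m → Bool, if tot (List.ofFn v') = 0 then Ψ (List.ofFn v) (List.ofFn v') else 0)
        else 0) := by
  unfold Ew
  congr 1
  rw [← (Equiv.arrowProdEquivProdArrow (Fin m) (fun _ => Bool) (fun _ => Bool)).symm.sum_comp,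
    Fintype.sum_prod_type]
  refine sum_congr rfl fun v _ => ?_
  have e : ∀ v' : Fin m → Bool, (fun w : W => if bal w then Ψ (up w) (lo w) else 0)
      (List.ofFn ((Equiv.arrowProdEquivProdArrow (Fin m) (fun _ => Bool)
        (fun _ => Bool)).symm (v, v'))) =
      if tot (List.ofFn v) = 0 then
        (if tot (List.ofFn v') = 0 then Ψ (List.ofFn v) (List.ofFn v') else 0) else 0 := by
    intro v'
    refine split_one Ψ _ _ _ ?_ ?_
    · rw [up_ofFn]; rfl
    · rw [lo_ofFn]; rfl
  rw [sum_congr rfl fun v' _ => e v']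
  split_ifs with h
  · rfl
  · simp

/-- the law of a uniform pair of arc systems -/
lemma transfer (hC : S_COUNT) (n : ℕ) : ∃ per : List Bool → Equiv.Perm (Fin (2 * n)),
    (∀ v : List Bool, v.length = 2 * n → tot v = 0 → Mat v (per v) ∧ IsArcSystem (per v)) ∧
    ∀ (E : Type) [AddCommGroup E] [Module ℝ E]
      (Ψ : Equiv.Perm (Fin (2 * n)) → Equiv.Perm (Fin (2 * n)) → E),
      EB n (fun w => Ψ (per (up w)) (per (lo w))) =
        (((AS n).card : ℝ) ^ 2)⁻¹ • ∑ σ ∈ AS n, ∑ τ ∈ AS n, Ψ σ τ := by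
  obtain ⟨per, h1, h2⟩ := hC n
  refine ⟨per, h1, ?_⟩
  intro E _ _ Ψ
  have key : ∀ (E : Type) [AddCommGroup E] [Module ℝ E]
      (Ψ : Equiv.Perm (Fin (2 * n)) → Equiv.Perm (Fin (2 * n)) → E),
      Ew (2 * n) (fun w => if bal w then Ψ (per (up w)) (per (lo w)) else 0) =
      (((4 : ℝ) ^ (2 * n))⁻¹ * ((n : ℝ) + 1) ^ 2) • ∑ σ ∈ AS n, ∑ τ ∈ AS n, Ψ σ τ := by
    intro E _ _ Ψ
    rw [Ew_split (2 * n) (fun v v' => Ψ (per v) (per v'))]
    rw [mul_smul]
    congr 1
    have e1 : ∀ v : Fin (2 * n) → Bool, (∑ v' : Fin (2 * n) → Bool,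
        if tot (List.ofFn v') = 0 then Ψ (per (List.ofFn v)) (per (List.ofFn v')) else 0) =
        ((n : ℝ) + 1) • ∑ τ ∈ AS n, Ψ (per (List.ofFn v)) τ := by
      intro v
      exact h2 E (fun τ => Ψ (per (List.ofFn v)) τ)
    simp only [e1]
    rw [h2 E (fun σ => ((n : ℝ) + 1) • ∑ τ ∈ AS n, Ψ σ τ), ← smul_sum, smul_smul, pow_two]
  unfold EB
  rw [key E Ψ]
  have h3 := key ℝ (fun _ _ => (1 : ℝ))
  simp only [sum_const, smul_eq_mul, nsmul_eq_mul, mul_one] at h3
  rw [h3, smul_smul]
  congr 1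
  have h4 : ((4 : ℝ) ^ (2 * n))⁻¹ * ((n : ℝ) + 1) ^ 2 ≠ 0 := by positivity
  rw [mul_inv, mul_comm ((((4 : ℝ) ^ (2 * n))⁻¹ * ((n : ℝ) + 1) ^ 2))⁻¹, mul_assoc,
    inv_mul_cancel₀ h4, mul_one, pow_two]

/-- orbits are the classes of the generated equivalence relation -/
lemma comp_eq {n : ℕ} (σ τ : Equiv.Perm (Fin (2 * n))) :
    comp σ τ = Nat.card (Quot fun i j : Fin (2 * n) => σ i = j ∨ τ i = j) := by
  have hcl : ∀ g ∈ Subgroup.closure ({σ, τ} : Set (Equiv.Perm (Fin (2 * n)))),
      ∀ b : Fin (2 * n), Quot.mk (fun i j : Fin (2 * n) => σ i = j ∨ τ i = j) (g b) =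
        Quot.mk (fun i j : Fin (2 * n) => σ i = j ∨ τ i = j) b := by
    intro g hg
    refine Subgroup.closure_induction (p := fun g _ => ∀ b : Fin (2 * n),
      Quot.mk (fun i j : Fin (2 * n) => σ i = j ∨ τ i = j) (g b) =
        Quot.mk (fun i j : Fin (2 * n) => σ i = j ∨ τ i = j) b) ?_ ?_ ?_ ?_ hg
    · intro x hx b
      rcases hx with rfl | hx
      · exact (Quot.sound (r := fun i j : Fin (2 * n) => x i = j ∨ τ i = j) (Or.inl rfl)).symm
      · rw [Set.mem_singleton_iff] at hx
        subst hx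
        exact (Quot.sound (r := fun i j : Fin (2 * n) => σ i = j ∨ x i = j) (Or.inr rfl)).symm
    · intro b
      rfl
    · intro x y _ _ hx hy b
      rw [Equiv.Perm.mul_apply, hx, hy]
    · intro x _ hx b
      have := hx (x⁻¹ b)
      rw [← this]
      congr 1
      exact (Equiv.apply_symm_apply x b)
  unfold comp
  refine Nat.card_congr ⟨Quotient.lift (fun b => Quot.mk _ b) ?_, Quot.lift (fun b =>
    Quotient.mk (MulAction.orbitRel (Subgroup.closure {σ, τ}) (Fin (2 * n))) b) ?_, ?_, ?_⟩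
  · rintro a b ⟨g, hg⟩
    have h := hcl g.1 g.2 b
    rw [← h]
    congr 1
    exact hg.symm
  · rintro a b (h | h)
    · apply Quotient.sound
      refine ⟨⟨σ⁻¹, Subgroup.inv_mem _ (Subgroup.subset_closure (by simp))⟩, ?_⟩
      show σ⁻¹ b = a
      rw [← h]
      exact Equiv.symm_apply_apply σ a
    · apply Quotient.sound
      refine ⟨⟨τ⁻¹, Subgroup.inv_mem _ (Subgroup.subset_closure (by simp))⟩, ?_⟩
      show τ⁻¹ b = a
      rw [← h]
      exact Equiv.symm_apply_apply τ a
  · intro q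
    induction q using Quotient.inductionOn with
    | _ a => rfl
  · intro q
    induction q using Quot.inductionOn with
    | _ a => rfl

/-! ### distribution functions -/

/-- from characteristic functions to distribution functions, for finitely supported laws -/
lemma cdf_of_char (P : ℕ → Type) [∀ n, Fintype (P n)] [∀ n, Nonempty (P n)]
    (Z : ∀ n, P n → ℝ) (h : ∀ t : ℝ, Tendsto (fun n => ((Fintype.card (P n) : ℂ))⁻¹ *
      ∑ p : P n, Complex.exp (Complex.I * ((t * Z n p : ℝ) : ℂ))) atTop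
        (𝓝 (Complex.exp ((-(t ^ 2) / 2 : ℝ) : ℂ)))) (x : ℝ) :
    Tendsto (fun n => (((Finset.univ.filter fun p => Z n p ≤ x).card : ℕ) : ℝ) /
      (Fintype.card (P n) : ℝ)) atTop (𝓝 ((gaussianReal 0 1).real (Set.Iic x))) := by
  classical
  obtain ⟨c, hc⟩ : ∃ c : ℕ → ENNReal, c = fun n => ((Fintype.card (P n) : ℕ) : ENNReal)⁻¹ :=
    ⟨_, rfl⟩
  have hcard : ∀ n, 0 < Fintype.card (P n) := fun n => Fintype.card_pos
  obtain ⟨μ, hμ⟩ : ∃ μ : ℕ → Measure ℝ, μ = fun n => c n • ∑ p : P n, Measure.dirac (Z n p) :=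
    ⟨_, rfl⟩
  have hprob : ∀ n, IsProbabilityMeasure (μ n) := by
    intro n
    constructor
    rw [hμ]
    simp only [Measure.smul_apply, Measure.finsetSum_apply, measure_univ, sum_const, card_univ,
      nsmul_eq_mul, mul_one, smul_eq_mul]
    rw [hc]
    exact ENNReal.inv_mul_cancel (by exact_mod_cast (hcard n).ne') (ENNReal.natCast_ne_top _)
  have hint : ∀ n (g : ℝ → ℂ), ∫ x, g x ∂(μ n) =
      ((Fintype.card (P n) : ℂ))⁻¹ * ∑ p : P n, g (Z n p) := by
    intro n g
    rw [hμ]
    simp only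
    rw [integral_smul_measure, integral_finsetSum_measure fun i _ => integrable_dirac
      (by simp [enorm_lt_top])]
    simp only [integral_dirac]
    rw [hc]
    simp only [ENNReal.toReal_inv, ENNReal.toReal_natCast, Complex.real_smul]
    push_cast
    rfl
  let μP : ℕ → ProbabilityMeasure ℝ := fun n => ⟨μ n, hprob n⟩
  let G : ProbabilityMeasure ℝ := ⟨gaussianReal 0 1, inferInstance⟩
  have hconv : Tendsto μP atTop (𝓝 G) := by
    rw [ProbabilityMeasure.tendsto_iff_tendsto_charFun]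
    intro θ
    have e1 : charFun (G : Measure ℝ) θ = Complex.exp ((-(θ ^ 2) / 2 : ℝ) : ℂ) := by
      change charFun (ProbabilityTheory.gaussianReal 0 1) θ = _
      rw [ProbabilityTheory.charFun_gaussianReal]
      congr 1
      push_cast
      ring
    rw [e1]
    refine (h θ).congr fun n => ?_
    change _ = charFun (μ n) θ
    rw [charFun_apply_real, hint]
    congr 1
    refine sum_congr rfl fun p _ => ?_
    congr 1
    push_cast
    ring
  have hfr : (G : Measure ℝ) (frontier (Set.Iic x)) = 0 := by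
    rw [frontier_Iic]
    change (gaussianReal 0 1) {x} = 0
    have := nullSingletonClass_gaussianReal (μ := 0) (v := 1) one_ne_zero
    exact measure_singleton x
  have h1 := ProbabilityMeasure.tendsto_measure_of_null_frontier_of_tendsto' hconv hfr
  have h2 := (ENNReal.tendsto_toReal (measure_ne_top (G : Measure ℝ) (Set.Iic x))).comp h1
  refine h2.congr fun n => ?_
  simp only [Function.comp]
  change ((μ n) (Set.Iic x)).toReal = _
  rw [hμ]
  simp only [Measure.smul_apply, Measure.finsetSum_apply, smul_eq_mul]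
  have h3 : ∑ p : P n, (Measure.dirac (Z n p)) (Set.Iic x) =
      (((Finset.univ.filter fun p => Z n p ≤ x).card : ℕ) : ENNReal) := by
    rw [Finset.card_filter]
    push_cast
    refine sum_congr rfl fun p _ => ?_
    rw [Measure.dirac_apply' _ measurableSet_Iic]
    simp only [Set.indicator, Set.mem_Iic, Pi.one_apply]
  rw [h3, hc]
  simp only [ENNReal.toReal_mul, ENNReal.toReal_inv, ENNReal.toReal_natCast]
  rw [div_eq_inv_mul]

/-! ### the law of the number of components -/

lemma EB_congr {E : Type} [AddCommGroup E] [Module ℝ E] {n : ℕ} {F G : W → E}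
    (h : ∀ w : W, w.length = 2 * n → bal w → F w = G w) : EB n F = EB n G := by
  unfold EB
  congr 1
  refine Ew_congr fun w hw => ?_
  split_ifs with hb
  · exact h w hw hb
  · rfl

/-- expectations of functions of the number of components -/
lemma expect (hC : S_COUNT) (hO : S_ORB) (n : ℕ) (E : Type) [AddCommGroup E] [Module ℝ E]
    (Φ : ℕ → E) : EB n (fun w => Φ (fo w)) =
      (((AS n).card : ℝ) ^ 2)⁻¹ • ∑ σ ∈ AS n, ∑ τ ∈ AS n, Φ (comp σ τ) := by
  obtain ⟨per, h1, h2⟩ := transfer hC n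
  rw [← h2 E (fun σ τ => Φ (comp σ τ))]
  refine EB_congr fun w hw hb => ?_
  congr 1
  have e1 := h1 (up w) (by rw [length_up, hw]) hb.1
  have e2 := h1 (lo w) (by rw [length_lo, hw]) hb.2
  exact (hO n w _ _ hw hb e1.1 e2.1).symm

lemma AS_nonempty (hC : S_COUNT) (n : ℕ) : (AS n).Nonempty := by
  obtain ⟨per, h1, -⟩ := hC n
  have h2 := (h1 (List.replicate n true ++ List.replicate n false) (by simp; ring) (by
    unfold tot
    simp [sg])).2
  exact ⟨_, by
    unfold AS
    rw [mem_filter]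
    exact ⟨mem_univ _, h2⟩⟩

end Pool.Agent.N940.MN.Law
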