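import Pool.Agent.N940.MN.Stm3

/-!
# Moments of the numbers of unmatched letters (helper80)
-/

set_option autoImplicit false

open Filter Topology Finset

namespace Pool.Agent.N940.MN.Mom

open Pool.Agent.N940.MN

lemma U_true (v : List Bool) : U (v ++ [true]) = U v + 1 := by
  unfold U
  rw [List.foldl_append]
  simp [stp]

lemma stp_false (s : ℕ × ℕ) : (stp s false).2 = s.2 - 1 := by
  by_cases h : s.2 = 0
  · simp [stp, h]
  · simp [stp, h]

lemma U_false (v : List Bool) : U (v ++ [false]) = U v - 1 := by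
  unfold U
  rw [List.foldl_append]
  exact stp_false _

lemma up_one (x : Bool × Bool) : up [x] = [x.1] := rfl

lemma step {r : ℕ} (k : ℕ) : Ew (r + 1) (fun w => (U (up w) : ℝ) ^ k) =
    Ew r fun w => (((U (up w) + 1 : ℕ) : ℝ) ^ k + ((U (up w) - 1 : ℕ) : ℝ) ^ k) / 2 := by
  rw [Ew_snoc]
  congr 1
  funext w
  simp only [up_append, up_one, Fintype.sum_prod_type, Fintype.sum_bool, U_true, U_false,
    smul_eq_mul]
  ring

lemma m2 (r : ℕ) : Ew r (fun w => (U (up w) : ℝ) ^ 2) ≤ r := by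
  induction r with
  | zero =>
    rw [Ew_zero]
    simp [U]
  | succ r ih =>
    rw [step]
    have h : Ew r (fun w => (((U (up w) + 1 : ℕ) : ℝ) ^ 2 + ((U (up w) - 1 : ℕ) : ℝ) ^ 2) / 2) ≤
        Ew r (fun w => (U (up w) : ℝ) ^ 2 + 1) := by
      refine Ew_mono fun w _ => ?_
      rcases Nat.eq_zero_or_pos (U (up w)) with h | h
      · rw [h]
        norm_num
      · rw [Nat.cast_sub h]
        push_cast
        apply le_of_eq
        ring
    rw [Ew_add, Ew_const] at h
    refine h.trans ?_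
    push_cast
    linarith

lemma m4 (r : ℕ) : Ew r (fun w => (U (up w) : ℝ) ^ 4) ≤ 4 * (r : ℝ) ^ 2 := by
  induction r with
  | zero =>
    rw [Ew_zero]
    simp [U]
  | succ r ih =>
    rw [step]
    have h : Ew r (fun w => (((U (up w) + 1 : ℕ) : ℝ) ^ 4 + ((U (up w) - 1 : ℕ) : ℝ) ^ 4) / 2) ≤
        Ew r (fun w => (U (up w) : ℝ) ^ 4 + (6 * (U (up w) : ℝ) ^ 2 + 1)) := by
      refine Ew_mono fun w _ => ?_
      rcases Nat.eq_zero_or_pos (U (up w)) with h | h
      · rw [h]
        norm_num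
      · rw [Nat.cast_sub h]
        push_cast
        apply le_of_eq
        ring
    rw [Ew_add, Ew_add, Ew_const, Ew_mul_left] at h
    have h2 := m2 r
    refine h.trans ?_
    push_cast
    have h3 : (0 : ℝ) ≤ r := Nat.cast_nonneg r
    nlinarith

theorem main (hU : S_U) : S_MOM := by
  intro r
  have hD : ∀ k : ℕ, Ew r (fun w => (Dn (up w) : ℝ) ^ k) = Ew r (fun w => (U (up w) : ℝ) ^ k) := by
    intro k
    rw [← Ew_mir]
    congr 1
    funext w
    rw [up_mir, (hU.2.2 (up w)).2]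
  have hl : ∀ k : ℕ, Ew r (fun w => (U (lo w) : ℝ) ^ k) = Ew r (fun w => (U (up w) : ℝ) ^ k) := by
    intro k
    rw [← Ew_sw]
    simp only [lo_sw]
  have hDl : ∀ k : ℕ, Ew r (fun w => (Dn (lo w) : ℝ) ^ k) = Ew r (fun w => (U (up w) : ℝ) ^ k) := by
    intro k
    rw [← Ew_sw]
    simp only [lo_sw]
    exact hD k
  rw [hD, hl, hDl, hD, hl, hDl]
  exact ⟨m2 r, m2 r, m2 r, m2 r, m4 r, m4 r, m4 r, m4 r⟩

end Pool.Agent.N940.MN.Mom
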