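import Pool.Agent.N940.MN.Stm2

/-!
# The number of components of a meandric system (helper73)
-/

set_option autoImplicit false

open Finset

namespace Pool.Agent.N940.MN.Orb

theorem rp_eq (h1 : S_ARC1) {v : List Bool} {k x : ℕ} (h : rop v k x) : rp v k = x := by
  obtain ⟨-, -, -, -, -, a6, -⟩ := h1
  have hex : ∃ x, rop v k x := ⟨x, h⟩
  unfold rp
  rw [dif_pos hex]
  exact a6 v k _ _ hex.choose_spec h

theorem lp_eq (h1 : S_ARC1) {v : List Bool} {k x : ℕ} (h : lop v k x) : lp v k = x := by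
  obtain ⟨-, -, -, -, -, -, -, a8, -⟩ := h1
  have hex : ∃ x, lop v k x := ⟨x, h⟩
  unfold lp
  rw [dif_pos hex]
  exact a8 v k _ _ hex.choose_spec h

theorem rp_ge (h1 : S_ARC1) {v : List Bool} {k : ℕ} (h : U v ≤ k) : rp v k = v.length := by
  obtain ⟨-, -, -, -, -, -, -, -, -, -, -, -, -, a14, -⟩ := h1
  unfold rp
  exact dif_neg fun hex => absurd ((a14 v k).1 hex) (not_lt.2 h)

theorem lp_ge (h1 : S_ARC1) {v : List Bool} {k : ℕ} (h : Dn v ≤ k) : lp v k = v.length := by
  obtain ⟨-, -, -, -, -, -, -, -, -, -, -, -, -, -, a15⟩ := h1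
  unfold lp
  exact dif_neg fun hex => absurd ((a15 v k).1 hex) (not_lt.2 h)

theorem exists_rop (h1 : S_ARC1) {v : List Bool} {k : ℕ} (h : k < U v) : ∃ x, rop v k x := by
  obtain ⟨-, -, -, -, -, -, -, -, -, -, -, -, -, a14, -⟩ := h1
  exact (a14 v k).2 h

theorem exists_lop (h1 : S_ARC1) {v : List Bool} {k : ℕ} (h : k < Dn v) : ∃ x, lop v k x := by
  obtain ⟨-, -, -, -, -, -, -, -, -, -, -, -, -, -, a15⟩ := h1
  exact (a15 v k).2 h

/-- invariance under the matching -/
theorem inv_iff (h1 : S_ARC1) (hU : S_U) {n : ℕ} {v : List Bool} (hv : v.length = 2 * n)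
    (ht : tot v = 0) {σ : Equiv.Perm (Fin (2 * n))} (hσ : Mat v σ) (c : ℕ → ZMod 2) :
    ((∀ x y, arc v x y → c x = c y) ∧ ∀ k, c (rp v k) = c (lp v k)) ↔
      ∀ x : Fin (2 * n), c (σ x) = c x := by
  have hUD : U v = Dn v := by
    have := hU.2.1 v
    omega
  constructor
  · rintro ⟨h2, h3⟩ x
    rcases (hσ x (σ x)).1 rfl with h | h | ⟨k, ⟨h4, h5⟩ | ⟨h4, h5⟩⟩
    · exact (h2 _ _ h).symm
    · exact h2 _ _ h
    · have h6 := h3 k
      rw [rp_eq h1 h4, lp_eq h1 h5] at h6
      exact h6.symm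
    · have h6 := h3 k
      rw [rp_eq h1 h5, lp_eq h1 h4] at h6
      exact h6
  · intro h2
    constructor
    · intro x y h
      have hy : y < 2 * n := hv ▸ h.2.1
      have hx : x < 2 * n := h.1.trans hy
      have h3 : σ ⟨x, hx⟩ = ⟨y, hy⟩ := (hσ _ _).2 (Or.inl h)
      have h4 := h2 ⟨x, hx⟩
      rw [h3] at h4
      exact h4.symm
    · intro k
      rcases lt_or_ge k (U v) with hk | hk
      · obtain ⟨x, hx⟩ := exists_rop h1 hk
        obtain ⟨y, hy⟩ := exists_lop h1 (hUD ▸ hk)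
        have hx' : x < 2 * n := hv ▸ hx.1
        have hy' : y < 2 * n := hv ▸ hy.1
        have h3 : σ ⟨x, hx'⟩ = ⟨y, hy'⟩ := (hσ _ _).2 (Or.inr (Or.inr ⟨k, Or.inl ⟨hx, hy⟩⟩))
        have h4 := h2 ⟨x, hx'⟩
        rw [h3] at h4
        rw [rp_eq h1 hx, lp_eq h1 hy]
        exact h4.symm
      · rw [rp_ge h1 hk, lp_ge h1 (hUD ▸ hk)]

theorem main (h1 : S_ARC1) (hU : S_U) : S_ORB := by
  intro n w σ τ hw hb hσ hτ
  classical
  have hlu : (up w).length = 2 * n := by rw [up, List.length_map, hw]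
  have hll : (lo w).length = 2 * n := by rw [lo, List.length_map, hw]
  set G : Subgroup (Equiv.Perm (Fin (2 * n))) := Subgroup.closure {σ, τ} with hG
  let Q : Type := MulAction.orbitRel.Quotient G (Fin (2 * n))
  have : Finite Q := Quotient.finite _
  let L : (Q → ZMod 2) →ₗ[ZMod 2] (ℕ → ZMod 2) :=
    { toFun := fun φ i => if h : i < 2 * n then
        φ (Quotient.mk (MulAction.orbitRel G (Fin (2 * n))) ⟨i, h⟩) else 0
      map_add' := fun a b => by
        funext i
        simp only [Pi.add_apply]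
        split_ifs <;> simp
      map_smul' := fun t a => by
        funext i
        simp only [Pi.smul_apply, RingHom.id_apply]
        split_ifs <;> simp }
  have hLx : ∀ (φ : Q → ZMod 2) (x : Fin (2 * n)),
      L φ x = φ (Quotient.mk (MulAction.orbitRel G (Fin (2 * n))) x) := by
    intro φ x
    change (if h : (x : ℕ) < 2 * n then
        φ (Quotient.mk (MulAction.orbitRel G (Fin (2 * n))) ⟨x, h⟩) else 0) = _
    rw [dif_pos x.2]
  have hL0 : ∀ (φ : Q → ZMod 2) (i : ℕ), 2 * n ≤ i → L φ i = 0 := by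
    intro φ i hi
    change (if h : i < 2 * n then
        φ (Quotient.mk (MulAction.orbitRel G (Fin (2 * n))) ⟨i, h⟩) else 0) = _
    rw [dif_neg (not_lt.2 hi)]
  have hinj : Function.Injective L := by
    intro φ ψ h
    funext q
    induction q using Quotient.inductionOn with
    | h x =>
      rw [← hLx φ x, ← hLx ψ x, h]
  have hgen : ∀ g : G, ∀ (φ : Q → ZMod 2) (x : Fin (2 * n)), 
      L φ (((g : Equiv.Perm (Fin (2 * n))) x : Fin (2 * n)) : ℕ) = L φ x := by
    intro g φ x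
    rw [hLx, hLx]
    congr 1
    exact Quotient.sound ⟨g, rfl⟩
  have hσG : σ ∈ G := Subgroup.subset_closure (Or.inl rfl)
  have hτG : τ ∈ G := Subgroup.subset_closure (Or.inr rfl)
  have hmem : ∀ c : ℕ → ZMod 2, c ∈ CO w ↔ (∀ i, 2 * n ≤ i → c i = 0) ∧
      (∀ x : Fin (2 * n), c (σ x) = c x) ∧ ∀ x : Fin (2 * n), c (τ x) = c x := by
    intro c
    rw [← inv_iff h1 hU hlu hb.1 hσ c, ← inv_iff h1 hU hll hb.2 hτ c]
    unfold CO
    rw [Submodule.mem_inf, Submodule.mem_inf, LinearMap.mem_ker, LinearMap.mem_ker]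
    have e : ∀ p q : ℕ → ℕ, (ev p - ev q) c = 0 ↔ ∀ k, c (p k) = c (q k) := by
      intro p q
      constructor
      · intro h k
        exact sub_eq_zero.1 (congrFun h k)
      · intro h
        funext k
        exact sub_eq_zero.2 (h k)
    rw [e, e]
    constructor
    · rintro ⟨⟨h2, h3, h4⟩, h5, h6⟩
      exact ⟨fun i hi => h2 i (hw ▸ hi), ⟨h3, h5⟩, h4, h6⟩
    · rintro ⟨h2, ⟨h3, h5⟩, h4, h6⟩
      exact ⟨⟨fun i hi => h2 i (hw ▸ hi), h3, h4⟩, h5, h6⟩
  have hrange : LinearMap.range L = CO w := by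
    ext c
    rw [hmem, LinearMap.mem_range]
    constructor
    · rintro ⟨φ, rfl⟩
      exact ⟨hL0 φ, fun x => hgen ⟨σ, hσG⟩ φ x, fun x => hgen ⟨τ, hτG⟩ φ x⟩
    · rintro ⟨h2, h3, h4⟩
      have h5 : ∀ g ∈ G, ∀ x : Fin (2 * n), c (g x) = c x := by
        intro g hg
        refine Subgroup.closure_induction (p := fun g _ => ∀ x : Fin (2 * n), c (g x) = c x)
          ?_ ?_ ?_ ?_ hg
        · rintro g (rfl | hg)
          · exact h3
          · rw [Set.mem_singleton_iff] at hg
            subst hg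
            exact h4
        · intro x
          rfl
        · intro a b _ _ ha hb x
          rw [Equiv.Perm.mul_apply, ha, hb]
        · intro a _ ha x
          have h6 := ha (a⁻¹ x)
          have h7 : a (a⁻¹ x) = x := a.apply_symm_apply x
          rw [h7] at h6
          exact h6.symm
      refine ⟨Quotient.lift (fun x : Fin (2 * n) => c x) ?_, ?_⟩
      · rintro a b ⟨g, hg⟩
        have h6 := h5 g.1 g.2 b
        have h7 : (g : Equiv.Perm (Fin (2 * n))) b = a := hg
        rw [h7] at h6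
        exact h6
      · funext i
        rcases lt_or_ge i (2 * n) with hi | hi
        · exact hLx _ ⟨i, hi⟩
        · rw [hL0 _ i hi, h2 i hi]
  have : Fintype Q := Fintype.ofFinite Q
  unfold comp fo
  rw [← hrange, LinearMap.finrank_range_of_inj hinj, Module.finrank_fintype_fun_eq_card,
    Nat.card_eq_fintype_card]

end Pool.Agent.N940.MN.Orb
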