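import Pool.Agent.N940.MN.Stm2

/-!
# A local change of the number of loops
-/

set_option autoImplicit false

namespace Pool.Agent.N940.MN.Patch

open Pool.Agent.N940.MN

/-- no unmatched letters -/
def Cl (w : W) : Prop := U (up w) = 0 ∧ Dn (up w) = 0 ∧ U (lo w) = 0 ∧ Dn (lo w) = 0

lemma up_append (p q : W) : up (p ++ q) = up p ++ up q := List.map_append

lemma lo_append (p q : W) : lo (p ++ q) = lo p ++ lo q := List.map_append

lemma up_length (w : W) : (up w).length = w.length := List.length_map _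

lemma lo_length (w : W) : (lo w).length = w.length := List.length_map _

lemma up_mir (w : W) : up (mir w) = ((up w).map not).reverse := by
  simp [up, mir, List.map_reverse]

lemma lo_mir (w : W) : lo (mir w) = ((lo w).map not).reverse := by
  simp [lo, mir, List.map_reverse]

lemma ev_apply (p : ℕ → ℕ) (c : ℕ → ZMod 2) (k : ℕ) : ev p c k = c (p k) := rfl

lemma rp_spec {v : List Bool} {k : ℕ} (h : ∃ x, rop v k x) : rop v k (rp v k) := by
  rw [rp, dif_pos h]; exact h.choose_spec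

lemma rp_none {v : List Bool} {k : ℕ} (h : ¬ ∃ x, rop v k x) : rp v k = v.length := by
  rw [rp, dif_neg h]

lemma lp_none {v : List Bool} {k : ℕ} (h : ¬ ∃ x, lop v k x) : lp v k = v.length := by
  rw [lp, dif_neg h]

lemma norop (h1 : S_ARC1) {v : List Bool} (h : U v = 0) (k : ℕ) : ¬ ∃ x, rop v k x := by
  obtain ⟨-, -, -, -, -, -, -, -, -, -, -, -, -, a14, -⟩ := h1
  rw [a14, h]; omega

lemma nolop (h1 : S_ARC1) {v : List Bool} (h : Dn v = 0) (k : ℕ) : ¬ ∃ x, lop v k x := by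
  obtain ⟨-, -, -, -, -, -, -, -, -, -, -, -, -, -, a15⟩ := h1
  rw [a15, h]; omega

lemma rop_app (h1 : S_ARC1) (h2 : S_ARC2) {v w : List Bool} (hU : U w = 0) (hD : Dn w = 0)
    (k x : ℕ) : rop (v ++ w) k x ↔ rop v k x := by
  rw [h2.2.1]
  constructor
  · rintro (⟨x', _, h⟩ | ⟨_, h⟩)
    · exact absurd ⟨x', h⟩ (norop h1 hU k)
    · rw [hU, hD] at h; exact h
  · intro h
    right
    rw [hU, hD]
    exact ⟨Nat.zero_le _, h⟩

lemma lop_app (h1 : S_ARC1) (h2 : S_ARC2) {v w : List Bool} (hD : Dn w = 0)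
    (k x : ℕ) : lop (v ++ w) k x ↔ lop v k x := by
  rw [h2.2.2.1]
  constructor
  · rintro (h | ⟨_, x', _, h⟩)
    · exact h
    · exact absurd ⟨x', h⟩ (nolop h1 hD _)
  · exact Or.inl

/-- values at the positions of the unmatched openings of `v ++ w` and `v` -/
lemma rp_app (h1 : S_ARC1) (h2 : S_ARC2) {v w : List Bool} (hU : U w = 0) (hD : Dn w = 0)
    (k : ℕ) : (rp (v ++ w) k = rp v k ∧ rp v k < v.length) ∨
      (rp (v ++ w) k = (v ++ w).length ∧ rp v k = v.length) := by
  by_cases h : ∃ x, rop v k x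
  · left
    have h' : ∃ x, rop (v ++ w) k x := by
      obtain ⟨x, hx⟩ := h
      exact ⟨x, (rop_app h1 h2 hU hD k x).mpr hx⟩
    have e1 := rp_spec h
    have e2 := (rop_app h1 h2 hU hD k _).mp (rp_spec h')
    obtain ⟨-, -, -, -, -, a6, -⟩ := h1
    exact ⟨a6 v k _ _ e2 e1, e1.1⟩
  · right
    have h' : ¬ ∃ x, rop (v ++ w) k x := by
      rintro ⟨x, hx⟩
      exact h ⟨x, (rop_app h1 h2 hU hD k x).mp hx⟩
    exact ⟨rp_none h', rp_none h⟩

lemma lp_spec {v : List Bool} {k : ℕ} (h : ∃ x, lop v k x) : lop v k (lp v k) := by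
  rw [lp, dif_pos h]; exact h.choose_spec

lemma lp_app (h1 : S_ARC1) (h2 : S_ARC2) {v w : List Bool} (hD : Dn w = 0)
    (k : ℕ) : (lp (v ++ w) k = lp v k ∧ lp v k < v.length) ∨
      (lp (v ++ w) k = (v ++ w).length ∧ lp v k = v.length) := by
  by_cases h : ∃ x, lop v k x
  · left
    have h' : ∃ x, lop (v ++ w) k x := by
      obtain ⟨x, hx⟩ := h
      exact ⟨x, (lop_app h1 h2 hD k x).mpr hx⟩
    have e1 := lp_spec h
    have e2 := (lop_app h1 h2 hD k _).mp (lp_spec h')
    obtain ⟨-, -, -, -, -, -, -, a8, -⟩ := h1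
    exact ⟨a8 v k _ _ e2 e1, e1.1⟩
  · right
    have h' : ¬ ∃ x, lop (v ++ w) k x := by
      rintro ⟨x, hx⟩
      exact h ⟨x, (lop_app h1 h2 hD k x).mp hx⟩
    exact ⟨lp_none h', lp_none h⟩

lemma mem_PP {w : W} {c : ℕ → ZMod 2} : c ∈ PP w ↔ (∀ i, w.length ≤ i → c i = 0) ∧
    (∀ x y, arc (up w) x y → c x = c y) ∧ ∀ x y, arc (lo w) x y → c x = c y := Iff.rfl

/-- arcs of the concatenation with a closed word -/
lemma arc_app (h1 : S_ARC1) (h2 : S_ARC2) {v w : List Bool} (hD : Dn w = 0) (x y : ℕ) :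
    arc (v ++ w) x y ↔ arc v x y ∨
      ∃ x' y', x = v.length + x' ∧ y = v.length + y' ∧ arc w x' y' := by
  rw [h2.1]
  constructor
  · rintro (h | h | ⟨k, y', _, _, h⟩)
    · exact Or.inl h
    · exact Or.inr h
    · exact absurd ⟨y', h⟩ (nolop h1 hD k)
  · rintro (h | h)
    · exact Or.inl h
    · exact Or.inr (Or.inl h)

/-- a function on `p`, extended by zero -/
lemma PP_ext (h1 : S_ARC1) (h2 : S_ARC2) {p A : W} (hA : Cl A) {c : ℕ → ZMod 2}
    (hc : c ∈ PP p) : c ∈ PP (p ++ A) := by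
  rw [mem_PP] at hc ⊢
  obtain ⟨c1, c2, c3⟩ := hc
  refine ⟨fun i hi => c1 i ?_, fun x y h => ?_, fun x y h => ?_⟩
  · rw [List.length_append] at hi; omega
  · rw [up_append, arc_app h1 h2 hA.2.1] at h
    rcases h with h | ⟨x', y', rfl, rfl, _⟩
    · exact c2 x y h
    · rw [up_length, c1 _ (Nat.le_add_right _ _), c1 _ (Nat.le_add_right _ _)]
  · rw [lo_append, arc_app h1 h2 hA.2.2.2] at h
    rcases h with h | ⟨x', y', rfl, rfl, _⟩
    · exact c3 x y h
    · rw [lo_length, c1 _ (Nat.le_add_right _ _), c1 _ (Nat.le_add_right _ _)]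

/-- restriction -/
def rst (n : ℕ) (c : ℕ → ZMod 2) : ℕ → ZMod 2 := fun i => if i < n then c i else 0

lemma PP_rst (h1 : S_ARC1) (h2 : S_ARC2) {p A : W} (hA : Cl A) {c : ℕ → ZMod 2}
    (hc : c ∈ PP (p ++ A)) : rst p.length c ∈ PP p := by
  rw [mem_PP] at hc ⊢
  obtain ⟨c1, c2, c3⟩ := hc
  refine ⟨fun i hi => if_neg (by omega), fun x y h => ?_, fun x y h => ?_⟩
  · have hy : y < p.length := by rw [← up_length]; exact h.2.1
    have hx : x < p.length := lt_trans h.1 hy
    rw [rst, if_pos hx, rst, if_pos hy]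
    apply c2
    rw [up_append, arc_app h1 h2 hA.2.1]
    exact Or.inl h
  · have hy : y < p.length := by rw [← lo_length]; exact h.2.1
    have hx : x < p.length := lt_trans h.1 hy
    rw [rst, if_pos hx, rst, if_pos hy]
    apply c3
    rw [lo_append, arc_app h1 h2 hA.2.2.2]
    exact Or.inl h

/-- `BR` does not change if a closed word is appended. -/
lemma BR_app (h1 : S_ARC1) (h2 : S_ARC2) {p A : W} (hA : Cl A) : BR (p ++ A) = BR p := by
  obtain ⟨u1, u2, u3, u4⟩ := hA
  apply le_antisymm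
  · rintro _ ⟨c, ⟨hc, hk1, hk2⟩, rfl⟩
    have hz : c (p ++ A).length = 0 := (mem_PP.mp hc).1 _ le_rfl
    have hPP := PP_rst h1 h2 ⟨u1, u2, u3, u4⟩ hc
    have hz' : rst p.length c p.length = 0 := if_neg (by omega)
    have R1 : ∀ k, rst p.length c (rp (up p) k) = c (rp (up (p ++ A)) k) := by
      intro k
      rw [up_append]
      rcases rp_app h1 h2 (v := up p) u1 u2 k with ⟨e1, e2⟩ | ⟨e1, e2⟩
      · rw [e1, rst, if_pos (by rw [← up_length]; exact e2)]
      · rw [e1, e2, ← up_append, up_length, up_length, hz', hz]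
    have R2 : ∀ k, rst p.length c (rp (lo p) k) = c (rp (lo (p ++ A)) k) := by
      intro k
      rw [lo_append]
      rcases rp_app h1 h2 (v := lo p) u3 u4 k with ⟨e1, e2⟩ | ⟨e1, e2⟩
      · rw [e1, rst, if_pos (by rw [← lo_length]; exact e2)]
      · rw [e1, e2, ← lo_append, lo_length, lo_length, hz', hz]
    have L1 : ∀ k, rst p.length c (lp (up p) k) = 0 := by
      intro k
      have h0 : c (lp (up (p ++ A)) k) = 0 := congrFun hk1 k
      rw [up_append] at h0
      rcases lp_app h1 h2 (v := up p) u2 k with ⟨e1, e2⟩ | ⟨e1, e2⟩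
      · rw [rst, if_pos (by rw [← up_length]; exact e2), ← e1, h0]
      · rw [e2, up_length, hz']
    have L2 : ∀ k, rst p.length c (lp (lo p) k) = 0 := by
      intro k
      have h0 : c (lp (lo (p ++ A)) k) = 0 := congrFun hk2 k
      rw [lo_append] at h0
      rcases lp_app h1 h2 (v := lo p) u4 k with ⟨e1, e2⟩ | ⟨e1, e2⟩
      · rw [rst, if_pos (by rw [← lo_length]; exact e2), ← e1, h0]
      · rw [e2, lo_length, hz']
    refine ⟨rst p.length c, ⟨hPP, funext L1, funext L2⟩, ?_⟩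
    exact Prod.ext (funext R1) (funext R2)
  · rintro _ ⟨c, ⟨hc, hk1, hk2⟩, rfl⟩
    have c1 := (mem_PP.mp hc).1
    have hz : c p.length = 0 := c1 _ le_rfl
    have hz' : c (p ++ A).length = 0 := c1 _ (by rw [List.length_append]; omega)
    have hPP := PP_ext h1 h2 ⟨u1, u2, u3, u4⟩ hc
    have R1 : ∀ k, c (rp (up (p ++ A)) k) = c (rp (up p) k) := by
      intro k
      rw [up_append]
      rcases rp_app h1 h2 (v := up p) u1 u2 k with ⟨e1, e2⟩ | ⟨e1, e2⟩
      · rw [e1]
      · rw [e1, e2, ← up_append, up_length, up_length, hz', hz]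
    have R2 : ∀ k, c (rp (lo (p ++ A)) k) = c (rp (lo p) k) := by
      intro k
      rw [lo_append]
      rcases rp_app h1 h2 (v := lo p) u3 u4 k with ⟨e1, e2⟩ | ⟨e1, e2⟩
      · rw [e1]
      · rw [e1, e2, ← lo_append, lo_length, lo_length, hz', hz]
    have L1 : ∀ k, c (lp (up (p ++ A)) k) = 0 := by
      intro k
      have h0 : c (lp (up p) k) = 0 := congrFun hk1 k
      rw [up_append]
      rcases lp_app h1 h2 (v := up p) u2 k with ⟨e1, e2⟩ | ⟨e1, e2⟩
      · rw [e1, h0]
      · rw [e1, ← up_append, up_length, hz']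
    have L2 : ∀ k, c (lp (lo (p ++ A)) k) = 0 := by
      intro k
      have h0 : c (lp (lo p) k) = 0 := congrFun hk2 k
      rw [lo_append]
      rcases lp_app h1 h2 (v := lo p) u4 k with ⟨e1, e2⟩ | ⟨e1, e2⟩
      · rw [e1, h0]
      · rw [e1, ← lo_append, lo_length, hz']
    refine ⟨c, ⟨hPP, funext L1, funext L2⟩, ?_⟩
    exact Prod.ext (funext R1) (funext R2)

lemma BR_bot (h1 : S_ARC1) {w : W} (hu : U (up w) = 0) (hl : U (lo w) = 0) : BR w = ⊥ := by
  rw [eq_bot_iff]
  rintro _ ⟨c, ⟨hc, -, -⟩, rfl⟩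
  have hz : c w.length = 0 := (mem_PP.mp hc).1 _ le_rfl
  rw [Submodule.mem_bot]
  refine Prod.ext (funext fun k => ?_) (funext fun k => ?_)
  · change c (rp (up w) k) = 0
    rw [rp_none (norop h1 hu k), up_length, hz]
  · change c (rp (lo w) k) = 0
    rw [rp_none (norop h1 hl k), lo_length, hz]

/-- appending a closed word -/
lemma f_app (hU : S_U) (h1 : S_ARC1) (hJ : S_JOIN) {p A : W} (hA : Cl A) :
    f (p ++ A) = f p + f A := by
  have hb : BR (mir A) = ⊥ := by
    apply BR_bot h1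
    · rw [up_mir, (hU.2.2 _).1]; exact hA.2.1
    · rw [lo_mir, (hU.2.2 _).1]; exact hA.2.2.2
  rw [hJ, hb, inf_bot_eq, finrank_bot, add_zero]

/-- the number of loops of a closed connected word -/
lemma f_one (h1 : S_ARC1) {w : W} (hw : Cl w) (hn : 0 < w.length)
    (hc : ∀ c ∈ PP w, ∀ i < w.length, c i = c 0) : f w = 1 := by
  have hspan : CC w = Submodule.span (ZMod 2) {rst w.length (fun _ => 1)} := by
    apply le_antisymm
    · rintro c ⟨hcP, -⟩
      rw [Submodule.mem_span_singleton]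
      refine ⟨c 0, funext fun i => ?_⟩
      rw [Pi.smul_apply, smul_eq_mul]
      by_cases hi : i < w.length
      · rw [rst, if_pos hi, mul_one, hc c hcP i hi]
      · rw [rst, if_neg hi, mul_zero, (mem_PP.mp hcP).1 i (by omega)]
    · rw [Submodule.span_singleton_le_iff_mem]
      have hz : rst w.length (fun _ => (1 : ZMod 2)) w.length = 0 := if_neg (by omega)
      refine ⟨?_, ⟨⟨?_, ?_⟩, ?_⟩, ?_⟩
      · rw [SetLike.mem_coe, mem_PP]
        refine ⟨fun i hi => if_neg (by omega), fun x y h => ?_, fun x y h => ?_⟩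
        · have hy : y < w.length := by rw [← up_length]; exact h.2.1
          rw [rst, if_pos (lt_trans h.1 hy), rst, if_pos hy]
        · have hy : y < w.length := by rw [← lo_length]; exact h.2.1
          rw [rst, if_pos (lt_trans h.1 hy), rst, if_pos hy]
      · funext k
        rw [ev_apply, rp_none (norop h1 hw.1 k), up_length, hz]; rfl
      · funext k
        rw [ev_apply, lp_none (nolop h1 hw.2.1 k), up_length, hz]; rfl
      · funext k
        rw [ev_apply, rp_none (norop h1 hw.2.2.1 k), lo_length, hz]; rfl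
      · funext k
        rw [ev_apply, lp_none (nolop h1 hw.2.2.2 k), lo_length, hz]; rfl
  rw [f, hspan, finrank_span_singleton]
  intro h
  have := congrFun h 0
  rw [rst, if_pos hn] at this
  exact one_ne_zero this

/-- a loop -/
def Bw : W := [(true, true), (false, false)]

lemma Cl_B : Cl Bw := ⟨rfl, rfl, rfl, rfl⟩
lemma Cl_A1 : Cl A1 := ⟨rfl, rfl, rfl, rfl⟩
lemma Cl_A2 : Cl A2 := ⟨rfl, rfl, rfl, rfl⟩

lemma f_B (h1 : S_ARC1) : f Bw = 1 := by
  apply f_one h1 Cl_B (by simp [Bw])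
  intro c hc i hi
  have h01 : c 0 = c 1 := by
    apply (mem_PP.mp hc).2.1
    refine ⟨by omega, by simp [up, Bw], by simp [up, Bw, ht, tot, sg], ?_⟩
    intro z hz hz'
    have : z = 1 := by omega
    subst this
    simp [up, Bw, ht, tot, sg]
  have hi' : i < 2 := hi
  interval_cases i
  · rfl
  · exact h01.symm

lemma f_A1 (hU : S_U) (h1 : S_ARC1) (hJ : S_JOIN) : f A1 = 2 := by
  have : A1 = Bw ++ Bw := rfl
  rw [this, f_app hU h1 hJ Cl_B, f_B h1]

lemma f_A2 (h1 : S_ARC1) : f A2 = 1 := by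
  apply f_one h1 Cl_A2 (by simp [A2])
  intro c hc i hi
  have h01 : c 0 = c 1 := by
    apply (mem_PP.mp hc).2.1
    refine ⟨by omega, by simp [up, A2], by simp [up, A2, ht, tot, sg], ?_⟩
    intro z hz hz'
    have : z = 1 := by omega
    subst this
    simp [up, A2, ht, tot, sg]
  have h23 : c 2 = c 3 := by
    apply (mem_PP.mp hc).2.1
    refine ⟨by omega, by simp [up, A2], by simp [up, A2, ht, tot, sg], ?_⟩
    intro z hz hz'
    have : z = 3 := by omega
    subst this
    simp [up, A2, ht, tot, sg]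
  have h12 : c 1 = c 2 := by
    apply (mem_PP.mp hc).2.2
    refine ⟨by omega, by simp [lo, A2], by simp [lo, A2, ht, tot, sg], ?_⟩
    intro z hz hz'
    have : z = 2 := by omega
    subst this
    simp [lo, A2, ht, tot, sg]
  have hi' : i < 4 := hi
  interval_cases i
  · rfl
  · exact h01.symm
  · rw [h01, h12]
  · rw [h01, h12, h23]

theorem main (hU : S_U) (h1 : S_ARC1) (h2 : S_ARC2) (hJ : S_JOIN) : S_PATCH := by
  intro p s
  rw [hJ (p ++ A1) s, hJ (p ++ A2) s, BR_app h1 h2 Cl_A1, BR_app h1 h2 Cl_A2,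
    f_app hU h1 hJ Cl_A1, f_app hU h1 hJ Cl_A2, f_A1 hU h1 hJ, f_A2 h1]
  omega

end Pool.Agent.N940.MN.Patch
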