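import Pool.Agent.N940.MN.Stm3

/-!
# The lower bound of the variance by local changes
-/

set_option autoImplicit false

open Filter Topology Finset

namespace Pool.Agent.N940.MN.Var

open Pool.Agent.N940.MN

/-- law of total variance for one pair -/
lemma inner_eq (r : ℕ) (G : W → ℝ) (e : ℝ) :
    Ew r (fun v => (G v - e) ^ 2) = Vw r G + (Ew r G - e) ^ 2 := by
  unfold Vw
  set m := Ew r G with hm
  have h : (fun v : W => (G v - e) ^ 2) =
      fun v => (((G v - m) ^ 2 + (2 * (m - e)) * G v) + ((m - e) ^ 2 - 2 * (m - e) * m)) := by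
    funext v
    ring
  rw [h, Ew_add, Ew_add, Ew_const, Ew_mul_left, ← hm]
  ring

/-- law of total variance -/
lemma total (r s : ℕ) (F : W → ℝ) :
    Vw (r + s) F = Ew r (fun u => Vw s fun v => F (u ++ v)) +
      Ew r (fun u => ((Ew s fun v => F (u ++ v)) - Ew (r + s) F) ^ 2) := by
  have h : Vw (r + s) F = Ew (r + s) fun w => (F w - Ew (r + s) F) ^ 2 := rfl
  rw [h, Ew_append, ← Ew_add]
  congr 1
  funext u
  exact inner_eq s (fun v => F (u ++ v)) _

lemma two_le (G : W → ℝ) (h0 : ∀ w, 0 ≤ G w) : (1 / 256 : ℝ) * (G A1 + G A2) ≤ Ew 4 G := by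
  classical
  unfold Ew
  rw [smul_eq_mul]
  have e : ((4 : ℝ) ^ 4)⁻¹ = 1 / 256 := by norm_num
  rw [e]
  refine mul_le_mul_of_nonneg_left ?_ (by norm_num)
  let a1 : Fin 4 → Bool × Bool := ![(true, true), (false, false), (true, true), (false, false)]
  let a2 : Fin 4 → Bool × Bool := ![(true, true), (false, true), (true, false), (false, false)]
  have h1 : List.ofFn a1 = A1 := by
    simp [a1, A1, List.ofFn_succ]
  have h2 : List.ofFn a2 = A2 := by
    simp [a2, A2, List.ofFn_succ]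
  have hne : a1 ≠ a2 := by
    intro h
    have := congrFun h 1
    simp [a1, a2] at this
  calc G A1 + G A2 = ∑ w ∈ ({a1, a2} : Finset (Fin 4 → Bool × Bool)), G (List.ofFn w) := by
        rw [sum_pair hne, h1, h2]
    _ ≤ _ := sum_le_sum_of_subset_of_nonneg (subset_univ _) fun w _ _ => h0 _

lemma step (F : W → ℝ) (δ : ℝ) (hF : ∀ p s : W, F (p ++ A1 ++ s) = F (p ++ A2 ++ s) + δ) (r : ℕ) :
    Ew 4 (fun u => Vw r fun v => F (u ++ v)) + δ ^ 2 / 512 ≤ Vw (4 + r) F := by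
  rw [total]
  have h1 := two_le (fun u => ((Ew r fun v => F (u ++ v)) - Ew (4 + r) F) ^ 2)
    (fun w => sq_nonneg _)
  have h2 : (Ew r fun v => F (A1 ++ v)) = (Ew r fun v => F (A2 ++ v)) + δ := by
    have : (fun v => F (A1 ++ v)) = fun v => F (A2 ++ v) + δ := by
      funext v
      exact hF [] v
    rw [this, Ew_add, Ew_const]
  have h3 : δ ^ 2 / 2 ≤ ((Ew r fun v => F (A1 ++ v)) - Ew (4 + r) F) ^ 2 +
      ((Ew r fun v => F (A2 ++ v)) - Ew (4 + r) F) ^ 2 := by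
    rw [h2]
    nlinarith [sq_nonneg (2 * ((Ew r fun v => F (A2 ++ v)) - Ew (4 + r) F) + δ)]
  linarith

lemma ind_k (δ : ℝ) (k : ℕ) : ∀ (r : ℕ) (F : W → ℝ),
    (∀ p s : W, F (p ++ A1 ++ s) = F (p ++ A2 ++ s) + δ) → 4 * k ≤ r →
    k * (δ ^ 2 / 512) ≤ Vw r F := by
  induction k with
  | zero =>
    intro r F _ _
    rw [Nat.cast_zero, zero_mul]
    exact Ew_nonneg fun w _ => sq_nonneg _
  | succ k ih =>
    intro r F hF hr
    obtain ⟨r', rfl⟩ : ∃ r', r = 4 + r' := ⟨r - 4, by omega⟩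
    have h1 := step F δ hF r'
    have h2 : (k : ℝ) * (δ ^ 2 / 512) ≤ Ew 4 (fun u => Vw r' fun v => F (u ++ v)) := by
      rw [← Ew_const 4 ((k : ℝ) * (δ ^ 2 / 512))]
      refine Ew_mono fun u _ => ?_
      refine ih r' (fun v => F (u ++ v)) (fun p s => ?_) (by omega)
      have := hF (u ++ p) s
      simpa [List.append_assoc] using this
    push_cast
    linarith

theorem main : S_VAR := by
  intro F δ hδ hF
  refine ⟨δ ^ 2 / 4096, by positivity, fun r hr => ?_⟩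
  have h1 := ind_k δ (r / 4) r F hF (by omega)
  have h2 : r ≤ 8 * (r / 4) := by omega
  have h3 : (r : ℝ) ≤ 8 * ((r / 4 : ℕ) : ℝ) := by exact_mod_cast h2
  have h4 : 0 ≤ δ ^ 2 := sq_nonneg δ
  calc δ ^ 2 / 4096 * r ≤ δ ^ 2 / 4096 * (8 * ((r / 4 : ℕ) : ℝ)) := by gcongr
    _ = ((r / 4 : ℕ) : ℝ) * (δ ^ 2 / 512) := by ring
    _ ≤ _ := h1

end Pool.Agent.N940.MN.Var
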