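import Pool.Agent.N940.MN.Stm2

/-!
# Project MN: window estimates (S_W, S_WO)
-/

set_option autoImplicit false

namespace Pool.Agent.N940.MN.Wo

open Pool.Agent.N940.MN Finset Module

section gen

variable {V V' : Type} [AddCommGroup V] [AddCommGroup V'] [Module (ZMod 2) V] [Module (ZMod 2) V']

/-- product of subspaces -/
def pe (p : Submodule (ZMod 2) V) (q : Submodule (ZMod 2) V') :
    (p.prod q : Submodule (ZMod 2) (V × V')) ≃ₗ[ZMod 2] p × q where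
  toFun x := (⟨x.1.1, x.2.1⟩, ⟨x.1.2, x.2.2⟩)
  map_add' _ _ := rfl
  map_smul' _ _ := rfl
  invFun y := ⟨(y.1.1, y.2.1), ⟨y.1.2, y.2.2⟩⟩
  left_inv _ := rfl
  right_inv _ := rfl

lemma fin_prod (p : Submodule (ZMod 2) V) (q : Submodule (ZMod 2) V') [Module.Finite (ZMod 2) p]
    [Module.Finite (ZMod 2) q] :
    Module.Finite (ZMod 2) (p.prod q : Submodule (ZMod 2) (V × V')) :=
  Module.Finite.equiv (pe p q).symm

lemma rk_prod (p : Submodule (ZMod 2) V) (q : Submodule (ZMod 2) V') [Module.Finite (ZMod 2) p]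
    [Module.Finite (ZMod 2) q] :
    finrank (ZMod 2) (p.prod q : Submodule (ZMod 2) (V × V')) =
      finrank (ZMod 2) p + finrank (ZMod 2) q := by
  rw [(pe p q).finrank_eq, Module.finrank_prod]

lemma fin_le {p q : Submodule (ZMod 2) V} (h : p ≤ q) [Module.Finite (ZMod 2) q] :
    Module.Finite (ZMod 2) p :=
  Submodule.finiteDimensional_of_le h

/-- rank and nullity of a restriction -/
lemma rn (T : V →ₗ[ZMod 2] V') (p : Submodule (ZMod 2) V) [Module.Finite (ZMod 2) p] :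
    finrank (ZMod 2) p = finrank (ZMod 2) (p.map T) +
      finrank (ZMod 2) (p ⊓ LinearMap.ker T : Submodule (ZMod 2) V) := by
  have h := LinearMap.finrank_range_add_finrank_ker (T.domRestrict p)
  rw [LinearMap.range_domRestrict, LinearMap.ker_domRestrict,
    ← Submodule.finrank_map_subtype_eq, Submodule.map_comap_subtype] at h
  exact h.symm

end gen

lemma sp_mono {a b : ℕ} (h : a ≤ b) : Sp a ≤ Sp b := fun _ hx k hk => hx k (h.trans hk)

lemma sp_inf {x : V2} {a b : ℕ} (h1 : x ∈ Sp a) (h2 : x ∈ Sp b) : x ∈ Sp (min a b) := by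
  intro k hk
  rcases min_le_iff.1 hk with h | h
  · exact h1 k h
  · exact h2 k h

lemma up_sw (w : W) : up (sw w) = lo w := by
  unfold up sw lo
  rw [List.map_map]
  rfl

lemma up_mir (w : W) : up (mir w) = ((up w).map not).reverse := by
  unfold up mir
  rw [List.map_reverse, List.map_map, List.map_map]
  rfl

lemma lo_mir (w : W) : lo (mir w) = ((lo w).map not).reverse := by
  unfold lo mir
  rw [List.map_reverse, List.map_map, List.map_map]
  rfl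

lemma u_mir (hU : S_U) (w : W) : U (up (mir w)) = Dn (up w) := by
  rw [up_mir]
  exact (hU.2.2 (up w)).1

lemma u_sw_mir (hU : S_U) (w : W) : U (up (sw (mir w))) = Dn (lo w) := by
  rw [up_sw, lo_mir]
  exact (hU.2.2 (lo w)).1

/-- **MN/W** -/
theorem w (hU : S_U) (hJ : S_JOIN) (hI : S_ISO) (hD : S_DS) (hL : S_LIN) (hF : S_FD) : S_W := by
  intro M I J hM m m' hm hm'
  have hq : m / M * M ≤ m := Nat.div_mul_le_self m M
  have hq' : m' / M * M ≤ m' := Nat.div_mul_le_self m' M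
  generalize hqe : m / M = q at *
  generalize hqe' : m' / M = q' at *
  have a1 : m ≤ U (up I) := hm ▸ min_le_left _ _
  have a2 : m ≤ U (up (mir J)) := by rw [u_mir hU]; exact hm ▸ min_le_right _ _
  have a3 : m' ≤ U (up (sw I)) := by rw [up_sw]; exact hm' ▸ min_le_left _ _
  have a4 : m' ≤ U (up (sw (mir J))) := by rw [u_sw_mir hU]; exact hm' ▸ min_le_right _ _
  obtain ⟨d1, e1, f1, g1⟩ := hD M I q hM (hq.trans a1)
  obtain ⟨d2, e2, f2, g2⟩ := hD M (mir J) q hM (hq.trans a2)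
  obtain ⟨d3, e3, f3, g3⟩ := hD M (sw I) q' hM (hq'.trans a3)
  obtain ⟨d4, e4, f4, g4⟩ := hD M (sw (mir J)) q' hM (hq'.trans a4)
  have g12 := g1 (mir J) (hq.trans a2)
  have g34 := g3 (sw (mir J)) (hq'.trans a4)
  obtain ⟨-, hBI, hWI, -, sBI, -, -, iI, jI, -⟩ := hF I
  obtain ⟨-, hBJ, hWJ, -, sBJ, -, -, iJ, jJ, -⟩ := hF (mir J)
  obtain ⟨-, -, hWI', -⟩ := hF (sw I)
  obtain ⟨-, -, hWJ', -⟩ := hF (sw (mir J))
  have := fin_le d1
  have := fin_le d2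
  have := fin_le d3
  have := fin_le d4
  obtain ⟨S, hS⟩ : ∃ S : Submodule (ZMod 2) (V2 × V2), S = (Sp m).prod (Sp m') := ⟨_, rfl⟩
  obtain ⟨A, hA⟩ : ∃ A, A = BR I ⊓ S := ⟨_, rfl⟩
  obtain ⟨B, hB⟩ : ∃ B, B = BR (mir J) ⊓ S := ⟨_, rfl⟩
  obtain ⟨A₀, hA₀⟩ : ∃ A₀ : Submodule (ZMod 2) (V2 × V2), A₀ = (DS M I q).prod (DS M (sw I) q') :=
    ⟨_, rfl⟩
  obtain ⟨B₀, hB₀⟩ : ∃ B₀ : Submodule (ZMod 2) (V2 × V2),
    B₀ = (DS M (mir J) q).prod (DS M (sw (mir J)) q') := ⟨_, rfl⟩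
  have hAB : A ⊓ B = BR I ⊓ BR (mir J) := by
    rw [hA, hB]
    apply le_antisymm
    · exact inf_le_inf inf_le_left inf_le_left
    · intro x hx
      have h1 := sBI hx.1
      have h2 := sBJ hx.2
      have h3 : x ∈ S := by
        rw [hS]
        refine ⟨?_, ?_⟩
        · have := sp_inf h1.1 h2.1
          rwa [u_mir hU, ← hm] at this
        · have := sp_inf h1.2 h2.2
          have e : U (lo (mir J)) = Dn (lo J) := by
            rw [← up_sw]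
            exact u_sw_mir hU J
          rwa [e, ← hm'] at this
      exact ⟨⟨hx.1, h3⟩, ⟨hx.2, h3⟩⟩
  have iA : 2 * finrank (ZMod 2) A ≤ m + m' := by
    rw [hA, hS]
    exact hI.1 I m m'
  have iB : 2 * finrank (ZMod 2) B ≤ m + m' := by
    rw [hB, hS]
    exact hI.1 (mir J) m m'
  have fA : Module.Finite (ZMod 2) A := by
    rw [hA]
    exact fin_le inf_le_left
  have fB : Module.Finite (ZMod 2) B := by
    rw [hB]
    exact fin_le inf_le_left
  have lA : A₀ ≤ A := by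
    rw [hA₀, hA, hS]
    rintro ⟨x, y⟩ ⟨hx, hy⟩
    refine ⟨?_, sp_mono hq (e1 hx), sp_mono hq' (e3 hy)⟩
    have h1 := add_mem (iI x (d1 hx)) (jI y (d3 hy))
    rwa [Prod.mk_add_mk, add_zero, zero_add] at h1
  have lB : B₀ ≤ B := by
    rw [hB₀, hB, hS]
    rintro ⟨x, y⟩ ⟨hx, hy⟩
    refine ⟨?_, sp_mono hq (e2 hx), sp_mono hq' (e4 hy)⟩
    have h1 := add_mem (iJ x (d2 hx)) (jJ y (d4 hy))
    rwa [Prod.mk_add_mk, add_zero, zero_add] at h1
  have rA : finrank (ZMod 2) A₀ = Bs M I q + Bs M (sw I) q' := by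
    rw [hA₀, rk_prod, f1, f3]
  have rB : finrank (ZMod 2) B₀ = Bs M (mir J) q + Bs M (sw (mir J)) q' := by
    rw [hB₀, rk_prod, f2, f4]
  have := fin_le (inf_le_left : DS M I q ⊓ DS M (mir J) q ≤ DS M I q)
  have := fin_le (inf_le_left : DS M (sw I) q' ⊓ DS M (sw (mir J)) q' ≤ DS M (sw I) q')
  have rG : finrank (ZMod 2) (A₀ ⊓ B₀ : Submodule (ZMod 2) (V2 × V2)) =
      Gs M I (mir J) q + Gs M (sw I) (sw (mir J)) q' := by
    rw [hA₀, hB₀, Submodule.prod_inf_prod, rk_prod, g12, g34]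
  have hj : f (I ++ J) = f I + f J +
      finrank (ZMod 2) (A ⊓ B : Submodule (ZMod 2) (V2 × V2)) := by
    rw [hAB]
    exact hJ I J
  have : Module.Finite (ZMod 2) (A ⊓ B : Submodule (ZMod 2) (V2 × V2)) := fin_le inf_le_left
  have low : finrank (ZMod 2) (A₀ ⊓ B₀ : Submodule (ZMod 2) (V2 × V2)) ≤
      finrank (ZMod 2) (A ⊓ B : Submodule (ZMod 2) (V2 × V2)) :=
    Submodule.finrank_mono (inf_le_inf lA lB)
  have hl : finrank (ZMod 2) (A ⊓ B : Submodule (ZMod 2) (V2 × V2)) +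
      (finrank (ZMod 2) A₀ + finrank (ZMod 2) B₀) ≤
      finrank (ZMod 2) (A₀ ⊓ B₀ : Submodule (ZMod 2) (V2 × V2)) +
      (finrank (ZMod 2) A + finrank (ZMod 2) B) := hL (V2 × V2) A B A₀ B₀ fA fB lA lB
  constructor
  · omega
  · omega

/-- **MN/WO** -/
theorem wo (hU : S_U) (hI : S_ISO) (hD : S_DS) (hL : S_LIN) (hF : S_FD) : S_WO := by
  intro M w hM hb h h' hh hh'
  have u1 : Dn (up w) = h := by
    have h1 := hU.2.1 (up w)
    rw [hb.1, ← hh] at h1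
    omega
  have u2 : Dn (lo w) = h' := by
    have h1 := hU.2.1 (lo w)
    rw [hb.2, ← hh'] at h1
    omega
  have hq : h / M * M ≤ h := Nat.div_mul_le_self h M
  have hq' : h' / M * M ≤ h' := Nat.div_mul_le_self h' M
  generalize hqe : h / M = q at *
  generalize hqe' : h' / M = q' at *
  have a1 : q * M ≤ U (up w) := by rw [← hh]; exact hq
  have a2 : q * M ≤ U (up (mir w)) := by rw [u_mir hU, u1]; exact hq
  have a3 : q' * M ≤ U (up (sw w)) := by rw [up_sw, ← hh']; exact hq'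
  have a4 : q' * M ≤ U (up (sw (mir w))) := by rw [u_sw_mir hU, u2]; exact hq'
  obtain ⟨d1, e1, f1, g1⟩ := hD M w q hM a1
  obtain ⟨d2, e2, f2, g2⟩ := hD M (mir w) q hM a2
  obtain ⟨d3, e3, f3, g3⟩ := hD M (sw w) q' hM a3
  obtain ⟨d4, e4, f4, g4⟩ := hD M (sw (mir w)) q' hM a4
  have g12 := g1 (mir w) a2
  have g34 := g3 (sw (mir w)) a4
  obtain ⟨hP, -, hW1, hLam, -, -, -, -, -, i1, i2, i3, i4⟩ := hF w
  obtain ⟨-, -, hW2, -⟩ := hF (mir w)
  obtain ⟨-, -, hW3, -⟩ := hF (sw w)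
  obtain ⟨-, -, hW4, -⟩ := hF (sw (mir w))
  have := fin_le d1
  have := fin_le d2
  have := fin_le d3
  have := fin_le d4
  -- the map of boundary values
  obtain ⟨T, hT⟩ : ∃ T : V2 →ₗ[ZMod 2] (V2 × V2) × (V2 × V2),
      T = LinearMap.prod (LinearMap.prod (ev (rp (up w))) (ev (rp (lo w))))
        (LinearMap.prod (ev (lp (up w))) (ev (lp (lo w)))) := ⟨_, rfl⟩
  have hTa : ∀ c : V2, T c = ((ev (rp (up w)) c, ev (rp (lo w)) c),
      (ev (lp (up w)) c, ev (lp (lo w)) c)) := by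
    intro c
    rw [hT]
    rfl
  obtain ⟨Δ, hΔ⟩ : ∃ Δ : Submodule (ZMod 2) ((V2 × V2) × (V2 × V2)),
      Δ = LinearMap.ker (LinearMap.fst (ZMod 2) (V2 × V2) (V2 × V2) -
        LinearMap.snd (ZMod 2) (V2 × V2) (V2 × V2)) := ⟨_, rfl⟩
  have hΔm : ∀ x : (V2 × V2) × (V2 × V2), x ∈ Δ ↔ x.1 = x.2 := by
    intro x
    rw [hΔ, LinearMap.mem_ker, LinearMap.sub_apply, LinearMap.fst_apply, LinearMap.snd_apply,
      sub_eq_zero]
  have hCO : ∀ c : V2, c ∈ CO w ↔ c ∈ PP w ∧ T c ∈ Δ := by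
    intro c
    rw [hΔm, hTa, Prod.mk.injEq]
    unfold CO
    rw [Submodule.mem_inf, Submodule.mem_inf, LinearMap.mem_ker, LinearMap.mem_ker,
      LinearMap.sub_apply, LinearMap.sub_apply, sub_eq_zero, sub_eq_zero]
  have hmap : (CO w).map T = Lam w ⊓ Δ := by
    ext x
    constructor
    · rintro ⟨c, hc, rfl⟩
      have h1 := (hCO c).1 hc
      refine ⟨?_, h1.2⟩
      unfold Lam
      rw [← hT]
      exact ⟨c, h1.1, rfl⟩
    · rintro ⟨h1, h2⟩
      unfold Lam at h1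
      rw [← hT] at h1
      obtain ⟨c, hc, rfl⟩ := h1
      exact ⟨c, (hCO c).2 ⟨hc, h2⟩, rfl⟩
  have hker : CO w ⊓ LinearMap.ker T = CC w := by
    ext c
    rw [Submodule.mem_inf, hCO, LinearMap.mem_ker]
    unfold CC
    rw [Submodule.mem_inf, Submodule.mem_inf, Submodule.mem_inf, Submodule.mem_inf,
      LinearMap.mem_ker, LinearMap.mem_ker, LinearMap.mem_ker, LinearMap.mem_ker, hTa]
    constructor
    · rintro ⟨⟨h1, -⟩, h2⟩
      have h3 := congrArg Prod.fst h2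
      have h4 := congrArg Prod.snd h2
      exact ⟨h1, ⟨⟨congrArg Prod.fst h3, congrArg Prod.fst h4⟩, congrArg Prod.snd h3⟩,
        congrArg Prod.snd h4⟩
    · rintro ⟨h1, ⟨⟨h2, h3⟩, h4⟩, h5⟩
      refine ⟨⟨h1, ?_⟩, ?_⟩
      · rw [hΔm, h2, h3, h4, h5]
      · rw [h2, h3, h4, h5]
        rfl
  have : Module.Finite (ZMod 2) (CO w) := by
    unfold CO
    exact fin_le inf_le_left
  have hfo : fo w = finrank (ZMod 2) (Lam w ⊓ Δ : Submodule (ZMod 2) _) + f w := by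
    unfold fo f
    rw [rn T (CO w), hmap, hker]
  -- the windows
  obtain ⟨L₀, hL₀⟩ : ∃ L₀ : Submodule (ZMod 2) ((V2 × V2) × (V2 × V2)),
      L₀ = ((DS M w q).prod (DS M (sw w) q')).prod
        ((DS M (mir w) q).prod (DS M (sw (mir w)) q')) := ⟨_, rfl⟩
  have lL : L₀ ≤ Lam w := by
    rw [hL₀]
    rintro ⟨⟨x, y⟩, ⟨x', y'⟩⟩ ⟨⟨hx, hy⟩, ⟨hx', hy'⟩⟩
    have h1 := add_mem (add_mem (i1 x (d1 hx)) (i2 y (d3 hy)))
      (add_mem (i3 x' (d2 hx')) (i4 y' (d4 hy')))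
    simpa using h1
  have := fin_prod (DS M w q) (DS M (sw w) q')
  have := fin_prod (DS M (mir w) q) (DS M (sw (mir w)) q')
  have rL : finrank (ZMod 2) L₀ = (Bs M w q + Bs M (sw w) q') +
      (Bs M (mir w) q + Bs M (sw (mir w)) q') := by
    rw [hL₀, rk_prod, rk_prod, rk_prod, f1, f2, f3, f4]
  have := fin_le (inf_le_left : DS M w q ⊓ DS M (mir w) q ≤ DS M w q)
  have := fin_le (inf_le_left : DS M (sw w) q' ⊓ DS M (sw (mir w)) q' ≤ DS M (sw w) q')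
  have rG : finrank (ZMod 2) (L₀ ⊓ Δ : Submodule (ZMod 2) _) =
      Gs M w (mir w) q + Gs M (sw w) (sw (mir w)) q' := by
    obtain ⟨E, hE⟩ : ∃ E : (V2 × V2) →ₗ[ZMod 2] (V2 × V2) × (V2 × V2),
        E = LinearMap.prod LinearMap.id LinearMap.id := ⟨_, rfl⟩
    have hEa : ∀ x, E x = (x, x) := by
      intro x
      rw [hE]
      rfl
    have hinj : Function.Injective E := by
      intro x y e
      rw [hEa, hEa] at e
      exact congrArg Prod.fst e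
    have hm : L₀ ⊓ Δ = ((DS M w q ⊓ DS M (mir w) q).prod
        (DS M (sw w) q' ⊓ DS M (sw (mir w)) q') : Submodule (ZMod 2) (V2 × V2)).map E := by
      ext x
      constructor
      · rintro ⟨h1, h2⟩
        rw [hL₀] at h1
        obtain ⟨⟨a, b⟩, ⟨c, d⟩⟩ := x
        have h3 := (hΔm _).1 h2
        rw [Prod.mk.injEq] at h3
        obtain ⟨rfl, rfl⟩ := h3
        exact ⟨(a, b), ⟨⟨h1.1.1, h1.2.1⟩, ⟨h1.1.2, h1.2.2⟩⟩, hEa _⟩
      · rintro ⟨⟨a, b⟩, ⟨⟨h1, h2⟩, ⟨h3, h4⟩⟩, rfl⟩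
        rw [hEa, hL₀]
        exact ⟨⟨⟨h1, h3⟩, ⟨h2, h4⟩⟩, (hΔm _).2 rfl⟩
    rw [hm, ← (Submodule.equivMapOfInjective E hinj _).finrank_eq, rk_prod, g12, g34]
  have := hLam
  have fLD : Module.Finite (ZMod 2) (Lam w ⊓ Δ : Submodule (ZMod 2) _) := fin_le inf_le_left
  have low : finrank (ZMod 2) (L₀ ⊓ Δ : Submodule (ZMod 2) _) ≤
      finrank (ZMod 2) (Lam w ⊓ Δ : Submodule (ZMod 2) _) :=
    Submodule.finrank_mono (inf_le_inf_right Δ lL)
  have hl : finrank (ZMod 2) (Lam w ⊓ (Lam w ⊓ Δ) : Submodule (ZMod 2) _) +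
      (finrank (ZMod 2) L₀ + finrank (ZMod 2) (Lam w ⊓ Δ : Submodule (ZMod 2) _)) ≤
      finrank (ZMod 2) (L₀ ⊓ (Lam w ⊓ Δ) : Submodule (ZMod 2) _) +
      (finrank (ZMod 2) (Lam w) + finrank (ZMod 2) (Lam w ⊓ Δ : Submodule (ZMod 2) _)) :=
    hL ((V2 × V2) × (V2 × V2)) (Lam w) (Lam w ⊓ Δ) L₀ (Lam w ⊓ Δ) hLam fLD lL le_rfl
  have e1' : Lam w ⊓ (Lam w ⊓ Δ) = Lam w ⊓ Δ := by rw [← inf_assoc, inf_idem]
  have e2' : L₀ ⊓ (Lam w ⊓ Δ) = L₀ ⊓ Δ := by rw [← inf_assoc, inf_eq_left.2 lL]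
  rw [e1', e2'] at hl
  have iL := hI.2 w
  rw [u1, u2, ← hh, ← hh'] at iL
  constructor
  · omega
  · omega

end Pool.Agent.N940.MN.Wo
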