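import Pool.Agent.N940.MN.Final
import Pool.Agent.N940.MN.Aclt
import Pool.Agent.N940.MN.Arc1
import Pool.Agent.N940.MN.Arc2
import Pool.Agent.N940.MN.Blk
import Pool.Agent.N940.MN.Bm
import Pool.Agent.N940.MN.Cf
import Pool.Agent.N940.MN.Count
import Pool.Agent.N940.MN.Dens
import Pool.Agent.N940.MN.Dev
import Pool.Agent.N940.MN.Dsw
import Pool.Agent.N940.MN.Fd
import Pool.Agent.N940.MN.Gg
import Pool.Agent.N940.MN.Hit
import Pool.Agent.N940.MN.Iso
import Pool.Agent.N940.MN.Join
import Pool.Agent.N940.MN.Kr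
import Pool.Agent.N940.MN.Kur
import Pool.Agent.N940.MN.KurR
import Pool.Agent.N940.MN.Mom
import Pool.Agent.N940.MN.Orb
import Pool.Agent.N940.MN.Patch
import Pool.Agent.N940.MN.Var
import Pool.Agent.N940.MN.Wo

/-!
# The central limit theorem for the number of components of a random meandric system
-/

set_option autoImplicit false

open Filter Topology MeasureTheory ProbabilityTheory

namespace Pool.Agent.N940.MN.Main

theorem u : S_U := Arc1.uu
theorem a1 : S_ARC1 := Arc1.arc1
theorem a2 : S_ARC2 := Arc2.main u a1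
theorem wn : S_WN := Fd.wn u
theorem fd : S_FD := Fd.fd u a1 a2
theorem iso : S_ISO := Iso.iso (Iso.stokes a1) a1
theorem ds : S_DS := Dsw.main u a1 a2 wn fd
theorem lin : S_LIN := Dsw.lin
theorem join : S_JOIN := Join.join u a1 a2
theorem mirr : S_MIR := Join.mirr a1 a2
theorem patch : S_PATCH := Patch.main u a1 a2 join
theorem gg : S_GG := Gg.main a1 a2 wn iso fd
theorem w : S_W := Wo.w u join iso ds lin fd
theorem wo : S_WO := Wo.wo u iso ds lin fd
theorem mom : S_MOM := Mom.main u
theorem kr : S_KR := Kr.main u wn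
theorem dev : S_DEV := Dev.main u kr
theorem hit : S_HIT := Hit.main u wn mom
theorem bm : S_BM := Bm.main wn kr hit gg
theorem approx : S_APPROX := Approx.main u wn gg w wo dev bm

theorem clt_of (hL : S_ACLT) :
    (∃ c : ℝ, 0 < c ∧ ∀ᶠ n : ℕ in atTop, c * n ≤ Final.variance n) ∧
    ∀ x : ℝ, Tendsto (fun n => Final.distr n x) atTop
      (𝓝 ((gaussianReal 0 1).real (Set.Iic x))) :=
  Final.main (Count.main u a1) (Orb.main a1 u) u w wo mirr patch Var.main approx hL

theorem dens : S_DENS := Dens.main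
theorem kur : S_KUR := Kur.main mom
theorem rat : S_RAT := Kur.rat kur
theorem blkk : S_BLK := Blk.main u mom dens
theorem m4 : S_M4 := Blk.m4 u mom dens kur
theorem aclt0 : S_ACLT0 := Aclt.aclt0 dens kur rat Cf.main blkk
theorem aclt : S_ACLT := Aclt.aclt aclt0 m4 dens

theorem clt :
    (∃ c : ℝ, 0 < c ∧ ∀ᶠ n : ℕ in atTop, c * n ≤ Final.variance n) ∧
    ∀ x : ℝ, Tendsto (fun n => Final.distr n x) atTop
      (𝓝 ((gaussianReal 0 1).real (Set.Iic x))) := clt_of aclt

end Pool.Agent.N940.MN.Main
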