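import Pool.Agent.N940.MN.Defs

/-!
# Statements for the central limit theorem for meandric systems
-/

set_option autoImplicit false

open Filter Topology Finset

namespace Pool.Agent.N940.MN

/-! ### combinatorics -/

/-- the numbers of unmatched letters -/
def S_U : Prop :=
  (∀ v w : List Bool, Dn (v ++ w) = Dn v + (Dn w - U v) ∧ U (v ++ w) = U w + (U v - Dn w)) ∧
  (∀ v : List Bool, tot v = (U v : ℤ) - Dn v) ∧
  (∀ v : List Bool, U ((v.map not).reverse) = Dn v ∧ Dn ((v.map not).reverse) = U v)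

/-- existence and uniqueness of partners -/
def S_ARC1 : Prop :=
  (∀ (v : List Bool) (x y : ℕ), arc v x y → v[x]? = some true ∧ v[y]? = some false) ∧
  (∀ (v : List Bool) (k x : ℕ), rop v k x → v[x]? = some true) ∧
  (∀ (v : List Bool) (k x : ℕ), lop v k x → v[x]? = some false) ∧
  (∀ (v : List Bool) (x y z : ℕ), arc v x y → arc v x z → y = z) ∧
  (∀ (v : List Bool) (x y z : ℕ), arc v x z → arc v y z → x = y) ∧
  (∀ (v : List Bool) (k x y : ℕ), rop v k x → rop v k y → x = y) ∧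
  (∀ (v : List Bool) (k l x : ℕ), rop v k x → rop v l x → k = l) ∧
  (∀ (v : List Bool) (k x y : ℕ), lop v k x → lop v k y → x = y) ∧
  (∀ (v : List Bool) (k l x : ℕ), lop v k x → lop v l x → k = l) ∧
  (∀ (v : List Bool) (k x y : ℕ), rop v k x → ¬ arc v x y) ∧
  (∀ (v : List Bool) (k x y : ℕ), lop v k y → ¬ arc v x y) ∧
  (∀ (v : List Bool) (x : ℕ), v[x]? = some true → (∃ y, arc v x y) ∨ ∃ k, rop v k x) ∧
  (∀ (v : List Bool) (y : ℕ), v[y]? = some false → (∃ x, arc v x y) ∨ ∃ k, lop v k y) ∧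
  (∀ (v : List Bool) (k : ℕ), (∃ x, rop v k x) ↔ k < U v) ∧
  (∀ (v : List Bool) (k : ℕ), (∃ x, lop v k x) ↔ k < Dn v)

/-- arcs of the concatenation and of the mirror image -/
def S_ARC2 : Prop :=
  (∀ (v w : List Bool) (x y : ℕ), arc (v ++ w) x y ↔ arc v x y ∨
    (∃ x' y', x = v.length + x' ∧ y = v.length + y' ∧ arc w x' y') ∨
    ∃ k y', y = v.length + y' ∧ rop v k x ∧ lop w k y') ∧
  (∀ (v w : List Bool) (k x : ℕ), rop (v ++ w) k x ↔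
    (∃ x', x = v.length + x' ∧ rop w k x') ∨ (U w ≤ k ∧ rop v (k - U w + Dn w) x)) ∧
  (∀ (v w : List Bool) (k x : ℕ), lop (v ++ w) k x ↔
    lop v k x ∨ (Dn v ≤ k ∧ ∃ x', x = v.length + x' ∧ lop w (k - Dn v + U v) x')) ∧
  (∀ (v : List Bool) (x y : ℕ), y < v.length → (arc ((v.map not).reverse) x y ↔
    x < v.length ∧ arc v (v.length - 1 - y) (v.length - 1 - x))) ∧
  (∀ (v : List Bool) (k x : ℕ), x < v.length →
    (rop ((v.map not).reverse) k x ↔ lop v k (v.length - 1 - x))) ∧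
  (∀ (v : List Bool) (k x : ℕ), x < v.length →
    (lop ((v.map not).reverse) k x ↔ rop v k (v.length - 1 - x)))

/-- symmetries of the number of closed loops -/
def S_MIR : Prop := ∀ w : W, f (mir w) = f w ∧ f (sw w) = f w

/-- joining two words -/
def S_JOIN : Prop := ∀ I J : W, f (I ++ J) = f I + f J + Module.finrank (ZMod 2)
  (BR I ⊓ BR (mir J) : Submodule (ZMod 2) ((ℕ → ZMod 2) × (ℕ → ZMod 2)))

/-- two closed loops -/
def A1 : W := [(true, true), (false, false), (true, true), (false, false)]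

/-- one closed loop -/
def A2 : W := [(true, true), (false, true), (true, false), (false, false)]

/-- a local change -/
def S_PATCH : Prop := ∀ p s : W, f (p ++ A1 ++ s) = f (p ++ A2 ++ s) + 1

/-- the windows -/
def S_GG : Prop :=
  (∀ (M : ℕ) (L : W), IsWin M L → 2 * gg L ≤ M ∧ M ≤ 2 * gg L + (U (lo L) + Dn (lo L))) ∧
  (∀ (M M' : ℕ) (L L' : W), IsWin M L → IsWin M' L' → gg L' + gg L ≤ gg (L' ++ L)) ∧
  (∀ L L' : W, GG L L' ≤ gg L)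

/-- loops through the junctions of windows -/
noncomputable def Gs (M : ℕ) (I J : W) (q : ℕ) : ℕ := ∑ t ∈ range q, GG (wn M t I) (wn M t J)

/-- pairs of joined ends in windows -/
noncomputable def Bs (M : ℕ) (I : W) (q : ℕ) : ℕ := ∑ t ∈ range q, gg (wn M t I)

/-- the loops crossing a junction are, up to few exceptions, in the windows -/
def S_W : Prop := ∀ (M : ℕ) (I J : W), 0 < M → ∀ m m' : ℕ,
  m = min (U (up I)) (Dn (up J)) → m' = min (U (lo I)) (Dn (lo J)) →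
  f I + f J + (Gs M I (mir J) (m / M) + Gs M (sw I) (sw (mir J)) (m' / M)) ≤ f (I ++ J) ∧
  f (I ++ J) + (Bs M I (m / M) + Bs M (mir J) (m / M) + Bs M (sw I) (m' / M) +
      Bs M (sw (mir J)) (m' / M)) ≤
    f I + f J + (Gs M I (mir J) (m / M) + Gs M (sw I) (sw (mir J)) (m' / M)) + (m + m')

/-- the same for the closing of a word to a circle -/
def S_WO : Prop := ∀ (M : ℕ) (w : W), 0 < M → bal w → ∀ h h' : ℕ,
  h = U (up w) → h' = U (lo w) →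
  f w + (Gs M w (mir w) (h / M) + Gs M (sw w) (sw (mir w)) (h' / M)) ≤ fo w ∧
  fo w + (Bs M w (h / M) + Bs M (mir w) (h / M) + Bs M (sw w) (h' / M) +
      Bs M (sw (mir w)) (h' / M)) ≤
    f w + (Gs M w (mir w) (h / M) + Gs M (sw w) (sw (mir w)) (h' / M)) + (h + h')

/-! ### random words -/

/-- second and fourth moments of the numbers of unmatched letters -/
def S_MOM : Prop := ∀ r : ℕ,
  Ew r (fun w => (U (up w) : ℝ) ^ 2) ≤ r ∧ Ew r (fun w => (Dn (up w) : ℝ) ^ 2) ≤ r ∧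
  Ew r (fun w => (U (lo w) : ℝ) ^ 2) ≤ r ∧ Ew r (fun w => (Dn (lo w) : ℝ) ^ 2) ≤ r ∧
  Ew r (fun w => (U (up w) : ℝ) ^ 4) ≤ 4 * (r : ℝ) ^ 2 ∧
  Ew r (fun w => (Dn (up w) : ℝ) ^ 4) ≤ 4 * (r : ℝ) ^ 2 ∧
  Ew r (fun w => (U (lo w) : ℝ) ^ 4) ≤ 4 * (r : ℝ) ^ 2 ∧
  Ew r (fun w => (Dn (lo w) : ℝ) ^ 4) ≤ 4 * (r : ℝ) ^ 2

/-- mean over a pair of windows, of words of length at most `r` -/
noncomputable def mn (M : ℕ) (φ : W → W → ℝ) (r : ℕ) : ℝ := Ew r fun I => Ew r fun J =>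
  if M ≤ U (up I) ∧ M ≤ U (up J) then φ (sfx M I) (sfx M J) else 0

/-- consecutive windows are independent -/
def S_KR : Prop :=
  (∀ (M : ℕ) (ψ : W → ℝ), 0 < M → (∀ L, 0 ≤ ψ L) → ∀ r q : ℕ,
    Ew r (fun I => if q * M ≤ U (up I) then ∏ t ∈ range q, ψ (wn M t I) else 0) ≤
      (Ew r fun I => if M ≤ U (up I) then ψ (sfx M I) else 0) ^ q) ∧
  (∀ (M : ℕ) (ψ : W → W → ℝ), 0 < M → (∀ L L', 0 ≤ ψ L L') → ∀ r q : ℕ,
    Ew r (fun I => Ew r fun J => if q * M ≤ U (up I) ∧ q * M ≤ U (up J) then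
      ∏ t ∈ range q, ψ (wn M t I) (wn M t J) else 0) ≤ (mn M ψ r) ^ q) ∧
  (∀ (M : ℕ) (ψ : W → W → ℝ), 0 < M → (∀ L L', 0 ≤ ψ L L') → ∀ r q : ℕ,
    Ew r (fun w => if bal w ∧ q * M ≤ U (up w) then
      ∏ t ∈ range q, ψ (wn M t w) (wn M t (mir w)) else 0) ≤ (mn M ψ r) ^ q) ∧
  -- monotonicity in the length
  (∀ (M : ℕ) (ψ : W → ℝ), 0 < M → (∀ L, 0 ≤ ψ L) → ∀ r s : ℕ, r ≤ s →
    Ew r (fun I => if M ≤ U (up I) then ψ (sfx M I) else 0) ≤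
      Ew s fun I => if M ≤ U (up I) then ψ (sfx M I) else 0) ∧
  (∀ (M : ℕ) (ψ : W → W → ℝ), 0 < M → (∀ L L', 0 ≤ ψ L L') → ∀ r s : ℕ, r ≤ s →
    mn M ψ r ≤ mn M ψ s)

/-- deviations of sums over windows -/
def S_DEV : Prop := ∀ (M : ℕ) (B : ℝ) (φ : W → W → ℝ), 0 < M → (∀ L L', 0 ≤ φ L L') →
  (∀ L L', φ L L' ≤ B) → ∃ a : ℝ, (∀ r, mn M φ r ≤ a) ∧ Tendsto (mn M φ) atTop (𝓝 a) ∧
  ∀ ε : ℝ, 0 < ε → ∃ C c : ℝ, 0 < c ∧
    (∀ r : ℕ, Ew r (fun I => Ew r fun J =>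
      ind (∃ m : ℕ, m = min (U (up I)) (Dn (up J)) ∧ C + ε * ((m : ℝ) + Real.sqrt r) <
        |∑ t ∈ range (m / M), φ (wn M t I) (wn M t (mir J)) - ((m / M : ℕ) : ℝ) * a|)) ≤
      C * Real.exp (-(c * Real.sqrt r))) ∧
    (∀ r : ℕ, Ew r (fun w =>
      ind (bal w ∧ ∃ h : ℕ, h = U (up w) ∧ C + ε * ((h : ℝ) + Real.sqrt r) <
        |∑ t ∈ range (h / M), φ (wn M t w) (wn M t (mir w)) - ((h / M : ℕ) : ℝ) * a|)) ≤
      C * Real.exp (-(c * Real.sqrt r)))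

/-- windows which are short, with few unmatched lower letters, have positive probability -/
def S_HIT : Prop := ∀ δ : ℝ, 0 < δ → ∃ (c : ℝ) (M₀ : ℕ), 0 < c ∧ ∀ M : ℕ, M₀ ≤ M →
  ∃ r₀ : ℕ, ∀ r : ℕ, r₀ ≤ r → c ≤ Ew r fun I => ind (M ≤ U (up I) ∧
    ((U (lo (sfx M I)) : ℝ) + Dn (lo (sfx M I)) ≤ δ * M))

/-- most of the ends of a window are joined inside the window -/
def S_BM : Prop := ∀ ε : ℝ, 0 < ε → ∃ M₀ : ℕ, ∀ M : ℕ, M₀ ≤ M → ∀ r : ℕ,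
  Ew r (fun I => if M ≤ U (up I) then (M : ℝ) - 2 * (gg (sfx M I) : ℝ) else 0) ≤ ε * M

/-- **asymptotic additivity** -/
def S_APPROX : Prop := ∃ a : ℝ, 0 ≤ a ∧ a ≤ 1 ∧ ∀ ε : ℝ, 0 < ε → ∃ C c : ℝ, 0 < c ∧
  (∀ r : ℕ, Ew r (fun I => Ew r fun J => ind (C + ε * ((mm I J : ℝ) + Real.sqrt r) <
    |(f (I ++ J) : ℝ) - f I - f J - a * (mm I J : ℝ)|)) ≤ C * Real.exp (-(c * Real.sqrt r))) ∧
  (∀ r : ℕ, Ew r (fun w => ind (bal w ∧ C + ε * ((U (up w) : ℝ) + U (lo w) + Real.sqrt r) <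
    |(fo w : ℝ) - f w - a * ((U (up w) : ℝ) + U (lo w))|)) ≤ C * Real.exp (-(c * Real.sqrt r)))

/-! ### the abstract central limit theorem -/

/-- asymptotically additive functions of words -/
structure Adt (F Fo : W → ℝ) (C c : ℝ) (r₀ : ℕ) : Prop where
  cpos : 0 < c
  step : ∀ (w : W) (x : Bool × Bool), |F (w ++ [x]) - F w| ≤ C
  sym : ∀ w : W, F (mir w) = F w
  join : ∀ I J : W, |F (I ++ J) - F I - F J| ≤ C * (mm I J : ℝ)
  joinP : ∀ ε : ℝ, 0 < ε → Tendsto (fun r : ℕ => (r : ℝ) * Ew r fun I => Ew r fun J =>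
    ind (ε * ((mm I J : ℝ) + Real.sqrt r) < |F (I ++ J) - F I - F J|)) atTop (𝓝 0)
  var : ∀ r : ℕ, r₀ ≤ r → c * r ≤ Vw r F
  close : ∀ w : W, bal w → |Fo w - F w| ≤ C * ((U (up w) : ℝ) + U (lo w))
  closeP : ∀ ε : ℝ, 0 < ε → Tendsto (fun n : ℕ => (n : ℝ) * Ew (2 * n) fun w =>
    ind (bal w ∧ ε * ((U (up w) : ℝ) + U (lo w) + Real.sqrt n) < |Fo w - F w|)) atTop (𝓝 0)

/-- the lower bound of the variance by local changes -/
def S_VAR : Prop := ∀ (F : W → ℝ) (δ : ℝ), δ ≠ 0 →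
  (∀ p s : W, F (p ++ A1 ++ s) = F (p ++ A2 ++ s) + δ) →
  ∃ c : ℝ, 0 < c ∧ ∀ r : ℕ, 4 ≤ r → c * r ≤ Vw r F

/-- the variance for doubled length, and fourth moments -/
def S_KUR : Prop := ∀ (F Fo : W → ℝ) (C c : ℝ) (r₀ : ℕ), Adt F Fo C c r₀ →
  (∀ ε : ℝ, 0 < ε → ∃ R : ℕ, ∀ r : ℕ, R ≤ r →
    |Real.sqrt (Vw (2 * r) F) - Real.sqrt (2 * Vw r F)| ≤ ε * Real.sqrt (Vw r F)) ∧
  (∀ r : ℕ, |Real.sqrt (Vw (r + 1) F) - Real.sqrt (Vw r F)| ≤ C) ∧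
  (∀ ε : ℝ, 0 < ε → ∃ R : ℕ, ∀ r : ℕ, R ≤ r →
    Ew r (fun I => Ew r fun J => (F (I ++ J) - F I - F J) ^ 2) ≤ ε * r) ∧
  ∃ (κ : ℝ) (R : ℕ), 0 < κ ∧ ∀ r : ℕ, R ≤ r → Ew r (fun w => (F w - Ew r F) ^ 4) ≤ κ * (Vw r F) ^ 2

/-- the block number `i` of length `r` -/
def blk (r i : ℕ) (w : W) : W := (w.drop (i * r)).take r

/-- comparison of characteristic functions, by Fourier inversion -/
def S_CF : Prop := ∀ κ η : ℝ, 0 < κ → 0 < η → ∃ C : ℝ, ∀ (F : W → ℝ) (r K l n : ℕ),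
  (∀ w, F (mir w) = F w) → 0 < r → 0 < K → 0 < n → 2 * n = K * r + l → η * n ≤ l →
  Ew r (fun w => (F w - Ew r F) ^ 4) ≤ κ * (Vw r F) ^ 2 → ∀ s : ℝ,
  ‖Ew (2 * n) (fun w => if bal w then Complex.exp (Complex.I *
      ((s * ∑ i ∈ range K, (F (blk r i w) - Ew r F) : ℝ) : ℂ)) else 0) -
    Complex.exp ((-(s ^ 2 * (K * Vw r F)) / 2 : ℝ) : ℂ) *
      ((Ew (2 * n) fun w => if bal w then (1 : ℝ) else 0 : ℝ) : ℂ)‖ ≤
    C * (1 + |s| * Real.sqrt (K * Vw r F)) ^ 3 / (Real.sqrt K * n)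

/-- bridges have bounded densities -/
def S_DENS : Prop := (∃ c : ℝ, 0 < c ∧ ∀ n : ℕ, 0 < n →
    c / n ≤ Ew (2 * n) fun w => if bal w then (1 : ℝ) else 0) ∧
  ∀ η : ℝ, 0 < η → ∃ C : ℝ, ∀ n a l b : ℕ, 0 < n → a + l + b = 2 * n → η * n ≤ (a + b : ℕ) →
    ∀ Ψ : W → ℝ, (∀ w, 0 ≤ Ψ w) →
    Ew (2 * n) (fun w => if bal w then Ψ ((w.drop a).take l) else 0) ≤
      C * (Ew (2 * n) fun w => if bal w then (1 : ℝ) else 0) * Ew l Ψ

/-- **the central limit theorem for asymptotically additive functions** -/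
def S_ACLT : Prop := ∀ (F Fo : W → ℝ) (C c : ℝ) (r₀ : ℕ), Adt F Fo C c r₀ →
  ∃ c' : ℝ, 0 < c' ∧ (∀ᶠ n : ℕ in atTop, c' * n ≤ VB n Fo) ∧ ∀ t : ℝ,
    Tendsto (fun n : ℕ => EB n fun w => Complex.exp (Complex.I *
      ((t * ((Fo w - EB n Fo) / Real.sqrt (VB n Fo)) : ℝ) : ℂ))) atTop
      (𝓝 (Complex.exp ((-(t ^ 2) / 2 : ℝ) : ℂ)))

/-! ### meandric systems -/

/-- arc systems: non-crossing perfect matchings of `2 n` points -/
def IsArcSystem {n : ℕ} (σ : Equiv.Perm (Fin (2 * n))) : Prop :=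
  (∀ i, σ i ≠ i) ∧ (∀ i, σ (σ i) = i) ∧ ∀ i j, ¬ (i < j ∧ j < σ i ∧ σ i < σ j)

instance {n : ℕ} (σ : Equiv.Perm (Fin (2 * n))) : Decidable (IsArcSystem σ) := by
  unfold IsArcSystem; infer_instance

/-- the finite set of arc systems -/
def AS (n : ℕ) : Finset (Equiv.Perm (Fin (2 * n))) := Finset.univ.filter fun σ => IsArcSystem σ

/-- the number of components of a meandric system: the orbits of the two matchings -/
noncomputable def comp {n : ℕ} (σ τ : Equiv.Perm (Fin (2 * n))) : ℕ :=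
  Nat.card (MulAction.orbitRel.Quotient (Subgroup.closure {σ, τ}) (Fin (2 * n)))

/-- `σ` is the matching of the word `v` on the circle -/
def Mat {n : ℕ} (v : List Bool) (σ : Equiv.Perm (Fin (2 * n))) : Prop :=
  ∀ x y : Fin (2 * n), σ x = y ↔ arc v x y ∨ arc v y x ∨
    ∃ k, (rop v k x ∧ lop v k y) ∨ (lop v k x ∧ rop v k y)

/-- every arc system is the matching of `n + 1` bridges -/
def S_COUNT : Prop := ∀ n : ℕ, ∃ per : List Bool → Equiv.Perm (Fin (2 * n)),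
  (∀ v : List Bool, v.length = 2 * n → tot v = 0 → Mat v (per v) ∧ IsArcSystem (per v)) ∧
  ∀ (E : Type) [AddCommGroup E] [Module ℝ E] (Φ : Equiv.Perm (Fin (2 * n)) → E),
    ∑ v : Fin (2 * n) → Bool, (if tot (List.ofFn v) = 0 then Φ (per (List.ofFn v)) else 0) =
      ((n : ℝ) + 1) • ∑ σ ∈ AS n, Φ σ

/-- the number of components -/
def S_ORB : Prop := ∀ (n : ℕ) (w : W) (σ τ : Equiv.Perm (Fin (2 * n))), w.length = 2 * n →
  bal w → Mat (up w) σ → Mat (lo w) τ → comp σ τ = fo w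

end Pool.Agent.N940.MN
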