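import Pool.Agent.N940.MN.Stm

/-!
# Further statements: linear algebra behind the window estimates
-/

set_option autoImplicit false

open Filter Topology Finset

namespace Pool.Agent.N940.MN

/-- sequences over the field with two elements -/
abbrev V2 : Type := ℕ → ZMod 2

/-- integration by parts -/
def S_STOKES : Prop := ∀ (w : W) (c c' : V2), c ∈ PP w → c' ∈ PP w →
  (∑ k ∈ range (U (up w)), c (rp (up w) k) * c' (rp (up w) k)) +
  (∑ k ∈ range (Dn (up w)), c (lp (up w) k) * c' (lp (up w) k)) +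
  (∑ k ∈ range (U (lo w)), c (rp (lo w) k) * c' (rp (lo w) k)) +
  (∑ k ∈ range (Dn (lo w)), c (lp (lo w) k) * c' (lp (lo w) k)) = 0

/-- sequences which vanish from `m` on -/
def Sp (m : ℕ) : Submodule (ZMod 2) V2 where
  carrier := {b | ∀ k, m ≤ k → b k = 0}
  add_mem' := by
    intro a b ha hb k hk
    simp [ha k hk, hb k hk]
  zero_mem' := fun _ _ => rfl
  smul_mem' := by
    intro t a ha k hk
    simp [ha k hk]

/-- all boundary values -/
noncomputable def Lam (w : W) : Submodule (ZMod 2) ((V2 × V2) × (V2 × V2)) :=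
  (PP w).map (LinearMap.prod (LinearMap.prod (ev (rp (up w))) (ev (rp (lo w))))
    (LinearMap.prod (ev (lp (up w))) (ev (lp (lo w)))))

/-- isotropy -/
def S_ISO : Prop :=
  (∀ (w : W) (m m' : ℕ), 2 * Module.finrank (ZMod 2)
    (BR w ⊓ (Sp m).prod (Sp m') : Submodule (ZMod 2) (V2 × V2)) ≤ m + m') ∧
  (∀ w : W, 2 * Module.finrank (ZMod 2) (Lam w) ≤
    U (up w) + Dn (up w) + (U (lo w) + Dn (lo w)))

/-- shift of a sequence -/
def shf (s : ℕ) : V2 →ₗ[ZMod 2] V2 where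
  toFun b k := if s ≤ k then b (k - s) else 0
  map_add' a b := by
    funext k
    simp only [Pi.add_apply]
    split_ifs <;> simp
  map_smul' t a := by
    funext k
    simp only [Pi.smul_apply, RingHom.id_apply]
    split_ifs <;> simp

/-- the boundary values coming from the first `q` windows -/
noncomputable def DS (M : ℕ) (I : W) (q : ℕ) : Submodule (ZMod 2) V2 :=
  ⨆ t ∈ range q, (BW (wn M t I)).map (shf (t * M))

/-- the windows give independent boundary values -/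
def S_DS : Prop := ∀ (M : ℕ) (I : W) (q : ℕ), 0 < M → q * M ≤ U (up I) →
  DS M I q ≤ BW I ∧ DS M I q ≤ Sp (q * M) ∧ Module.finrank (ZMod 2) (DS M I q) = Bs M I q ∧
  ∀ J : W, q * M ≤ U (up J) →
    Module.finrank (ZMod 2) (DS M I q ⊓ DS M J q : Submodule (ZMod 2) V2) = Gs M I J q

/-- dimension of intersections -/
def S_LIN : Prop := ∀ (V : Type) [AddCommGroup V] [Module (ZMod 2) V]
  (A B A₀ B₀ : Submodule (ZMod 2) V), Module.Finite (ZMod 2) A → Module.Finite (ZMod 2) B →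
  A₀ ≤ A → B₀ ≤ B →
  Module.finrank (ZMod 2) (A ⊓ B : Submodule (ZMod 2) V) +
      (Module.finrank (ZMod 2) A₀ + Module.finrank (ZMod 2) B₀) ≤
    Module.finrank (ZMod 2) (A₀ ⊓ B₀ : Submodule (ZMod 2) V) +
      (Module.finrank (ZMod 2) A + Module.finrank (ZMod 2) B)

/-- the spaces are finite-dimensional, sequences of boundary values have bounded support -/
def S_FD : Prop := ∀ w : W, Module.Finite (ZMod 2) (PP w) ∧ Module.Finite (ZMod 2) (BR w) ∧
  Module.Finite (ZMod 2) (BW w) ∧ Module.Finite (ZMod 2) (Lam w) ∧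
  BR w ≤ (Sp (U (up w))).prod (Sp (U (lo w))) ∧ BW w ≤ Sp (U (up w)) ∧
  Lam w ≤ ((Sp (U (up w))).prod (Sp (U (lo w)))).prod ((Sp (Dn (up w))).prod (Sp (Dn (lo w)))) ∧
  -- mirror image and exchange
  (∀ b : V2, b ∈ BW w → (b, 0) ∈ BR w) ∧ (∀ b : V2, b ∈ BW (sw w) → ((0 : V2), b) ∈ BR w) ∧
  (∀ b : V2, b ∈ BW w → ((b, 0), ((0 : V2), (0 : V2))) ∈ Lam w) ∧
  (∀ b : V2, b ∈ BW (sw w) → (((0 : V2), b), ((0 : V2), (0 : V2))) ∈ Lam w) ∧
  (∀ b : V2, b ∈ BW (mir w) → (((0 : V2), (0 : V2)), (b, (0 : V2))) ∈ Lam w) ∧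
  (∀ b : V2, b ∈ BW (sw (mir w)) → (((0 : V2), (0 : V2)), ((0 : V2), b)) ∈ Lam w)

/-- windows are windows -/
def S_WN : Prop :=
  (∀ (M : ℕ) (w : W), pre M w ++ sfx M w = w) ∧
  (∀ (M : ℕ) (w : W), 0 < M → M ≤ U (up w) → IsWin M (sfx M w) ∧
    U (up (pre M w)) = U (up w) - M) ∧
  (∀ (M : ℕ) (w : W) (t : ℕ), 0 < M → (t + 1) * M ≤ U (up w) → IsWin M (wn M t w)) ∧
  -- uniqueness of the decomposition
  (∀ (M : ℕ) (p L : W), 0 < M → IsWin M L → sfx M (p ++ L) = L ∧ pre M (p ++ L) = p ∧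
    M ≤ U (up (p ++ L))) ∧
  (∀ (M : ℕ) (L : W), 0 < M → IsWin M L → Dn (up L) = 0) ∧
  (∀ (M M' : ℕ) (L L' : W), IsWin M L → IsWin M' L' → IsWin (M + M') (L' ++ L))

end Pool.Agent.N940.MN
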