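import Pool.Agent.N940.MN.Basic

/-!
# Further statements: steps of the abstract central limit theorem
-/

set_option autoImplicit false

open Filter Topology Finset

namespace Pool.Agent.N940.MN

/-- variances and means for fractions of the length -/
def S_RAT : Prop := ∀ (F Fo : W → ℝ) (C c : ℝ) (r₀ : ℕ), Adt F Fo C c r₀ → ∀ p : ℕ,
  Tendsto (fun n : ℕ => (2 : ℝ) ^ p * Vw (2 * n / 2 ^ p) F / (2 * Vw n F)) atTop (𝓝 1) ∧
  Tendsto (fun n : ℕ => ((2 : ℝ) ^ p * Ew (2 * n / 2 ^ p) F - 2 * Ew n F) / Real.sqrt n)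
    atTop (𝓝 0)

/-- decomposition into blocks, for bridges -/
def S_BLK : Prop := ∀ (F Fo : W → ℝ) (C c : ℝ) (r₀ : ℕ), Adt F Fo C c r₀ → ∀ (p : ℕ) (ε : ℝ),
  0 < ε → Tendsto (fun n : ℕ => EB n fun w => ind (ε * Real.sqrt n <
    |Fo w - ∑ i ∈ range (2 ^ p), F (blk (2 * n / 2 ^ p) i w)|)) atTop (𝓝 0)

/-- fourth moments, for bridges -/
def S_M4 : Prop := ∀ (F Fo : W → ℝ) (C c : ℝ) (r₀ : ℕ), Adt F Fo C c r₀ →
  ∃ (κ : ℝ) (R : ℕ), 0 < κ ∧ ∀ n : ℕ, R ≤ n →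
    EB n (fun w => (Fo w - 2 * Ew n F) ^ 4) ≤ κ * (2 * Vw n F) ^ 2

/-- the central limit theorem with other constants -/
def S_ACLT0 : Prop := ∀ (F Fo : W → ℝ) (C c : ℝ) (r₀ : ℕ), Adt F Fo C c r₀ → ∀ t : ℝ,
  Tendsto (fun n : ℕ => EB n fun w => Complex.exp (Complex.I *
    ((t * ((Fo w - 2 * Ew n F) / Real.sqrt (2 * Vw n F)) : ℝ) : ℂ))) atTop
      (𝓝 (Complex.exp ((-(t ^ 2) / 2 : ℝ) : ℂ)))

end Pool.Agent.N940.MN
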